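import Pool.Agent.Helper78.W3.StD

/-!
# Levels `5·3^n`: rows of Hecke operators and multipliers of the relations (first part)

The term `(k, a, b, c, d)` is `k` times the operator of `(a 3b; 3c d)`. The nine plane functions are the paths `-1 → ∞`, `-1 → -3/5`, `-3/5 → -1/2`, `1/2 → 3/5`, `-2/5 → 0`, `-1/2 → -2/5`, `2/5 → 1/2`, `1 → 7/5`, `8/5 → 2`.
-/

set_option autoImplicit false

namespace Pool.Agent.Helper93.T53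

open Pool.Agent.Helper78.W3 (Tm)

/-- The rows of `T_2`. -/
def T2T : Fin 9 → Fin 9 → List Tm
  | 0, 0 => [(1, 1, 0, 0, 2), (1, 2, 0, 0, 1), (1, 2, 1, 0, 1)]
  | 0, 1 => [(-1, 2, 0, 0, 1)]
  | 0, 2 => [(-1, 2, 0, 0, 1), (-1, 5, 1, -15, -25), (-1, 70, 13, -30, -50)]
  | 0, 3 => [(-1, 5, -1, 15, -25), (-1, 65, -12, -30, 50)]
  | 0, 4 => []
  | 0, 5 => []
  | 0, 6 => []
  | 0, 7 => [(1, 1, -1, 0, 2), (1, 2, -1, 0, 1)]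
  | 0, 8 => [(1, 1, -1, 0, 2), (1, 2, -1, 0, 1)]
  | 1, 0 => [(-1, 10, -2, -5, 10), (1, 10, 8, -5, -35)]
  | 1, 1 => [(1, 10, -2, -5, 10)]
  | 1, 2 => [(1, 10, -2, -5, 10), (-1, 11, 2, -5, -8), (-1, 70, 13, -30, -50), (-1, 76, 14, -35, -58)]
  | 1, 3 => [(1, 17, -3, -10, 16), (-1, 65, -12, -30, 50), (-1, 86, -16, -40, 67)]
  | 1, 4 => [(1, 10, -2, -5, 10)]
  | 1, 5 => [(1, 2, 0, 0, 1), (1, 10, -2, -5, 10)]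
  | 1, 6 => []
  | 1, 7 => [(1, 1, -1, 0, 2), (1, 10, -2, -5, 10)]
  | 1, 8 => [(1, 1, -1, 0, 2), (1, 10, -2, -5, 10)]
  | 2, 0 => [(1, 10, -2, -5, 10), (-1, 10, 8, -5, -35)]
  | 2, 1 => [(-1, 10, -2, -5, 10)]
  | 2, 2 => [(-1, 10, -2, -5, 10), (1, 76, 14, -35, -58)]
  | 2, 3 => [(-1, 10, -2, -5, 10), (-1, 16, -3, -10, 17), (-1, 17, -3, -10, 16), (1, 86, -16, -40, 67)]
  | 2, 4 => [(1, 2, 0, 0, 1), (-1, 10, -2, -5, 10)]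
  | 2, 5 => [(-1, 10, -2, -5, 10)]
  | 2, 6 => [(1, 14, -2, -10, 13)]
  | 2, 7 => [(-1, 10, -2, -5, 10)]
  | 2, 8 => [(-1, 10, -2, -5, 10)]
  | 3, 0 => []
  | 3, 1 => []
  | 3, 2 => [(-1, 16, 3, 10, 17), (-1, 17, 3, 10, 16)]
  | 3, 3 => []
  | 3, 4 => [(1, 10, 2, 5, 10)]
  | 3, 5 => []
  | 3, 6 => []
  | 3, 7 => []
  | 3, 8 => []
  | 4, 0 => []
  | 4, 1 => [(1, 1, 0, 0, 2)]
  | 4, 2 => [(1, 1, 0, 0, 2), (-1, 5, 1, -15, -25), (1, 11, 2, -5, -8)]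
  | 4, 3 => [(1, 10, -2, -5, 10), (1, 16, -3, -10, 17)]
  | 4, 4 => [(1, 1, 0, 0, 2)]
  | 4, 5 => [(1, 1, 0, 0, 2)]
  | 4, 6 => [(1, 13, -2, -10, 14)]
  | 4, 7 => [(-1, 5, -2, -5, 20)]
  | 4, 8 => [(-1, 5, -2, -5, 20)]
  | 5, 0 => []
  | 5, 1 => []
  | 5, 2 => []
  | 5, 3 => []
  | 5, 4 => []
  | 5, 5 => []
  | 5, 6 => [(-1, 13, -2, -10, 14), (-1, 14, -2, -10, 13)]
  | 5, 7 => [(1, 2, -1, 0, 1), (1, 5, -2, -5, 20)]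
  | 5, 8 => [(1, 5, -2, -5, 20)]
  | 6, 0 => []
  | 6, 1 => []
  | 6, 2 => []
  | 6, 3 => []
  | 6, 4 => []
  | 6, 5 => [(1, 10, 1, 10, 10), (1, 10, 2, 5, 10)]
  | 6, 6 => []
  | 6, 7 => [(1, 5, -3, 5, -25)]
  | 6, 8 => []
  | 7, 0 => [(1, 2, 0, 0, 1), (-1, 2, 2, 0, 1)]
  | 7, 1 => [(1, 1, 1, 0, 2), (-1, 2, 0, 0, 1), (1, 10, 2, 5, 10), (-1, 20, 2, 5, 5)]
  | 7, 2 => [(1, 1, 1, 0, 2), (-1, 2, 0, 0, 1), (-1, 20, 2, 5, 5), (1, 130, 24, 15, 25)]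
  | 7, 3 => [(-1, 40, -9, 10, -20), (1, 140, -26, 15, -25)]
  | 7, 4 => [(1, 1, 1, 0, 2), (-1, 2, 0, 0, 1)]
  | 7, 5 => [(1, 1, 1, 0, 2), (-1, 2, 0, 0, 1), (-1, 20, 2, 5, 5)]
  | 7, 6 => [(-1, 2, 0, 0, 1), (-1, 19, -3, 5, -7)]
  | 7, 7 => [(-1, 2, 0, 0, 1)]
  | 7, 8 => [(-1, 2, 0, 0, 1)]
  | 8, 0 => [(1, 1, 1, 0, 2), (-1, 1, 2, 0, 2), (-1, 25, -3, 5, -5), (1, 25, 22, 5, 40)]
  | 8, 1 => [(-1, 1, 1, 0, 2), (1, 25, -3, 5, -5)]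
  | 8, 2 => [(-1, 1, 1, 0, 2), (1, 2, 1, 0, 1), (1, 25, -3, 5, -5), (-1, 50, 11, 10, 20), (1, 200, 37, 30, 50), (-1, 244, 45, 50, 83)]
  | 8, 3 => [(1, 205, -38, 30, -50), (-1, 269, -50, 55, -92)]
  | 8, 4 => [(-1, 1, 1, 0, 2), (1, 25, -3, 5, -5)]
  | 8, 5 => [(-1, 1, 1, 0, 2), (1, 20, 2, 5, 5), (1, 25, -3, 5, -5)]
  | 8, 6 => []
  | 8, 7 => [(-1, 1, 1, 0, 2), (1, 25, -3, 5, -5)]
  | 8, 8 => [(-1, 1, 1, 0, 2), (1, 25, -3, 5, -5)]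

/-- The rows of `T_7`. -/
def T7T : Fin 9 → Fin 9 → List Tm
  | 0, 0 => [(1, 1, -2, 0, 7), (1, 7, -1, 0, 1), (1, 7, 0, 0, 1), (1, 7, 1, 0, 1), (1, 7, 2, 0, 1), (1, 7, 3, 0, 1), (1, 7, 4, 0, 1), (1, 7, 5, 0, 1)]
  | 0, 1 => [(-1, 7, -1, 0, 1), (-1, 7, 0, 0, 1), (-1, 7, 1, 0, 1), (1, 16, 3, -5, -8), (1, 20, 3, -5, -5)]
  | 0, 2 => [(-1, 7, -1, 0, 1), (-1, 7, 0, 0, 1), (-1, 10, 3, -5, -10), (1, 16, 3, -5, -8), (1, 20, 3, -5, -5), (-1, 50, 9, 15, 25), (-1, 185, 34, 15, 25)]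
  | 0, 3 => [(1, 17, -4, -5, 11), (1, 35, -7, -5, 10), (1, 47, -9, -15, 26), (-1, 85, -16, 15, -25), (-1, 220, -41, 15, -25)]
  | 0, 4 => [(-1, 7, -1, 0, 1), (-1, 7, 0, 0, 1), (-1, 10, 3, -5, -10)]
  | 0, 5 => [(-1, 7, -1, 0, 1), (-1, 7, 0, 0, 1), (-1, 10, 3, -5, -10), (1, 20, 3, -5, -5)]
  | 0, 6 => [(-1, 13, -1, -5, 4), (-1, 43, -6, -15, 19)]
  | 0, 7 => [(1, 7, -3, 0, 1), (1, 7, -2, 0, 1)]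
  | 0, 8 => [(-1, 5, -2, -5, 25), (1, 7, -3, 0, 1), (1, 7, -2, 0, 1), (-1, 14, -7, -5, 23)]
  | 1, 0 => [(1, 1, -2, 0, 7), (-1, 1, -1, 0, 7), (-1, 10, -7, -5, 35), (1, 10, 3, -5, -10)]
  | 1, 1 => [(1, 8, 3, -5, -16), (1, 10, -7, -5, 35), (-1, 10, 3, -5, -10), (1, 16, 3, -5, -8), (1, 20, 3, -5, -5)]
  | 1, 2 => [(1, 7, 1, 0, 1), (1, 10, -7, -5, 35), (-1, 10, 3, -5, -10), (1, 20, 3, -5, -5), (1, 35, 7, -20, -35), (-1, 37, 6, -20, -29), (-1, 82, 15, -45, -74)]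
  | 1, 3 => [(1, 17, -4, -5, 11), (1, 17, -2, -10, 11), (1, 35, -7, -5, 10), (1, 47, -9, -15, 26), (1, 62, -11, -35, 56)]
  | 1, 4 => [(1, 10, -7, -5, 35), (-1, 10, 3, -5, -10), (1, 35, 7, -20, -35)]
  | 1, 5 => [(1, 10, -7, -5, 35), (-1, 10, 3, -5, -10), (1, 35, 7, -20, -35)]
  | 1, 6 => [(-1, 13, -1, -5, 4), (1, 17, -2, -10, 11), (-1, 43, -6, -15, 19)]
  | 1, 7 => [(1, 25, -9, -15, 50)]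
  | 1, 8 => [(-1, 14, -7, -5, 23)]
  | 2, 0 => [(1, 7, 0, -5, 1), (-1, 7, 7, -5, -44), (1, 10, -7, -5, 35), (-1, 10, 3, -5, -10)]
  | 2, 1 => [(1, 1, -1, 0, 7), (1, 5, 3, -5, -20), (-1, 7, 0, -5, 1), (-1, 8, 3, -5, -16), (-1, 10, -7, -5, 35)]
  | 2, 2 => [(1, 1, -1, 0, 7), (1, 5, 3, -5, -20), (-1, 7, 0, -5, 1), (-1, 10, -7, -5, 35), (1, 29, 6, -20, -37), (-1, 35, 7, -20, -35), (1, 37, 6, -20, -29), (1, 59, 11, -40, -67), (1, 82, 15, -45, -74), (1, 155, 29, -110, -185), (1, 455, 84, -310, -515)]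
  | 2, 3 => [(-1, 17, -2, -10, 11), (1, 49, -9, -35, 58), (-1, 62, -11, -35, 56), (1, 115, -21, -85, 140), (1, 490, -91, -335, 560)]
  | 2, 4 => [(-1, 7, 0, -5, 1), (-1, 10, -7, -5, 35), (-1, 35, 7, -20, -35)]
  | 2, 5 => [(1, 5, 3, -5, -20), (-1, 7, 0, -5, 1), (-1, 10, -7, -5, 35), (-1, 35, 7, -20, -35), (1, 80, 13, -55, -80)]
  | 2, 6 => [(-1, 17, -2, -10, 11)]
  | 2, 7 => [(-1, 7, 0, -5, 1), (-1, 8, -5, -5, 29), (-1, 25, -9, -15, 50)]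
  | 2, 8 => [(-1, 7, 0, -5, 1), (-1, 8, -5, -5, 29), (-1, 10, -7, -5, 35)]
  | 3, 0 => [(1, 1, 1, 0, 7), (-1, 1, 2, 0, 7), (1, 5, -3, 5, -20), (-1, 5, 2, 5, 25), (1, 7, -1, 0, 1), (-1, 7, 6, 0, 1)]
  | 3, 1 => [(-1, 1, 1, 0, 7), (-1, 5, -3, 5, -20), (-1, 7, -1, 0, 1), (1, 7, 0, 5, 1), (1, 10, 3, -5, -10), (1, 10, 7, 5, 35), (1, 22, 5, 15, 31), (1, 28, 7, 15, 34), (1, 50, 11, 35, 70)]
  | 3, 2 => [(-1, 1, 1, 0, 7), (-1, 5, -3, 5, -20), (-1, 7, -1, 0, 1), (1, 7, 0, 5, 1), (1, 10, 7, 5, 35), (1, 16, 3, -5, -8), (-1, 17, 2, 10, 11), (-1, 62, 11, 35, 56), (1, 115, 21, 85, 140), (1, 200, 37, 105, 175), (1, 320, 59, 15, 25)]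
  | 3, 3 => [(-1, 7, -1, 0, 1), (1, 11, -2, -10, 17), (1, 29, -6, 20, -37), (-1, 35, -7, 20, -35), (1, 37, -6, 20, -29), (1, 82, -15, 45, -74), (1, 155, -29, 110, -185), (1, 205, -38, 105, -175), (1, 355, -66, 15, -25)]
  | 3, 4 => [(-1, 1, 1, 0, 7), (-1, 5, -3, 5, -20), (-1, 7, -1, 0, 1), (1, 7, 0, 5, 1), (1, 10, 7, 5, 35), (1, 25, 2, 5, 5), (1, 55, 7, 30, 35)]
  | 3, 5 => [(-1, 1, 1, 0, 7), (-1, 5, -3, 5, -20), (-1, 7, -1, 0, 1), (1, 7, 0, 5, 1), (1, 10, 7, 5, 35), (1, 70, 11, 35, 50)]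
  | 3, 6 => [(-1, 1, 1, 0, 7), (-1, 5, -3, 5, -20), (-1, 7, -1, 0, 1), (-1, 31, -4, 20, -23), (1, 49, -7, 25, -32), (-1, 61, -9, 40, -53)]
  | 3, 7 => [(-1, 1, 1, 0, 7), (-1, 5, -3, 5, -20), (-1, 7, -1, 0, 1), (-1, 8, -3, 5, -16)]
  | 3, 8 => [(-1, 1, 1, 0, 7), (-1, 5, -3, 5, -20), (-1, 7, -1, 0, 1), (-1, 8, -3, 5, -16), (1, 10, -3, 5, -10), (-1, 25, -16, 15, -85)]
  | 4, 0 => [(1, 1, -1, 0, 7), (-1, 1, 0, 0, 7), (-1, 5, 3, -5, -20), (1, 5, 8, -5, -65)]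
  | 4, 1 => [(-1, 1, -1, 0, 7), (1, 1, 0, 0, 7), (1, 5, 1, 10, 25)]
  | 4, 2 => [(-1, 1, -1, 0, 7), (1, 1, 0, 0, 7), (-1, 5, 1, -40, -65), (-1, 5, 1, -15, -20), (1, 11, 2, 10, 17), (-1, 26, 5, -25, -43), (-1, 40, 9, -35, -70), (-1, 100, 19, -85, -145), (-1, 146, 27, -125, -208)]
  | 4, 3 => [(-1, 1, 0, -5, 7), (1, 5, -1, 15, -20), (1, 5, -1, 40, -65), (-1, 11, -2, -10, 17), (1, 16, -3, 5, -8), (-1, 35, -6, -35, 55), (-1, 151, -28, -130, 217)]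
  | 4, 4 => [(-1, 1, -1, 0, 7), (1, 1, 0, 0, 7), (1, 1, 0, 5, 7), (1, 7, 0, -5, 1), (1, 20, 1, -15, -5)]
  | 4, 5 => [(-1, 1, -1, 0, 7), (1, 1, 0, 0, 7), (1, 1, 0, 5, 7), (-1, 5, 1, -15, -20), (1, 20, 1, -15, -5), (1, 20, 3, -5, -5), (1, 80, 11, -65, -80)]
  | 4, 6 => [(-1, 1, 0, -5, 7)]
  | 4, 7 => [(1, 5, -3, 5, -20), (-1, 5, -2, -5, 25), (1, 5, 3, -5, -20), (1, 7, -3, 0, 1), (-1, 17, -7, -15, 56)]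
  | 4, 8 => [(1, 5, -3, 5, -20), (-1, 5, -2, -5, 25), (1, 5, 3, -5, -20)]
  | 5, 0 => [(1, 5, 3, -5, -20), (-1, 5, 8, -5, -65), (-1, 7, 0, -5, 1), (1, 7, 7, -5, -44)]
  | 5, 1 => [(-1, 5, 3, -5, -20), (1, 7, 0, -5, 1)]
  | 5, 2 => [(-1, 5, 3, -5, -20), (1, 7, 0, -5, 1), (1, 26, 5, -25, -43), (-1, 29, 6, -20, -37), (1, 40, 9, -35, -70), (-1, 59, 11, -40, -67), (1, 100, 19, -85, -145), (1, 146, 27, -125, -208), (-1, 155, 29, -110, -185), (-1, 455, 84, -310, -515)]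
  | 5, 3 => [(1, 1, 0, -5, 7), (1, 35, -6, -35, 55), (-1, 49, -9, -35, 58), (-1, 115, -21, -85, 140), (1, 151, -28, -130, 217), (-1, 490, -91, -335, 560)]
  | 5, 4 => [(1, 1, -1, 0, 7), (-1, 20, 1, -15, -5)]
  | 5, 5 => [(1, 1, -1, 0, 7), (1, 5, 1, -15, -20), (-1, 5, 3, -5, -20), (1, 7, 0, -5, 1), (1, 7, 1, 0, 1), (-1, 20, 1, -15, -5), (-1, 80, 11, -65, -80), (-1, 80, 13, -55, -80)]
  | 5, 6 => []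
  | 5, 7 => [(-1, 5, 3, -5, -20), (1, 7, 0, -5, 1), (1, 8, -5, -5, 29), (1, 17, -7, -15, 56)]
  | 5, 8 => [(-1, 5, 3, -5, -20), (1, 7, 0, -5, 1), (1, 8, -5, -5, 29), (1, 10, -7, -5, 35)]
  | 6, 0 => []
  | 6, 1 => [(1, 5, -3, 5, -20), (-1, 7, 0, 5, 1), (1, 11, 2, 10, 17), (-1, 22, 5, 15, 31), (1, 35, 7, 30, 55), (-1, 50, 11, 35, 70)]
  | 6, 2 => [(1, 1, 0, 5, 7), (1, 5, -3, 5, -20), (-1, 7, 0, 5, 1), (1, 35, 6, 35, 55), (-1, 49, 9, 35, 58), (-1, 115, 21, 85, 140)]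
  | 6, 3 => [(1, 26, -5, 25, -43), (-1, 29, -6, 20, -37), (1, 40, -9, 35, -70), (-1, 59, -11, 40, -67), (1, 100, -19, 85, -145), (-1, 155, -29, 110, -185)]
  | 6, 4 => [(1, 5, -3, 5, -20), (-1, 7, 0, 5, 1)]
  | 6, 5 => [(1, 5, -3, 5, -20), (-1, 7, 0, 5, 1)]
  | 6, 6 => [(1, 1, 1, 0, 7), (1, 5, -3, 5, -20), (-1, 20, -1, 15, -5), (1, 23, -4, 20, -31), (1, 31, -4, 20, -23), (1, 61, -9, 40, -53)]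
  | 6, 7 => [(1, 8, -3, 5, -16), (1, 10, -3, 5, -10)]
  | 6, 8 => [(1, 8, -3, 5, -16), (-1, 25, -12, 20, -85)]
  | 7, 0 => [(1, 1, 3, 0, 7), (-1, 1, 4, 0, 7), (1, 10, -3, 5, -10), (-1, 10, 7, 5, 35), (-1, 20, -3, 5, -5), (1, 20, 17, 5, 40)]
  | 7, 1 => [(-1, 10, -3, 5, -10), (1, 65, 19, 15, 40)]
  | 7, 2 => [(-1, 10, -3, 5, -10), (-1, 17, 4, 5, 11), (1, 43, 9, 10, 19), (-1, 47, 9, 15, 26), (1, 49, 9, 35, 58), (-1, 50, 9, 15, 25), (1, 65, 19, 15, 40), (-1, 179, 33, 50, 83), (1, 275, 54, 65, 115), (-1, 335, 62, 105, 175), (1, 361, 67, 85, 142), (1, 470, 87, 105, 175)]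
  | 7, 3 => [(-1, 10, -3, 5, -10), (-1, 16, -3, 5, -8), (1, 59, -11, 40, -67), (1, 85, -12, 20, -25), (-1, 199, -37, 55, -92), (-1, 340, -63, 105, -175), (1, 341, -63, 80, -133), (1, 475, -88, 105, -175)]
  | 7, 4 => [(1, 7, 1, 0, 1), (-1, 10, -3, 5, -10), (1, 25, 1, 10, 5), (-1, 62, 5, 15, 11)]
  | 7, 5 => [(-1, 10, -3, 5, -10), (-1, 50, 9, 15, 25), (-1, 125, 19, 40, 55), (-1, 145, 16, 35, 35), (-1, 355, 51, 85, 110)]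
  | 7, 6 => [(-1, 16, -3, 5, -8)]
  | 7, 7 => [(1, 1, 2, 0, 7), (-1, 1, 3, 0, 7), (-1, 10, -3, 5, -10), (1, 14, -7, 5, -22), (-1, 20, -23, 5, -50), (1, 20, -3, 5, -5), (1, 22, -7, 5, -14)]
  | 7, 8 => [(1, 1, 2, 0, 7), (-1, 1, 3, 0, 7), (-1, 10, -3, 5, -10), (-1, 20, -23, 5, -50), (1, 20, -3, 5, -5)]
  | 8, 0 => [(1, 1, 4, 0, 7), (-1, 1, 5, 0, 7), (-1, 25, 2, 5, 5), (1, 25, 27, 5, 50)]
  | 8, 1 => [(-1, 29, 5, 5, 8), (1, 95, 13, 20, 25)]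
  | 8, 2 => [(-1, 29, 5, 5, 8), (1, 95, 13, 20, 25)]
  | 8, 3 => [(-1, 28, -7, 5, -11), (1, 47, -10, 10, -19), (1, 70, -21, 15, -40), (-1, 85, -16, 15, -25), (-1, 88, -17, 15, -26), (1, 310, -61, 65, -115)]
  | 8, 4 => [(1, 35, 7, 5, 10), (-1, 49, 7, 10, 13)]
  | 8, 5 => [(1, 35, 7, 5, 10), (1, 95, 13, 20, 25)]
  | 8, 6 => [(1, 32, -3, 5, -4), (1, 47, -10, 10, -19), (1, 92, -13, 15, -19), (1, 167, -26, 35, -49)]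
  | 8, 7 => []
  | 8, 8 => [(1, 31, -16, 5, -23), (-1, 145, -78, 30, -145)]

/-- The rows of `T_11`. -/
def T11T : Fin 9 → Fin 9 → List Tm
  | 0, 0 => [(1, 1, -3, 0, 11), (1, 11, -2, 0, 1), (1, 11, -1, 0, 1), (1, 11, 0, 0, 1), (1, 11, 1, 0, 1), (1, 11, 2, 0, 1), (1, 11, 3, 0, 1), (1, 11, 4, 0, 1), (1, 11, 5, 0, 1), (1, 11, 6, 0, 1), (1, 11, 7, 0, 1), (1, 11, 8, 0, 1), (-1, 14, -1, -5, 4), (1, 14, 13, -5, -41)]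
  | 0, 1 => [(-1, 11, -2, 0, 1), (-1, 11, -1, 0, 1), (-1, 11, 0, 0, 1), (-1, 11, 1, 0, 1), (-1, 11, 2, 0, 1), (-1, 13, 4, -5, -13), (1, 14, -1, -5, 4), (1, 35, 9, -5, -10)]
  | 0, 2 => [(-1, 10, 1, 5, 10), (-1, 11, -2, 0, 1), (-1, 11, -1, 0, 1), (-1, 11, 0, 0, 1), (-1, 11, 1, 0, 1), (-1, 13, 4, -5, -13), (1, 14, -1, -5, 4), (1, 25, 4, -5, -5), (1, 38, 7, -5, -8), (-1, 40, 7, 15, 25), (-1, 43, 9, -15, -28), (-1, 55, 11, -20, -35), (-1, 73, 14, -25, -43), (-1, 175, 32, 15, 25), (-1, 175, 33, -65, -110), (-1, 310, 57, 15, 25), (-1, 475, 88, -165, -275), (-1, 775, 143, -265, -440)]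
  | 0, 3 => [(-1, 7, -1, -5, 8), (-1, 8, -1, -5, 7), (-1, 40, -7, -15, 25), (1, 43, -8, -10, 17), (-1, 95, -18, 15, -25), (-1, 95, -17, -40, 65), (-1, 230, -43, 15, -25), (-1, 365, -68, 15, -25), (-1, 470, -87, -165, 275), (-1, 845, -157, -290, 485)]
  | 0, 4 => [(-1, 11, -2, 0, 1), (-1, 11, -1, 0, 1), (-1, 11, 0, 0, 1), (1, 14, -1, -5, 4), (1, 17, 1, -5, -2), (1, 20, -1, -5, 5)]
  | 0, 5 => [(-1, 11, -2, 0, 1), (-1, 11, -1, 0, 1), (-1, 11, 0, 0, 1), (-1, 11, 1, 0, 1), (1, 14, -1, -5, 4), (1, 25, 4, -5, -5), (-1, 55, 11, -20, -35), (-1, 130, 21, -45, -65), (-1, 205, 31, -70, -95)]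
  | 0, 6 => [(-1, 11, -2, 0, 1)]
  | 0, 7 => [(1, 1, -4, 0, 11), (-1, 5, -1, -5, 20), (-1, 10, -1, -5, 10), (1, 11, -4, 0, 1), (1, 11, -3, 0, 1), (1, 14, -1, -5, 4), (1, 16, -9, -5, 26)]
  | 0, 8 => [(1, 1, -4, 0, 11), (-1, 5, -4, 5, -25), (1, 11, -5, 0, 1), (1, 11, -4, 0, 1), (1, 11, -3, 0, 1), (1, 14, -1, -5, 4), (1, 16, -9, -5, 26)]
  | 1, 0 => [(1, 1, -3, 0, 11), (-1, 1, -2, 0, 11), (1, 8, -1, -5, 7), (-1, 8, 7, -5, -38), (-1, 10, -11, -5, 55), (1, 10, 9, -5, -35), (-1, 14, -1, -5, 4), (1, 14, 13, -5, -41), (-1, 55, -11, -30, 55), (1, 55, 44, -30, -215)]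
  | 1, 1 => [(1, 1, -2, 0, 11), (1, 5, 2, -10, -25), (-1, 8, -1, -5, 7), (1, 10, -11, -5, 55), (-1, 13, 4, -5, -13), (1, 14, -1, -5, 4), (1, 35, 11, -20, -55), (1, 55, -11, -30, 55)]
  | 1, 2 => [(-1, 8, -1, -5, 7), (1, 10, -11, -5, 55), (-1, 13, 4, -5, -13), (1, 14, -1, -5, 4), (1, 35, 11, -20, -55), (-1, 43, 9, -15, -28), (-1, 46, 7, -25, -34), (1, 55, -11, -30, 55), (-1, 55, 11, -20, -35), (-1, 73, 14, -25, -43), (-1, 91, 16, -50, -79), (-1, 103, 19, -35, -58), (-1, 136, 25, -75, -124), (-1, 175, 33, -65, -110), (1, 385, 71, -220, -365), (-1, 418, 77, -225, -373), (-1, 475, 88, -165, -275), (-1, 775, 143, -265, -440)]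
  | 1, 3 => [(-1, 8, -1, -5, 7), (1, 26, -3, -15, 16), (-1, 40, -7, -15, 25), (1, 71, -12, -40, 61), (-1, 95, -17, -40, 65), (-1, 110, -21, -55, 95), (-1, 113, -21, -40, 67), (1, 116, -21, -65, 106), (1, 425, -79, -245, 410), (-1, 470, -87, -165, 275), (-1, 473, -88, -255, 427), (-1, 845, -157, -290, 485)]
  | 1, 4 => [(-1, 8, -1, -5, 7), (1, 10, -11, -5, 55), (-1, 11, 0, -5, 1), (1, 14, -1, -5, 4), (1, 17, 1, -5, -2), (1, 20, -1, -5, 5), (-1, 25, 2, -10, -5), (1, 35, 11, -20, -55), (1, 55, -11, -30, 55), (1, 80, 11, -45, -55)]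
  | 1, 5 => [(-1, 8, -1, -5, 7), (1, 10, -11, -5, 55), (1, 14, -1, -5, 4), (1, 35, 11, -20, -55), (1, 55, -11, -30, 55), (-1, 55, 11, -20, -35), (-1, 130, 21, -45, -65), (-1, 205, 31, -70, -95)]
  | 1, 6 => [(-1, 8, -1, -5, 7), (1, 26, -3, -15, 16)]
  | 1, 7 => [(1, 1, -4, 0, 11), (-1, 8, -1, -5, 7), (1, 14, -1, -5, 4), (1, 16, -9, -5, 26), (1, 25, -7, -15, 40), (1, 55, -11, -30, 55)]
  | 1, 8 => [(1, 1, -4, 0, 11), (1, 5, -1, -5, 20), (-1, 8, -1, -5, 7), (1, 10, -1, -5, 10), (1, 14, -1, -5, 4), (1, 16, -9, -5, 26), (1, 17, -8, -10, 43), (1, 55, -11, -30, 55)]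
  | 2, 0 => [(-1, 8, -1, -5, 7), (1, 8, 7, -5, -38), (1, 10, -11, -5, 55), (-1, 10, -1, -5, 10), (-1, 25, -7, -15, 40), (1, 25, 18, -15, -95), (1, 55, -11, -30, 55), (-1, 55, 44, -30, -215)]
  | 2, 1 => [(1, 5, 4, -5, -25), (-1, 10, -11, -5, 55), (-1, 23, 4, -15, -23), (1, 25, -7, -15, 40), (-1, 35, 11, -20, -55), (-1, 38, 9, -25, -53), (-1, 55, -11, -30, 55), (-1, 85, 19, -55, -110)]
  | 2, 2 => [(1, 1, -2, 0, 11), (1, 5, 4, -5, -25), (-1, 10, -11, -5, 55), (-1, 23, 4, -15, -23), (1, 25, -7, -15, 40), (1, 25, 4, -5, -5), (-1, 35, 11, -20, -55), (1, 46, 7, -25, -34), (-1, 55, -11, -30, 55), (-1, 71, 13, -45, -74), (1, 91, 16, -50, -79), (-1, 320, 59, -205, -340), (-1, 385, 71, -220, -365), (1, 418, 77, -225, -373)]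
  | 2, 3 => [(-1, 26, -3, -15, 16), (-1, 31, -7, -20, 41), (-1, 55, -11, -30, 55), (-1, 61, -12, -40, 71), (-1, 71, -12, -40, 61), (-1, 91, -17, -60, 101), (1, 110, -21, -55, 95), (-1, 116, -21, -65, 106), (-1, 161, -30, -90, 151), (-1, 355, -66, -230, 385), (-1, 425, -79, -245, 410), (1, 473, -88, -255, 427)]
  | 2, 4 => [(1, 1, -2, 0, 11), (1, 5, 4, -5, -25), (-1, 10, -11, -5, 55), (1, 11, 0, -5, 1), (1, 25, -7, -15, 40), (-1, 35, 11, -20, -55), (-1, 55, -11, -30, 55), (-1, 80, 11, -45, -55)]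
  | 2, 5 => [(1, 1, -2, 0, 11), (1, 5, 4, -5, -25), (-1, 10, -11, -5, 55), (1, 25, -7, -15, 40), (-1, 35, 11, -20, -55), (-1, 55, -11, -30, 55)]
  | 2, 6 => [(1, 1, -2, 0, 11), (1, 25, -7, -15, 40), (-1, 26, -3, -15, 16), (1, 29, -3, -20, 19), (1, 59, -8, -40, 49), (1, 89, -13, -60, 79)]
  | 2, 7 => [(1, 7, -1, -5, 8), (1, 8, -1, -5, 7), (1, 20, -7, -15, 50), (-1, 55, -11, -30, 55)]
  | 2, 8 => [(1, 7, -1, -5, 8), (1, 8, -1, -5, 7), (-1, 17, -8, -10, 43), (1, 22, -11, -15, 68), (1, 25, -7, -15, 40), (-1, 55, -11, -30, 55)]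
  | 3, 0 => [(1, 1, 2, 0, 11), (-1, 1, 3, 0, 11), (1, 5, -4, 5, -25), (-1, 5, 1, 5, 20), (-1, 8, 1, 5, 7), (1, 8, 9, 5, 52), (-1, 35, -11, 20, -55), (1, 35, 24, 20, 125)]
  | 3, 1 => [(-1, 1, 2, 0, 11), (-1, 5, -4, 5, -25), (1, 10, 11, 5, 55), (1, 19, 6, 10, 29), (-1, 25, 7, 15, 40), (1, 35, -11, 20, -55)]
  | 3, 2 => [(-1, 1, 2, 0, 11), (-1, 5, -4, 5, -25), (1, 10, 11, 5, 55), (-1, 25, 7, 15, 40), (-1, 26, 3, 15, 16), (-1, 31, 7, 20, 41), (1, 35, -11, 20, -55), (1, 43, 8, 10, 17), (-1, 61, 12, 40, 71), (-1, 71, 12, 40, 61), (-1, 91, 17, 60, 101), (1, 110, 21, 55, 95), (-1, 116, 21, 65, 106), (-1, 157, 29, 95, 158), (-1, 158, 29, 95, 157), (1, 335, 62, 165, 275), (-1, 355, 66, 230, 385), (-1, 655, 121, 430, 715)]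
  | 3, 3 => [(-1, 23, -4, 15, -23), (1, 25, -4, 5, -5), (1, 38, -7, 5, -8), (1, 46, -7, 25, -34), (-1, 71, -13, 45, -74), (1, 91, -16, 50, -79), (1, 136, -25, 75, -124), (-1, 167, -31, 100, -167), (-1, 193, -36, 115, -193), (-1, 320, -59, 205, -340), (1, 340, -63, 165, -275), (-1, 695, -129, 455, -760)]
  | 3, 4 => [(-1, 5, -4, 5, -25), (1, 10, 11, 5, 55), (1, 35, -11, 20, -55), (1, 50, 3, 35, 20), (1, 55, 11, 30, 55), (1, 100, 11, 55, 55)]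
  | 3, 5 => [(-1, 5, -4, 5, -25), (1, 10, 11, 5, 55), (1, 11, 2, 0, 1), (-1, 25, 7, 15, 40), (1, 35, -11, 20, -55), (1, 50, 7, 15, 20), (1, 55, 11, 30, 55), (-1, 100, 17, 65, 100), (1, 115, 18, 60, 85), (-1, 175, 27, 115, 160)]
  | 3, 6 => [(1, 25, -2, 10, -5), (1, 46, -7, 25, -34)]
  | 3, 7 => [(-1, 1, 2, 0, 11), (-1, 5, -4, 5, -25), (1, 7, -6, 5, -37), (1, 8, 1, 5, 7), (1, 10, 1, 5, 10), (-1, 17, -9, 10, -47), (1, 22, -11, 15, -67), (1, 35, -11, 20, -55)]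
  | 3, 8 => [(-1, 1, 2, 0, 11), (-1, 5, -4, 5, -25), (1, 7, -6, 5, -37), (1, 8, 1, 5, 7), (1, 10, 1, 5, 10), (1, 20, -13, 15, -85), (-1, 25, -18, 15, -95), (1, 35, -11, 20, -55)]
  | 4, 0 => [(1, 1, -1, 0, 11), (-1, 1, 0, -5, 11), (-1, 1, 0, 0, 11), (1, 1, 1, -5, -34), (-1, 5, 4, -5, -25), (1, 5, 9, -5, -70), (1, 7, -1, -5, 8), (-1, 7, 6, -5, -37)]
  | 4, 1 => [(1, 1, 0, -5, 11), (1, 1, 0, 0, 11), (1, 5, 1, 5, 20), (-1, 5, 2, -10, -25), (-1, 7, -1, -5, 8), (1, 13, 2, -10, -13), (1, 25, 1, -20, -5), (1, 55, 11, -45, -80)]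
  | 4, 2 => [(1, 1, 0, -5, 11), (1, 1, 0, 0, 11), (1, 1, 0, 5, 11), (-1, 5, 1, -70, -115), (-1, 5, 1, -45, -70), (-1, 5, 1, -20, -25), (-1, 7, -1, -5, 8), (1, 11, 2, 0, 1), (1, 13, 2, -10, -13), (1, 23, 4, -15, -23), (1, 25, 1, -20, -5), (1, 38, 7, -5, -8), (-1, 65, 12, -160, -265), (1, 320, 59, -205, -340)]
  | 4, 3 => [(1, 5, -1, 20, -25), (1, 5, -1, 45, -70), (1, 5, -1, 70, -115), (-1, 7, -1, -5, 8), (1, 19, -4, -15, 29), (1, 20, -7, -15, 50), (1, 43, -8, -10, 17), (1, 58, -11, -45, 77), (-1, 70, -13, -185, 310), (1, 80, -17, -65, 125), (1, 140, -27, -115, 200), (1, 355, -66, -230, 385)]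
  | 4, 4 => [(1, 1, 0, -5, 11), (1, 1, 0, 0, 11), (1, 1, 0, 5, 11), (1, 1, 0, 10, 11), (-1, 7, -1, -5, 8), (-1, 23, 3, -20, -23), (1, 25, 1, -20, -5), (1, 25, 2, -10, -5)]
  | 4, 5 => [(1, 1, 0, -5, 11), (1, 1, 0, 0, 11), (1, 1, 0, 5, 11), (-1, 5, 1, -20, -25), (-1, 7, -1, -5, 8), (1, 25, 1, -20, -5)]
  | 4, 6 => [(-1, 7, -1, -5, 8), (1, 10, -1, -5, 10), (1, 13, -2, 10, -13), (1, 19, -4, -15, 29), (1, 49, -8, -40, 59), (1, 79, -12, -65, 89)]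
  | 4, 7 => [(1, 1, 0, -5, 11), (1, 2, -1, 5, -17), (-1, 4, -1, -5, 14), (-1, 5, -1, -5, 20), (-1, 7, -1, -5, 8), (-1, 35, -16, -30, 125)]
  | 4, 8 => [(1, 1, 0, -5, 11), (1, 5, -3, 15, -70), (-1, 5, -1, -5, 20), (-1, 7, -1, -5, 8), (-1, 35, -16, -30, 125), (-1, 65, -36, -55, 275)]
  | 5, 0 => [(1, 1, -2, 0, 11), (-1, 1, -1, 0, 11), (1, 5, 4, -5, -25), (-1, 5, 9, -5, -70), (-1, 7, -1, -5, 8), (1, 7, 6, -5, -37), (1, 11, -2, 0, 1), (-1, 11, 9, 0, 1), (1, 25, -7, -15, 40), (-1, 25, 18, -15, -95)]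
  | 5, 1 => [(-1, 1, -2, 0, 11), (-1, 5, 4, -5, -25), (1, 7, -1, -5, 8), (1, 8, -1, -5, 7), (1, 10, -1, -5, 10), (-1, 11, -2, 0, 1), (-1, 13, 2, -10, -13), (1, 23, 4, -15, -23), (-1, 25, -7, -15, 40), (-1, 25, 1, -20, -5), (1, 35, 9, -5, -10), (1, 38, 9, -25, -53), (-1, 55, 11, -45, -80), (1, 85, 19, -55, -110)]
  | 5, 2 => [(-1, 1, -2, 0, 11), (-1, 5, 4, -5, -25), (1, 7, -1, -5, 8), (1, 8, -1, -5, 7), (1, 10, -1, -5, 10), (-1, 11, -2, 0, 1), (-1, 13, 2, -10, -13), (-1, 25, -7, -15, 40), (-1, 25, 1, -20, -5), (1, 71, 13, -45, -74), (1, 136, 25, -75, -124), (1, 445, 82, 15, 25)]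
  | 5, 3 => [(-1, 11, -2, 0, 1), (-1, 19, -4, -15, 29), (-1, 20, -7, -15, 50), (1, 31, -7, -20, 41), (1, 55, -11, -30, 55), (-1, 58, -11, -45, 77), (1, 61, -12, -40, 71), (-1, 80, -17, -65, 125), (1, 91, -17, -60, 101), (-1, 140, -27, -115, 200), (1, 161, -30, -90, 151), (1, 500, -93, 15, -25)]
  | 5, 4 => [(-1, 1, -2, 0, 11), (-1, 5, 4, -5, -25), (1, 7, -1, -5, 8), (1, 8, -1, -5, 7), (1, 10, -1, -5, 10), (-1, 11, -2, 0, 1), (1, 20, 1, 5, 5), (1, 23, 3, -20, -23), (-1, 25, -7, -15, 40), (-1, 25, 1, -20, -5)]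
  | 5, 5 => [(-1, 1, -2, 0, 11), (-1, 5, 4, -5, -25), (1, 7, -1, -5, 8), (1, 8, -1, -5, 7), (1, 10, -1, -5, 10), (1, 10, 1, 5, 10), (-1, 11, -2, 0, 1), (-1, 25, -7, -15, 40), (-1, 25, 1, -20, -5)]
  | 5, 6 => [(-1, 1, -2, 0, 11), (-1, 11, -2, 0, 1), (-1, 19, -4, -15, 29), (-1, 25, -7, -15, 40), (-1, 29, -3, -20, 19), (-1, 49, -8, -40, 59), (-1, 59, -8, -40, 49), (-1, 79, -12, -65, 89), (-1, 89, -13, -60, 79)]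
  | 5, 7 => [(1, 4, -1, -5, 14), (-1, 11, -2, 0, 1), (-1, 20, -7, -15, 50), (-1, 25, -7, -15, 40), (1, 35, -16, -30, 125)]
  | 5, 8 => [(-1, 11, -2, 0, 1), (-1, 22, -11, -15, 68), (-1, 25, -7, -15, 40), (1, 35, -16, -30, 125), (1, 65, -36, -55, 275)]
  | 6, 0 => [(1, 8, 1, 5, 7), (-1, 8, 9, 5, 52), (1, 10, 1, 5, 10), (-1, 10, 11, 5, 55), (-1, 25, -1, 20, -5), (1, 25, 24, 20, 175)]
  | 6, 1 => [(1, 1, 2, 0, 11), (1, 5, -4, 5, -25), (-1, 7, 1, 5, 8), (-1, 8, 1, 5, 7), (-1, 10, 1, 5, 10), (-1, 20, 7, 15, 50), (1, 25, -1, 20, -5), (1, 25, 7, 15, 40)]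
  | 6, 2 => [(1, 1, 2, 0, 11), (1, 5, -4, 5, -25), (-1, 7, 1, 5, 8), (-1, 8, 1, 5, 7), (-1, 10, 1, 5, 10), (-1, 19, 4, 15, 29), (-1, 20, 7, 15, 50), (1, 25, -1, 20, -5), (1, 25, 7, 15, 40), (1, 31, 7, 20, 41), (1, 55, 11, 30, 55), (-1, 58, 11, 45, 77), (1, 61, 12, 40, 71), (-1, 80, 17, 65, 125), (1, 91, 17, 60, 101), (-1, 140, 27, 115, 200), (1, 157, 29, 95, 158), (-1, 178, 33, 145, 242), (-1, 200, 37, 165, 275), (-1, 298, 55, 245, 407), (1, 355, 66, 230, 385), (1, 655, 121, 430, 715)]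
  | 6, 3 => [(-1, 13, -2, 10, -13), (1, 71, -13, 45, -74), (1, 167, -31, 100, -167), (-1, 173, -32, 140, -233), (-1, 205, -38, 165, -275), (1, 320, -59, 205, -340), (-1, 323, -60, 265, -443), (1, 695, -129, 455, -760)]
  | 6, 4 => [(1, 5, -4, 5, -25), (-1, 7, 1, 5, 8), (-1, 8, 1, 5, 7), (-1, 10, 1, 5, 10), (1, 11, 0, 10, 1), (1, 25, -1, 20, -5), (1, 40, 3, 35, 25), (-1, 50, 3, 35, 20)]
  | 6, 5 => [(1, 5, -4, 5, -25), (-1, 7, 1, 5, 8), (-1, 10, 1, 5, 10), (1, 25, -1, 20, -5), (1, 25, 4, -5, -5), (1, 25, 7, 15, 40), (1, 40, 3, 35, 25), (1, 100, 13, 85, 100), (1, 100, 17, 65, 100), (1, 160, 23, 135, 175), (1, 175, 27, 115, 160)]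
  | 6, 6 => [(-1, 13, -2, 10, -13)]
  | 6, 7 => [(1, 5, -9, 5, -70), (-1, 7, -6, 5, -37), (-1, 8, 1, 5, 7), (-1, 10, 1, 5, 10), (-1, 22, -11, 15, -67), (1, 25, -1, 20, -5), (1, 35, -19, 30, -145)]
  | 6, 8 => [(1, 1, 1, 0, 11), (1, 5, -9, 5, -70), (-1, 7, -6, 5, -37), (-1, 8, 1, 5, 7), (-1, 10, 1, 5, 10), (-1, 20, -13, 15, -85), (1, 25, -1, 20, -5)]
  | 7, 0 => [(1, 1, 4, 0, 11), (-1, 1, 5, 0, 11), (-1, 20, -19, 5, -40), (1, 20, 1, 5, 5)]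
  | 7, 1 => [(1, 1, 5, 0, 11), (1, 14, 1, 5, 4), (-1, 20, 1, 5, 5), (1, 29, 6, 10, 19), (1, 40, 7, 15, 25), (-1, 83, 17, 20, 37), (-1, 125, 16, 30, 35), (-1, 230, 51, 55, 110)]
  | 7, 2 => [(1, 1, 5, 0, 11), (1, 8, 1, 5, 7), (1, 14, 1, 5, 4), (-1, 20, 1, 5, 5), (1, 95, 17, 40, 65), (-1, 125, 16, 30, 35), (-1, 245, 43, 60, 95), (-1, 268, 49, 65, 107)]
  | 7, 3 => [(1, 13, -4, 5, -13), (1, 43, -9, 15, -28), (1, 73, -14, 25, -43), (-1, 145, -37, 35, -80), (1, 175, -33, 65, -110), (-1, 353, -66, 85, -143), (-1, 355, -72, 85, -155), (-1, 565, -107, 135, -230)]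
  | 7, 4 => [(1, 1, 5, 0, 11), (-1, 20, 1, 5, 5), (1, 43, 8, 10, 17), (-1, 50, 7, 15, 20)]
  | 7, 5 => [(1, 1, 5, 0, 11), (1, 14, 1, 5, 4), (-1, 20, 1, 5, 5), (1, 43, 8, 10, 17), (-1, 50, 7, 15, 20), (-1, 125, 16, 30, 35)]
  | 7, 6 => [(-1, 17, -1, 5, -2), (-1, 20, 1, 5, 5), (-1, 47, -6, 15, -17), (1, 65, 2, 15, 5), (-1, 77, -11, 25, -32), (-1, 104, -19, 25, -41), (-1, 107, -16, 35, -47), (-1, 209, -33, 50, -71)]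
  | 7, 7 => [(-1, 16, -7, 5, -19), (1, 85, -31, 20, -65)]
  | 7, 8 => [(1, 10, -9, 5, -35), (-1, 16, -7, 5, -19), (1, 22, -11, 5, -22), (-1, 35, -22, 10, -55), (1, 85, -31, 20, -65), (1, 190, -101, 45, -215)]
  | 8, 0 => [(1, 1, 6, 0, 11), (-1, 1, 8, 0, 11), (-1, 25, -4, 5, -5), (1, 25, 46, 5, 85), (1, 31, -3, 5, -4), (-1, 31, 28, 5, 41), (-1, 145, -19, 30, -35), (1, 145, 126, 30, 235)]
  | 8, 1 => [(-1, 1, 6, 0, 11), (1, 20, 1, 5, 5), (1, 25, -4, 5, -5), (-1, 26, 9, 5, 16), (-1, 31, -3, 5, -4), (1, 32, 9, 5, 13), (1, 145, -19, 30, -35), (-1, 170, 43, 35, 80)]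
  | 8, 2 => [(-1, 1, 6, 0, 11), (1, 25, -4, 5, -5), (-1, 31, -3, 5, -4), (1, 32, 9, 5, 13), (1, 92, 19, 15, 28), (1, 145, -19, 30, -35), (1, 152, 29, 25, 43), (-1, 170, 43, 35, 80), (1, 410, 77, 65, 110), (-1, 410, 83, 85, 155), (-1, 412, 77, 85, 143), (-1, 650, 123, 135, 230), (-1, 892, 165, 185, 308), (1, 1010, 187, 165, 275), (-1, 1372, 253, 285, 473), (1, 1610, 297, 265, 440)]
  | 8, 3 => [(1, 37, -6, 5, -7), (1, 265, -48, 40, -65), (-1, 295, -52, 60, -95), (-1, 317, -58, 65, -107), (-1, 917, -170, 190, -317), (1, 1015, -188, 165, -275), (-1, 1517, -282, 315, -527), (1, 1765, -328, 290, -485)]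
  | 8, 4 => [(-1, 28, 1, 5, 2), (-1, 31, -3, 5, -4), (1, 70, -3, 15, -5), (1, 145, -19, 30, -35)]
  | 8, 5 => [(-1, 1, 6, 0, 11), (1, 25, -4, 5, -5), (-1, 31, -3, 5, -4), (1, 70, -3, 15, -5), (1, 125, 24, 20, 35), (1, 145, -19, 30, -35), (1, 275, 44, 45, 65), (1, 310, 37, 65, 70), (1, 425, 64, 70, 95), (1, 550, 77, 115, 145)]
  | 8, 6 => [(1, 11, -1, 0, 1), (1, 47, -9, 10, -17)]
  | 8, 7 => [(-1, 1, 7, 0, 11), (1, 11, -4, 0, 1), (1, 23, -12, 5, -23), (1, 25, 21, 5, 40), (-1, 29, -17, 5, -26), (-1, 31, -3, 5, -4), (1, 35, -9, 5, -10), (1, 40, -19, 5, -20), (-1, 49, -17, 10, -31), (-1, 55, -22, 10, -35), (1, 95, -61, 20, -115), (1, 145, -19, 30, -35)]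
  | 8, 8 => [(-1, 1, 7, 0, 11), (1, 25, 21, 5, 40), (-1, 29, -17, 5, -26), (-1, 31, -3, 5, -4), (1, 95, -61, 20, -115), (1, 145, -19, 30, -35)]

/-- The rows of `T_13`. -/
def T13T : Fin 9 → Fin 9 → List Tm
  | 0, 0 => [(1, 1, -4, 0, 13), (1, 13, -2, 0, 1), (1, 13, -1, 0, 1), (1, 13, 0, 0, 1), (1, 13, 1, 0, 1), (1, 13, 2, 0, 1), (1, 13, 3, 0, 1), (1, 13, 4, 0, 1), (1, 13, 5, 0, 1), (1, 13, 6, 0, 1), (1, 13, 7, 0, 1), (1, 13, 8, 0, 1), (1, 13, 9, 0, 1), (1, 13, 10, 0, 1), (1, 20, -3, -5, 10), (-1, 20, 17, -5, -35), (1, 35, -9, -10, 25), (-1, 35, 26, -10, -65)]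
  | 0, 1 => [(-1, 13, -2, 0, 1), (-1, 13, -1, 0, 1), (-1, 13, 0, 0, 1), (-1, 13, 1, 0, 1), (-1, 13, 2, 0, 1), (1, 16, 1, -5, -2), (-1, 20, -3, -5, 10), (1, 25, 7, -5, -10), (1, 31, 6, -10, -17), (-1, 35, -9, -10, 25), (1, 46, 11, -15, -32), (1, 65, 13, -20, -35)]
  | 0, 2 => [(-1, 13, -2, 0, 1), (-1, 13, -1, 0, 1), (-1, 13, 0, 0, 1), (-1, 13, 1, 0, 1), (-1, 13, 2, 0, 1), (1, 16, 1, -5, -2), (-1, 20, -3, -5, 10), (-1, 20, 3, 5, 10), (-1, 35, -9, -10, 25), (-1, 35, 6, 15, 25), (1, 49, 9, -5, -8), (1, 82, 15, -25, -41), (-1, 170, 31, 15, 25), (1, 179, 33, -35, -58), (1, 212, 39, -55, -91), (1, 235, 43, -70, -115), (-1, 305, 56, 15, 25), (-1, 440, 81, 15, 25)]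
  | 0, 3 => [(-1, 4, -1, 5, -8), (1, 17, -5, -5, 14), (-1, 35, -6, -15, 25), (1, 47, -10, -15, 29), (1, 59, -11, -10, 17), (1, 77, -15, -25, 44), (-1, 100, -19, 15, -25), (1, 107, -20, -35, 59), (1, 199, -37, -40, 67), (-1, 235, -44, 15, -25), (1, 247, -46, -65, 109), (1, 305, -57, -95, 160), (-1, 370, -69, 15, -25), (-1, 505, -94, 15, -25)]
  | 0, 4 => [(-1, 5, 2, -5, -5), (-1, 13, -2, 0, 1), (-1, 13, -1, 0, 1), (-1, 13, 0, 0, 1), (1, 16, 1, -5, -2), (-1, 20, -3, -5, 10), (-1, 35, -9, -10, 25), (-1, 55, 8, -20, -25)]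
  | 0, 5 => [(-1, 13, -2, 0, 1), (-1, 13, -1, 0, 1), (-1, 13, 0, 0, 1), (-1, 13, 1, 0, 1), (1, 16, 1, -5, -2), (-1, 20, -3, -5, 10), (-1, 35, -9, -10, 25), (1, 50, 7, -5, -5)]
  | 0, 6 => [(-1, 13, 0, -5, 1), (1, 34, -5, -5, 7), (-1, 35, -9, -10, 25), (-1, 43, -5, -15, 16), (-1, 73, -10, -25, 31), (-1, 103, -15, -35, 46)]
  | 0, 7 => [(-1, 10, -3, -5, 20), (1, 13, -5, 0, 1), (1, 13, -4, 0, 1), (1, 13, -3, 0, 1), (-1, 14, -5, -5, 17), (-1, 20, -3, -5, 10), (-1, 25, -9, -10, 35), (-1, 35, -9, -10, 25)]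
  | 0, 8 => [(-1, 10, -7, 5, -25), (-1, 10, -3, -5, 20), (1, 13, -6, 0, 1), (1, 13, -5, 0, 1), (1, 13, -4, 0, 1), (1, 13, -3, 0, 1), (-1, 14, -5, -5, 17), (-1, 20, -3, -5, 10), (-1, 29, -15, -10, 47), (-1, 35, -9, -10, 25)]
  | 1, 0 => [(1, 1, -4, 0, 13), (-1, 1, -2, 0, 13), (1, 5, -2, 5, -5), (1, 5, 2, -5, -5), (-1, 5, 3, 5, 40), (-1, 5, 7, -5, -50), (1, 8, 1, -5, -4), (-1, 8, 9, -5, -49), (-1, 10, -13, -5, 65), (1, 10, 7, -5, -25), (1, 35, -9, -10, 25), (-1, 35, 26, -10, -65), (-1, 55, -13, -30, 65), (1, 55, 42, -30, -205)]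
  | 1, 1 => [(-1, 5, -2, 5, -5), (-1, 5, 2, -5, -5), (-1, 8, 1, -5, -4), (1, 10, -13, -5, 65), (-1, 11, 2, -5, -7), (1, 13, 3, 0, 1), (1, 16, 1, -5, -2), (1, 17, 6, -10, -31), (1, 31, 6, -10, -17), (-1, 35, -9, -10, 25), (1, 35, 13, -20, -65), (1, 46, 11, -15, -32), (1, 55, -13, -30, 65), (1, 65, 13, -20, -35)]
  | 1, 2 => [(-1, 5, -2, 5, -5), (-1, 5, 2, -5, -5), (1, 7, 2, -5, -11), (-1, 8, 1, -5, -4), (1, 10, -13, -5, 65), (-1, 11, 2, -5, -7), (1, 11, 2, 50, 83), (1, 16, 1, -5, -2), (-1, 28, 3, -15, -14), (-1, 35, -9, -10, 25), (1, 35, 13, -20, -65), (1, 55, -13, -30, 65), (-1, 73, 12, -40, -59), (1, 82, 15, -25, -41), (-1, 118, 21, -65, -104), (1, 119, 22, -80, -133), (-1, 163, 30, -90, -149), (1, 212, 39, -55, -91), (1, 235, 43, -70, -115), (1, 340, 63, -195, -325), (-1,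 364, 67, -195, -323), (1, 655, 121, -385, -640)]
  | 1, 3 => [(1, 16, -3, 55, -92), (1, 17, -5, -5, 14), (-1, 35, -6, -15, 25), (1, 47, -10, -15, 29), (1, 53, -8, -30, 41), (-1, 65, -13, -30, 55), (1, 77, -15, -25, 44), (1, 98, -17, -55, 86), (1, 107, -20, -35, 59), (1, 124, -23, -85, 142), (1, 143, -26, -80, 131), (1, 247, -46, -65, 109), (1, 305, -57, -95, 160), (1, 335, -62, -195, 325), (-1, 419, -78, -225, 377), (1, 695, -129, -410, 685)]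
  | 1, 4 => [(-1, 5, -2, 5, -5), (-1, 5, 2, -5, -5), (1, 10, -13, -5, 65), (1, 16, 1, -5, -2), (-1, 35, -9, -10, 25), (1, 35, 13, -20, -65), (1, 55, -13, -30, 65), (-1, 55, 8, -20, -25), (1, 80, 13, -45, -65), (1, 125, 13, -70, -65)]
  | 1, 5 => [(-1, 5, -2, 5, -5), (-1, 5, 2, -5, -5), (1, 7, 2, -5, -11), (-1, 8, 1, -5, -4), (1, 10, -13, -5, 65), (1, 16, 1, -5, -2), (-1, 35, -9, -10, 25), (1, 35, 13, -20, -65), (1, 50, 7, -5, -5), (1, 55, -13, -30, 65), (-1, 55, 8, -20, -25), (1, 80, 13, -45, -65), (1, 155, 24, -90, -125)]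
  | 1, 6 => [(1, 1, 0, -10, 13), (-1, 13, 0, -5, 1), (1, 20, -3, -5, 10), (1, 22, -3, -15, 19), (1, 34, -5, -5, 7), (-1, 35, -9, -10, 25), (-1, 43, -5, -15, 16), (-1, 73, -10, -25, 31), (-1, 103, -15, -35, 46)]
  | 1, 7 => [(-1, 1, -3, 0, 13), (-1, 5, -2, 5, -5), (-1, 5, 2, -5, -5), (-1, 8, 1, -5, -4), (-1, 14, -5, -5, 17), (-1, 25, -9, -10, 35), (1, 25, -6, -15, 35), (-1, 35, -9, -10, 25), (1, 55, -13, -30, 65)]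
  | 1, 8 => [(-1, 1, -3, 0, 13), (-1, 5, -2, 5, -5), (-1, 5, 2, -5, -5), (-1, 8, 1, -5, -4), (-1, 14, -5, -5, 17), (-1, 29, -15, -10, 47), (-1, 35, -9, -10, 25), (1, 55, -13, -30, 65), (-1, 65, -39, -35, 190)]
  | 2, 0 => [(1, 7, 2, -5, -11), (-1, 7, 9, -5, -56), (-1, 8, 1, -5, -4), (1, 8, 9, -5, -49), (1, 10, -13, -5, 65), (-1, 10, -3, -5, 20), (1, 20, -1, -15, 10), (-1, 20, 19, -15, -125), (-1, 25, -6, -15, 35), (1, 25, 19, -15, -100), (1, 55, -13, -30, 65), (-1, 55, 42, -30, -205)]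
  | 2, 1 => [(1, 1, -2, 0, 13), (-1, 7, 2, -5, -11), (-1, 10, -13, -5, 65), (1, 10, -3, -5, 20), (1, 11, 2, -5, -7), (-1, 17, 6, -10, -31), (-1, 20, -1, -15, 10), (1, 25, -6, -15, 35), (-1, 35, 13, -20, -65), (-1, 55, -13, -30, 65)]
  | 2, 2 => [(1, 1, -2, 0, 13), (-1, 7, 2, -5, -11), (-1, 10, -13, -5, 65), (1, 10, -3, -5, 20), (-1, 20, -1, -15, 10), (1, 25, -6, -15, 35), (1, 28, 3, -15, -14), (1, 29, 7, -20, -43), (-1, 35, 13, -20, -65), (-1, 55, -13, -30, 65), (1, 59, 12, -40, -73), (1, 65, 13, -45, -80), (1, 73, 12, -40, -59), (1, 89, 17, -60, -103), (1, 118, 21, -65, -104), (1, 125, 24, -90, -155), (1, 233, 43, -165, -274), (-1, 340, 63, -195, -325), (1, 364, 67, -195, -323), (1, 425, 79, -290, -485), (-1, 655, 121, -385, -640), (1, 725, 134, -490, -815)]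
  | 2, 3 => [(1, 10, -1, -15, 20), (1, 19, -3, -15, 22), (1, 22, -3, -15, 19), (-1, 53, -8, -30, 41), (1, 65, -13, -30, 55), (-1, 98, -17, -55, 86), (-1, 143, -26, -80, 131), (-1, 188, -35, -105, 176), (1, 253, -47, -180, 301), (-1, 335, -62, -195, 325), (1, 385, -71, -265, 440), (1, 419, -78, -225, 377), (-1, 695, -129, -410, 685), (1, 760, -141, -515, 860)]
  | 2, 4 => [(-1, 10, -13, -5, 65), (-1, 20, -1, -15, 10), (1, 25, -6, -15, 35), (-1, 35, 13, -20, -65), (-1, 55, -13, -30, 65), (-1, 80, 13, -45, -65), (-1, 85, 7, -55, -40), (-1, 125, 13, -70, -65)]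
  | 2, 5 => [(1, 4, 1, -5, -8), (-1, 7, 2, -5, -11), (-1, 10, -13, -5, 65), (1, 10, -3, -5, 20), (-1, 20, -1, -15, 10), (1, 25, -6, -15, 35), (-1, 35, 13, -20, -65), (-1, 55, -13, -30, 65), (1, 55, 8, -20, -25), (1, 65, 13, -45, -80), (-1, 80, 13, -45, -65), (1, 140, 23, -95, -140), (-1, 155, 24, -90, -125), (1, 215, 33, -145, -200)]
  | 2, 6 => []
  | 2, 7 => [(1, 1, -3, 0, 13), (1, 5, 2, -5, -5), (-1, 7, 2, -5, -11), (-1, 8, -7, -5, 41), (1, 8, 1, -5, -4), (-1, 20, -1, -15, 10), (-1, 23, -12, -15, 71), (-1, 55, -13, -30, 65)]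
  | 2, 8 => [(1, 1, -3, 0, 13), (-1, 7, 2, -5, -11), (-1, 8, -7, -5, 41), (1, 8, 1, -5, -4), (-1, 20, -1, -15, 10), (1, 25, -6, -15, 35), (-1, 55, -13, -30, 65), (1, 65, -39, -35, 190)]
  | 3, 0 => [(1, 1, 2, 0, 13), (-1, 1, 3, 0, 13), (1, 7, -2, 5, -11), (-1, 7, 5, 5, 34), (-1, 8, -1, 5, -4), (1, 8, 7, 5, 41), (1, 10, 3, 5, 20), (-1, 10, 13, 5, 65), (1, 13, -2, 0, 1), (-1, 13, 11, 0, 1), (-1, 35, -13, 20, -65), (1, 35, 22, 20, 115)]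
  | 3, 1 => [(-1, 1, 2, 0, 13), (1, 8, -1, 5, -4), (-1, 10, 3, 5, 20), (1, 10, 13, 5, 65), (-1, 13, -2, 0, 1), (1, 20, 1, 15, 10), (1, 22, 3, 15, 19), (-1, 25, 6, 15, 35), (1, 25, 7, -5, -10), (1, 35, -13, 20, -65), (1, 37, 8, 25, 49), (1, 37, 10, 20, 49), (1, 55, 13, 30, 65), (1, 95, 21, 65, 130)]
  | 3, 2 => [(-1, 1, 2, 0, 13), (1, 10, 1, 15, 20), (-1, 10, 3, 5, 20), (1, 10, 13, 5, 65), (-1, 13, -2, 0, 1), (1, 19, 3, 15, 22), (1, 20, 1, 15, 10), (1, 22, 3, 15, 19), (-1, 25, 6, 15, 35), (1, 35, -13, 20, -65), (-1, 53, 8, 30, 41), (1, 55, 13, 30, 65), (1, 65, 13, 30, 55), (-1, 98, 17, 55, 86), (-1, 104, 19, 65, 107), (-1, 143, 26, 80, 131), (1, 185, 34, 160, 265), (1, 575, 106, 15, 25)]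
  | 3, 3 => [(-1, 7, -2, 5, -11), (-1, 13, -2, 0, 1), (1, 28, -3, 15, -14), (1, 29, -7, 20, -43), (1, 59, -12, 40, -73), (1, 65, -13, 45, -80), (1, 73, -12, 40, -59), (1, 89, -17, 60, -103), (1, 118, -21, 65, -104), (1, 125, -24, 90, -155), (-1, 139, -26, 85, -143), (1, 163, -30, 90, -149), (1, 220, -41, 185, -310), (1, 640, -119, 15, -25)]
  | 3, 4 => [(-1, 1, 2, 0, 13), (-1, 10, 3, 5, 20), (1, 10, 13, 5, 65), (-1, 13, -2, 0, 1), (1, 20, 3, 5, 10), (-1, 25, 6, 15, 35), (1, 35, -13, 20, -65), (1, 40, 3, 5, 5), (1, 55, 13, 30, 65), (1, 100, 13, 55, 65)]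
  | 3, 5 => [(-1, 1, 2, 0, 13), (-1, 10, 3, 5, 20), (1, 10, 13, 5, 65), (-1, 13, -2, 0, 1), (1, 20, 1, 15, 10), (-1, 25, 6, 15, 35), (1, 35, -13, 20, -65), (1, 55, 13, 30, 65)]
  | 3, 6 => [(-1, 1, 2, 0, 13), (-1, 7, -2, 5, -11), (-1, 10, 3, 5, 20), (-1, 13, -2, 0, 1), (1, 28, -3, 15, -14), (1, 31, -4, 15, -17), (-1, 31, -3, 20, -17), (-1, 61, -8, 40, -47), (-1, 91, -13, 60, -77), (-1, 121, -18, 80, -107)]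
  | 3, 7 => [(-1, 7, -2, 5, -11), (-1, 13, -2, 0, 1), (1, 35, -13, 20, -65), (1, 65, -26, 35, -125)]
  | 3, 8 => [(1, 5, -7, 5, -50), (-1, 7, -2, 5, -11), (-1, 13, -2, 0, 1), (-1, 23, -11, 15, -64), (-1, 25, -19, 15, -100), (1, 35, -13, 20, -65)]
  | 4, 0 => [(1, 1, -1, 0, 13), (-1, 1, 0, -5, 13), (-1, 1, 0, 0, 13), (1, 1, 1, -5, -32), (1, 5, -1, 10, -5), (-1, 5, 2, -5, -5), (-1, 5, 4, 10, 85), (1, 5, 12, -5, -95), (1, 10, -3, -5, 20), (-1, 10, 7, -5, -25), (1, 20, -3, -5, 10), (-1, 20, 17, -5, -35), (-1, 35, -3, -30, 25), (1, 35, 32, -30, -245)]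
  | 4, 1 => [(1, 1, 0, -5, 13), (1, 1, 0, 0, 13), (1, 1, 0, 5, 13), (-1, 5, -1, 10, -5), (1, 5, 1, 15, 40), (1, 7, 2, -5, -11), (-1, 10, -3, -5, 20), (-1, 20, -3, -5, 10), (1, 35, -3, -30, 25), (-1, 40, 11, -35, -85)]
  | 4, 2 => [(1, 1, 0, -5, 13), (1, 1, 0, 0, 13), (1, 1, 0, 5, 13), (-1, 4, 1, -5, -8), (-1, 5, -1, 10, -5), (-1, 5, 1, -85, -140), (-1, 5, 1, -60, -95), (-1, 5, 1, -35, -50), (-1, 5, 1, -10, -5), (1, 8, 1, -5, -4), (-1, 10, -3, -5, 20), (1, 11, 2, -5, -7), (-1, 14, 3, -15, -28), (-1, 17, 4, -15, -31), (-1, 20, -3, -5, 10), (1, 35, -3, -30, 25), (1, 38, 7, 115, 191), (-1, 40, 11, -35, -85), (1, 49, 9, -5, -8), (-1, 65, 12, -130, -215), (-1, 100, 21, -85, -160), (-1, 134, 25, -115, -193), (-1, 160, 31, -135, -235), (1, 179, 33, -35, -58), (-1, 205, 38, -195,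 -325), (-1, 220, 41, -185, -310), (-1, 254, 47, -215, -358), (-1, 374, 69, -315, -523)]
  | 4, 3 => [(1, 5, -1, 35, -50), (1, 5, -1, 60, -95), (1, 5, -1, 85, -140), (-1, 10, -1, -15, 20), (-1, 20, -3, -5, 10), (1, 43, -8, 125, -209), (1, 59, -11, -10, 17), (-1, 70, -13, -155, 260), (-1, 109, -20, -95, 157), (-1, 185, -34, -160, 265), (1, 199, -37, -40, 67), (-1, 200, -37, -195, 325), (-1, 259, -48, -220, 367), (-1, 409, -76, -345, 577)]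
  | 4, 4 => [(1, 1, 0, -5, 13), (1, 1, 0, 0, 13), (1, 1, 0, 5, 13), (1, 1, 0, 10, 13), (1, 1, 0, 15, 13), (-1, 4, 1, -5, -8), (-1, 5, -1, 10, -5), (-1, 5, 1, -10, -5), (-1, 10, -3, -5, 20), (1, 13, 0, -10, 1), (1, 13, 1, 0, 1), (-1, 20, -3, -5, 10), (1, 20, -1, -15, 10), (1, 35, -3, -30, 25)]
  | 4, 5 => [(1, 1, 0, -5, 13), (1, 1, 0, 0, 13), (1, 1, 0, 5, 13), (1, 1, 0, 10, 13), (-1, 4, 1, -5, -8), (-1, 5, -1, 10, -5), (-1, 5, 1, -10, -5), (-1, 10, -3, -5, 20), (-1, 20, -3, -5, 10), (1, 20, -1, -15, 10), (1, 20, 3, 5, 10), (-1, 25, 4, -40, -55), (1, 35, -3, -30, 25), (1, 80, 9, -65, -65), (1, 140, 19, -115, -140), (1, 200, 29, -165, -215)]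
  | 4, 6 => [(-1, 1, 0, -10, 13), (-1, 10, -3, -5, 20), (1, 13, -2, 0, 1), (1, 19, -3, -15, 22), (-1, 20, -3, -5, 10), (-1, 41, -6, -40, 53)]
  | 4, 7 => [(1, 1, -2, 0, 13), (1, 1, 0, -5, 13), (1, 2, -1, 5, -16), (-1, 5, -1, 10, -5), (1, 5, 7, -5, -50), (-1, 10, -3, -5, 20), (-1, 20, -3, -5, 10), (-1, 23, -9, -20, 71), (1, 25, -17, -20, 125), (1, 35, -3, -30, 25)]
  | 4, 8 => [(1, 1, -2, 0, 13), (1, 1, 0, -5, 13), (1, 5, -3, 20, -95), (-1, 5, -1, 10, -5), (1, 5, 7, -5, -50), (1, 7, -5, -5, 34), (-1, 10, -3, -5, 20), (-1, 20, -3, -5, 10), (1, 25, -17, -20, 125), (1, 35, -3, -30, 25)]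
  | 5, 0 => [(1, 1, -2, 0, 13), (-1, 1, -1, 0, 13), (1, 5, 7, -5, -50), (-1, 5, 12, -5, -95), (-1, 7, 2, -5, -11), (1, 7, 9, -5, -56), (-1, 20, -1, -15, 10), (1, 20, 19, -15, -125), (1, 25, -6, -15, 35), (-1, 25, 19, -15, -100), (1, 35, -3, -30, 25), (-1, 35, 32, -30, -245)]
  | 5, 1 => [(-1, 1, -2, 0, 13), (1, 8, 1, -5, -4), (1, 20, -1, -15, 10), (-1, 25, -6, -15, 35), (-1, 35, -3, -30, 25), (1, 40, 11, -35, -85)]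
  | 5, 2 => [(-1, 1, -2, 0, 13), (1, 14, 3, -15, -28), (1, 17, 4, -15, -31), (1, 20, -1, -15, 10), (-1, 25, -6, -15, 35), (-1, 29, 7, -20, -43), (-1, 35, -3, -30, 25), (1, 40, 11, -35, -85), (-1, 59, 12, -40, -73), (-1, 65, 13, -45, -80), (-1, 89, 17, -60, -103), (1, 100, 21, -85, -160), (-1, 119, 22, -80, -133), (-1, 125, 24, -90, -155), (1, 134, 25, -115, -193), (1, 160, 31, -135, -235), (1, 163, 30, -90, -149), (1, 205, 38, -195, -325), (1, 220, 41, -185, -310), (-1, 233, 43, -165, -274), (1, 254, 47, -215, -358), (1, 374, 69, -315, -523), (-1, 425, 79, -290, -485), (-1, 725, 134, -490, -815)]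
  | 5, 3 => [(-1, 19, -3, -15, 22), (-1, 22, -3, -15, 19), (1, 109, -20, -95, 157), (-1, 124, -23, -85, 142), (1, 185, -34, -160, 265), (1, 188, -35, -105, 176), (1, 200, -37, -195, 325), (-1, 253, -47, -180, 301), (1, 259, -48, -220, 367), (-1, 385, -71, -265, 440), (1, 409, -76, -345, 577), (-1, 760, -141, -515, 860)]
  | 5, 4 => [(1, 4, 1, -5, -8), (1, 10, -3, -5, 20), (-1, 13, 0, -10, 1), (-1, 25, -6, -15, 35), (-1, 35, -3, -30, 25), (1, 85, 7, -55, -40)]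
  | 5, 5 => [(1, 8, 1, -5, -4), (1, 10, 1, 15, 20), (1, 13, 2, 0, 1), (-1, 25, -6, -15, 35), (1, 25, 4, -40, -55), (-1, 35, -3, -30, 25), (-1, 65, 13, -45, -80), (-1, 80, 9, -65, -65), (-1, 140, 19, -115, -140), (-1, 140, 23, -95, -140), (-1, 200, 29, -165, -215), (-1, 215, 33, -145, -200)]
  | 5, 6 => [(1, 10, -3, -5, 20), (-1, 19, -3, -15, 22), (-1, 22, -3, -15, 19), (1, 41, -6, -40, 53)]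
  | 5, 7 => [(-1, 1, -2, 0, 13), (-1, 5, 7, -5, -50), (1, 7, 2, -5, -11), (1, 8, -7, -5, 41), (1, 20, -1, -15, 10), (1, 23, -12, -15, 71), (1, 23, -9, -20, 71), (-1, 25, -17, -20, 125), (-1, 25, -6, -15, 35), (-1, 35, -3, -30, 25)]
  | 5, 8 => [(-1, 1, -2, 0, 13), (1, 5, 2, -5, -5), (-1, 5, 7, -5, -50), (-1, 7, -5, -5, 34), (1, 7, 2, -5, -11), (1, 8, -7, -5, 41), (1, 20, -1, -15, 10), (-1, 25, -17, -20, 125), (-1, 25, -6, -15, 35), (-1, 35, -3, -30, 25)]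
  | 6, 0 => [(1, 5, -7, 5, -50), (-1, 5, -2, 5, -5), (-1, 7, -2, 5, -11), (1, 7, 5, 5, 34), (1, 8, -1, 5, -4), (-1, 8, 7, 5, 41)]
  | 6, 1 => [(1, 1, 2, 0, 13), (1, 5, 2, -5, -5), (-1, 8, -1, 5, -4), (-1, 20, 1, 15, 10), (-1, 22, 3, 15, 19), (1, 29, 6, 25, 47), (1, 35, 3, 30, 25), (-1, 37, 8, 25, 49), (1, 65, 13, 55, 100), (-1, 95, 21, 65, 130)]
  | 6, 2 => [(1, 1, 2, 0, 13), (-1, 8, -1, 5, -4), (-1, 19, 3, 15, 22), (-1, 20, 1, 15, 10), (-1, 22, 3, 15, 19), (1, 25, 6, 15, 35), (1, 35, 3, 30, 25), (1, 109, 20, 95, 157)]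
  | 6, 3 => [(-1, 8, -1, 5, -4), (1, 14, -3, 15, -28), (1, 17, -4, 15, -31), (-1, 29, -7, 20, -43), (1, 40, -11, 35, -85), (-1, 59, -12, 40, -73), (-1, 65, -13, 45, -80), (-1, 89, -17, 60, -103), (1, 100, -21, 85, -160), (-1, 125, -24, 90, -155), (1, 134, -25, 115, -193), (1, 160, -31, 135, -235)]
  | 6, 4 => [(1, 1, 2, 0, 13), (-1, 8, -1, 5, -4), (-1, 19, 3, 15, 22), (-1, 20, 1, 15, 10), (1, 25, 6, 15, 35), (1, 35, 3, 30, 25)]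
  | 6, 5 => [(1, 1, 2, 0, 13), (-1, 8, -1, 5, -4), (-1, 20, 1, 15, 10), (1, 25, 3, 30, 35), (1, 25, 6, 15, 35), (1, 35, 3, 30, 25), (1, 35, 6, 15, 25)]
  | 6, 6 => [(1, 1, 2, 0, 13), (-1, 8, -1, 5, -4), (1, 10, 3, 5, 20), (1, 17, -4, 15, -31), (-1, 20, 1, 15, 10), (1, 31, -3, 20, -17), (1, 47, -8, 40, -61), (1, 61, -8, 40, -47), (1, 77, -12, 65, -91), (1, 91, -13, 60, -77), (1, 121, -18, 80, -107)]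
  | 6, 7 => [(-1, 25, -8, 20, -55)]
  | 6, 8 => [(-1, 5, -7, 5, -50), (1, 23, -11, 15, -64), (-1, 25, -8, 20, -55), (-1, 55, -28, 45, -205), (-1, 85, -48, 70, -355)]
  | 7, 0 => [(1, 1, 5, 0, 13), (-1, 1, 6, 0, 13), (-1, 16, -1, 5, -2), (1, 16, 15, 5, 43), (-1, 20, -17, 5, -35), (1, 20, 3, 5, 10), (1, 85, 2, 20, 5), (-1, 85, 87, 20, 185)]
  | 7, 1 => [(1, 1, 6, 0, 13), (1, 16, -1, 5, -2), (-1, 17, 5, 5, 14), (-1, 20, 3, 5, 10), (1, 22, 9, 5, 19), (-1, 35, 9, 10, 25), (1, 65, 26, 15, 55), (-1, 85, 2, 20, 5)]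
  | 7, 2 => [(1, 1, 6, 0, 13), (1, 16, -1, 5, -2), (-1, 17, 5, 5, 14), (-1, 20, 3, 5, 10), (1, 22, 9, 5, 19), (-1, 35, 9, 10, 25), (-1, 47, 10, 15, 29), (1, 65, 26, 15, 55), (1, 68, 13, 15, 26), (-1, 77, 15, 25, 44), (-1, 85, 2, 20, 5), (-1, 107, 20, 35, 59), (1, 115, 22, 20, 35), (-1, 136, 25, 35, 58), (-1, 145, 26, 40, 65), (1, 275, 61, 65, 130), (-1, 305, 57, 95, 160), (1, 319, 60, 75, 127), (1, 485, 96, 115, 205), (-1, 605, 112, 195, 325), (1, 695, 131, 165, 280), (1, 739, 137, 175, 292), (-1, 905, 167, 295, 490), (1, 1159, 214, 275, 457)]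
  | 7, 3 => [(1, 13, -2, 0, 1), (1, 20, -3, -5, 10), (-1, 31, -6, 10, -17), (1, 64, -11, 15, -23), (-1, 65, -13, 20, -35), (-1, 82, -15, 25, -41), (-1, 161, -30, 40, -67), (1, 190, -33, 45, -70), (1, 194, -35, 45, -73), (-1, 235, -43, 70, -115), (-1, 260, -49, 65, -110), (1, 385, -69, 90, -145), (-1, 610, -113, 195, -325), (1, 719, -133, 170, -283), (-1, 985, -183, 320, -535), (1, 1244, -231, 295, -493)]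
  | 7, 4 => [(1, 1, 6, 0, 13), (1, 13, 0, 5, 1), (1, 16, -1, 5, -2), (-1, 20, 3, 5, 10), (1, 40, 1, 15, 5), (-1, 83, 5, 20, 11), (-1, 85, 2, 20, 5), (-1, 145, 9, 35, 20)]
  | 7, 5 => [(1, 1, 6, 0, 13), (1, 16, -1, 5, -2), (-1, 20, 3, 5, 10), (1, 22, 9, 5, 19), (-1, 35, 9, 10, 25), (-1, 85, 2, 20, 5), (-1, 110, 19, 35, 55), (-1, 145, 9, 35, 20), (-1, 185, 29, 60, 85), (-1, 260, 39, 85, 115), (-1, 355, 44, 85, 95), (-1, 565, 79, 135, 170)]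
  | 7, 6 => []
  | 7, 7 => [(1, 1, 4, 0, 13), (1, 10, -7, 5, -25), (1, 13, -5, 0, 1), (1, 14, -9, 5, -28), (1, 16, -1, 5, -2), (-1, 19, -10, 5, -23), (-1, 20, -37, 5, -80), (1, 23, -10, 5, -19), (1, 25, -7, 5, -10), (1, 29, -14, 10, -43), (1, 35, -17, 5, -20), (1, 43, -14, 10, -29), (-1, 85, 2, 20, 5), (-1, 125, -72, 30, -155)]
  | 7, 8 => [(1, 1, 4, 0, 13), (1, 14, -9, 5, -28), (1, 16, -1, 5, -2), (-1, 20, -37, 5, -80), (1, 23, -10, 5, -19), (1, 25, -16, 10, -55), (1, 25, -7, 5, -10), (-1, 85, 2, 20, 5)]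
  | 8, 0 => [(1, 1, 7, 0, 13), (-1, 1, 9, 0, 13), (1, 23, -10, 5, -19), (-1, 23, 13, 5, 26), (-1, 25, -7, 5, -10), (1, 25, 43, 5, 80), (-1, 55, -16, 10, -25), (1, 55, 39, 10, 65)]
  | 8, 1 => [(-1, 1, 7, 0, 13), (-1, 23, -10, 5, -19), (1, 25, -7, 5, -10), (-1, 29, 1, 5, 2), (1, 55, -16, 10, -25), (-1, 59, 11, 10, 17), (1, 71, 12, 15, 23), (-1, 89, 21, 15, 32), (1, 95, -3, 20, -5), (-1, 115, 22, 20, 35), (1, 215, 37, 45, 70), (1, 335, 77, 70, 145)]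
  | 8, 2 => [(-1, 1, 7, 0, 13), (1, 13, 3, 0, 1), (-1, 23, -10, 5, -19), (1, 25, -7, 5, -10), (-1, 29, 1, 5, 2), (1, 55, -16, 10, -25), (-1, 59, 11, 10, 17), (1, 65, 13, 5, 10), (1, 71, 12, 15, 23), (1, 95, -3, 20, -5), (-1, 115, 22, 20, 35), (-1, 143, 26, 25, 41), (1, 145, 26, 40, 65), (-1, 199, 37, 40, 67), (1, 211, 38, 45, 73), (1, 215, 37, 45, 70), (-1, 283, 52, 55, 91), (-1, 325, 61, 65, 110), (-1, 395, 72, 70, 115), (1, 425, 76, 90, 145)]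
  | 8, 3 => [(-1, 28, -9, 5, -14), (1, 65, -13, 20, -35), (1, 67, -13, 15, -26), (1, 70, -29, 15, -55), (-1, 88, -19, 15, -29), (-1, 148, -29, 25, -44), (-1, 179, -33, 35, -58), (-1, 208, -39, 35, -59), (-1, 215, -39, 40, -65), (1, 260, -49, 65, -110), (1, 310, -69, 65, -130), (-1, 338, -63, 65, -109), (1, 356, -67, 75, -127), (1, 550, -109, 115, -205), (-1, 550, -103, 95, -160), (1, 790, -149, 165, -280)]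
  | 8, 4 => [(-1, 1, 7, 0, 13), (-1, 23, -10, 5, -19), (1, 25, -7, 5, -10), (-1, 29, 1, 5, 2), (1, 55, -16, 10, -25), (1, 95, -3, 20, -5), (-1, 121, 15, 25, 28), (1, 125, 17, 20, 25)]
  | 8, 5 => [(-1, 1, 7, 0, 13), (-1, 23, -10, 5, -19), (1, 25, -7, 5, -10), (-1, 29, 1, 5, 2), (1, 55, -16, 10, -25), (1, 95, -3, 20, -5)]
  | 8, 6 => [(1, 32, -1, 5, -1), (1, 55, -16, 10, -25), (1, 92, -11, 15, -16), (1, 143, -26, 30, -49), (1, 152, -21, 25, -31), (-1, 170, -11, 35, -20), (1, 212, -31, 35, -46), (1, 263, -42, 55, -79)]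
  | 8, 7 => [(-1, 23, -10, 5, -19), (1, 31, -12, 5, -17), (1, 55, -16, 10, -25), (1, 65, -26, 10, -35), (-1, 73, -32, 15, -59), (-1, 145, -62, 30, -115)]
  | 8, 8 => [(1, 20, -17, 5, -35), (-1, 23, -10, 5, -19), (-1, 26, -13, 5, -22), (1, 31, -12, 5, -17), (1, 55, -16, 10, -25), (1, 61, -32, 10, -47), (-1, 145, -62, 30, -115), (-1, 265, -142, 55, -265)]

/-- The five relations as rows of nine lists: `relT ρ f`. -/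
def relT : Fin 5 → Fin 9 → List Tm
  | 0, 0 => []
  | 0, 1 => []
  | 0, 2 => []
  | 0, 3 => []
  | 0, 4 => []
  | 0, 5 => [(1, 1, 0, 0, 1), (1, 20, 3, -15, -20)]
  | 0, 6 => []
  | 0, 7 => []
  | 0, 8 => []
  | 1, 0 => []
  | 1, 1 => []
  | 1, 2 => []
  | 1, 3 => []
  | 1, 4 => []
  | 1, 5 => []
  | 1, 6 => [(1, 1, 0, 0, 1), (1, 20, -3, 15, -20)]
  | 1, 7 => []
  | 1, 8 => []
  | 2, 0 => []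
  | 2, 1 => []
  | 2, 2 => []
  | 2, 3 => []
  | 2, 4 => []
  | 2, 5 => []
  | 2, 6 => []
  | 2, 7 => [(1, 1, 0, 0, 1), (1, 20, -9, 5, -20)]
  | 2, 8 => []
  | 3, 0 => []
  | 3, 1 => []
  | 3, 2 => []
  | 3, 3 => []
  | 3, 4 => []
  | 3, 5 => []
  | 3, 6 => []
  | 3, 7 => []
  | 3, 8 => [(1, 1, 0, 0, 1), (1, 25, -14, 5, -25)]
  | 4, 0 => [(-1, 1, 0, 0, 1), (1, 1, 1, 0, 1)]
  | 4, 1 => [(1, 1, 0, 0, 1), (-1, 5, 1, 5, 10)]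
  | 4, 2 => [(1, 1, 0, 0, 1), (-1, 65, 12, 15, 25)]
  | 4, 3 => [(1, 1, 0, 0, 1), (-1, 70, -13, 15, -25)]
  | 4, 4 => [(1, 1, 0, 0, 1), (-1, 10, 1, 5, 5)]
  | 4, 5 => [(1, 1, 0, 0, 1)]
  | 4, 6 => [(1, 1, 0, 0, 1)]
  | 4, 7 => [(1, 1, 0, 0, 1)]
  | 4, 8 => [(1, 1, 0, 0, 1)]

/-- Multipliers of the relations for `T_13 + T_17 + 1`: `mUT i ρ`. -/
def mUT : Fin 9 → Fin 5 → List Tm
  | 0, 0 => [(-1, 1, 0, 0, 1), (1, 1, 0, 1, 1), (-1, 1, 1, 0, 1), (1, 10, 1, 1, 1), (-1, 1, 2, 0, 1), (-1, 4, 0, 0, 1)]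
  | 0, 1 => [(-1, 1, 0, 0, 1), (1, 1, 0, 1, 1), (-1, 1, 1, 0, 1), (1, 10, 1, 1, 1)]
  | 0, 2 => [(1, 1, 0, 1, 1), (1, 1, 0, 2, 1), (-1, 1, 1, 0, 1), (1, 10, 1, 1, 1), (1, 1, 2, 0, 1), (-1, 4, 0, 0, 1)]
  | 0, 3 => [(-1, 1, 0, 1, 1), (-1, 1, 0, 2, 1), (-1, 1, 1, 0, 1), (1, 1, 2, 0, 1)]
  | 0, 4 => [(-1, 1, 0, 0, 1), (1, 1, 0, 1, 1), (-1, 1, 0, 2, 1), (1, 1, 1, 0, 1), (-1, 10, 1, 1, 1), (-1, 1, 2, 0, 1), (-1, 4, 0, 0, 1), (-1, -1, 0, 0, 1), (1, -1, 0, 1, 1), (-1, -1, -1, 0, 1)]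
  | 1, 0 => [(-1, 1, 0, 0, 1), (-1, 1, 0, 2, 1), (1, 10, 1, 1, 1), (-1, 1, 2, 0, 1)]
  | 1, 1 => [(-1, 1, 0, 1, 1), (1, 1, 0, 2, 1), (1, 1, 1, 0, 1), (-1, 1, 2, 0, 1), (1, 4, 0, 0, 1)]
  | 1, 2 => [(1, 1, 0, 2, 1), (-1, 1, 1, 0, 1), (-1, 10, 1, 1, 1), (-1, 1, 2, 0, 1), (1, 4, 0, 0, 1)]
  | 1, 3 => [(-1, 1, 0, 0, 1), (-1, 1, 0, 1, 1), (-1, 1, 0, 2, 1), (1, 10, 1, 1, 1)]
  | 1, 4 => [(-1, 1, 0, 0, 1), (-1, 1, 0, 2, 1), (-1, 1, 1, 0, 1), (1, 4, 0, 0, 1), (-1, -1, 0, 0, 1)]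
  | 2, 0 => [(-1, 1, 0, 0, 1), (1, 1, 0, 1, 1), (1, 1, 1, 0, 1), (1, 1, 2, 0, 1), (-1, 4, 0, 0, 1)]
  | 2, 1 => [(1, 1, 0, 1, 1), (1, 1, 1, 0, 1), (1, 4, 0, 0, 1)]
  | 2, 2 => [(1, 1, 0, 0, 1), (1, 1, 0, 1, 1), (1, 1, 0, 2, 1), (1, 1, 1, 0, 1), (-1, 10, 1, 1, 1), (1, 1, 2, 0, 1)]
  | 2, 3 => [(-1, 1, 0, 0, 1), (-1, 10, 1, 1, 1)]
  | 2, 4 => [(-1, 1, 0, 0, 1), (1, 1, 0, 1, 1), (-1, 10, 1, 1, 1), (1, 1, 2, 0, 1), (1, 4, 0, 0, 1), (1, -1, 0, 0, 1)]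
  | 3, 0 => [(-1, 1, 0, 0, 1), (-1, 1, 0, 1, 1), (1, 1, 0, 2, 1), (1, 1, 1, 0, 1), (-1, 10, 1, 1, 1), (-1, 4, 0, 0, 1)]
  | 3, 1 => [(1, 1, 0, 2, 1), (-1, 1, 1, 0, 1), (-1, 10, 1, 1, 1)]
  | 3, 2 => [(-1, 1, 0, 0, 1), (-1, 10, 1, 1, 1), (1, 4, 0, 0, 1)]
  | 3, 3 => [(-1, 1, 0, 0, 1), (-1, 1, 0, 1, 1), (1, 1, 0, 2, 1), (-1, 4, 0, 0, 1)]
  | 3, 4 => [(1, 1, 0, 0, 1), (-1, 1, 0, 1, 1), (-1, 1, 0, 2, 1), (1, 1, 1, 0, 1), (1, 10, 1, 1, 1), (-1, 1, 2, 0, 1), (-1, 4, 0, 0, 1), (1, -1, 0, 0, 1)]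
  | 4, 0 => [(1, 1, 0, 0, 1), (-1, 1, 0, 2, 1), (-1, 1, 1, 0, 1), (1, 10, 1, 1, 1), (1, 1, 2, 0, 1), (1, 4, 0, 0, 1)]
  | 4, 1 => [(1, 1, 1, 0, 1), (1, 1, 2, 0, 1), (1, 4, 0, 0, 1)]
  | 4, 2 => [(1, 1, 0, 0, 1), (-1, 1, 0, 2, 1), (1, 10, 1, 1, 1), (1, 1, 2, 0, 1), (-1, 4, 0, 0, 1)]
  | 4, 3 => [(-1, 1, 0, 1, 1), (-1, 1, 0, 2, 1), (1, 1, 1, 0, 1), (1, 1, 2, 0, 1)]
  | 4, 4 => [(1, 1, 0, 0, 1), (-1, 1, 0, 2, 1), (-1, 1, 1, 0, 1), (1, 10, 1, 1, 1), (1, 1, 2, 0, 1), (1, 4, 0, 0, 1), (-1, -1, -1, 0, 1)]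
  | 5, 0 => [(-1, 1, 0, 0, 1), (-1, 1, 0, 1, 1), (-1, 1, 0, 2, 1), (1, 10, 1, 1, 1), (-1, 1, 2, 0, 1), (-1, 4, 0, 0, 1)]
  | 5, 1 => [(1, 1, 0, 1, 1), (-1, 1, 0, 2, 1), (1, 1, 1, 0, 1), (1, 10, 1, 1, 1), (-1, 4, 0, 0, 1)]
  | 5, 2 => [(-1, 1, 0, 0, 1), (1, 1, 0, 2, 1), (-1, 10, 1, 1, 1), (1, 1, 2, 0, 1)]
  | 5, 3 => [(1, 1, 0, 1, 1), (-1, 1, 0, 2, 1), (-1, 1, 1, 0, 1), (1, 1, 2, 0, 1), (1, 4, 0, 0, 1)]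
  | 5, 4 => [(1, 1, 0, 0, 1), (1, 1, 0, 2, 1), (-1, 1, 1, 0, 1), (-1, 10, 1, 1, 1), (1, 4, 0, 0, 1), (-1, -1, 0, 0, 1)]
  | 6, 0 => [(1, 1, 1, 0, 1), (1, 1, 2, 0, 1), (-1, 4, 0, 0, 1)]
  | 6, 1 => [(1, 1, 0, 1, 1), (-1, 1, 0, 2, 1), (-1, 1, 1, 0, 1), (1, 1, 2, 0, 1), (1, 4, 0, 0, 1)]
  | 6, 2 => [(-1, 1, 0, 0, 1), (1, 1, 1, 0, 1), (1, 10, 1, 1, 1), (-1, 4, 0, 0, 1)]
  | 6, 3 => [(1, 1, 0, 0, 1), (1, 1, 0, 1, 1), (-1, 10, 1, 1, 1), (-1, 1, 2, 0, 1), (-1, 4, 0, 0, 1)]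
  | 6, 4 => [(-1, 1, 0, 0, 1), (1, 1, 0, 2, 1), (-1, 1, 1, 0, 1), (-1, 1, 2, 0, 1), (-1, -1, 0, 0, 1), (-1, -1, -1, 0, 1)]
  | 7, 0 => [(-1, 1, 0, 0, 1), (1, 1, 0, 1, 1), (1, 1, 0, 2, 1), (-1, 1, 1, 0, 1), (1, 4, 0, 0, 1)]
  | 7, 1 => [(1, 1, 0, 0, 1), (-1, 1, 0, 1, 1), (-1, 1, 0, 2, 1), (-1, 1, 1, 0, 1), (1, 10, 1, 1, 1)]
  | 7, 2 => [(1, 1, 0, 0, 1), (-1, 1, 0, 1, 1), (-1, 1, 0, 2, 1), (-1, 1, 1, 0, 1), (-1, 1, 2, 0, 1), (1, 4, 0, 0, 1)]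
  | 7, 3 => [(-1, 1, 0, 0, 1), (-1, 1, 0, 1, 1), (-1, 1, 0, 2, 1), (-1, 1, 1, 0, 1), (1, 10, 1, 1, 1), (1, 1, 2, 0, 1), (-1, 4, 0, 0, 1)]
  | 7, 4 => [(1, 1, 0, 0, 1), (-1, 1, 1, 0, 1), (1, 10, 1, 1, 1), (-1, 1, 2, 0, 1), (-1, 4, 0, 0, 1), (1, -1, 0, 0, 1), (1, -1, 0, 1, 1), (-1, -1, -1, 0, 1)]
  | 8, 0 => [(1, 1, 0, 0, 1), (-1, 1, 0, 1, 1), (-1, 1, 0, 2, 1), (-1, 10, 1, 1, 1), (-1, 1, 2, 0, 1), (-1, 4, 0, 0, 1)]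
  | 8, 1 => [(-1, 1, 0, 0, 1), (-1, 1, 0, 2, 1), (1, 4, 0, 0, 1)]
  | 8, 2 => [(-1, 1, 0, 0, 1), (-1, 1, 1, 0, 1), (1, 10, 1, 1, 1), (1, 4, 0, 0, 1)]
  | 8, 3 => [(-1, 1, 0, 0, 1), (-1, 1, 0, 2, 1), (-1, 1, 1, 0, 1), (1, 10, 1, 1, 1), (1, 4, 0, 0, 1)]
  | 8, 4 => [(-1, 1, 1, 0, 1), (-1, 10, 1, 1, 1), (1, 1, 2, 0, 1), (-1, 4, 0, 0, 1), (1, -1, 0, 1, 1)]

/-- Multipliers of the relations for `V`. -/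
def mVT : Fin 9 → Fin 5 → List Tm
  | 0, 0 => [(-1, 1, 0, 0, 1), (1, 1, 0, 2, 1), (-1, 1, 0, 3, 1), (1, 1, 0, 4, 1), (-1, 28, 1, 3, 1), (1, 1, 2, 0, 1), (1, 19, 2, 1, 1), (-1, 1, 3, 0, 1), (-1, 28, 3, 1, 1), (-1, 1, 4, 0, 1), (1, 4, 0, 1, 1), (-1, 4, 0, 2, 1), (1, 4, 4, 0, 1), (-1, 16, 0, 0, 1)]
  | 0, 1 => [(1, 1, 0, 0, 1), (1, 1, 0, 3, 1), (1, 1, 0, 4, 1), (1, 1, 1, 0, 1), (1, 28, 1, 3, 1), (-1, 1, 2, 0, 1), (1, 19, 2, 1, 1), (-1, 37, 2, 2, 1), (1, 28, 3, 1, 1), (1, 4, 0, 0, 1), (-1, 4, 0, 1, 1), (1, 4, 0, 2, 1), (1, 4, 8, 0, 1), (1, 16, 0, 0, 1)]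
  | 0, 2 => [(-1, 1, 0, 0, 1), (-1, 1, 0, 1, 1), (1, 1, 0, 3, 1), (1, 10, 1, 1, 1), (-1, 19, 1, 2, 1), (-1, 28, 1, 3, 1), (-1, 19, 2, 1, 1), (1, 37, 2, 2, 1), (1, 28, 3, 1, 1), (-1, 1, 4, 0, 1), (-1, 4, 0, 0, 1), (1, 4, 0, 1, 1), (-1, 4, 0, 2, 1), (-1, 4, 8, 0, 1)]
  | 0, 3 => [(-1, 1, 0, 1, 1), (-1, 1, 0, 2, 1), (1, 1, 0, 3, 1), (-1, 1, 0, 4, 1), (1, 1, 1, 0, 1), (1, 28, 1, 3, 1), (-1, 19, 2, 1, 1), (-1, 37, 2, 2, 1), (-1, 1, 3, 0, 1), (-1, 28, 3, 1, 1), (-1, 1, 4, 0, 1), (-1, 4, 0, 0, 1), (1, 4, 0, 1, 1), (-1, 4, 4, 0, 1), (1, 40, 4, 1, 1)]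
  | 0, 4 => [(1, 1, 0, 0, 1), (1, 1, 1, 0, 1), (1, 10, 1, 1, 1), (-1, 19, 1, 2, 1), (-1, 1, 2, 0, 1), (-1, 19, 2, 1, 1), (1, 37, 2, 2, 1), (-1, 1, 3, 0, 1), (1, 28, 3, 1, 1), (1, 1, 4, 0, 1), (1, 4, 0, 1, 1), (-1, 4, 0, 2, 1), (1, 4, 4, 0, 1), (1, -1, 0, 0, 1), (-1, -1, 0, 2, 1), (1, -1, 0, 3, 1), (1, -1, -1, 0, 1), (1, -10, -1, 1, 1), (1, -19, -1, 2, 1), (-1, -19, -2, 1, 1), (-1, -1, -3, 0, 1), (1, -4, 0, 1, 1), (-1, -4, -4, 0, 1)]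
  | 1, 0 => [(-1, 1, 0, 0, 1), (-1, 1, 1, 0, 1), (1, 10, 1, 1, 1), (1, 19, 1, 2, 1), (-1, 28, 1, 3, 1), (1, 1, 2, 0, 1), (-1, 37, 2, 2, 1), (-1, 1, 3, 0, 1), (1, 1, 4, 0, 1), (-1, 4, 0, 0, 1), (-1, 4, 0, 2, 1), (-1, 4, 4, 0, 1), (1, 4, 8, 0, 1), (1, 16, 0, 0, 1)]
  | 1, 1 => [(1, 1, 0, 0, 1), (1, 1, 0, 2, 1), (1, 1, 0, 3, 1), (1, 1, 0, 4, 1), (-1, 1, 1, 0, 1), (1, 10, 1, 1, 1), (1, 28, 1, 3, 1), (-1, 1, 2, 0, 1), (-1, 19, 2, 1, 1), (-1, 37, 2, 2, 1), (1, 1, 3, 0, 1), (-1, 28, 3, 1, 1), (1, 1, 4, 0, 1), (-1, 4, 0, 0, 1), (-1, 4, 0, 2, 1), (-1, 4, 4, 0, 1), (1, 40, 4, 1, 1), (-1, 4, 8, 0, 1), (1, 16, 0, 0, 1)]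
  | 1, 2 => [(1, 1, 0, 2, 1), (1, 1, 1, 0, 1), (-1, 10, 1, 1, 1), (1, 19, 1, 2, 1), (-1, 28, 1, 3, 1), (-1, 1, 2, 0, 1), (-1, 37, 2, 2, 1), (1, 1, 3, 0, 1), (-1, 1, 4, 0, 1), (-1, 4, 0, 0, 1), (1, 4, 0, 2, 1), (1, 40, 4, 1, 1)]
  | 1, 3 => [(1, 1, 0, 0, 1), (1, 1, 0, 1, 1), (1, 1, 0, 2, 1), (-1, 1, 0, 4, 1), (1, 19, 1, 2, 1), (-1, 28, 1, 3, 1), (-1, 19, 2, 1, 1), (1, 37, 2, 2, 1), (1, 1, 3, 0, 1), (-1, 28, 3, 1, 1), (-1, 4, 0, 0, 1), (-1, 4, 0, 1, 1), (-1, 4, 0, 2, 1), (1, 4, 4, 0, 1), (-1, 40, 4, 1, 1), (1, 4, 8, 0, 1), (-1, 16, 0, 0, 1)]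
  | 1, 4 => [(1, 1, 0, 0, 1), (1, 1, 0, 1, 1), (-1, 1, 0, 4, 1), (1, 1, 1, 0, 1), (1, 10, 1, 1, 1), (1, 19, 1, 2, 1), (1, 28, 1, 3, 1), (-1, 1, 2, 0, 1), (1, 28, 3, 1, 1), (-1, 4, 0, 0, 1), (-1, 4, 0, 1, 1), (-1, 4, 0, 2, 1), (-1, 40, 4, 1, 1), (1, 4, 8, 0, 1), (1, -1, 0, 0, 1), (-1, -1, 0, 1, 1), (1, -1, 0, 3, 1), (-1, -1, -1, 0, 1), (1, -10, -1, 1, 1), (1, -19, -1, 2, 1), (1, -19, -2, 1, 1), (-1, -1, -3, 0, 1), (-1, -4, 0, 1, 1), (1, -4, -4, 0, 1)]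
  | 2, 0 => [(-1, 1, 0, 0, 1), (-1, 1, 0, 1, 1), (-1, 1, 0, 3, 1), (-1, 1, 0, 4, 1), (1, 1, 1, 0, 1), (-1, 10, 1, 1, 1), (-1, 28, 1, 3, 1), (-1, 1, 2, 0, 1), (-1, 19, 2, 1, 1), (-1, 1, 3, 0, 1), (1, 4, 0, 1, 1), (1, 4, 0, 2, 1), (-1, 4, 4, 0, 1), (-1, 40, 4, 1, 1), (1, 4, 8, 0, 1), (1, 16, 0, 0, 1)]
  | 2, 1 => [(1, 1, 0, 0, 1), (1, 10, 1, 1, 1), (-1, 19, 2, 1, 1), (-1, 1, 3, 0, 1), (-1, 28, 3, 1, 1), (1, 1, 4, 0, 1), (-1, 4, 0, 0, 1), (-1, 4, 0, 1, 1), (-1, 4, 4, 0, 1), (-1, 40, 4, 1, 1)]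
  | 2, 2 => [(1, 1, 0, 0, 1), (1, 1, 0, 1, 1), (-1, 1, 0, 2, 1), (1, 1, 0, 3, 1), (1, 1, 0, 4, 1), (1, 10, 1, 1, 1), (-1, 19, 1, 2, 1), (-1, 28, 1, 3, 1), (-1, 37, 2, 2, 1), (-1, 1, 3, 0, 1), (1, 4, 0, 0, 1), (1, 4, 0, 1, 1), (1, 4, 0, 2, 1), (1, 4, 4, 0, 1), (1, 40, 4, 1, 1), (1, 4, 8, 0, 1)]
  | 2, 3 => [(-1, 1, 0, 0, 1), (-1, 1, 0, 3, 1), (-1, 1, 0, 4, 1), (1, 1, 1, 0, 1), (1, 10, 1, 1, 1), (-1, 19, 1, 2, 1), (1, 28, 1, 3, 1), (-1, 1, 2, 0, 1), (-1, 19, 2, 1, 1), (-1, 28, 3, 1, 1), (-1, 1, 4, 0, 1), (1, 4, 0, 1, 1), (-1, 4, 0, 2, 1), (1, 40, 4, 1, 1), (-1, 4, 8, 0, 1), (-1, 16, 0, 0, 1)]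
  | 2, 4 => [(1, 1, 0, 0, 1), (1, 1, 0, 1, 1), (-1, 1, 0, 2, 1), (-1, 1, 0, 3, 1), (-1, 1, 1, 0, 1), (1, 19, 1, 2, 1), (-1, 1, 2, 0, 1), (1, 19, 2, 1, 1), (-1, 37, 2, 2, 1), (1, 1, 3, 0, 1), (-1, 1, 4, 0, 1), (1, 4, 0, 0, 1), (-1, 4, 0, 2, 1), (1, 4, 4, 0, 1), (-1, 40, 4, 1, 1), (1, 16, 0, 0, 1), (1, -1, 0, 0, 1), (-1, -1, 0, 2, 1), (1, -1, -1, 0, 1), (-1, -10, -1, 1, 1), (-1, -19, -1, 2, 1), (1, -1, -2, 0, 1), (-1, -19, -2, 1, 1), (1, -4, 0, 1, 1), (-1, -4, -4, 0, 1)]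
  | 3, 0 => [(1, 1, 0, 3, 1), (1, 1, 0, 4, 1), (-1, 10, 1, 1, 1), (-1, 19, 2, 1, 1), (-1, 37, 2, 2, 1), (-1, 28, 3, 1, 1), (1, 4, 0, 0, 1), (-1, 4, 0, 1, 1), (-1, 4, 0, 2, 1), (1, 4, 4, 0, 1), (-1, 40, 4, 1, 1), (-1, 16, 0, 0, 1)]
  | 3, 1 => [(-1, 1, 0, 0, 1), (1, 1, 0, 1, 1), (-1, 1, 0, 3, 1), (1, 1, 0, 4, 1), (-1, 10, 1, 1, 1), (-1, 28, 1, 3, 1), (1, 1, 2, 0, 1), (1, 19, 2, 1, 1), (1, 37, 2, 2, 1), (-1, 1, 3, 0, 1), (-1, 28, 3, 1, 1), (1, 1, 4, 0, 1), (1, 4, 0, 0, 1), (1, 4, 0, 2, 1), (-1, 4, 4, 0, 1), (1, 40, 4, 1, 1), (1, 4, 8, 0, 1)]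
  | 3, 2 => [(-1, 1, 0, 1, 1), (1, 1, 0, 2, 1), (1, 1, 0, 4, 1), (-1, 1, 1, 0, 1), (1, 10, 1, 1, 1), (-1, 28, 1, 3, 1), (1, 1, 3, 0, 1), (1, 28, 3, 1, 1), (-1, 1, 4, 0, 1), (1, 4, 0, 0, 1), (1, 4, 0, 2, 1), (1, 4, 4, 0, 1), (1, 40, 4, 1, 1), (1, 16, 0, 0, 1)]
  | 3, 3 => [(1, 1, 0, 0, 1), (1, 1, 0, 1, 1), (1, 1, 1, 0, 1), (1, 37, 2, 2, 1), (-1, 1, 3, 0, 1), (1, 28, 3, 1, 1), (-1, 1, 4, 0, 1), (1, 4, 4, 0, 1), (-1, 40, 4, 1, 1), (-1, 4, 8, 0, 1)]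
  | 3, 4 => [(-1, 1, 0, 0, 1), (1, 1, 0, 3, 1), (-1, 10, 1, 1, 1), (1, 19, 1, 2, 1), (-1, 19, 2, 1, 1), (1, 37, 2, 2, 1), (-1, 28, 3, 1, 1), (-1, 1, 4, 0, 1), (-1, 4, 0, 0, 1), (1, 4, 0, 1, 1), (-1, 4, 0, 2, 1), (1, 4, 4, 0, 1), (1, 40, 4, 1, 1), (1, 4, 8, 0, 1), (-1, -1, 0, 0, 1), (-1, -1, 0, 1, 1), (-1, -1, 0, 2, 1), (1, -1, 0, 3, 1), (1, -1, -1, 0, 1), (1, -1, -2, 0, 1), (-1, -19, -2, 1, 1), (1, -1, -3, 0, 1), (1, -4, 0, 0, 1), (-1, -4, 0, 1, 1), (-1, -4, -4, 0, 1)]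
  | 4, 0 => [(-1, 1, 0, 1, 1), (1, 1, 0, 3, 1), (1, 1, 0, 4, 1), (-1, 1, 1, 0, 1), (-1, 19, 1, 2, 1), (1, 28, 1, 3, 1), (-1, 1, 2, 0, 1), (1, 37, 2, 2, 1), (1, 1, 3, 0, 1), (1, 28, 3, 1, 1), (1, 1, 4, 0, 1), (-1, 4, 0, 0, 1), (1, 4, 0, 2, 1), (1, 4, 4, 0, 1), (-1, 40, 4, 1, 1)]
  | 4, 1 => [(1, 1, 0, 0, 1), (-1, 1, 0, 1, 1), (-1, 1, 0, 2, 1), (-1, 1, 0, 4, 1), (-1, 1, 1, 0, 1), (-1, 28, 1, 3, 1), (1, 1, 2, 0, 1), (1, 19, 2, 1, 1), (-1, 37, 2, 2, 1), (1, 1, 3, 0, 1), (1, 28, 3, 1, 1), (-1, 1, 4, 0, 1), (1, 4, 0, 0, 1), (1, 4, 0, 1, 1), (1, 4, 4, 0, 1), (1, 4, 8, 0, 1)]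
  | 4, 2 => [(1, 1, 0, 1, 1), (-1, 1, 0, 3, 1), (-1, 1, 1, 0, 1), (-1, 10, 1, 1, 1), (-1, 28, 1, 3, 1), (1, 19, 2, 1, 1), (-1, 37, 2, 2, 1), (-1, 28, 3, 1, 1), (1, 1, 4, 0, 1), (-1, 4, 0, 0, 1), (-1, 4, 0, 1, 1), (1, 4, 0, 2, 1), (1, 4, 4, 0, 1), (1, 40, 4, 1, 1), (1, 4, 8, 0, 1), (1, 16, 0, 0, 1)]
  | 4, 3 => [(-1, 1, 0, 1, 1), (-1, 1, 0, 4, 1), (-1, 1, 1, 0, 1), (-1, 19, 1, 2, 1), (1, 28, 1, 3, 1), (-1, 1, 2, 0, 1), (-1, 37, 2, 2, 1), (1, 1, 4, 0, 1), (-1, 4, 0, 0, 1), (-1, 4, 0, 1, 1), (-1, 4, 0, 2, 1), (-1, 4, 4, 0, 1), (-1, 40, 4, 1, 1), (-1, 16, 0, 0, 1)]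
  | 4, 4 => [(1, 1, 0, 0, 1), (1, 1, 0, 1, 1), (-1, 1, 0, 4, 1), (1, 19, 1, 2, 1), (1, 28, 1, 3, 1), (1, 1, 2, 0, 1), (-1, 19, 2, 1, 1), (-1, 37, 2, 2, 1), (-1, 1, 3, 0, 1), (-1, 28, 3, 1, 1), (1, 1, 4, 0, 1), (1, 4, 0, 0, 1), (-1, 4, 0, 2, 1), (-1, 4, 4, 0, 1), (1, 4, 8, 0, 1), (1, 16, 0, 0, 1), (1, -1, 0, 0, 1), (1, -1, 0, 1, 1), (1, -1, 0, 2, 1), (-1, -1, -1, 0, 1), (1, -19, -1, 2, 1), (1, -1, -2, 0, 1), (1, -19, -2, 1, 1), (-1, -4, 0, 1, 1), (-1, -4, -4, 0, 1)]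
  | 5, 0 => [(1, 1, 0, 2, 1), (-1, 1, 0, 3, 1), (-1, 1, 0, 4, 1), (1, 10, 1, 1, 1), (1, 19, 1, 2, 1), (1, 28, 1, 3, 1), (1, 1, 2, 0, 1), (-1, 19, 2, 1, 1), (1, 28, 3, 1, 1), (-1, 1, 4, 0, 1), (-1, 4, 0, 0, 1), (1, 4, 0, 1, 1), (1, 4, 4, 0, 1), (1, 40, 4, 1, 1), (1, 16, 0, 0, 1)]
  | 5, 1 => [(-1, 1, 0, 0, 1), (-1, 1, 0, 1, 1), (1, 1, 0, 2, 1), (-1, 1, 0, 3, 1), (-1, 1, 0, 4, 1), (-1, 1, 1, 0, 1), (1, 19, 1, 2, 1), (-1, 28, 1, 3, 1), (1, 1, 2, 0, 1), (1, 19, 2, 1, 1), (-1, 37, 2, 2, 1), (-1, 1, 3, 0, 1), (-1, 28, 3, 1, 1), (-1, 1, 4, 0, 1), (1, 4, 0, 0, 1), (-1, 4, 0, 1, 1), (1, 4, 4, 0, 1), (1, 40, 4, 1, 1), (1, 4, 8, 0, 1), (1, 16, 0, 0, 1)]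
  | 5, 2 => [(-1, 1, 0, 0, 1), (-1, 1, 0, 2, 1), (-1, 1, 0, 3, 1), (-1, 19, 1, 2, 1), (-1, 28, 1, 3, 1), (1, 19, 2, 1, 1), (1, 37, 2, 2, 1), (-1, 1, 3, 0, 1), (1, 28, 3, 1, 1), (1, 1, 4, 0, 1), (-1, 4, 0, 1, 1), (-1, 4, 8, 0, 1), (-1, 16, 0, 0, 1)]
  | 5, 3 => [(-1, 1, 0, 0, 1), (1, 1, 0, 2, 1), (-1, 1, 0, 4, 1), (1, 1, 1, 0, 1), (1, 10, 1, 1, 1), (1, 19, 1, 2, 1), (1, 28, 1, 3, 1), (-1, 1, 2, 0, 1), (1, 19, 2, 1, 1), (-1, 37, 2, 2, 1), (1, 1, 3, 0, 1), (-1, 28, 3, 1, 1), (1, 4, 0, 1, 1), (-1, 4, 0, 2, 1), (1, 4, 4, 0, 1), (-1, 40, 4, 1, 1)]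
  | 5, 4 => [(-1, 1, 0, 1, 1), (1, 1, 0, 2, 1), (1, 1, 0, 3, 1), (1, 1, 0, 4, 1), (1, 1, 1, 0, 1), (1, 19, 1, 2, 1), (1, 28, 1, 3, 1), (1, 1, 2, 0, 1), (-1, 19, 2, 1, 1), (1, 37, 2, 2, 1), (-1, 1, 3, 0, 1), (1, 28, 3, 1, 1), (-1, 4, 0, 0, 1), (1, 4, 0, 1, 1), (1, 4, 0, 2, 1), (1, 16, 0, 0, 1), (1, -1, 0, 0, 1), (-1, -1, 0, 1, 1), (-1, -1, 0, 2, 1), (-1, -1, 0, 3, 1), (-1, -1, -1, 0, 1), (1, -10, -1, 1, 1), (-1, -19, -1, 2, 1), (1, -19, -2, 1, 1), (1, -1, -3, 0, 1), (1, -4, 0, 1, 1)]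
  | 6, 0 => [(1, 1, 0, 1, 1), (-1, 1, 0, 3, 1), (1, 1, 0, 4, 1), (-1, 1, 1, 0, 1), (1, 1, 2, 0, 1), (1, 19, 2, 1, 1), (-1, 37, 2, 2, 1), (1, 1, 4, 0, 1), (-1, 4, 0, 0, 1), (1, 4, 0, 1, 1), (1, 4, 4, 0, 1), (1, 16, 0, 0, 1)]
  | 6, 1 => [(-1, 1, 0, 0, 1), (1, 1, 0, 4, 1), (-1, 10, 1, 1, 1), (-1, 28, 1, 3, 1), (-1, 19, 2, 1, 1), (1, 37, 2, 2, 1), (-1, 28, 3, 1, 1), (-1, 1, 4, 0, 1), (1, 4, 0, 2, 1), (-1, 4, 4, 0, 1), (-1, 4, 8, 0, 1), (1, 16, 0, 0, 1)]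
  | 6, 2 => [(1, 1, 0, 3, 1), (-1, 1, 0, 4, 1), (1, 1, 1, 0, 1), (1, 10, 1, 1, 1), (-1, 19, 1, 2, 1), (1, 1, 2, 0, 1), (-1, 19, 2, 1, 1), (1, 37, 2, 2, 1), (-1, 1, 3, 0, 1), (-1, 28, 3, 1, 1), (-1, 1, 4, 0, 1), (1, 4, 0, 0, 1), (1, 4, 0, 2, 1), (-1, 40, 4, 1, 1), (-1, 4, 8, 0, 1)]
  | 6, 3 => [(-1, 1, 0, 0, 1), (-1, 1, 0, 1, 1), (-1, 19, 1, 2, 1), (1, 28, 1, 3, 1), (-1, 19, 2, 1, 1), (-1, 37, 2, 2, 1), (1, 28, 3, 1, 1), (-1, 1, 4, 0, 1), (1, 4, 0, 1, 1), (-1, 4, 0, 2, 1), (1, 4, 4, 0, 1), (1, 40, 4, 1, 1), (1, 4, 8, 0, 1), (-1, 16, 0, 0, 1)]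
  | 6, 4 => [(-1, 1, 0, 0, 1), (1, 1, 0, 1, 1), (-1, 1, 0, 3, 1), (-1, 1, 0, 4, 1), (-1, 19, 1, 2, 1), (-1, 28, 1, 3, 1), (1, 19, 2, 1, 1), (-1, 37, 2, 2, 1), (1, 1, 3, 0, 1), (1, 28, 3, 1, 1), (-1, 4, 0, 2, 1), (1, 4, 4, 0, 1), (-1, 40, 4, 1, 1), (-1, 16, 0, 0, 1), (1, -1, 0, 0, 1), (-1, -1, 0, 1, 1), (1, -1, 0, 2, 1), (1, -1, 0, 3, 1), (-1, -1, -1, 0, 1), (-1, -10, -1, 1, 1), (1, -19, -1, 2, 1), (1, -1, -2, 0, 1), (-1, -19, -2, 1, 1), (1, -1, -3, 0, 1), (-1, -4, 0, 1, 1)]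
  | 7, 0 => [(-1, 1, 0, 0, 1), (1, 1, 0, 4, 1), (1, 1, 1, 0, 1), (-1, 10, 1, 1, 1), (-1, 19, 1, 2, 1), (1, 28, 1, 3, 1), (-1, 1, 2, 0, 1), (1, 19, 2, 1, 1), (-1, 37, 2, 2, 1), (1, 28, 3, 1, 1), (-1, 1, 4, 0, 1), (1, 4, 0, 0, 1), (-1, 4, 0, 1, 1), (1, 4, 4, 0, 1), (-1, 4, 8, 0, 1), (1, 16, 0, 0, 1)]
  | 7, 1 => [(1, 1, 0, 1, 1), (1, 1, 0, 2, 1), (1, 1, 0, 3, 1), (1, 1, 1, 0, 1), (-1, 10, 1, 1, 1), (1, 19, 1, 2, 1), (1, 28, 1, 3, 1), (1, 1, 2, 0, 1), (-1, 19, 2, 1, 1), (1, 37, 2, 2, 1), (-1, 1, 4, 0, 1), (-1, 4, 0, 0, 1), (-1, 4, 0, 1, 1), (1, 4, 8, 0, 1)]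
  | 7, 2 => [(1, 1, 0, 0, 1), (1, 1, 0, 1, 1), (-1, 1, 1, 0, 1), (1, 10, 1, 1, 1), (-1, 19, 1, 2, 1), (1, 1, 2, 0, 1), (-1, 19, 2, 1, 1), (-1, 1, 3, 0, 1), (-1, 28, 3, 1, 1), (-1, 1, 4, 0, 1), (-1, 4, 0, 1, 1), (1, 4, 0, 2, 1), (-1, 4, 4, 0, 1), (1, 4, 8, 0, 1), (1, 16, 0, 0, 1)]
  | 7, 3 => [(-1, 1, 0, 1, 1), (-1, 1, 0, 2, 1), (1, 1, 0, 4, 1), (-1, 1, 1, 0, 1), (1, 10, 1, 1, 1), (-1, 28, 1, 3, 1), (1, 1, 2, 0, 1), (1, 19, 2, 1, 1), (-1, 37, 2, 2, 1), (1, 28, 3, 1, 1), (-1, 1, 4, 0, 1), (1, 4, 0, 2, 1), (1, 4, 4, 0, 1), (-1, 40, 4, 1, 1), (1, 4, 8, 0, 1)]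
  | 7, 4 => [(1, 1, 0, 0, 1), (-1, 1, 0, 1, 1), (1, 1, 0, 2, 1), (-1, 1, 0, 3, 1), (1, 1, 1, 0, 1), (-1, 28, 1, 3, 1), (1, 1, 2, 0, 1), (1, 37, 2, 2, 1), (-1, 1, 4, 0, 1), (1, 4, 0, 0, 1), (-1, 4, 0, 1, 1), (1, 4, 0, 2, 1), (-1, 40, 4, 1, 1), (1, 4, 8, 0, 1), (-1, 16, 0, 0, 1), (-1, -1, 0, 2, 1), (1, -1, 0, 3, 1), (1, -1, -1, 0, 1), (1, -19, -1, 2, 1), (-1, -19, -2, 1, 1), (-1, -1, -3, 0, 1), (1, -4, 0, 0, 1), (-1, -4, 0, 1, 1), (-1, -4, -4, 0, 1)]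
  | 8, 0 => [(1, 1, 0, 0, 1), (1, 1, 0, 1, 1), (1, 1, 0, 2, 1), (1, 1, 0, 4, 1), (1, 1, 1, 0, 1), (1, 28, 1, 3, 1), (1, 1, 2, 0, 1), (1, 19, 2, 1, 1), (-1, 37, 2, 2, 1), (1, 1, 3, 0, 1), (1, 4, 0, 0, 1), (-1, 4, 0, 1, 1), (1, 4, 0, 2, 1), (-1, 4, 4, 0, 1), (-1, 4, 8, 0, 1), (1, 16, 0, 0, 1)]
  | 8, 1 => [(1, 1, 0, 0, 1), (1, 1, 0, 1, 1), (1, 1, 0, 2, 1), (1, 1, 0, 3, 1), (-1, 19, 1, 2, 1), (-1, 28, 1, 3, 1), (-1, 1, 2, 0, 1), (1, 37, 2, 2, 1), (-1, 1, 3, 0, 1), (1, 28, 3, 1, 1), (1, 1, 4, 0, 1), (-1, 4, 0, 1, 1), (-1, 40, 4, 1, 1), (1, 4, 8, 0, 1), (-1, 16, 0, 0, 1)]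
  | 8, 2 => [(-1, 1, 0, 1, 1), (-1, 1, 0, 3, 1), (1, 1, 0, 4, 1), (1, 1, 1, 0, 1), (-1, 19, 1, 2, 1), (1, 28, 1, 3, 1), (1, 1, 2, 0, 1), (-1, 19, 2, 1, 1), (1, 37, 2, 2, 1), (1, 1, 3, 0, 1), (1, 28, 3, 1, 1), (1, 1, 4, 0, 1), (1, 4, 0, 0, 1), (1, 4, 0, 1, 1), (-1, 4, 0, 2, 1), (1, 40, 4, 1, 1), (1, 16, 0, 0, 1)]
  | 8, 3 => [(-1, 1, 0, 0, 1), (-1, 1, 0, 2, 1), (-1, 1, 0, 3, 1), (-1, 1, 0, 4, 1), (-1, 1, 1, 0, 1), (1, 10, 1, 1, 1), (1, 28, 1, 3, 1), (-1, 37, 2, 2, 1), (-1, 1, 3, 0, 1), (1, 4, 0, 0, 1), (-1, 4, 0, 1, 1), (-1, 4, 0, 2, 1), (1, 4, 4, 0, 1), (-1, 40, 4, 1, 1), (-1, 16, 0, 0, 1)]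
  | 8, 4 => [(-1, 1, 0, 0, 1), (-1, 1, 0, 1, 1), (1, 1, 0, 2, 1), (1, 1, 0, 4, 1), (1, 10, 1, 1, 1), (1, 28, 1, 3, 1), (1, 19, 2, 1, 1), (1, 1, 3, 0, 1), (1, 1, 4, 0, 1), (-1, 4, 0, 0, 1), (-1, 4, 0, 1, 1), (-1, 4, 0, 2, 1), (1, 40, 4, 1, 1), (1, 16, 0, 0, 1), (1, -1, 0, 0, 1), (1, -1, 0, 1, 1), (-1, -1, 0, 2, 1), (1, -1, 0, 3, 1), (-1, -1, -1, 0, 1), (-1, -19, -1, 2, 1), (1, -1, -2, 0, 1), (1, -19, -2, 1, 1), (-1, -1, -3, 0, 1), (-1, -4, 0, 0, 1), (-1, -4, -4, 0, 1)]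

/-- Multipliers of the relations for the first operators. -/
def mPT : Fin 6 → Fin 5 → List Tm
  | 0, 0 => [(1, 1, 0, 0, 1), (1, 1, 0, 1, 1)]
  | 0, 1 => [(-1, 1, 0, 1, 1), (1, 1, 1, 0, 1)]
  | 0, 2 => [(1, 1, 0, 0, 1), (-1, 1, 0, 1, 1), (-1, 10, 1, 1, 1)]
  | 0, 3 => [(1, 1, 0, 0, 1), (1, 1, 0, 1, 1), (1, 1, 0, 2, 1), (1, 1, 2, 0, 1)]
  | 0, 4 => [(1, 1, 0, 0, 1)]
  | 1, 0 => [(1, 1, 0, 0, 1)]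
  | 1, 1 => [(-1, 1, 0, 0, 1)]
  | 1, 2 => [(-1, 1, 0, 0, 1)]
  | 1, 3 => []
  | 1, 4 => [(-1, 1, 0, 0, 1), (1, 1, 0, 1, 1)]
  | 2, 0 => [(-1, 1, 0, 0, 1)]
  | 2, 1 => [(1, 1, 0, 0, 1)]
  | 2, 2 => []
  | 2, 3 => [(-1, 1, 0, 0, 1)]
  | 2, 4 => [(1, 1, 0, 0, 1), (1, 1, 0, 1, 1), (-1, 1, 1, 0, 1)]
  | 3, 0 => [(1, 1, 0, 0, 1), (1, 10, 1, 1, 1)]
  | 3, 1 => [(1, 1, 0, 0, 1), (1, 1, 1, 0, 1), (1, 10, 1, 1, 1)]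
  | 3, 2 => [(-1, 1, 0, 0, 1), (1, 1, 0, 1, 1), (1, 1, 1, 0, 1), (-1, 10, 1, 1, 1)]
  | 3, 3 => [(-1, 1, 0, 2, 1), (-1, 1, 2, 0, 1)]
  | 3, 4 => [(1, 1, 0, 1, 1), (1, 1, 0, 2, 1), (-1, 1, 1, 0, 1), (1, 1, 3, 0, 1)]
  | 4, 0 => []
  | 4, 1 => []
  | 4, 2 => []
  | 4, 3 => []
  | 4, 4 => []
  | 5, 0 => [(-1, 1, 0, 0, 1)]
  | 5, 1 => []
  | 5, 2 => []
  | 5, 3 => [(-1, 1, 0, 0, 1)]
  | 5, 4 => []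

end Pool.Agent.Helper93.T53
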