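import Pool.Agent.Helper78.W3.StD

/-!
# Levels `5·3^n`: rows of Hecke operators and multipliers of the relations (second part)

The term `(k, a, b, c, d)` is `k` times the operator of `(a 3b; 3c d)`. The nine plane functions are the paths `-1 → ∞`, `-1 → -3/5`, `-3/5 → -1/2`, `1/2 → 3/5`, `-2/5 → 0`, `-1/2 → -2/5`, `2/5 → 1/2`, `1 → 7/5`, `8/5 → 2`.
-/

set_option autoImplicit false

namespace Pool.Agent.Helper93.T53

open Pool.Agent.Helper78.W3 (Tm)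

/-- The rows of `T_17`. -/
def T17T : Fin 9 → Fin 9 → List Tm
  | 0, 0 => [(1, 1, -5, 0, 17), (-1, 10, 3, -5, -5), (1, 10, 13, -5, -50), (-1, 14, 1, -5, -2), (1, 14, 15, -5, -47), (1, 17, -3, 0, 1), (1, 17, -2, 0, 1), (1, 17, -1, 0, 1), (1, 17, 0, 0, 1), (1, 17, 1, 0, 1), (1, 17, 2, 0, 1), (1, 17, 3, 0, 1), (1, 17, 4, 0, 1), (1, 17, 5, 0, 1), (1, 17, 6, 0, 1), (1, 17, 7, 0, 1), (1, 17, 8, 0, 1), (1, 17, 9, 0, 1), (1, 17, 10, 0, 1), (1, 17, 11, 0, 1), (1, 17, 12, 0, 1), (1, 17, 13, 0, 1), (1, 20, -7, -5, 20), (-1, 20, 13, -5, -25)]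
  | 0, 1 => [(1, 10, 3, -5, -5), (-1, 13, 5, -5, -16), (1, 14, 1, -5, -2), (-1, 17, -3, 0, 1), (-1, 17, -2, 0, 1), (-1, 17, -1, 0, 1), (-1, 17, 0, 0, 1), (-1, 17, 1, 0, 1), (-1, 17, 2, 0, 1), (-1, 17, 3, 0, 1), (-1, 20, -7, -5, 20), (-1, 40, 11, -15, -35), (1, 50, 13, -5, -10)]
  | 0, 2 => [(-1, 1, 0, 10, 17), (-1, 5, 3, -5, -10), (1, 10, 3, -5, -5), (-1, 13, 5, -5, -16), (1, 14, 1, -5, -2), (-1, 17, -3, 0, 1), (-1, 17, -2, 0, 1), (-1, 17, -1, 0, 1), (-1, 17, 0, 0, 1), (-1, 17, 1, 0, 1), (-1, 17, 2, 0, 1), (-1, 20, -7, -5, 20), (-1, 25, 4, 15, 25), (1, 26, 5, -5, -8), (-1, 40, 11, -15, -35), (-1, 43, 10, -15, -31), (1, 71, 13, -5, -8), (-1, 73, 15, -25, -46), (-1, 103, 20, -35, -61), (-1, 133, 25, -45, -76), (-1, 145, 28, -55, -95), (-1, 160, 29, 15, 25), (-1, 211, 39, -80, -133), (-1, 295, 54, 15, 25), (-1, 430, 79, 15, 25), (-1, 445, 83, -155,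 -260), (-1, 565, 104, 15, 25), (-1, 745, 138, -255, -425), (-1, 1045, 193, -355, -590)]
  | 0, 3 => [(-1, 10, -3, 5, -5), (-1, 25, -4, -15, 25), (-1, 26, -5, 5, -8), (-1, 29, -4, -10, 13), (1, 40, -7, -5, 10), (-1, 83, -15, -30, 49), (1, 91, -17, -10, 17), (1, 95, -18, -20, 35), (-1, 110, -21, 15, -25), (-1, 221, -41, -85, 142), (-1, 245, -46, 15, -25), (-1, 365, -67, -130, 215), (-1, 380, -71, 15, -25), (-1, 515, -96, 15, -25), (-1, 650, -121, 15, -25), (-1, 740, -137, -255, 425), (-1, 1115, -207, -380, 635)]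
  | 0, 4 => [(-1, 5, 3, -5, -10), (1, 14, 1, -5, -2), (-1, 17, -3, 0, 1), (-1, 17, -2, 0, 1), (-1, 17, -1, 0, 1), (1, 17, 0, -5, 1), (-1, 17, 0, 0, 1), (-1, 17, 1, 0, 1), (-1, 20, -7, -5, 20), (1, 35, -1, -10, 5), (1, 110, 9, -35, -25)]
  | 0, 5 => [(-1, 5, 3, -5, -10), (1, 10, 3, -5, -5), (1, 14, 1, -5, -2), (-1, 17, -3, 0, 1), (-1, 17, -2, 0, 1), (-1, 17, -1, 0, 1), (-1, 17, 0, 0, 1), (-1, 17, 1, 0, 1), (-1, 17, 2, 0, 1), (-1, 20, -7, -5, 20), (-1, 40, 11, -15, -35), (1, 55, 8, -5, -5), (-1, 115, 21, -40, -65), (-1, 190, 31, -65, -95), (-1, 265, 41, -90, -125), (-1, 340, 51, -115, -155)]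
  | 0, 6 => [(-1, 17, -3, 0, 1), (1, 19, -3, -5, 8), (-1, 29, -4, -10, 13), (1, 41, -6, -5, 7)]
  | 0, 7 => [(1, 1, -6, 0, 17), (1, 10, 3, -5, -5), (1, 14, 1, -5, -2), (1, 16, -11, -5, 32), (1, 17, -7, 0, 1), (1, 17, -6, 0, 1), (1, 17, -5, 0, 1), (1, 17, -4, 0, 1), (-1, 20, -7, -5, 20), (1, 25, -12, -5, 25), (-1, 25, -6, -10, 25), (1, 31, -16, -10, 47)]
  | 0, 8 => [(1, 1, -6, 0, 17), (1, 10, 3, -5, -5), (-1, 11, -5, -5, 22), (1, 14, 1, -5, -2), (1, 16, -11, -5, 32), (1, 17, -8, 0, 1), (1, 17, -7, 0, 1), (1, 17, -6, 0, 1), (1, 17, -5, 0, 1), (1, 17, -4, 0, 1), (-1, 20, -13, 5, -25), (-1, 20, -7, -5, 20)]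
  | 1, 0 => [(1, 1, -5, 0, 17), (-1, 1, -3, 0, 17), (1, 5, 3, -5, -10), (-1, 5, 8, -5, -55), (-1, 10, -17, -5, 85), (1, 10, -3, 5, -5), (-1, 10, 7, 5, 40), (1, 10, 13, -5, -50), (-1, 14, 1, -5, -2), (1, 14, 15, -5, -47), (1, 20, -7, -5, 20), (-1, 20, 13, -5, -25), (-1, 55, -17, -30, 85), (1, 55, 38, -30, -185)]
  | 1, 1 => [(-1, 5, 3, -5, -10), (1, 8, 5, -5, -26), (1, 10, -17, -5, 85), (-1, 10, -3, 5, -5), (-1, 13, 5, -5, -16), (1, 14, 1, -5, -2), (1, 17, 4, 0, 1), (-1, 20, -7, -5, 20), (1, 35, 17, -20, -85), (-1, 40, 11, -15, -35), (1, 53, 14, -30, -71), (1, 55, -17, -30, 85), (-1, 85, 17, -45, -80)]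
  | 1, 2 => [(-1, 5, 3, -5, -10), (1, 10, -17, -5, 85), (-1, 10, -3, 5, -5), (-1, 13, 5, -5, -16), (1, 14, 1, -5, -2), (-1, 20, -7, -5, 20), (1, 35, 17, -20, -85), (-1, 37, 4, -20, -19), (1, 40, 7, 5, 10), (-1, 40, 11, -15, -35), (-1, 43, 10, -15, -31), (1, 49, 9, 50, 83), (1, 55, -17, -30, 85), (1, 71, 13, -5, -8), (-1, 73, 15, -25, -46), (1, 80, 17, -45, -85), (-1, 82, 13, -45, -64), (-1, 103, 20, -35, -61), (-1, 115, 21, -40, -65), (-1, 127, 22, -70, -109), (-1, 133, 25, -45, -76), (-1, 145, 28, -55, -95), (1, 146, 27, -95, -158), (-1, 172, 31, -95, -154), (-1, 211, 39, -80, -133), (-1, 217, 40, -120, -199), (1, 250, 47, -145, -245), (-1, 256, 47, -135, -223), (-1, 445, 83, -155, -260), (-1, 745, 138, -255, -425), (-1, 1045, 193, -355, -590)]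
  | 1, 3 => [(-1, 10, -3, 5, -5), (1, 17, 0, -10, 1), (-1, 25, -6, -10, 25), (-1, 29, -4, -10, 13), (-1, 37, -7, -15, 26), (1, 59, -11, 55, -92), (1, 62, -9, -35, 46), (-1, 83, -15, -30, 49), (1, 91, -17, -10, 17), (1, 95, -18, -20, 35), (1, 107, -18, -60, 91), (1, 151, -28, -100, 167), (1, 152, -27, -85, 136), (-1, 155, -29, -65, 110), (1, 155, -28, -95, 155), (1, 197, -36, -110, 181), (-1, 221, -41, -85, 142), (-1, 311, -58, -165, 277), (-1, 365, -67, -130, 215), (-1, 740, -137, -255, 425), (-1, 1115, -207, -380, 635)]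
  | 1, 4 => [(1, 4, 1, -5, -7), (-1, 5, 3, -5, -10), (1, 7, 1, -5, -4), (1, 10, -17, -5, 85), (-1, 10, -3, 5, -5), (1, 17, 0, -5, 1), (-1, 20, -7, -5, 20), (1, 35, -1, -10, 5), (1, 35, 17, -20, -85), (1, 55, -17, -30, 85), (1, 80, 17, -45, -85), (1, 110, 9, -35, -25), (1, 125, 17, -70, -85)]
  | 1, 5 => [(-1, 5, 3, -5, -10), (1, 10, -17, -5, 85), (-1, 10, -3, 5, -5), (1, 14, 1, -5, -2), (-1, 20, -7, -5, 20), (1, 35, 17, -20, -85), (-1, 40, 11, -15, -35), (1, 55, -17, -30, 85), (1, 55, 9, -35, -50), (1, 80, 17, -45, -85), (-1, 115, 21, -40, -65), (-1, 190, 31, -65, -95), (1, 200, 31, -115, -160), (-1, 265, 41, -90, -125), (-1, 340, 51, -115, -155)]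
  | 1, 6 => [(1, 17, 0, -10, 1), (-1, 29, -4, -10, 13), (1, 41, -6, -5, 7), (1, 59, -8, -35, 43), (1, 62, -9, -35, 46)]
  | 1, 7 => [(1, 1, -6, 0, 17), (-1, 5, 3, -5, -10), (1, 8, -3, -5, 19), (-1, 10, -3, 5, -5), (1, 10, 3, -5, -5), (-1, 11, -5, -5, 22), (1, 14, 1, -5, -2), (1, 16, -11, -5, 32), (-1, 19, -11, -10, 53), (-1, 20, -7, -5, 20), (1, 25, -12, -5, 25), (-1, 25, -6, -10, 25), (1, 25, -4, -15, 25), (1, 31, -16, -10, 47), (1, 55, -17, -30, 85)]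
  | 1, 8 => [(1, 1, -6, 0, 17), (-1, 5, 3, -5, -10), (1, 8, -3, -5, 19), (-1, 10, -3, 5, -5), (1, 10, 3, -5, -5), (-1, 11, -5, -5, 22), (1, 14, 1, -5, -2), (1, 16, -11, -5, 32), (1, 20, -9, -15, 65), (-1, 20, -7, -5, 20), (1, 35, -18, -20, 95), (1, 55, -17, -30, 85), (-1, 65, -41, -35, 200)]
  | 2, 0 => [(1, 7, 1, -5, -4), (-1, 7, 8, -5, -49), (-1, 8, -3, -5, 19), (1, 8, 5, -5, -26), (1, 10, -17, -5, 85), (-1, 10, -7, -5, 40), (1, 55, -17, -30, 85), (-1, 55, 38, -30, -185)]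
  | 2, 1 => [(1, 1, -3, 0, 17), (-1, 7, 1, -5, -4), (-1, 8, 5, -5, -26), (-1, 10, -17, -5, 85), (1, 10, -7, -5, 40), (1, 11, 3, -10, -23), (-1, 23, 2, -15, -11), (-1, 35, 17, -20, -85), (-1, 38, 7, -25, -41), (-1, 53, 12, -35, -71), (-1, 53, 14, -30, -71), (-1, 55, -17, -30, 85), (-1, 55, 9, -35, -50), (1, 85, 17, -45, -80), (-1, 130, 29, -85, -170)]
  | 2, 2 => [(1, 1, -3, 0, 17), (-1, 7, 1, -5, -4), (-1, 10, -17, -5, 85), (1, 10, -7, -5, 40), (-1, 23, 2, -15, -11), (1, 31, 6, -25, -43), (-1, 35, 17, -20, -85), (1, 37, 4, -20, -19), (-1, 38, 7, -25, -41), (-1, 41, 7, -25, -38), (-1, 55, -17, -30, 85), (-1, 55, 9, -35, -50), (-1, 80, 17, -45, -85), (1, 82, 13, -45, -64), (1, 127, 22, -70, -109), (-1, 146, 27, -95, -158), (1, 172, 31, -95, -154), (-1, 215, 39, -135, -220), (1, 217, 40, -120, -199), (-1, 250, 47, -145, -245), (1, 256, 47, -135, -223)]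
  | 2, 3 => [(1, 4, -1, 5, -7), (-1, 17, 0, -10, 1), (-1, 25, -4, -15, 25), (1, 25, -3, -20, 25), (-1, 31, -8, -20, 47), (-1, 61, -13, -40, 77), (-1, 62, -9, -35, 46), (-1, 85, -17, -55, 100), (-1, 91, -18, -60, 107), (-1, 107, -18, -60, 91), (-1, 121, -23, -80, 137), (-1, 151, -28, -100, 167), (-1, 152, -27, -85, 136), (-1, 155, -28, -95, 155), (-1, 197, -36, -110, 181), (1, 311, -58, -165, 277), (-1, 325, -61, -210, 355)]
  | 2, 4 => [(1, 1, -3, 0, 17), (-1, 7, 1, -5, -4), (-1, 10, -17, -5, 85), (1, 10, -7, -5, 40), (1, 14, 1, -5, -2), (-1, 23, 2, -15, -11), (-1, 35, 17, -20, -85), (1, 50, 9, -35, -55), (-1, 55, -17, -30, 85), (-1, 80, 17, -45, -85), (-1, 125, 17, -70, -85)]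
  | 2, 5 => [(1, 1, -3, 0, 17), (-1, 7, 1, -5, -4), (-1, 10, -17, -5, 85), (1, 10, -7, -5, 40), (-1, 23, 2, -15, -11), (-1, 35, 17, -20, -85), (1, 50, 9, -35, -55), (-1, 55, -17, -30, 85), (-1, 55, 9, -35, -50), (-1, 80, 17, -45, -85), (-1, 200, 31, -115, -160)]
  | 2, 6 => [(1, 1, -3, 0, 17), (1, 8, -1, -15, 19), (1, 10, -7, -5, 40), (-1, 17, 0, -10, 1), (1, 29, -2, -20, 13), (-1, 59, -8, -35, 43), (1, 59, -7, -40, 43), (-1, 62, -9, -35, 46), (1, 89, -12, -60, 73), (1, 119, -17, -80, 103), (1, 149, -22, -100, 133)]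
  | 2, 7 => [(1, 5, -1, -10, 35), (1, 5, 3, -5, -10), (1, 11, -5, -5, 22), (1, 19, -11, -10, 53), (1, 22, -9, -15, 56), (-1, 25, -4, -15, 25), (-1, 55, -17, -30, 85)]
  | 2, 8 => [(1, 22, -9, -15, 56), (-1, 35, -18, -20, 95), (1, 37, -19, -25, 116), (-1, 55, -17, -30, 85), (1, 65, -41, -35, 200)]
  | 3, 0 => [(1, 1, 3, 0, 17), (-1, 1, 4, 0, 17), (-1, 8, 3, 5, 19), (1, 8, 11, 5, 64), (1, 10, 7, 5, 40), (-1, 10, 17, 5, 85), (-1, 23, -2, 15, -11), (1, 23, 21, 15, 124), (-1, 35, -17, 20, -85), (1, 35, 18, 20, 95), (-1, 80, -17, 45, -85), (1, 80, 63, 45, 320)]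
  | 3, 1 => [(-1, 1, 3, 0, 17), (1, 7, -1, 5, -4), (-1, 10, 7, 5, 40), (1, 10, 17, 5, 85), (1, 23, -2, 15, -11), (-1, 25, 4, 15, 25), (1, 28, 9, 15, 44), (-1, 31, 8, 20, 47), (1, 35, -17, 20, -85), (1, 55, 17, 30, 85), (1, 80, -17, 45, -85)]
  | 3, 2 => [(-1, 1, 3, 0, 17), (1, 7, -1, 5, -4), (-1, 10, 7, 5, 40), (1, 10, 17, 5, 85), (-1, 17, 0, 10, 1), (1, 23, -2, 15, -11), (1, 25, 3, 20, 25), (-1, 25, 4, 15, 25), (-1, 31, 8, 20, 47), (1, 35, -17, 20, -85), (1, 55, 17, 30, 85), (-1, 61, 13, 40, 77), (-1, 62, 9, 35, 46), (1, 80, -17, 45, -85), (-1, 85, 17, 55, 100), (-1, 91, 18, 60, 107), (-1, 107, 18, 60, 91), (-1, 121, 23, 80, 137), (-1, 151, 28, 100, 167), (-1, 152, 27, 85, 136), (-1, 155, 28, 95, 155), (1, 155, 29, 65, 110), (-1, 197, 36, 110, 181), (-1, 325, 61, 210, 355), (1, 470, 87, 255, 425), (-1, 581, 107, 330, 547), (-1, 625, 116, 410, 685),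 (-1, 925, 171, 610, 1015), (-1, 1225, 226, 810, 1345)]
  | 3, 3 => [(1, 37, -4, 20, -19), (-1, 38, -7, 25, -41), (-1, 41, -7, 25, -38), (-1, 55, -9, 35, -50), (1, 82, -13, 45, -64), (1, 115, -21, 40, -65), (1, 127, -22, 70, -109), (-1, 146, -27, 95, -158), (1, 172, -31, 95, -154), (-1, 215, -39, 135, -220), (1, 217, -40, 120, -199), (-1, 250, -47, 145, -245), (1, 475, -88, 255, -425), (-1, 590, -109, 385, -640), (-1, 661, -123, 375, -628), (-1, 965, -179, 635, -1060), (-1, 1340, -249, 885, -1480)]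
  | 3, 4 => [(1, 10, 17, 5, 85), (-1, 17, 0, 10, 1), (1, 23, -2, 15, -11), (-1, 25, 4, 15, 25), (1, 29, 2, 20, 13), (1, 35, -17, 20, -85), (1, 55, 17, 30, 85), (1, 65, 3, 45, 20), (1, 80, -17, 45, -85), (1, 100, 17, 55, 85), (1, 145, 17, 80, 85)]
  | 3, 5 => [(1, 7, -1, 5, -4), (-1, 10, 7, 5, 40), (1, 10, 17, 5, 85), (1, 17, 3, 0, 1), (1, 23, -2, 15, -11), (-1, 25, 4, 15, 25), (1, 25, 6, 10, 25), (1, 35, -17, 20, -85), (1, 55, 17, 30, 85), (1, 65, 9, 15, 20), (1, 80, -17, 45, -85), (-1, 85, 17, 55, 100), (1, 100, 17, 55, 85), (-1, 160, 27, 105, 160), (-1, 235, 37, 155, 220), (-1, 310, 47, 205, 280), (1, 340, 51, 185, 250)]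
  | 3, 6 => [(1, 23, -3, 10, -11), (1, 37, -4, 20, -19), (-1, 43, -6, 25, -31)]
  | 3, 7 => [(-1, 1, 3, 0, 17), (1, 7, -8, 5, -49), (-1, 8, -5, 5, -26), (1, 8, 3, 5, 19), (1, 13, -5, 5, -16), (1, 22, -13, 15, -79), (1, 23, -2, 15, -11), (1, 35, -17, 20, -85), (1, 37, -18, 25, -109), (1, 65, -24, 35, -115), (1, 80, -17, 45, -85)]
  | 3, 8 => [(-1, 1, 3, 0, 17), (1, 5, -8, 5, -55), (1, 5, -4, 10, -55), (1, 7, -8, 5, -49), (-1, 8, -5, 5, -26), (1, 8, 3, 5, 19), (1, 11, -6, 5, -23), (1, 19, -8, 10, -37), (1, 22, -13, 15, -79), (1, 23, -2, 15, -11), (-1, 25, -21, 15, -110), (1, 35, -17, 20, -85), (1, 80, -17, 45, -85)]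
  | 4, 0 => [(1, 1, -2, 0, 17), (-1, 1, 0, -5, 17), (-1, 1, 0, 0, 17), (1, 1, 1, -5, -28), (-1, 5, 3, -5, -10), (1, 5, 13, -5, -100)]
  | 4, 1 => [(1, 1, 0, -5, 17), (1, 1, 0, 0, 17), (1, 1, 0, 5, 17), (-1, 2, 1, -5, -14), (-1, 4, 1, -5, -7), (1, 5, 1, 10, 35), (1, 5, 1, 35, 80), (1, 7, 1, -5, -4), (-1, 11, 3, -10, -23), (1, 25, -3, -20, 25), (1, 31, 6, -25, -43), (1, 55, 7, -45, -50), (1, 85, 17, -70, -125)]
  | 4, 2 => [(1, 1, 0, -5, 17), (1, 1, 0, 0, 17), (1, 1, 0, 5, 17), (-1, 4, 1, -5, -7), (-1, 5, 1, -115, -190), (-1, 5, 1, -90, -145), (-1, 5, 1, -65, -100), (-1, 5, 1, -40, -55), (-1, 5, 1, -15, -10), (1, 7, 1, -5, -4), (1, 11, 2, 40, 67), (-1, 11, 3, -10, -23), (-1, 16, 3, -35, -58), (1, 25, -3, -20, 25), (1, 38, 7, -25, -41), (1, 50, 9, -35, -55), (1, 55, 7, -45, -50), (-1, 59, 11, -55, -92), (-1, 65, 12, -70, -115), (1, 131, 24, -105, -173),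 (1, 145, 26, -115, -185)]
  | 4, 3 => [(-1, 1, 0, -10, 17), (1, 5, -1, 15, -10), (1, 5, -1, 40, -55), (1, 5, -1, 65, -100), (1, 5, -1, 90, -145), (1, 5, -1, 115, -190), (-1, 11, -2, -40, 67), (1, 13, -4, -10, 29), (1, 16, -3, 35, -58), (1, 20, -9, -15, 65), (1, 43, -8, -35, 59), (1, 46, -9, -35, 62), (-1, 49, -9, -50, 83), (-1, 70, -13, -95, 160), (1, 80, -19, -65, 140), (1, 140, -29, -115, 215), (1, 166, -31, -135, 227), (1, 200, -39, -165, 290), (1, 260, -49, -215, 365)]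
  | 4, 4 => [(1, 1, 0, -5, 17), (1, 1, 0, 0, 17), (1, 1, 0, 5, 17), (1, 1, 0, 10, 17), (1, 1, 0, 15, 17), (-1, 4, 1, -5, -7), (-1, 5, 1, -15, -10), (-1, 11, 3, -10, -23), (1, 25, -3, -20, 25), (-1, 41, 5, -35, -38), (-1, 50, 7, -45, -55)]
  | 4, 5 => [(1, 1, 0, -5, 17), (1, 1, 0, 0, 17), (1, 1, 0, 5, 17), (1, 1, 0, 10, 17), (-1, 4, 1, -5, -7), (-1, 5, 1, -15, -10), (1, 7, 1, -5, -4), (-1, 11, 3, -10, -23), (1, 25, -3, -20, 25), (1, 55, 7, -45, -50)]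
  | 4, 6 => [(-1, 1, 0, -10, 17), (-1, 7, -1, -30, 41), (-1, 8, -1, -15, 19), (1, 13, -4, -10, 29), (-1, 40, -1, -35, 10), (1, 43, -8, -35, 59), (1, 73, -12, -60, 89), (1, 103, -16, -85, 119)]
  | 4, 7 => [(1, 2, -1, 5, -14), (1, 5, -3, 5, -10), (-1, 5, -2, -5, 35), (-1, 5, -1, -10, 35), (-1, 23, -10, -20, 79), (-1, 35, -12, -30, 95)]
  | 4, 8 => [(1, 1, 0, -5, 17), (1, 5, -3, 5, -10), (1, 5, -3, 30, -145), (-1, 5, -2, -5, 35), (1, 10, -7, -5, 40), (-1, 35, -12, -30, 95), (-1, 65, -32, -55, 245), (-1, 95, -52, -80, 395)]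
  | 5, 0 => [(1, 1, -3, 0, 17), (-1, 1, -2, 0, 17), (1, 5, 8, -5, -55), (-1, 5, 13, -5, -100), (-1, 7, 1, -5, -4), (1, 7, 8, -5, -49), (1, 8, -3, -5, 19), (-1, 8, 5, -5, -26), (1, 10, -7, -5, 40), (-1, 10, 3, -5, -5), (1, 17, -3, 0, 1), (-1, 17, 14, 0, 1)]
  | 5, 1 => [(-1, 1, -3, 0, 17), (1, 2, 1, -5, -14), (-1, 10, -7, -5, 40), (-1, 17, -3, 0, 1), (1, 23, 2, -15, -11), (-1, 25, -3, -20, 25), (-1, 31, 6, -25, -43), (1, 38, 7, -25, -41), (1, 50, 13, -5, -10), (1, 53, 12, -35, -71), (-1, 55, 7, -45, -50), (1, 55, 9, -35, -50), (-1, 85, 17, -70, -125), (1, 130, 29, -85, -170)]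
  | 5, 2 => [(-1, 1, -3, 0, 17), (-1, 10, -7, -5, 40), (1, 11, 3, -10, -23), (-1, 17, -3, 0, 1), (1, 17, 3, 0, 1), (1, 23, 2, -15, -11), (-1, 25, -3, -20, 25), (-1, 31, 6, -25, -43), (1, 41, 7, -25, -38), (-1, 50, 9, -35, -55), (-1, 55, 7, -45, -50), (1, 55, 9, -35, -50), (1, 59, 11, -55, -92), (1, 115, 21, -40, -65), (-1, 131, 24, -105, -173), (-1, 145, 26, -115, -185), (1, 215, 39, -135, -220), (1, 700, 129, 15, 25)]
  | 5, 3 => [(-1, 13, -4, -10, 29), (-1, 17, -3, 0, 1), (-1, 20, -9, -15, 65), (1, 25, -6, -10, 25), (-1, 25, -3, -20, 25), (1, 31, -8, -20, 47), (1, 37, -7, -15, 26), (-1, 43, -8, -35, 59), (-1, 46, -9, -35, 62), (1, 49, -9, -50, 83), (1, 61, -13, -40, 77), (-1, 80, -19, -65, 140), (1, 85, -17, -55, 100), (1, 91, -18, -60, 107), (1, 121, -23, -80, 137), (-1, 140, -29, -115, 215), (1, 155, -29, -65, 110), (-1, 166, -31, -135, 227),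 (-1, 200, -39, -165, 290), (-1, 260, -49, -215, 365), (1, 325, -61, -210, 355), (1, 785, -146, 15, -25)]
  | 5, 4 => [(-1, 1, -3, 0, 17), (-1, 10, -7, -5, 40), (1, 11, 3, -10, -23), (-1, 17, -3, 0, 1), (1, 23, 2, -15, -11), (-1, 25, -3, -20, 25), (1, 35, 2, 5, 5), (1, 41, 5, -35, -38), (1, 50, 7, -45, -55), (-1, 50, 9, -35, -55)]
  | 5, 5 => [(-1, 1, -3, 0, 17), (1, 4, 1, -5, -7), (-1, 10, -7, -5, 40), (1, 11, 3, -10, -23), (-1, 17, -3, 0, 1), (1, 23, 2, -15, -11), (-1, 25, -3, -20, 25), (-1, 50, 9, -35, -55), (-1, 55, 7, -45, -50), (1, 55, 8, -5, -5)]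
  | 5, 6 => [(-1, 1, -3, 0, 17), (-1, 10, -7, -5, 40), (-1, 13, -4, -10, 29), (-1, 17, -3, 0, 1), (1, 19, -3, -5, 8), (-1, 29, -2, -20, 13), (1, 40, -1, -35, 10), (-1, 43, -8, -35, 59), (-1, 59, -7, -40, 43), (-1, 73, -12, -60, 89), (-1, 89, -12, -60, 73), (-1, 103, -16, -85, 119), (-1, 119, -17, -80, 103), (-1, 149, -22, -100, 133)]
  | 5, 7 => [(1, 1, 0, -5, 17), (-1, 8, -3, -5, 19), (-1, 17, -3, 0, 1), (-1, 22, -9, -15, 56), (1, 23, -10, -20, 79), (1, 35, -12, -30, 95)]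
  | 5, 8 => [(1, 5, 3, -5, -10), (-1, 8, -3, -5, 19), (-1, 10, -7, -5, 40), (-1, 17, -3, 0, 1), (-1, 20, -9, -15, 65), (-1, 22, -9, -15, 56), (1, 35, -12, -30, 95), (-1, 37, -19, -25, 116), (1, 65, -32, -55, 245), (1, 95, -52, -80, 395)]
  | 6, 0 => [(1, 5, -8, 5, -55), (-1, 5, -3, 5, -10), (-1, 7, -1, 5, -4), (1, 7, 6, 5, 41), (1, 8, 3, 5, 19), (-1, 8, 11, 5, 64), (1, 23, -2, 15, -11), (-1, 23, 21, 15, 124), (-1, 25, 3, 20, 25), (1, 25, 28, 20, 205), (-1, 55, -7, 45, -50), (1, 55, 48, 45, 355)]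
  | 6, 1 => [(1, 1, 3, 0, 17), (-1, 8, 3, 5, 19), (1, 10, 7, 5, 40), (-1, 13, 4, 10, 29), (-1, 20, 9, 15, 65), (-1, 23, -2, 15, -11), (1, 25, 3, 20, 25), (1, 31, 8, 20, 47), (1, 55, -7, 45, -50), (-1, 80, 19, 65, 140)]
  | 6, 2 => [(1, 1, 3, 0, 17), (1, 10, 7, 5, 40), (-1, 13, 4, 10, 29), (-1, 20, 9, 15, 65), (-1, 23, -2, 15, -11), (1, 25, 6, 10, 25), (1, 31, 8, 20, 47), (1, 37, 7, 15, 26), (-1, 43, 8, 35, 59), (-1, 46, 9, 35, 62), (1, 55, -7, 45, -50), (1, 61, 13, 40, 77), (-1, 80, 19, 65, 140), (1, 85, 17, 55, 100), (1, 91, 18, 60, 107), (1, 121, 23, 80, 137), (-1, 140, 29, 115, 215), (1, 151, 28, 100, 167), (-1, 166, 31, 135, 227), (-1, 200, 39, 165, 290), (-1, 260, 49, 215, 365), (-1, 286, 53, 235, 392), (-1, 320, 59, 265, 440), (1, 325, 61, 210, 355), (-1, 335, 62, 255, 425), (-1, 406, 75, 335, 557), (-1, 526, 97, 435, 722), (1, 625, 116, 410,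 685), (1, 925, 171, 610, 1015), (1, 1225, 226, 810, 1345)]
  | 6, 3 => [(1, 11, -3, 10, -23), (1, 17, -3, 0, 1), (-1, 31, -6, 25, -43), (1, 41, -7, 25, -38), (-1, 50, -9, 35, -55), (1, 55, -9, 35, -50), (-1, 131, -24, 105, -173), (-1, 145, -26, 115, -185), (1, 146, -27, 95, -158), (1, 215, -39, 135, -220), (-1, 281, -52, 230, -383), (-1, 340, -63, 255, -425), (-1, 355, -66, 290, -485), (-1, 431, -80, 355, -593), (-1, 581, -108, 480, -803), (1, 590, -109, 385, -640), (1, 965, -179, 635, -1060), (1, 1340, -249, 885, -1480)]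
  | 6, 4 => [(1, 17, 0, 15, 1), (-1, 23, -2, 15, -11), (-1, 29, 2, 20, 13), (1, 40, 1, 35, 10), (1, 55, -7, 45, -50), (-1, 65, 3, 45, 20)]
  | 6, 5 => [(1, 10, 7, 5, 40), (-1, 23, -2, 15, -11), (1, 40, 1, 35, 10), (1, 55, -7, 45, -50), (1, 85, 17, 55, 100), (1, 100, 11, 85, 85), (1, 160, 21, 135, 160), (1, 160, 27, 105, 160), (1, 220, 31, 185, 235), (1, 235, 37, 155, 220), (1, 280, 41, 235, 310), (1, 310, 47, 205, 280)]
  | 6, 6 => [(1, 11, -3, 10, -23), (1, 43, -6, 25, -31)]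
  | 6, 7 => [(1, 1, 2, 0, 17), (1, 5, -13, 5, -100), (-1, 7, -8, 5, -49), (-1, 8, 3, 5, 19), (1, 19, -8, 10, -37), (-1, 22, -13, 15, -79), (-1, 23, -2, 15, -11), (1, 25, 3, 20, 25), (1, 35, -23, 30, -175), (-1, 37, -18, 25, -109), (-1, 37, -15, 30, -109), (1, 55, -7, 45, -50)]
  | 6, 8 => [(1, 1, 2, 0, 17), (1, 5, -13, 5, -100), (-1, 5, -8, 5, -55), (-1, 7, -8, 5, -49), (1, 7, -1, 5, -4), (-1, 8, 3, 5, 19), (-1, 20, -11, 15, -70), (-1, 22, -13, 15, -79), (-1, 23, -2, 15, -11), (1, 25, 3, 20, 25), (1, 35, -23, 30, -175), (1, 55, -7, 45, -50)]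
  | 7, 0 => [(1, 1, 6, 0, 17), (-1, 1, 8, 0, 17), (-1, 20, -33, 5, -70), (1, 20, 7, 5, 20)]
  | 7, 1 => [(1, 1, 8, 0, 17), (1, 10, -3, 5, -5), (1, 14, -1, 5, -2), (-1, 19, 3, 5, 8), (-1, 20, 7, 5, 20), (1, 25, 12, 5, 25), (1, 29, 4, 10, 13), (-1, 41, 3, 10, 7), (1, 44, 9, 15, 28), (1, 85, 17, 30, 55), (-1, 125, 2, 30, 5), (-1, 146, 31, 35, 67), (-1, 230, 37, 55, 80), (-1, 335, 72, 80, 155)]
  | 7, 2 => [(1, 1, 8, 0, 17), (1, 10, -3, 5, -5), (1, 10, 3, -5, -5), (1, 14, -1, 5, -2), (-1, 19, 3, 5, 8), (-1, 20, 7, 5, 20), (1, 22, 5, 5, 11), (1, 25, 12, 5, 25), (1, 29, 4, 10, 13), (-1, 35, 1, 10, 5), (-1, 41, 3, 10, 7), (1, 83, 15, 30, 49), (-1, 121, 21, 30, 47), (-1, 125, 2, 30, 5), (-1, 230, 37, 55, 80), (1, 365, 67, 130, 215), (-1, 646, 119, 155, 257), (-1, 770, 141, 185, 305)]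
  | 7, 3 => [(1, 13, -5, 5, -16), (-1, 37, -8, 10, -19), (1, 40, -11, 15, -35), (1, 43, -10, 15, -31), (1, 70, -11, 15, -20), (1, 73, -15, 25, -46), (-1, 83, -19, 20, -41), (1, 103, -20, 35, -61), (1, 133, -25, 45, -76), (-1, 145, -44, 35, -95), (1, 145, -28, 55, -95), (-1, 311, -59, 75, -128), (-1, 355, -79, 85, -170), (1, 445, -83, 155, -260), (-1, 565, -114, 135, -245), (-1, 731, -136, 175, -293), (-1, 775, -149, 185, -320), (-1, 985, -184, 235, -395)]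
  | 7, 4 => [(1, 1, 8, 0, 17), (1, 10, -3, 5, -5), (1, 14, -1, 5, -2), (-1, 17, 0, 5, 1), (-1, 19, 3, 5, 8), (-1, 20, 7, 5, 20), (1, 22, 5, 5, 11), (1, 25, 12, 5, 25), (-1, 35, 1, 10, 5), (-1, 41, 3, 10, 7), (1, 65, 9, 15, 20), (-1, 95, 12, 30, 35), (1, 106, 15, 25, 32), (-1, 125, 2, 30, 5)]
  | 7, 5 => [(1, 1, 8, 0, 17), (1, 10, -3, 5, -5), (1, 14, -1, 5, -2), (-1, 19, 3, 5, 8), (-1, 20, 7, 5, 20), (1, 22, 5, 5, 11), (1, 25, 12, 5, 25), (-1, 35, 1, 10, 5), (-1, 125, 2, 30, 5), (1, 415, 63, 95, 130)]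
  | 7, 6 => [(1, 5, -3, 5, -10), (-1, 17, 0, 5, 1), (-1, 35, 1, 10, 5), (-1, 47, -5, 15, -14), (1, 61, -9, 10, -13), (1, 65, 9, 15, 20), (-1, 77, -10, 25, -29), (-1, 83, -19, 20, -41), (-1, 107, -15, 35, -44), (-1, 137, -20, 45, -59), (-1, 167, -25, 55, -74), (-1, 188, -33, 45, -71), (-1, 293, -47, 70, -101), (-1, 398, -61, 95, -131)]
  | 7, 7 => [(1, 11, -6, 5, -23), (-1, 16, -5, 5, -13), (1, 23, -6, 5, -11), (1, 43, -15, 10, -31), (1, 85, -17, 20, -35), (1, 190, -87, 45, -185)]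
  | 7, 8 => [(-1, 16, -5, 5, -13), (1, 25, -19, 10, -65), (-1, 31, -15, 10, -43), (1, 85, -17, 20, -35), (1, 190, -87, 45, -185), (1, 295, -157, 70, -335)]
  | 8, 0 => [(1, 1, 9, 0, 17), (-1, 1, 12, 0, 17), (1, 5, -3, 5, -10), (-1, 5, 2, 5, 35), (1, 20, -13, 5, -25), (-1, 20, 7, 5, 20), (1, 23, -6, 5, -11), (-1, 23, 17, 5, 34), (-1, 25, -13, 5, -20), (1, 25, 62, 5, 115), (1, 31, 1, 5, 2), (-1, 31, 32, 5, 47), (1, 35, 2, 5, 5), (-1, 35, 37, 5, 50), (-1, 145, -3, 30, -5), (1, 145, 142, 30, 265)]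
  | 8, 1 => [(-1, 1, 9, 0, 17), (-1, 5, -3, 5, -10), (1, 19, 3, 5, 8), (-1, 20, -13, 5, -25), (1, 22, 5, 5, 11), (-1, 23, -6, 5, -11), (1, 25, -13, 5, -20), (-1, 29, 8, 5, 13), (-1, 31, 1, 5, 2), (1, 32, 11, 5, 16), (-1, 35, 2, 5, 5), (1, 65, 9, 15, 20), (1, 95, 18, 20, 35), (1, 95, 24, 15, 35), (1, 145, -3, 30, -5), (-1, 170, 51, 35, 95)]
  | 8, 2 => [(-1, 1, 9, 0, 17), (-1, 5, -3, 5, -10), (1, 16, 3, -35, -58), (-1, 20, -13, 5, -25), (-1, 23, -6, 5, -11), (1, 25, -13, 5, -20), (-1, 31, 1, 5, 2), (1, 32, 11, 5, 16), (-1, 35, 2, 5, 5), (-1, 53, 11, 10, 19), (1, 65, 9, 15, 20), (1, 91, 17, 10, 17), (1, 92, 21, 15, 31), (1, 95, 24, 15, 35), (-1, 97, 22, 20, 41), (1, 145, -3, 30, -5), (1, 152, 31, 25, 46), (-1, 170, 51, 35, 95), (1, 212, 41, 35, 61), (1, 272, 51, 45, 76), (1, 350, 67, 55, 95), (-1, 364, 69, 75, 128), (-1, 410, 91, 85, 170), (1, 509,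 94, 80, 133), (-1, 650, 131, 135, 245), (1, 685, 126, 160, 265), (-1, 844, 157, 175, 293), (-1, 890, 171, 185, 320), (1, 950, 177, 155, 260), (-1, 1130, 211, 235, 395), (-1, 1324, 245, 275, 458), (1, 1550, 287, 255, 425), (-1, 1804, 333, 375, 623), (1, 2150, 397, 355, 590)]
  | 8, 3 => [(-1, 5, -3, 5, -10), (1, 11, -2, -40, 67), (-1, 26, -5, 5, -8), (-1, 49, -4, 10, -7), (1, 55, -8, 5, -5), (-1, 55, -4, 10, -5), (1, 61, -9, 10, -13), (1, 71, -13, 5, -8), (-1, 149, -26, 30, -47), (1, 187, -34, 30, -49), (-1, 265, -43, 55, -80), (1, 544, -101, 85, -142), (-1, 749, -138, 155, -257), (1, 800, -149, 185, -310), (1, 805, -148, 130, -215), (-1, 895, -164, 185, -305), (-1, 1349, -250, 280, -467), (1, 1555, -288, 255, -425), (-1, 1949, -362, 405, -677), (1, 2305, -428, 380, -635)]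
  | 8, 4 => [(-1, 1, 9, 0, 17), (-1, 5, -3, 5, -10), (1, 17, 2, 0, 1), (-1, 20, -13, 5, -25), (1, 25, -13, 5, -20), (-1, 28, -1, 5, -1), (-1, 31, 1, 5, 2), (1, 35, 1, 10, 5), (-1, 35, 2, 5, 5), (1, 40, 7, 5, 10), (-1, 55, -4, 10, -5), (1, 70, -11, 15, -20), (1, 143, 10, 30, 19), (1, 145, -3, 30, -5), (-1, 205, 16, 35, 25), (1, 310, 29, 65, 55)]
  | 8, 5 => [(-1, 1, 9, 0, 17), (-1, 5, -3, 5, -10), (-1, 20, -13, 5, -25), (-1, 23, -6, 5, -11), (1, 25, -13, 5, -20), (-1, 31, 1, 5, 2), (-1, 35, 2, 5, 5), (1, 70, -11, 15, -20), (1, 95, 24, 15, 35), (1, 145, -3, 30, -5), (1, 245, 44, 40, 65), (1, 310, 29, 65, 55), (1, 395, 64, 65, 95), (1, 545, 84, 90, 125), (1, 550, 69, 115, 130), (1, 695, 104, 115, 155), (1, 790, 109, 165, 205), (1, 1030, 149, 215, 280)]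
  | 8, 6 => [(-1, 5, -3, 5, -10), (-1, 20, -13, 5, -25), (-1, 26, -5, 5, -8), (-1, 49, -4, 10, -7), (-1, 55, -4, 10, -5), (-1, 271, -40, 55, -73)]
  | 8, 7 => [(-1, 1, 11, 0, 17), (-1, 5, -3, 5, -10), (-1, 20, -13, 5, -25), (-1, 23, -6, 5, -11), (1, 25, 37, 5, 70), (-1, 29, -21, 5, -32), (-1, 31, 1, 5, 2), (-1, 35, 2, 5, 5), (-1, 59, -31, 10, -47), (1, 65, -19, 10, -25), (-1, 73, -25, 15, -46), (1, 95, -77, 20, -145), (1, 145, -3, 30, -5), (1, 215, -117, 45, -220)]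
  | 8, 8 => [(-1, 1, 11, 0, 17), (-1, 5, -3, 5, -10), (-1, 20, -13, 5, -25), (-1, 23, -6, 5, -11), (1, 25, 37, 5, 70), (-1, 29, -21, 5, -32), (-1, 31, 1, 5, 2), (1, 34, -17, 5, -22), (-1, 35, 2, 5, 5), (1, 95, -77, 20, -145), (1, 145, -3, 30, -5), (-1, 220, -117, 45, -215)]

/-- The rows of `T_19`. -/
def T19T : Fin 9 → Fin 9 → List Tm
  | 0, 0 => [(1, 1, -6, 0, 19), (-1, 10, 1, -5, 5), (1, 10, 11, -5, -40), (1, 19, -3, 0, 1), (1, 19, -2, 0, 1), (1, 19, -1, 0, 1), (1, 19, 0, 0, 1), (1, 19, 1, 0, 1), (1, 19, 2, 0, 1), (1, 19, 3, 0, 1), (1, 19, 4, 0, 1), (1, 19, 5, 0, 1), (1, 19, 6, 0, 1), (1, 19, 7, 0, 1), (1, 19, 8, 0, 1), (1, 19, 9, 0, 1), (1, 19, 10, 0, 1), (1, 19, 11, 0, 1), (1, 19, 12, 0, 1), (1, 19, 13, 0, 1), (1, 19, 14, 0, 1), (1, 19, 15, 0, 1), (1, 20, -9, -5, 25), (-1, 20, 11, -5, -20)]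
  | 0, 1 => [(1, 10, 1, -5, 5), (1, 16, -1, -5, 4), (-1, 19, -3, 0, 1), (-1, 19, -2, 0, 1), (-1, 19, -1, 0, 1), (-1, 19, 0, 0, 1), (-1, 19, 1, 0, 1), (-1, 19, 2, 0, 1), (-1, 19, 3, 0, 1), (-1, 19, 4, 0, 1), (-1, 20, -9, -5, 25), (-1, 25, 8, -10, -25), (1, 31, 4, -10, -11), (1, 35, 3, -10, -5), (1, 40, 11, -5, -10), (1, 46, 9, -15, -26), (1, 61, 14, -20, -41), (1, 110, 23, -35, -65)]
  | 0, 2 => [(-1, 5, -1, 5, 10), (1, 10, 1, -5, 5), (1, 16, -1, -5, 4), (-1, 19, -3, 0, 1), (-1, 19, -2, 0, 1), (-1, 19, -1, 0, 1), (-1, 19, 0, 0, 1), (-1, 19, 1, 0, 1), (-1, 19, 2, 0, 1), (-1, 19, 3, 0, 1), (-1, 20, -9, -5, 25), (-1, 20, 3, 15, 25), (1, 23, 4, -5, -7), (-1, 25, 8, -10, -25), (1, 31, 4, -10, -11), (1, 35, 3, -10, -5), (1, 35, 6, -5, -5), (1, 37, 7, -5, -8), (1, 52, 9, -15, -23), (1, 130, 23, -35, -55), (-1, 155, 28, 15, 25), (-1, 290, 53, 15, 25), (-1,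 425, 78, 15, 25), (1, 505, 93, -160, -265), (-1, 560, 103, 15, 25), (-1, 695, 128, 15, 25)]
  | 0, 3 => [(-1, 8, -1, -5, 8), (1, 17, -6, -5, 17), (-1, 20, -3, -15, 25), (1, 47, -11, -15, 32), (1, 50, -9, -5, 10), (1, 77, -16, -25, 47), (1, 85, -16, -20, 35), (1, 95, -19, -30, 55), (1, 107, -21, -35, 62), (-1, 115, -22, 15, -25), (1, 137, -26, -45, 77), (-1, 250, -47, 15, -25), (1, 275, -52, -85, 145), (-1, 385, -72, 15, -25), (-1, 520, -97, 15, -25), (1, 575, -107, -185, 310), (-1, 655, -122, 15, -25), (-1, 790, -147, 15, -25)]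
  | 0, 4 => [(-1, 10, -1, 5, 5), (1, 10, 1, -5, 5), (1, 16, -1, -5, 4), (-1, 19, -3, 0, 1), (-1, 19, -2, 0, 1), (-1, 19, -1, 0, 1), (-1, 19, 0, 0, 1), (-1, 19, 1, 0, 1), (-1, 20, -9, -5, 25), (-1, 25, 8, -10, -25), (1, 35, 3, -10, -5), (-1, 100, 13, -35, -40)]
  | 0, 5 => [(-1, 5, -1, 5, 10), (1, 10, 1, -5, 5), (1, 16, -1, -5, 4), (-1, 19, -3, 0, 1), (-1, 19, -2, 0, 1), (-1, 19, -1, 0, 1), (-1, 19, 0, 0, 1), (-1, 19, 1, 0, 1), (-1, 19, 2, 0, 1), (-1, 20, -9, -5, 25), (-1, 25, 8, -10, -25), (1, 35, 3, -10, -5), (1, 35, 6, -5, -5), (-1, 80, 13, -35, -50)]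
  | 0, 6 => [(-1, 13, 1, -5, -2), (-1, 20, -9, -5, 25), (1, 22, -3, -5, 7), (-1, 43, -4, -15, 13), (-1, 73, -9, -25, 28), (-1, 103, -14, -35, 43), (-1, 133, -19, -45, 58), (-1, 163, -24, -55, 73)]
  | 0, 7 => [(-1, 14, -3, -5, 11), (1, 19, -8, 0, 1), (1, 19, -7, 0, 1), (1, 19, -6, 0, 1), (1, 19, -5, 0, 1), (1, 19, -4, 0, 1)]
  | 0, 8 => [(1, 10, 1, -5, 5), (-1, 14, -3, -5, 11), (1, 19, -9, 0, 1), (1, 19, -8, 0, 1), (1, 19, -7, 0, 1), (1, 19, -6, 0, 1), (1, 19, -5, 0, 1), (1, 19, -4, 0, 1), (-1, 20, -9, -5, 25), (-1, 25, -16, 5, -25), (-1, 29, -13, -10, 41), (-1, 44, -23, -15, 71)]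
  | 1, 0 => [(1, 1, -6, 0, 19), (-1, 1, -3, 0, 19), (-1, 10, -19, -5, 95), (1, 10, 11, -5, -40), (1, 20, -9, -5, 25), (-1, 20, 11, -5, -20), (-1, 55, -19, -30, 95), (1, 55, 36, -30, -175)]
  | 1, 1 => [(1, 10, -19, -5, 95), (1, 16, -1, -5, 4), (-1, 20, -9, -5, 25), (-1, 25, 8, -10, -25), (1, 26, 9, -15, -46), (1, 31, 4, -10, -11), (1, 35, 3, -10, -5), (1, 35, 19, -20, -95), (1, 46, 9, -15, -26), (1, 55, -19, -30, 95), (1, 61, 14, -20, -41), (1, 71, 18, -40, -91), (1, 80, 19, -45, -95), (1, 110, 23, -35, -65)]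
  | 1, 2 => [(1, 10, -19, -5, 95), (1, 16, -1, -5, 4), (1, 17, 3, 10, 17), (-1, 19, 0, -10, 1), (-1, 20, -9, -5, 25), (-1, 25, 8, -10, -25), (1, 31, 4, -10, -11), (1, 35, 3, -10, -5), (1, 35, 19, -20, -95), (1, 52, 9, -15, -23), (1, 55, -19, -30, 95), (-1, 64, 9, -35, -44), (1, 80, 19, -45, -95), (-1, 92, 17, -35, -58), (-1, 109, 18, -60, -89), (1, 130, 23, -35, -55), (-1, 154, 27, -85, -134), (-1, 199, 36, -110, -179), (-1, 202, 37, -105, -173), (1, 205, 39, -120, -205), (-1, 244, 45, -135, -224), (-1, 385, 71, -205, -340), (1, 475, 88, -285, -475), (1, 505, 93, -160, -265)]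
  | 1, 3 => [(-1, 11, -3, -5, 14), (-1, 14, -3, -5, 11), (1, 17, -6, -5, 17), (1, 25, -3, -15, 20), (1, 37, -7, 5, -8), (1, 44, -5, -25, 26), (1, 47, -11, -15, 32), (-1, 58, -11, -25, 43), (1, 65, -11, -45, 70), (1, 77, -16, -25, 47), (1, 89, -14, -50, 71), (1, 95, -19, -30, 55), (-1, 97, -18, -40, 67), (-1, 100, -19, -55, 95), (1, 107, -21, -35, 62), (1, 134, -23, -75, 116), (1, 137, -26, -45, 77), (1, 179, -32, -100, 161), (1, 224, -41, -125, 206), (-1, 257, -48, -135, 227), (1, 275, -52, -85, 145), (-1, 425, -79, -230, 385), (1, 470, -87, -285, 475), (1, 575, -107, -185, 310)]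
  | 1, 4 => [(1, 5, -1, 5, 10), (1, 10, -19, -5, 95), (-1, 13, 1, -5, -2), (1, 16, -1, -5, 4), (-1, 19, 0, -10, 1), (-1, 20, -9, -5, 25), (-1, 23, 2, -10, -7), (1, 25, 4, -20, -25), (-1, 25, 8, -10, -25), (-1, 35, 2, -15, -5), (1, 35, 19, -20, -95), (1, 55, -19, -30, 95), (1, 80, 19, -45, -95), (-1, 100, 13, -35, -40), (1, 125, 19, -70, -95), (1, 170, 19, -95, -95)]
  | 1, 5 => [(1, 10, -19, -5, 95), (1, 16, -1, -5, 4), (-1, 19, 0, -10, 1), (-1, 20, -9, -5, 25), (-1, 25, 8, -10, -25), (1, 35, 3, -10, -5), (1, 35, 19, -20, -95), (1, 55, -19, -30, 95), (1, 65, 12, -40, -65), (-1, 80, 13, -35, -50), (1, 80, 19, -45, -95), (1, 125, 19, -70, -95)]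
  | 1, 6 => [(-1, 11, -3, -5, 14), (-1, 13, 1, -5, -2), (-1, 20, -9, -5, 25), (-1, 43, -4, -15, 13), (1, 44, -5, -25, 26), (-1, 73, -9, -25, 28), (-1, 103, -14, -35, 43), (1, 113, -16, -65, 83), (-1, 133, -19, -45, 58), (-1, 163, -24, -55, 73)]
  | 1, 7 => [(-1, 1, -4, 0, 19), (1, 5, 1, -5, 10), (1, 8, -1, -5, 8), (-1, 14, -3, -5, 11), (-1, 20, -9, -5, 25), (1, 25, -3, -15, 20), (-1, 28, -15, -15, 73), (1, 55, -19, -30, 95)]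
  | 1, 8 => [(-1, 1, -4, 0, 19), (1, 5, 1, -5, 10), (1, 7, -3, -5, 22), (1, 8, -1, -5, 8), (1, 10, 1, -5, 5), (-1, 14, -3, -5, 11), (-1, 20, -9, -5, 25), (-1, 29, -13, -10, 41), (1, 35, -16, -20, 85), (-1, 44, -23, -15, 71), (1, 55, -19, -30, 95), (-1, 65, -42, -35, 205)]
  | 2, 0 => [(1, 7, 4, -5, -23), (-1, 7, 11, -5, -68), (-1, 8, -1, -5, 8), (1, 8, 7, -5, -37), (1, 10, -19, -5, 95), (-1, 10, 1, -5, 5), (1, 22, -1, -15, 7), (-1, 22, 21, -15, -128), (1, 55, -19, -30, 95), (-1, 55, 36, -30, -175)]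
  | 2, 1 => [(1, 1, -3, 0, 19), (1, 2, 1, -5, -13), (1, 5, 6, -5, -35), (-1, 10, -19, -5, 95), (-1, 22, -1, -15, 7), (-1, 26, 9, -15, -46), (1, 29, 8, -20, -49), (-1, 35, 19, -20, -95), (1, 50, 13, -35, -80), (-1, 55, -19, -30, 95), (-1, 71, 18, -40, -91), (-1, 80, 19, -45, -95)]
  | 2, 2 => [(1, 1, -3, 0, 19), (1, 5, 6, -5, -35), (-1, 10, -19, -5, 95), (1, 19, 0, -10, 1), (-1, 22, -1, -15, 7), (1, 23, 4, -5, -7), (1, 29, 8, -20, -49), (-1, 35, 19, -20, -95), (1, 50, 13, -35, -80), (-1, 55, -19, -30, 95), (1, 59, 13, -40, -79), (1, 64, 9, -35, -44), (-1, 65, 12, -40, -65), (-1, 80, 19, -45, -95), (1, 89, 18, -60, -109), (1, 95, 19, -70, -125), (1, 109, 18, -60, -89), (1, 113, 21, -85, -142), (1, 119, 23, -80, -139), (1, 149, 28, -100, -169), (1, 154, 27, -85, -134), (1, 199, 36, -110, -179), (1, 202, 37, -105, -173), (-1, 205, 39, -120, -205), (1,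 244, 45, -135, -224), (1, 395, 74, -270, -455), (-1, 475, 88, -285, -475), (1, 695, 129, -470, -785), (1, 995, 184, -670, -1115), (1, 1295, 239, -870, -1445)]
  | 2, 3 => [(1, 11, -3, -5, 14), (-1, 17, -3, -10, 17), (-1, 25, -3, -15, 20), (1, 37, -6, -25, 37), (-1, 44, -5, -25, 26), (1, 58, -11, -25, 43), (-1, 89, -14, -50, 71), (1, 94, -17, -65, 106), (1, 103, -19, -80, 133), (-1, 134, -23, -75, 116), (-1, 179, -32, -100, 161), (-1, 224, -41, -125, 206), (1, 257, -48, -135, 227), (1, 280, -51, -195, 320), (-1, 470, -87, -285, 475), (1, 655, -121, -445, 740), (1, 1030, -191, -695, 1160), (1, 1405, -261, -945, 1580)]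
  | 2, 4 => [(1, 5, 6, -5, -35), (-1, 10, -19, -5, 95), (1, 19, 0, -10, 1), (-1, 22, -1, -15, 7), (1, 23, 2, -10, -7), (-1, 25, -3, -15, 20), (-1, 31, 2, -20, -11), (1, 35, 2, -15, -5), (-1, 35, 19, -20, -95), (-1, 55, -19, -30, 95), (-1, 80, 19, -45, -95), (-1, 100, 7, -65, -40), (-1, 125, 19, -70, -95), (-1, 170, 19, -95, -95)]
  | 2, 5 => [(1, 5, 6, -5, -35), (-1, 10, -19, -5, 95), (1, 19, 0, -10, 1), (-1, 22, -1, -15, 7), (-1, 35, 19, -20, -95), (1, 50, 13, -35, -80), (-1, 55, -19, -30, 95), (-1, 65, 12, -40, -65), (-1, 80, 19, -45, -95), (-1, 125, 19, -70, -95), (1, 125, 23, -85, -140), (1, 200, 33, -135, -200), (1, 275, 43, -185, -260), (1, 350, 53, -235, -320)]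
  | 2, 6 => [(1, 11, -3, -5, 14), (-1, 17, -3, -10, 17), (1, 17, -2, -15, 17), (1, 19, -3, 0, 1), (-1, 44, -5, -25, 26), (-1, 113, -16, -65, 83)]
  | 2, 7 => [(1, 1, -4, 0, 19), (1, 4, -1, -5, 16), (-1, 7, 4, -5, -23), (-1, 8, -9, -5, 53), (-1, 10, -9, -5, 50), (1, 20, -3, -15, 25), (-1, 22, -1, -15, 7), (-1, 23, -14, -15, 83), (-1, 25, -3, -15, 20), (1, 28, -15, -15, 73), (-1, 38, -19, -25, 113), (-1, 55, -19, -30, 95)]
  | 2, 8 => [(1, 1, -4, 0, 19), (-1, 7, 4, -5, -23), (-1, 8, -9, -5, 53), (-1, 10, -9, -5, 50), (1, 13, -6, -10, 43), (-1, 22, -1, -15, 7), (-1, 23, -14, -15, 83), (-1, 35, -16, -20, 85), (-1, 55, -19, -30, 95), (1, 65, -42, -35, 205)]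
  | 3, 0 => [(1, 1, 3, 0, 19), (-1, 1, 4, 0, 19), (1, 5, -6, 5, -35), (-1, 5, -1, 5, 10), (1, 7, -4, 5, -23), (-1, 7, 3, 5, 22), (-1, 8, 1, 5, 8), (1, 8, 9, 5, 53), (1, 10, 9, 5, 50), (-1, 10, 19, 5, 95), (1, 19, -3, 0, 1), (1, 19, 0, 10, 1), (-1, 19, 16, 0, 1), (-1, 19, 19, 10, 91), (-1, 35, -19, 20, -95), (1, 35, 16, 20, 85), (-1, 80, -19, 45, -95), (1, 80, 61, 45, 310)]
  | 3, 1 => [(-1, 1, 3, 0, 19), (1, 1, 4, 0, 19), (-1, 5, -6, 5, -35), (1, 10, 19, 5, 95), (-1, 17, 3, 10, 17), (-1, 19, -3, 0, 1), (-1, 19, 0, 10, 1), (1, 22, 1, 15, 7), (-1, 25, 3, 15, 20), (1, 35, -19, 20, -95), (1, 37, 6, 25, 37), (1, 40, 11, -5, -10), (1, 46, 13, 25, 64), (1, 52, 11, 35, 67), (1, 55, 19, 30, 95), (1, 65, 11, 45, 70), (1, 80, -19, 45, -95), (1, 140, 31, 95, 190)]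
  | 3, 2 => [(-1, 1, 3, 0, 19), (-1, 5, -6, 5, -35), (1, 10, 19, 5, 95), (1, 11, 3, 5, 14), (-1, 17, 3, 10, 17), (-1, 19, -3, 0, 1), (-1, 19, 0, 10, 1), (1, 22, 1, 15, 7), (-1, 25, 3, 15, 20), (1, 35, -19, 20, -95), (1, 37, 6, 25, 37), (-1, 44, 5, 25, 26), (1, 55, 19, 30, 95), (1, 80, -19, 45, -95), (1, 85, 16, 20, 35), (-1, 89, 14, 50, 71), (1, 94, 17, 65, 106), (1, 97, 18, 40, 67), (-1, 134, 23, 75, 116), (-1, 179, 32, 100, 161), (-1, 224, 41, 125, 206), (1, 280, 51, 195, 320), (1, 425, 79, 230, 385), (-1, 527, 97, 300, 497), (1, 830, 153, 15, 25), (1, 1235, 228, 665, 1105)]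
  | 3, 3 => [(-1, 19, -3, 0, 1), (1, 29, -8, 20, -49), (1, 50, -13, 35, -80), (1, 50, -9, -5, 10), (1, 59, -13, 40, -79), (1, 64, -9, 35, -44), (-1, 65, -12, 40, -65), (1, 89, -18, 60, -109), (1, 92, -17, 35, -58), (1, 95, -19, 70, -125), (1, 109, -18, 60, -89), (1, 119, -23, 80, -139), (1, 149, -28, 100, -169), (1, 154, -27, 85, -134), (1, 199, -36, 110, -179), (-1, 205, -39, 120, -205), (1, 244, -45, 135, -224), (1, 385, -71, 205, -340), (1, 395, -74, 270, -455), (-1, 607, -113, 345, -578), (1, 925, -172, 15, -25), (1, 1330, -247, 715, -1195)]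
  | 3, 4 => [(-1, 1, 3, 0, 19), (-1, 5, -6, 5, -35), (1, 10, 19, 5, 95), (-1, 17, 3, 10, 17), (-1, 19, -3, 0, 1), (-1, 19, 0, 10, 1), (1, 22, 1, 15, 7), (-1, 25, 3, 15, 20), (1, 35, -19, 20, -95), (1, 55, 4, 5, 5), (1, 55, 19, 30, 95), (-1, 70, 11, 45, 65), (1, 80, -19, 45, -95), (1, 100, 19, 55, 95), (1, 145, 19, 80, 95), (1, 190, 19, 105, 95)]
  | 3, 5 => [(-1, 1, 3, 0, 19), (-1, 5, -6, 5, -35), (1, 10, 19, 5, 95), (1, 11, 3, 5, 14), (-1, 17, 3, 10, 17), (-1, 19, -3, 0, 1), (-1, 19, 0, 10, 1), (1, 22, 1, 15, 7), (-1, 25, 3, 15, 20), (1, 35, -19, 20, -95), (1, 55, 19, 30, 95), (-1, 70, 11, 45, 65), (1, 80, -19, 45, -95), (1, 100, 19, 55, 95), (1, 205, 32, 110, 155)]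
  | 3, 6 => [(-1, 1, 3, 0, 19), (1, 5, 1, -5, 10), (1, 13, -1, 5, -2), (-1, 19, -3, 0, 1), (-1, 25, 3, 15, 20), (-1, 31, -2, 20, -11), (1, 47, -7, 10, -13), (-1, 61, -7, 40, -41), (1, 64, -9, 35, -44), (-1, 91, -12, 60, -71), (-1, 121, -17, 80, -101), (-1, 151, -22, 100, -131), (-1, 181, -27, 120, -161)]
  | 3, 7 => [(-1, 5, -6, 5, -35), (-1, 7, -4, 5, -23), (-1, 8, -7, 5, -37), (1, 13, -7, 10, -47), (-1, 19, -3, 0, 1), (-1, 19, 0, 10, 1), (-1, 23, -9, 15, -52), (1, 31, -13, 15, -56), (1, 35, -19, 20, -95), (1, 65, -23, 35, -110), (1, 80, -19, 45, -95)]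
  | 3, 8 => [(-1, 5, -6, 5, -35), (-1, 7, -4, 5, -23), (-1, 8, -7, 5, -37), (-1, 19, -3, 0, 1), (-1, 19, 0, 10, 1), (1, 20, -17, 15, -110), (-1, 23, -9, 15, -52), (-1, 25, -22, 15, -115), (1, 28, -13, 15, -62), (-1, 38, -19, 25, -112), (1, 80, -19, 45, -95)]
  | 4, 0 => [(1, 1, -2, 0, 19), (-1, 1, 0, -5, 19), (-1, 1, 0, 0, 19), (1, 1, 1, -5, -26), (1, 5, -1, 5, 10), (-1, 5, 1, -5, 10), (-1, 5, 4, 5, 55), (1, 5, 16, -5, -125), (1, 7, -3, -5, 22), (-1, 7, 4, -5, -23), (1, 8, -1, -5, 8), (-1, 8, 7, -5, -37), (-1, 35, 1, -30, -5), (1, 35, 36, -30, -275)]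
  | 4, 1 => [(1, 1, 0, -5, 19), (1, 1, 0, 0, 19), (1, 1, 0, 5, 19), (-1, 2, 1, -5, -13), (-1, 5, -1, 5, 10), (1, 5, 1, -5, 10), (1, 5, 1, 20, 55), (1, 5, 1, 45, 100), (-1, 7, -3, -5, 22), (-1, 7, 2, -10, -23), (-1, 8, -1, -5, 8), (1, 10, 1, -5, 5), (-1, 11, 4, -10, -31), (1, 25, 4, -20, -25), (1, 35, 1, -30, -5), (-1, 40, 13, -35, -100)]
  | 4, 2 => [(1, 1, 0, -5, 19), (1, 1, 0, 0, 19), (1, 1, 0, 5, 19), (1, 1, 0, 10, 19), (-1, 2, 1, -5, -13), (-1, 5, -1, 5, 10), (-1, 5, 1, -130, -215), (-1, 5, 1, -105, -170), (-1, 5, 1, -80, -125), (-1, 5, 1, -55, -80), (-1, 5, 1, -30, -35), (-1, 7, -3, -5, 22), (-1, 8, -1, -5, 8), (1, 10, 1, -5, 5), (1, 11, 2, 35, 59), (-1, 11, 4, -10, -31), (-1, 16, 3, -25, -41), (1, 25, 4, -20, -25), (1, 35, 1, -30, -5), (1, 38, 7, 95, 158), (-1, 40, 13, -35, -100), (-1, 41, 8, -35, -61), (1, 50, 9, 5, 10), (-1, 100, 23, -85,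 -175), (-1, 122, 23, -105, -178), (1, 125, 23, -85, -140), (-1, 160, 33, -135, -250), (-1, 220, 43, -185, -325), (-1, 242, 45, -205, -343), (-1, 280, 53, -235, -400), (-1, 340, 63, -285, -475), (-1, 362, 67, -305, -508), (1, 385, 71, -205, -340), (-1, 482, 89, -405, -673)]
  | 4, 3 => [(-1, 1, 0, -10, 19), (1, 5, -1, 30, -35), (1, 5, -1, 55, -80), (1, 5, -1, 80, -125), (1, 5, -1, 105, -170), (1, 5, -1, 130, -215), (-1, 8, -1, -5, 8), (-1, 11, -2, -35, 59), (1, 16, -3, 25, -41), (-1, 17, -2, -15, 17), (1, 43, -8, 100, -167), (-1, 65, -9, -55, 70), (-1, 67, -12, -60, 97), (-1, 70, -13, -65, 110), (1, 85, -16, -20, 35), (-1, 125, -22, -110, 175), (1, 145, -27, -110, 185), (-1, 217, -40, -185, 307), (-1, 335, -62, -285, 475), (-1, 367, -68, -310, 517), (1, 425, -79, -230, 385), (-1, 517, -96, -435, 727)]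
  | 4, 4 => [(1, 1, 0, -5, 19), (1, 1, 0, 0, 19), (1, 1, 0, 5, 19), (1, 1, 0, 10, 19), (1, 1, 0, 15, 19), (1, 1, 0, 20, 19), (-1, 5, -1, 5, 10), (-1, 7, -3, -5, 22), (-1, 8, -1, -5, 8), (1, 10, 1, -5, 5), (1, 19, 0, -15, 1), (1, 20, -3, -15, 25), (1, 35, 1, -30, -5), (1, 35, 3, -10, -5), (1, 49, 4, -40, -29), (1, 80, 7, -65, -50)]
  | 4, 5 => [(1, 1, 0, -5, 19), (1, 1, 0, 0, 19), (1, 1, 0, 5, 19), (1, 1, 0, 10, 19), (1, 1, 0, 15, 19), (-1, 5, -1, 5, 10), (-1, 5, 1, -30, -35), (-1, 7, -3, -5, 22), (-1, 8, -1, -5, 8), (1, 10, 1, -5, 5), (-1, 11, 4, -10, -31), (1, 20, -3, -15, 25), (1, 20, 3, 15, 25), (1, 35, 1, -30, -5), (1, 80, 7, -65, -50), (1, 140, 17, -115, -125), (1, 200, 27, -165, -200), (1, 260, 37, -215, -275)]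
  | 4, 6 => [(-1, 1, 0, -15, 19), (-1, 1, 0, -10, 19), (-1, 7, -1, -15, 22), (-1, 8, -1, -5, 8), (1, 17, -3, -10, 17), (-1, 17, -2, -15, 17)]
  | 4, 7 => [(1, 2, -1, 5, -13), (-1, 4, -1, -5, 16), (1, 5, -3, 10, -35), (-1, 5, -2, -10, 55), (-1, 5, -1, 5, 10), (1, 5, 11, -5, -80), (-1, 8, -1, -5, 8), (1, 13, -6, -10, 43), (1, 19, -8, 0, 1), (1, 20, -11, 5, -20), (1, 25, -21, -20, 155), (-1, 29, -11, -25, 86), (1, 35, 1, -30, -5), (1, 55, -31, -45, 230)]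
  | 4, 8 => [(1, 1, -3, 0, 19), (1, 1, 0, -5, 19), (-1, 4, -1, -5, 16), (1, 5, -3, 10, -35), (1, 5, -3, 35, -170), (-1, 5, -2, -10, 55), (-1, 5, -1, 5, 10), (1, 5, 11, -5, -80), (-1, 7, -3, -5, 22), (-1, 8, -1, -5, 8), (1, 25, -21, -20, 155), (1, 35, 1, -30, -5)]
  | 5, 0 => [(1, 1, -3, 0, 19), (-1, 1, -2, 0, 19), (1, 5, 6, -5, -35), (-1, 5, 16, -5, -125), (-1, 7, -3, -5, 22), (1, 7, 11, -5, -68), (-1, 22, -1, -15, 7), (1, 22, 21, -15, -128), (1, 35, 1, -30, -5), (-1, 35, 36, -30, -275)]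
  | 5, 1 => [(-1, 1, -3, 0, 19), (-1, 5, 6, -5, -35), (1, 7, -3, -5, 22), (1, 7, 2, -10, -23), (1, 8, -1, -5, 8), (1, 11, 4, -10, -31), (1, 22, -1, -15, 7), (-1, 25, 4, -20, -25), (-1, 29, 8, -20, -49), (-1, 35, 1, -30, -5), (1, 40, 13, -35, -100), (-1, 50, 13, -35, -80)]
  | 5, 2 => [(-1, 1, -3, 0, 19), (1, 2, 1, -5, -13), (-1, 5, 6, -5, -35), (1, 7, -3, -5, 22), (1, 8, -1, -5, 8), (1, 11, 4, -10, -31), (1, 22, -1, -15, 7), (-1, 25, 4, -20, -25), (-1, 29, 8, -20, -49), (-1, 35, 1, -30, -5), (1, 35, 6, -5, -5), (1, 40, 13, -35, -100), (1, 41, 8, -35, -61), (-1, 50, 13, -35, -80), (-1, 59, 13, -40, -79), (-1, 89, 18, -60, -109), (-1, 95, 19, -70, -125), (1, 100, 23, -85, -175), (-1, 113, 21, -85, -142), (-1, 119, 23, -80, -139), (1, 122, 23, -105, -178), (-1, 125, 23, -85, -140), (-1, 149, 28, -100, -169), (1, 160, 33, -135, -250), (1, 220, 43, -185,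 -325), (1, 242, 45, -205, -343), (1, 280, 53, -235, -400), (1, 340, 63, -285, -475), (1, 362, 67, -305, -508), (-1, 395, 74, -270, -455), (1, 482, 89, -405, -673), (-1, 695, 129, -470, -785), (-1, 995, 184, -670, -1115), (-1, 1295, 239, -870, -1445)]
  | 5, 3 => [(1, 14, -3, -5, 11), (1, 17, -2, -15, 17), (-1, 20, -3, -15, 25), (-1, 37, -6, -25, 37), (-1, 65, -11, -45, 70), (1, 65, -9, -55, 70), (1, 67, -12, -60, 97), (-1, 94, -17, -65, 106), (1, 100, -19, -55, 95), (-1, 103, -19, -80, 133), (1, 125, -22, -110, 175), (-1, 145, -27, -110, 185), (1, 217, -40, -185, 307), (-1, 280, -51, -195, 320), (1, 335, -62, -285, 475), (1, 367, -68, -310, 517), (1, 517, -96, -435, 727), (-1, 655, -121, -445, 740), (-1, 1030, -191, -695, 1160), (-1, 1405, -261, -945, 1580)]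
  | 5, 4 => [(-1, 5, 6, -5, -35), (1, 7, -3, -5, 22), (1, 8, -1, -5, 8), (1, 13, 1, -5, -2), (-1, 19, 0, -15, 1), (-1, 20, -3, -15, 25), (1, 22, -1, -15, 7), (1, 25, -3, -15, 20), (-1, 25, 4, -20, -25), (1, 31, 2, -20, -11), (-1, 35, 1, -30, -5), (-1, 49, 4, -40, -29), (-1, 80, 7, -65, -50), (1, 100, 7, -65, -40)]
  | 5, 5 => [(-1, 5, 6, -5, -35), (1, 7, -3, -5, 22), (1, 8, -1, -5, 8), (1, 11, 4, -10, -31), (1, 19, 3, 0, 1), (-1, 20, -3, -15, 25), (1, 22, -1, -15, 7), (1, 25, 3, 15, 20), (-1, 25, 4, -20, -25), (-1, 35, 1, -30, -5), (-1, 50, 13, -35, -80), (-1, 80, 7, -65, -50), (-1, 125, 23, -85, -140), (-1, 140, 17, -115, -125), (-1, 200, 27, -165, -200), (-1, 200, 33, -135, -200), (-1, 260, 37, -215, -275), (-1, 275, 43, -185, -260), (-1, 350, 53, -235, -320)]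
  | 5, 6 => [(1, 1, 0, -15, 19)]
  | 5, 7 => [(1, 1, 0, -5, 19), (-1, 5, 11, -5, -80), (1, 7, 4, -5, -23), (1, 8, -9, -5, 53), (1, 10, -9, -5, 50), (-1, 13, -6, -10, 43), (1, 20, -9, -5, 25), (-1, 20, -3, -15, 25), (1, 22, -1, -15, 7), (1, 23, -14, -15, 83), (-1, 25, -21, -20, 155), (1, 29, -11, -25, 86), (-1, 35, 1, -30, -5), (1, 38, -19, -25, 113), (-1, 55, -31, -45, 230)]
  | 5, 8 => [(-1, 1, -3, 0, 19), (1, 4, -1, -5, 16), (-1, 5, 11, -5, -80), (1, 7, 4, -5, -23), (1, 8, -9, -5, 53), (1, 10, -9, -5, 50), (-1, 13, -6, -10, 43), (1, 22, -1, -15, 7), (1, 23, -14, -15, 83), (-1, 25, -21, -20, 155), (-1, 35, 1, -30, -5)]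
  | 6, 0 => [(1, 5, -11, 5, -80), (-1, 5, -6, 5, -35), (-1, 7, -4, 5, -23), (1, 7, 3, 5, 22), (1, 8, 1, 5, 8), (-1, 8, 9, 5, 53), (1, 11, -4, 10, -31), (-1, 11, 7, 10, 59)]
  | 6, 1 => [(1, 1, 3, 0, 19), (1, 5, -6, 5, -35), (-1, 7, 3, 5, 22), (-1, 8, 1, 5, 8), (-1, 11, -4, 10, -31), (1, 11, 3, 5, 14), (1, 17, 2, 15, 17), (-1, 20, 3, 15, 25), (-1, 22, 1, 15, 7), (1, 35, -1, 30, -5), (-1, 37, 6, 25, 37), (1, 47, 10, 40, 77), (-1, 52, 11, 35, 67), (1, 65, 9, 55, 70), (-1, 65, 11, 45, 70), (1, 95, 19, 80, 145), (1, 125, 29, 105, 220), (-1, 140, 31, 95, 190)]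
  | 6, 2 => [(1, 1, 3, 0, 19), (1, 5, -6, 5, -35), (-1, 7, 3, 5, 22), (-1, 8, 1, 5, 8), (-1, 11, -4, 10, -31), (1, 14, 3, 5, 11), (1, 17, 2, 15, 17), (-1, 20, 3, 15, 25), (-1, 22, 1, 15, 7), (1, 35, -1, 30, -5), (-1, 37, 6, 25, 37), (1, 65, 9, 55, 70), (-1, 65, 11, 45, 70), (1, 67, 12, 60, 97), (-1, 94, 17, 65, 106), (1, 100, 19, 55, 95), (-1, 103, 19, 80, 133), (1, 125, 22, 110, 175), (-1, 145, 27, 110, 185), (1, 175, 32, 185, 305), (1, 217, 40, 185, 307), (-1, 280, 51, 195, 320)]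
  | 6, 3 => [(1, 2, -1, 5, -13), (-1, 25, -4, 20, -25), (-1, 29, -8, 20, -49), (1, 35, -6, 5, -5), (1, 40, -13, 35, -100), (1, 41, -8, 35, -61), (-1, 50, -13, 35, -80), (-1, 59, -13, 40, -79), (-1, 89, -18, 60, -109), (-1, 95, -19, 70, -125), (1, 100, -23, 85, -175), (-1, 113, -21, 85, -142), (-1, 119, -23, 80, -139), (1, 122, -23, 105, -178), (-1, 125, -23, 85, -140), (-1, 149, -28, 100, -169), (1, 160, -33, 135, -250), (1, 220, -43, 185, -325), (1, 230, -43, 235, -395), (1, 242, -45, 205, -343), (1, 280, -53, 235, -400), (-1, 395, -74, 270, -455)]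
  | 6, 4 => [(1, 1, 3, 0, 19), (1, 5, -6, 5, -35), (-1, 7, 3, 5, 22), (-1, 8, 1, 5, 8), (-1, 11, -4, 10, -31), (1, 14, 1, 15, 11), (1, 17, 3, 10, 17), (-1, 20, 3, 15, 25), (-1, 22, 1, 15, 7), (1, 35, -1, 30, -5), (-1, 37, 5, 30, 37), (1, 70, 11, 45, 65)]
  | 6, 5 => [(1, 1, 3, 0, 19), (1, 5, -6, 5, -35), (-1, 7, 3, 5, 22), (-1, 8, 1, 5, 8), (-1, 11, -4, 10, -31), (1, 17, 3, 10, 17), (-1, 20, 3, 15, 25), (-1, 22, 1, 15, 7), (1, 35, -1, 30, -5), (1, 65, 9, 55, 70)]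
  | 6, 6 => [(1, 1, 3, 0, 19), (1, 8, -1, -5, 8), (-1, 20, 3, 15, 25), (1, 25, 3, 15, 20), (1, 31, -2, 20, -11), (1, 41, -8, 35, -61), (1, 61, -7, 40, -41), (1, 71, -12, 60, -91), (1, 91, -12, 60, -71), (1, 101, -16, 85, -121), (1, 121, -17, 80, -101), (1, 131, -20, 110, -151), (1, 151, -22, 100, -131), (1, 181, -27, 120, -161)]
  | 6, 7 => [(1, 10, -1, 5, 5), (-1, 11, -4, 10, -31), (-1, 13, -7, 10, -47), (1, 23, -9, 15, -52), (-1, 25, -4, 20, -25), (-1, 55, -24, 45, -175)]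
  | 6, 8 => [(1, 10, -1, 5, 5), (-1, 11, -4, 10, -31), (-1, 13, -7, 10, -47), (-1, 20, -17, 15, -110), (1, 23, -9, 15, -52), (-1, 25, -4, 20, -25), (1, 38, -19, 25, -112), (-1, 55, -24, 45, -175), (-1, 85, -44, 70, -325), (-1, 115, -64, 95, -475)]
  | 7, 0 => [(1, 1, 7, 0, 19), (-1, 1, 9, 0, 19), (1, 5, 1, -5, 10), (-1, 5, 6, -5, -35), (-1, 16, 1, 5, 4), (1, 16, 17, 5, 49), (-1, 20, -31, 5, -65), (1, 20, 9, 5, 25), (1, 22, 3, 5, 7), (-1, 22, 25, 5, 52), (1, 23, -4, 5, -7), (-1, 23, 19, 5, 38), (1, 25, -8, 10, -25), (-1, 25, 17, 10, 65), (-1, 35, -3, 10, -5), (1, 35, 32, 10, 85), (1, 85, 16, 20, 35), (-1, 85, 101, 20, 215), (1, 190, -19, 45, -40), (-1, 190, 171, 45, 365)]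
  | 7, 1 => [(1, 1, 9, 0, 19), (-1, 5, 1, -5, 10), (1, 14, 3, 5, 11), (1, 16, 1, 5, 4), (-1, 17, 6, 5, 17), (-1, 20, 9, 5, 25), (-1, 22, 3, 5, 7), (-1, 23, -4, 5, -7), (-1, 25, -8, 10, -25), (1, 25, 9, 5, 20), (1, 35, -3, 10, -5), (1, 65, 17, 10, 25), (1, 65, 33, 15, 70), (-1, 85, 16, 20, 35), (-1, 190, -19, 45, -40), (1, 275, 68, 65, 145)]
  | 7, 2 => [(1, 1, 9, 0, 19), (-1, 5, 1, -5, 10), (1, 16, 1, 5, 4), (-1, 17, 6, 5, 17), (-1, 19, 0, 5, 1), (-1, 20, 9, 5, 25), (-1, 22, 3, 5, 7), (-1, 23, -4, 5, -7), (-1, 25, -8, 10, -25), (1, 25, 9, 5, 20), (1, 35, -3, 10, -5), (-1, 47, 11, 15, 32), (1, 65, 33, 15, 70), (-1, 77, 16, 25, 47), (-1, 85, 16, 20, 35), (1, 92, 17, -35, -58), (-1, 95, 19, 30, 55), (1, 106, 23, 25, 49), (-1, 107, 21, 35, 62), (1, 109, 20, 55, 91), (-1, 137, 26, 45, 77), (-1, 167, 31, 55, 92), (-1, 190, -19, 45, -40), (-1, 275, 52,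 85, 145), (1, 275, 68, 65, 145), (1, 277, 53, 65, 112), (-1, 374, 69, 115, 191), (1, 485, 103, 115, 220), (-1, 575, 107, 185, 310), (1, 695, 138, 165, 295), (1, 697, 130, 165, 277), (-1, 875, 162, 285, 475), (1, 905, 173, 215, 370), (1, 955, 176, 220, 365), (1, 1115, 208, 265, 445), (1, 1117, 207, 265, 442), (-1, 1175, 217, 385, 640), (1, 1537, 284, 365, 607), (1, 1835, 339, 430, 715), (1, 1957, 361, 465, 772)]
  | 7, 3 => [(-1, 5, 1, -5, 10), (-1, 23, -4, 5, -7), (-1, 31, -4, 10, -11), (-1, 46, -9, 15, -26), (1, 47, -7, 10, -13), (-1, 52, -9, 15, -23), (-1, 62, -13, 15, -28), (1, 97, -18, -40, 67), (-1, 130, -23, 35, -55), (1, 134, -25, 65, -109), (-1, 157, -29, 50, -83), (1, 175, -27, 40, -55), (1, 295, -54, 70, -115), (-1, 409, -76, 125, -209), (-1, 505, -93, 160, -265), (1, 572, -105, 135, -223), (-1, 880, -163, 285, -475), (1, 910, -167, 215,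 -355), (1, 1070, -199, 245, -410), (1, 1097, -203, 260, -433), (-1, 1255, -233, 410, -685), (1, 1622, -301, 385, -643), (1, 1945, -361, 455, -760), (1, 2147, -399, 510, -853)]
  | 7, 4 => [(-1, 5, 1, -5, 10), (1, 13, -1, 5, -2), (-1, 19, 0, 5, 1), (1, 19, 2, 0, 1), (-1, 23, -4, 5, -7), (-1, 25, -8, 10, -25), (1, 25, 9, 5, 20), (1, 35, -3, 10, -5), (1, 43, 6, 10, 13), (1, 55, 1, 20, 5), (-1, 104, 5, 25, 11), (1, 130, 11, 45, 35), (-1, 145, 2, 35, 5), (-1, 190, -19, 45, -40)]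
  | 7, 5 => [(1, 1, 9, 0, 19), (-1, 5, 1, -5, 10), (1, 16, 1, 5, 4), (-1, 20, 9, 5, 25), (-1, 23, -4, 5, -7), (-1, 25, -8, 10, -25), (1, 25, 9, 5, 20), (1, 35, -3, 10, -5), (1, 35, 6, -5, -5), (1, 43, 6, 10, 13), (1, 50, 9, 5, 10), (-1, 95, 19, 30, 55), (-1, 145, 2, 35, 5), (-1, 170, 29, 55, 85), (1, 185, 28, 40, 55), (-1, 190, -19, 45, -40), (-1, 245, 39, 80, 115), (-1, 320, 49, 105, 145), (-1, 355, 37, 85, 80), (1, 380, 57, 85, 115), (-1, 395, 59, 130, 175), (-1, 565, 72, 135, 155), (-1, 775, 107, 185, 230), (-1, 985, 142, 235, 305)]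
  | 7, 6 => [(-1, 5, 1, -5, 10), (-1, 23, -4, 5, -7), (-1, 31, -4, 10, -11), (-1, 62, -13, 15, -28)]
  | 7, 7 => [(1, 1, 6, 0, 19), (-1, 5, 1, -5, 10), (1, 14, -11, 5, -34), (1, 16, 1, 5, 4), (-1, 20, -51, 5, -110), (-1, 22, 3, 5, 7), (-1, 23, -4, 5, -7), (-1, 25, -8, 10, -25), (1, 29, -16, 10, -49), (1, 35, -3, 10, -5), (1, 44, -21, 15, -64), (1, 64, -21, 15, -44), (-1, 85, 16, 20, 35), (-1, 125, -86, 30, -185), (1, 169, -70, 40, -149), (-1, 190, -19, 45, -40)]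
  | 7, 8 => [(1, 1, 6, 0, 19), (-1, 5, 1, -5, 10), (1, 10, -11, 5, -40), (1, 14, -11, 5, -34), (1, 16, 1, 5, 4), (-1, 20, -51, 5, -110), (-1, 22, 3, 5, 7), (-1, 23, -4, 5, -7), (-1, 25, -8, 10, -25), (1, 35, -3, 10, -5), (-1, 41, -28, 10, -61), (1, 65, -32, 15, -65), (1, 70, -37, 15, -70), (-1, 85, 16, 20, 35), (-1, 125, -86, 30, -185), (-1, 190, -19, 45, -40)]
  | 8, 0 => [(1, 1, 10, 0, 19), (-1, 1, 13, 0, 19), (1, 20, -11, 5, -20), (-1, 20, 9, 5, 25), (-1, 25, -16, 5, -25), (1, 25, 59, 5, 110)]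
  | 8, 1 => [(-1, 1, 10, 0, 19), (1, 10, -1, 5, 5), (-1, 20, -11, 5, -20), (1, 22, 3, 5, 7), (1, 23, -4, 5, -7), (1, 25, -16, 5, -25), (-1, 29, -3, 5, -4), (-1, 55, 2, 10, 5), (-1, 59, 7, 10, 11), (-1, 76, 19, 15, 34), (-1, 80, 23, 15, 40), (1, 85, 16, 20, 35), (-1, 89, 17, 15, 26), (1, 95, -19, 20, -35), (-1, 119, 27, 20, 41), (1, 143, 28, 30, 53), (-1, 205, 42, 35, 65), (1, 215, 21, 45, 40), (1, 335, 61, 70, 115), (1, 455, 101, 95, 190)]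
  | 8, 2 => [(-1, 1, 10, 0, 19), (-1, 20, -11, 5, -20), (1, 23, -4, 5, -7), (1, 25, -16, 5, -25), (-1, 29, -3, 5, -4), (1, 37, 7, -5, -8), (1, 43, 6, 10, 13), (-1, 55, 2, 10, 5), (-1, 59, 7, 10, 11), (1, 65, 17, 10, 25), (-1, 73, 15, 15, 28), (-1, 83, 14, 15, 23), (-1, 89, 17, 15, 26), (1, 95, -19, 20, -35), (1, 185, 28, 40, 55), (-1, 185, 32, 35, 55), (1, 215, 21, 45, 40), (-1, 293, 54, 50, 83), (1, 335, 61, 70, 115), (1, 643, 118, 135, 223), (-1, 935, 172, 160, 265), (1, 1025, 188, 215, 355)]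
  | 8, 3 => [(1, 17, -3, -10, 17), (-1, 26, -1, 5, -1), (-1, 28, -11, 5, -17), (1, 70, -37, 15, -70), (-1, 88, -21, 15, -32), (1, 119, -26, 25, -49), (-1, 148, -31, 25, -47), (-1, 175, -36, 30, -55), (-1, 208, -41, 35, -62), (-1, 268, -51, 45, -77), (1, 308, -59, 65, -112), (1, 310, -77, 65, -145), (-1, 328, -61, 55, -92), (-1, 490, -93, 85, -145), (1, 550, -117, 115, -220), (1, 788, -147, 165, -277), (1, 790, -157, 165, -295), (1, 1030, -197, 215, -370), (-1, 1090, -203, 185, -310), (1, 1270, -237, 265, -445)]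
  | 8, 4 => [(-1, 1, 10, 0, 19), (-1, 20, -11, 5, -20), (1, 23, -4, 5, -7), (1, 25, -16, 5, -25), (-1, 29, -3, 5, -4), (-1, 55, 2, 10, 5), (1, 65, 17, 10, 25), (-1, 73, 15, 15, 28), (1, 95, -19, 20, -35), (-1, 193, 23, 40, 43), (1, 215, 21, 45, 40), (1, 215, 27, 35, 40)]
  | 8, 5 => [(-1, 1, 10, 0, 19), (-1, 20, -11, 5, -20), (1, 23, -4, 5, -7), (1, 25, -16, 5, -25), (-1, 29, -3, 5, -4), (-1, 55, 2, 10, 5), (1, 65, 17, 10, 25), (-1, 73, 15, 15, 28), (1, 95, -19, 20, -35), (1, 215, 21, 45, 40), (1, 235, 37, 35, 50)]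
  | 8, 6 => [(1, 25, -16, 5, -25), (-1, 26, -1, 5, -1), (-1, 29, -3, 5, -4), (1, 32, 1, 5, 2), (1, 92, -9, 15, -13), (1, 119, -26, 25, -49), (-1, 133, -19, 25, -32), (1, 152, -19, 25, -28), (-1, 170, -3, 35, -5), (1, 212, -29, 35, -43), (1, 239, -42, 50, -79), (1, 272, -39, 45, -58), (1, 332, -49, 55, -73), (1, 359, -58, 75, -109), (1, 479, -74, 100, -139)]
  | 8, 7 => [(-1, 20, -11, 5, -20), (-1, 28, -11, 5, -17), (1, 31, -8, 5, -11), (1, 35, -6, 5, -5), (-1, 49, -16, 10, -29), (-1, 53, -22, 10, -37), (-1, 145, -46, 30, -85)]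
  | 8, 8 => [(-1, 20, -11, 5, -20), (1, 31, -8, 5, -11), (-1, 49, -16, 10, -29), (1, 61, -28, 10, -41), (1, 91, -48, 15, -71), (-1, 145, -46, 30, -85), (-1, 265, -126, 55, -235), (-1, 385, -206, 80, -385), (-1, 505, -286, 105, -535)]

/-- The rows of `T_23`. -/
def T23T : Fin 9 → Fin 9 → List Tm
  | 0, 0 => [(1, 1, -7, 0, 23), (-1, 5, 2, -5, 5), (1, 5, 7, -5, -40), (-1, 14, 3, -5, -8), (1, 14, 17, -5, -53), (1, 23, -4, 0, 1), (1, 23, -3, 0, 1), (1, 23, -2, 0, 1), (1, 23, -1, 0, 1), (1, 23, 0, 0, 1), (1, 23, 1, 0, 1), (1, 23, 2, 0, 1), (1, 23, 3, 0, 1), (1, 23, 4, 0, 1), (1, 23, 5, 0, 1), (1, 23, 6, 0, 1), (1, 23, 7, 0, 1), (1, 23, 8, 0, 1), (1, 23, 9, 0, 1), (1, 23, 10, 0, 1), (1, 23, 11, 0, 1), (1, 23, 12, 0, 1), (1, 23, 13, 0, 1), (1, 23, 14, 0, 1), (1, 23, 15, 0, 1), (1, 23, 16, 0, 1), (1, 23, 17, 0, 1), (1, 23, 18, 0, 1), (1, 25, -3, -5, 10),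 (-1, 25, 22, -5, -35), (-1, 29, -2, -10, 7), (1, 29, 27, -10, -83)]
  | 0, 1 => [(1, 5, 2, -5, 5), (-1, 10, 7, -5, -20), (-1, 13, 6, -5, -19), (1, 14, 3, -5, -8), (1, 16, 3, -5, -7), (1, 20, 7, -5, -10), (-1, 23, -4, 0, 1), (-1, 23, -3, 0, 1), (-1, 23, -2, 0, 1), (-1, 23, -1, 0, 1), (-1, 23, 0, 0, 1), (-1, 23, 1, 0, 1), (-1, 23, 2, 0, 1), (-1, 23, 3, 0, 1), (-1, 23, 4, 0, 1), (-1, 23, 5, 0, 1), (-1, 25, -3, -5, 10), (-1, 25, 11, -10, -35), (1, 29, -2, -10, 7), (-1, 43, 11, -15, -34), (1, 65, 17, -5, -10)]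
  | 0, 2 => [(1, 5, 2, -5, 5), (-1, 10, 1, 15, 25), (-1, 10, 7, -5, -20), (-1, 13, 6, -5, -19), (1, 14, 3, -5, -8), (1, 16, 3, -5, -7), (-1, 23, -4, 0, 1), (-1, 23, -3, 0, 1), (-1, 23, -2, 0, 1), (-1, 23, -1, 0, 1), (-1, 23, 0, 0, 1), (-1, 23, 1, 0, 1), (-1, 23, 2, 0, 1), (-1, 23, 3, 0, 1), (-1, 25, -3, -5, 10), (-1, 25, 3, 5, 10), (-1, 25, 11, -10, -35), (1, 29, -2, -10, 7), (1, 40, 7, -5, -5), (-1, 43, 11, -15, -34), (1, 55, 9, -15, -20), (1, 59, 11, -5, -8), (-1, 73, 16, -25, -49), (-1, 91, 17, -40, -67), (-1, 100, 21, -35, -65), (-1, 103, 21, -35, -64), (-1, 115, 23, -45, -80), (-1, 119, 22, -50, -83), (-1, 133, 26, -45, -79), (-1, 145, 26, 15, 25), (-1, 163, 31, -55, -94), (-1, 193, 36, -65, -109), (1, 244, 45, -35, -58), (-1, 280, 51, 15, 25), (-1, 415, 76, 15, 25), (-1, 415, 78, -145, -245), (-1, 550, 101, 15, 25), (-1, 685, 126, 15, 25),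 (-1, 715, 133, -245, -410), (-1, 820, 151, 15, 25), (-1, 1015, 188, -345, -575), (-1, 1315, 243, -445, -740), (-1, 1615, 298, -545, -905)]
  | 0, 3 => [(-1, 10, -1, -15, 25), (-1, 14, -3, 5, -8), (-1, 44, -7, -15, 22), (1, 49, -9, -10, 17), (-1, 53, -9, -20, 31), (-1, 55, -7, -20, 25), (1, 58, -11, -15, 26), (1, 65, -12, -20, 35), (1, 70, -13, -5, 10), (-1, 71, -13, -35, 58), (-1, 124, -23, -55, 92), (-1, 125, -24, 15, -25), (-1, 158, -29, -55, 91), (-1, 260, -49, 15, -25), (-1, 260, -47, -95, 155), (1, 269, -50, -40, 67), (-1, 395, -74, 15, -25), (-1, 530, -99, 15, -25), (-1, 635, -117, -220, 365), (-1, 665, -124, 15, -25), (-1, 800, -149, 15, -25), (-1, 935, -174, 15, -25), (-1, 1010, -187, -345, 575), (-1, 1385, -257, -470, 785), (-1, 1760, -327, -595, 995)]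
  | 0, 4 => [(-1, 5, -2, 5, 5), (1, 5, 2, -5, 5), (-1, 10, 7, -5, -20), (1, 17, -1, -5, 4), (-1, 23, -4, 0, 1), (-1, 23, -3, 0, 1), (-1, 23, -2, 0, 1), (-1, 23, -1, 0, 1), (-1, 23, 0, 0, 1), (-1, 23, 1, 0, 1), (-1, 25, -3, -5, 10), (1, 29, -2, -10, 7), (1, 47, 4, -15, -11), (1, 50, -1, -15, 5), (1, 125, 9, -40, -25)]
  | 0, 5 => [(1, 5, 2, -5, 5), (-1, 10, 7, -5, -20), (-1, 23, -4, 0, 1), (-1, 23, -3, 0, 1), (-1, 23, -2, 0, 1), (-1, 23, -1, 0, 1), (-1, 23, 0, 0, 1), (-1, 23, 1, 0, 1), (-1, 23, 2, 0, 1), (-1, 23, 3, 0, 1), (-1, 25, -3, -5, 10), (-1, 25, 11, -10, -35), (1, 29, -2, -10, 7), (1, 40, 7, -5, -5), (-1, 100, 21, -35, -65), (-1, 175, 31, -60, -95), (-1, 250, 41, -85, -125), (-1, 325, 51, -110, -155), (-1, 400, 61, -135, -185), (-1, 475, 71, -160, -215)]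
  | 0, 6 => [(-1, 23, -4, 0, 1), (1, 29, -4, -5, 7), (1, 31, -5, -5, 8), (-1, 64, -9, -25, 32)]
  | 0, 7 => [(1, 1, -8, 0, 23), (1, 5, 2, -5, 5), (-1, 10, -7, 5, -20), (1, 14, 3, -5, -8), (1, 16, -13, -5, 38), (1, 20, -13, -5, 35), (1, 23, -9, 0, 1), (1, 23, -8, 0, 1), (1, 23, -7, 0, 1), (1, 23, -6, 0, 1), (1, 23, -5, 0, 1), (-1, 25, -3, -5, 10), (1, 29, -2, -10, 7), (1, 31, -18, -10, 53), (-1, 40, -11, -15, 40), (1, 46, -23, -15, 68)]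
  | 0, 8 => [(1, 1, -8, 0, 23), (1, 5, 2, -5, 5), (-1, 10, -3, -5, 25), (1, 14, 3, -5, -8), (1, 16, -13, -5, 38), (1, 20, -13, -5, 35), (1, 23, -11, 0, 1), (1, 23, -10, 0, 1), (1, 23, -9, 0, 1), (1, 23, -8, 0, 1), (1, 23, -7, 0, 1), (1, 23, -6, 0, 1), (1, 23, -5, 0, 1), (-1, 25, -3, -5, 10), (1, 29, -2, -10, 7), (1, 31, -18, -10, 53), (1, 35, -24, -10, 65), (-1, 35, -22, 5, -25)]
  | 1, 0 => [(1, 1, -7, 0, 23), (-1, 1, -4, 0, 23), (1, 8, 3, -5, -14), (-1, 8, 11, -5, -59), (-1, 10, -23, -5, 115), (1, 10, 7, -5, -20), (-1, 14, 3, -5, -8), (1, 14, 17, -5, -53), (1, 25, -1, -15, 10), (-1, 25, 24, -15, -125), (-1, 29, -2, -10, 7), (1, 29, 27, -10, -83), (-1, 55, -23, -30, 115), (1, 55, 32, -30, -155), (-1, 100, -23, -55, 115), (1, 100, 77, -55, -380)]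
  | 1, 1 => [(1, 7, 3, -5, -16), (1, 10, -23, -5, 115), (-1, 10, 7, -5, -20), (-1, 11, 1, -5, -2), (-1, 13, 6, -5, -19), (1, 16, 3, -5, -7), (1, 17, 8, -10, -41), (-1, 19, 3, -10, -13), (-1, 25, -1, -15, 10), (-1, 25, 11, -10, -35), (1, 29, -2, -10, 7), (1, 35, 23, -20, -115), (-1, 43, 11, -15, -34), (1, 55, -23, -30, 115), (1, 62, 17, -35, -86), (1, 80, 23, -45, -115), (1, 100, -23, -55, 115)]
  | 1, 2 => [(1, 2, 1, -5, -11), (1, 7, 3, -5, -16), (1, 10, -23, -5, 115), (-1, 10, 7, -5, -20), (-1, 11, 1, -5, -2), (1, 13, 3, -10, -19), (-1, 13, 6, -5, -19), (-1, 19, 3, -10, -13), (1, 23, 4, 0, 1), (-1, 25, -1, -15, 10), (-1, 25, 11, -10, -35), (-1, 28, 1, -15, -4), (1, 29, -2, -10, 7), (1, 35, 23, -20, -115), (-1, 43, 11, -15, -34), (1, 53, 10, -35, -59), (1, 55, -23, -30, 115), (1, 55, 9, -15, -20), (-1, 73, 10, -40, -49), (-1, 73, 16, -25, -49),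 (1, 80, 23, -45, -115), (-1, 91, 17, -40, -67), (-1, 94, 17, -45, -73), (1, 100, -23, -55, 115), (1, 100, 19, -65, -110), (-1, 100, 21, -35, -65), (-1, 103, 21, -35, -64), (1, 115, 23, -70, -125), (-1, 115, 23, -45, -80), (-1, 118, 19, -65, -94), (-1, 119, 22, -50, -83), (-1, 131, 24, -65, -107), (-1, 133, 26, -45, -79), (-1, 163, 28, -90, -139), (-1, 163, 31, -55, -94), (-1, 193, 36, -65, -109), (-1, 205, 37, -105, -170), (-1, 208, 37, -115, -184), (-1, 253, 46, -140, -229), (-1, 415, 78, -145, -245), (1, 610, 113, -345, -575), (-1, 679, 125, -370, -613), (-1, 715, 133, -245, -410), (1, 925, 171, -535, -890), (-1, 1015, 188, -345, -575), (-1, 1315, 243, -445, -740), (-1, 1615, 298, -545, -905)]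
  | 1, 3 => [(1, 28, -5, -25, 41), (1, 35, -6, -40, 65), (-1, 44, -7, -15, 22), (-1, 53, -9, -20, 31), (1, 53, -6, -30, 31), (-1, 55, -7, -20, 25), (1, 58, -11, -15, 26), (-1, 71, -13, -35, 58), (1, 98, -15, -55, 76), (-1, 124, -23, -55, 92), (1, 143, -24, -80, 121), (-1, 149, -28, -75, 127), (-1, 158, -29, -55, 91), (-1, 166, -31, -85, 143), (1, 188, -33, -105, 166), (1, 233, -42, -130, 211), (-1, 260, -47, -95, 155), (1, 278, -51, -155, 256), (1, 323, -60, -180, 301), (-1, 335, -63, -180, 305), (1, 605, -112, -345, 575), (-1, 635, -117, -220, 365), (-1, 779, -145, -425, 712), (1, 965, -179, -560, 935), (-1, 1010, -187, -345, 575), (-1, 1385, -257, -470, 785), (-1, 1760, -327, -595, 995)]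
  | 1, 4 => [(1, 10, -23, -5, 115), (-1, 10, 7, -5, -20), (-1, 11, 1, -5, -2), (1, 17, -1, -5, 4), (-1, 25, -1, -15, 10), (-1, 28, 1, -15, -4), (1, 29, -2, -10, 7), (1, 35, 23, -20, -115), (1, 47, 4, -15, -11), (1, 50, -1, -15, 5), (1, 55, -23, -30, 115), (1, 80, 23, -45, -115), (1, 100, -23, -55, 115), (1, 125, 9, -40, -25), (1, 125, 23, -70, -115), (1, 170, 23, -95, -115), (1, 215, 23, -120, -115)]
  | 1, 5 => [(1, 7, 3, -5, -16), (1, 10, -23, -5, 115), (-1, 10, 7, -5, -20), (-1, 25, -1, -15, 10), (1, 25, 3, 5, 10), (-1, 25, 11, -10, -35), (1, 29, -2, -10, 7), (1, 35, 23, -20, -115), (1, 55, -23, -30, 115), (1, 80, 23, -45, -115), (1, 85, 13, -70, -95), (1, 100, -23, -55, 115), (-1, 100, 21, -35, -65), (1, 110, 19, -65, -100), (1, 125, 23, -70, -115), (-1, 175, 31, -60, -95), (-1, 250, 41, -85, -125), (-1, 325, 51, -110, -155), (-1, 400, 61, -135,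 -185), (1, 425, 64, -240, -325), (-1, 475, 71, -160, -215)]
  | 1, 6 => [(1, 5, 1, -10, 5), (1, 31, -5, -5, 8), (1, 41, -5, -25, 28), (1, 53, -6, -30, 31), (-1, 64, -9, -25, 32)]
  | 1, 7 => [(1, 1, -8, 0, 23), (-1, 1, -5, 0, 23), (1, 4, -1, -5, 17), (1, 5, 2, -5, 5), (-1, 8, 3, -5, -14), (1, 14, 3, -5, -8), (1, 16, -13, -5, 38), (1, 20, -13, -5, 35), (1, 26, -11, -15, 58), (1, 29, -2, -10, 7), (1, 31, -18, -10, 53), (1, 35, -12, -20, 65), (-1, 40, -11, -15, 40), (-1, 46, -23, -25, 113), (1, 46, -23, -15, 68), (1, 55, -23, -30, 115), (1, 100, -23, -55, 115)]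
  | 1, 8 => [(1, 1, -8, 0, 23), (-1, 1, -5, 0, 23), (1, 5, 2, -5, 5), (-1, 8, 3, -5, -14), (1, 10, -7, 5, -20), (1, 14, 3, -5, -8), (1, 16, -13, -5, 38), (1, 17, -9, -10, 49), (1, 20, -13, -5, 35), (-1, 25, -14, -10, 55), (-1, 25, -1, -15, 10), (1, 26, -11, -15, 58), (1, 29, -2, -10, 7), (1, 31, -18, -10, 53), (1, 35, -24, -10, 65), (1, 35, -12, -20, 65), (1, 55, -23, -30, 115), (-1, 65, -44, -35, 215), (1, 100, -23, -55, 115)]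
  | 2, 0 => [(1, 7, 3, -5, -16), (-1, 7, 10, -5, -61), (-1, 8, -5, -5, 31), (1, 8, 11, -5, -59), (1, 10, -23, -5, 115), (-1, 10, -3, -5, 25), (-1, 25, -1, -15, 10), (1, 25, 24, -15, -125), (1, 55, -23, -30, 115), (-1, 55, 32, -30, -155), (1, 100, -23, -55, 115), (-1, 100, 77, -55, -380)]
  | 2, 1 => [(1, 1, -4, 0, 23), (1, 5, 7, -5, -40), (-1, 7, 3, -5, -16), (-1, 10, -23, -5, 115), (1, 11, 1, -5, -2), (-1, 17, 8, -10, -41), (1, 19, 3, -10, -13), (1, 20, 9, -15, -55), (-1, 23, 0, -15, 1), (-1, 35, 23, -20, -115), (-1, 38, 5, -25, -29), (-1, 53, 10, -35, -59), (-1, 55, -23, -30, 115), (-1, 62, 17, -35, -86), (-1, 68, 15, -45, -89), (-1, 80, 23, -45, -115), (-1, 100, -23, -55, 115), (-1, 100, 19, -65, -110), (-1, 175, 39, -115, -230)]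
  | 2, 2 => [(1, 1, -4, 0, 23), (1, 5, 7, -5, -40), (-1, 7, 3, -5, -16), (-1, 10, -23, -5, 115), (1, 20, 9, -15, -55), (-1, 23, 0, -15, 1), (1, 28, 1, -15, -4), (-1, 35, 23, -20, -115), (-1, 38, 5, -25, -29), (-1, 53, 10, -35, -59), (-1, 55, -23, -30, 115), (1, 73, 10, -40, -49), (-1, 80, 23, -45, -115), (1, 94, 17, -45, -73), (-1, 100, -23, -55, 115), (-1, 100, 19, -65, -110), (-1, 110, 19, -65, -100), (1, 110, 21, -85, -145), (-1, 115, 23, -70, -125), (-1, 116, 21, -75, -122), (1, 118, 19, -65, -94), (-1, 125, 23, -70, -115), (1, 131, 24, -65, -107), (1, 163, 28, -90, -139), (1, 205, 37, -105, -170), (1, 208, 37, -115, -184), (1, 253, 46, -140, -229), (-1, 485, 89, -315, -520), (-1, 610, 113, -345, -575), (1, 679, 125, -370, -613), (-1, 925, 171, -535, -890)]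
  | 2, 3 => [(1, 25, -4, -35, 55), (-1, 31, -9, -20, 53), (-1, 53, -6, -30, 31), (-1, 61, -14, -40, 83), (-1, 70, -17, -45, 100), (-1, 91, -19, -60, 113), (-1, 95, -18, -55, 95), (-1, 98, -15, -55, 76), (-1, 121, -24, -80, 143), (-1, 143, -24, -80, 121), (-1, 145, -27, -95, 160), (1, 149, -28, -75, 127), (-1, 151, -29, -100, 173), (1, 166, -31, -85, 143), (-1, 181, -34, -120, 203), (-1, 188, -33, -105, 166), (-1, 233, -42, -130, 211), (-1, 278, -51, -155, 256), (-1, 295, -56, -190, 325), (-1, 323, -60, -180, 301), (1, 335, -63, -180, 305), (-1, 595, -111, -390, 655), (-1, 605, -112, -345, 575), (1, 779, -145, -425, 712), (-1, 965, -179, -560, 935)]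
  | 2, 4 => [(1, 1, -4, 0, 23), (1, 5, 7, -5, -40), (-1, 10, -23, -5, 115), (1, 13, 3, -10, -19), (1, 20, 9, -15, -55), (-1, 23, 0, -15, 1), (1, 28, 1, -15, -4), (-1, 35, 23, -20, -115), (-1, 55, -23, -30, 115), (-1, 80, 23, -45, -115), (1, 95, 14, -65, -85), (-1, 100, -23, -55, 115), (-1, 125, 23, -70, -115), (-1, 170, 23, -95, -115), (-1, 215, 23, -120, -115)]
  | 2, 5 => [(1, 1, -4, 0, 23), (1, 5, 7, -5, -40), (-1, 7, 3, -5, -16), (-1, 10, -23, -5, 115), (1, 13, 3, -10, -19), (1, 20, 9, -15, -55), (-1, 23, 0, -15, 1), (-1, 35, 23, -20, -115), (-1, 55, -23, -30, 115), (-1, 80, 23, -45, -115), (1, 85, 14, -65, -95), (-1, 100, -23, -55, 115), (-1, 110, 19, -65, -100), (-1, 125, 23, -70, -115), (-1, 425, 64, -240, -325)]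
  | 2, 6 => [(1, 1, -4, 0, 23), (1, 5, 7, -5, -40), (1, 19, -3, 10, -13), (1, 25, -3, -5, 10), (1, 29, -1, -20, 7), (-1, 41, -5, -25, 28), (-1, 53, -6, -30, 31), (1, 59, -6, -40, 37), (1, 89, -11, -60, 67), (1, 119, -16, -80, 97), (1, 149, -21, -100, 127), (1, 179, -26, -120, 157), (1, 209, -31, -140, 187)]
  | 2, 7 => [(1, 1, -5, 0, 23), (1, 8, 3, -5, -14), (-1, 17, -9, -10, 49), (1, 22, -7, -15, 44), (-1, 26, -11, -15, 58), (-1, 35, -12, -20, 65), (1, 46, -23, -25, 113), (-1, 55, -23, -30, 115), (-1, 100, -23, -55, 115)]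
  | 2, 8 => [(1, 1, -5, 0, 23), (1, 8, 3, -5, -14), (-1, 10, -13, -5, 70), (-1, 17, -9, -10, 49), (1, 22, -7, -15, 44), (1, 25, -1, -15, 10), (-1, 26, -11, -15, 58), (-1, 35, -12, -20, 65), (1, 37, -17, -25, 104), (1, 52, -27, -35, 164), (-1, 55, -23, -30, 115), (1, 65, -44, -35, 215), (-1, 100, -23, -55, 115)]
  | 3, 0 => [(1, 1, 4, 0, 23), (-1, 1, 5, 0, 23), (1, 5, -7, 5, -40), (-1, 5, -2, 5, 5), (-1, 8, -3, 5, -14), (1, 8, 13, 5, 76), (1, 10, 13, 5, 70), (-1, 10, 23, 5, 115), (1, 19, -3, 10, -13), (-1, 19, 16, 10, 77), (1, 20, -9, 15, -55), (-1, 20, 11, 15, 80), (-1, 23, 0, 15, 1), (1, 23, 23, 15, 136), (-1, 25, 1, 15, 10), (1, 25, 26, 15, 145), (-1, 35, -23, 20, -115), (1, 35, 12, 20, 65), (-1, 80, -23, 45, -115), (1, 80, 57, 45, 290)]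
  | 3, 1 => [(-1, 1, 4, 0, 23), (-1, 5, -7, 5, -40), (1, 7, -3, 5, -16), (1, 8, -3, 5, -14), (1, 10, 23, 5, 115), (-1, 19, -3, 10, -13), (-1, 20, -9, 15, -55), (1, 23, 0, 15, 1), (-1, 31, 9, 20, 53), (1, 35, -23, 20, -115), (1, 37, 12, 20, 59), (1, 40, 11, 15, 40), (1, 55, 23, 30, 115), (-1, 70, 17, 45, 100), (1, 80, -23, 45, -115), (1, 82, 21, 45, 104), (-1, 95, 18, 55, 95)]
  | 3, 2 => [(-1, 1, 4, 0, 23), (-1, 5, -7, 5, -40), (1, 7, -3, 5, -16), (1, 10, 23, 5, 115), (1, 17, 3, 30, 49), (-1, 19, -3, 10, -13), (-1, 20, -9, 15, -55), (1, 23, 0, 15, 1), (1, 25, 4, 35, 55), (-1, 31, 9, 20, 53), (1, 35, -23, 20, -115), (-1, 53, 6, 30, 31), (1, 55, 23, 30, 115), (-1, 61, 14, 40, 83), (-1, 70, 17, 45, 100), (1, 80, -23, 45, -115), (-1, 91, 19, 60, 113), (-1, 95, 18, 55, 95), (-1, 98, 15, 55, 76), (1, 100, 23, 55, 115), (-1, 121, 24, 80, 143), (1, 124,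 23, 55, 92), (-1, 143, 24, 80, 121), (-1, 145, 27, 95, 160), (-1, 151, 29, 100, 173), (-1, 181, 34, 120, 203), (-1, 188, 33, 105, 166), (-1, 211, 39, 140, 233), (-1, 233, 42, 130, 211), (-1, 278, 51, 155, 256), (-1, 295, 56, 190, 325), (1, 335, 63, 180, 305), (-1, 352, 65, 225, 374), (-1, 419, 77, 240, 397), (-1, 595, 111, 390, 655), (1, 830, 153, 455, 755), (-1, 895, 166, 590, 985), (-1, 1195, 221, 790, 1315), (-1, 1495, 276, 990, 1645)]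
  | 3, 3 => [(-1, 19, -3, 10, -13), (1, 28, -1, 15, -4), (1, 37, -7, 45, -76), (-1, 38, -5, 25, -29), (-1, 53, -10, 35, -59), (1, 73, -10, 40, -49), (-1, 100, -19, 65, -110), (1, 110, -21, 85, -145), (-1, 110, -19, 65, -100), (-1, 115, -23, 70, -125), (-1, 116, -21, 75, -122), (1, 118, -19, 65, -94), (1, 119, -22, 50, -83), (-1, 125, -23, 70, -115), (1, 163, -28, 90, -139), (1, 205, -37, 105, -170), (1, 208, -37, 115, -184), (-1, 221, -41, 145, -242), (1, 253, -46, 140, -229), (1, 298, -55, 165, -274), (-1, 377, -70, 240, -401), (-1, 485, -89, 315, -520), (-1, 499, -93, 285, -478), (-1, 860, -159, 565, -940), (1, 925, -172, 505, -845), (-1, 1235, -229, 815, -1360), (-1, 1610, -299, 1065, -1780)]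
  | 3, 4 => [(1, 7, -3, 5, -16), (1, 10, 23, 5, 115), (-1, 19, -3, 10, -13), (-1, 20, -9, 15, -55), (1, 23, 0, 15, 1), (1, 29, 1, 20, 7), (1, 35, -23, 20, -115), (1, 55, 23, 30, 115), (-1, 65, 6, 40, 35), (1, 80, -23, 45, -115), (1, 80, 3, 55, 20), (1, 100, 23, 55, 115), (1, 145, 23, 80, 115), (1, 155, 13, 105, 80), (1, 190, 23, 105, 115)]
  | 3, 5 => [(-1, 5, -7, 5, -40), (1, 7, -3, 5, -16), (1, 10, 23, 5, 115), (-1, 19, -3, 10, -13), (-1, 20, -9, 15, -55), (1, 23, 0, 15, 1), (1, 23, 4, 0, 1), (1, 35, -23, 20, -115), (1, 55, 23, 30, 115), (-1, 70, 17, 45, 100), (1, 80, -23, 45, -115), (1, 80, 11, 15, 20), (1, 100, 23, 55, 115), (1, 145, 23, 80, 115), (-1, 145, 27, 95, 160), (-1, 220, 37, 145, 220), (1, 250, 39, 135, 190), (-1, 295, 47, 195, 280), (-1, 370, 57, 245, 340), (-1, 445, 67, 295, 400)]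
  | 3, 6 => [(1, 13, -3, 10, -19), (-1, 19, -3, 10, -13), (1, 28, -1, 15, -4), (-1, 38, -5, 25, -29), (1, 73, -10, 40, -49), (1, 121, -17, 65, -82)]
  | 3, 7 => [(-1, 5, -7, 5, -40), (1, 7, -10, 5, -61), (1, 8, 5, 5, 31), (-1, 17, -8, 10, -41), (-1, 19, -3, 10, -13), (-1, 20, -9, 15, -55), (1, 22, -15, 15, -91), (1, 23, 0, 15, 1), (1, 25, 1, 15, 10), (-1, 26, -15, 15, -77), (1, 37, -20, 25, -121), (1, 52, -25, 35, -151), (1, 65, -21, 35, -100), (1, 80, -23, 45, -115)]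
  | 3, 8 => [(-1, 5, -7, 5, -40), (1, 7, -10, 5, -61), (1, 8, 5, 5, 31), (1, 10, 3, 5, 25), (-1, 17, -8, 10, -41), (-1, 19, -3, 10, -13), (-1, 20, -9, 15, -55), (1, 22, -15, 15, -91), (1, 23, 0, 15, 1), (-1, 25, -24, 15, -125), (1, 25, -11, 10, -35), (1, 25, 1, 15, 10), (1, 46, -23, 25, -112), (1, 80, -23, 45, -115)]
  | 4, 0 => [(1, 1, -3, 0, 23), (-1, 1, 0, -10, 23), (-1, 1, 0, -5, 23), (-1, 1, 0, 0, 23), (1, 1, 1, -10, -67), (1, 1, 1, -5, -22), (1, 5, -2, 5, 5), (1, 5, -1, 10, 5), (-1, 5, 1, -10, 5), (-1, 5, 2, -5, 5), (-1, 5, 3, 5, 50), (-1, 5, 4, 10, 95), (1, 5, 6, -10, -85), (1, 5, 17, -5, -130), (1, 7, -4, -5, 29), (-1, 7, 3, -5, -16), (1, 10, -3, -5, 25), (-1, 10, 7, -5, -20), (1, 25, -7, -20, 55), (-1, 25, 18, -20, -125)]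
  | 4, 1 => [(-1, 1, -3, 0, 23), (1, 1, 0, -10, 23), (1, 1, 0, -5, 23), (1, 1, 0, 0, 23), (1, 1, 0, 5, 23), (1, 1, 0, 10, 23), (-1, 2, 1, -5, -11), (-1, 5, -2, 5, 5), (-1, 5, -1, 10, 5), (1, 5, 1, -10, 5), (1, 5, 1, 15, 50), (1, 5, 1, 40, 95), (-1, 7, -4, -5, 29), (-1, 10, -3, -5, 25), (1, 13, 3, -10, -19), (1, 19, 2, -15, -13), (1, 49, 10, -40, -73), (1, 55, 3, -45, -20), (1, 85, 13, -70, -95), (1, 115, 23, -95, -170), (1, 145, 33, -120, -245)]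
  | 4, 2 => [(-1, 1, -3, 0, 23), (1, 1, 0, -10, 23), (1, 1, 0, -5, 23), (1, 1, 0, 0, 23), (1, 1, 0, 5, 23), (1, 1, 0, 10, 23), (-1, 2, 1, -5, -11), (-1, 5, -2, 5, 5), (-1, 5, -1, 10, 5), (-1, 5, 1, -160, -265), (-1, 5, 1, -135, -220), (-1, 5, 1, -110, -175), (-1, 5, 1, -85, -130), (-1, 5, 1, -60, -85), (-1, 5, 1, -35, -40), (-1, 7, -4, -5, 29), (-1, 10, -3, -5, 25), (1, 11, 2, 25, 43), (1, 11, 2, 80, 133), (1, 19, 2, -15, -13), (-1, 37, 7, -45, -76), (1, 38, 7, 145, 241), (1, 40, 7, -5, -5), (1, 49, 9, 10, 17), (1, 55, 3, -45, -20), (-1, 65, 12, -305, -505), (1, 85, 13, -70, -95), (1, 85, 14, -65, -95), (1, 89, 16, -70, -113), (-1, 92, 17, -115, -191), (1, 125, 23, -70, -115), (1, 136, 25, -95, -157), (-1, 155, 29, -140, -235), (1, 239, 44, -195, -323), (1, 295, 54, -240, -395)]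
  | 4, 3 => [(1, 5, -1, 35, -40), (1, 5, -1, 60, -85), (1, 5, -1, 85, -130), (1, 5, -1, 110, -175), (1, 5, -1, 135, -220), (1, 5, -1, 160, -265), (-1, 10, -1, -15, 25), (-1, 11, -2, -25, 43), (1, 16, -3, 5, -7), (1, 16, -3, 85, -142), (-1, 17, -3, -30, 49), (1, 20, -11, -15, 80), (-1, 25, -4, -35, 55), (-1, 28, -5, -25, 41), (1, 34, -7, -25, 47), (-1, 35, -6, -40, 65), (1, 37, -8, -30, 59), (1, 43, -8, 155, -259), (1, 59, -11, 5, -8), (-1, 70, -13, -355, 595), (1, 80, -21, -65, 155), (1, 95, -18, -55, 95), (-1, 97, -18, -125, 209), (-1, 115, -21, -115, 190), (1, 140, -31, -115, 230), (1, 145, -27, -95, 160), (1, 154, -29, -125, 212), (1, 161, -30, -115, 193), (1, 200, -41, -165, 305), (1, 260, -51, -215, 380), (1, 274, -51, -225, 377), (1, 320, -61, -265, 455), (1, 380, -71, -315, 530)]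
  | 4, 4 => [(-1, 1, -3, 0, 23), (1, 1, 0, -10, 23), (1, 1, 0, -5, 23), (1, 1, 0, 0, 23), (1, 1, 0, 5, 23), (1, 1, 0, 10, 23), (1, 1, 0, 15, 23), (1, 1, 0, 20, 23), (1, 1, 0, 25, 23), (-1, 5, -2, 5, 5), (-1, 5, -1, 10, 5), (-1, 7, -4, -5, 29), (-1, 10, -3, -5, 25), (1, 11, 1, -5, -2), (-1, 29, 5, -25, -38), (1, 55, 3, -45, -20), (-1, 59, 7, -50, -53)]
  | 4, 5 => [(-1, 1, -3, 0, 23), (1, 1, 0, -10, 23), (1, 1, 0, -5, 23), (1, 1, 0, 0, 23), (1, 1, 0, 5, 23), (1, 1, 0, 10, 23), (1, 1, 0, 15, 23), (-1, 5, -2, 5, 5), (-1, 5, -1, 10, 5), (-1, 5, 1, -35, -40), (-1, 7, -4, -5, 29), (-1, 10, -3, -5, 25), (1, 10, 1, 15, 25), (-1, 29, 5, -25, -38), (1, 55, 3, -45, -20), (1, 95, 14, -65, -85), (-1, 110, 17, -105, -145)]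
  | 4, 6 => [(-1, 1, 0, -15, 23), (-1, 7, -1, -20, 29), (1, 13, -2, 15, -19), (1, 37, -8, -30, 59), (-1, 40, 1, -35, -5), (1, 67, -12, -55, 89), (1, 97, -16, -80, 119), (1, 127, -20, -105, 149), (1, 157, -24, -130, 179)]
  | 4, 7 => [(1, 1, 0, -10, 23), (1, 2, -1, 5, -11), (1, 2, -1, 15, -56), (-1, 4, -1, -5, 17), (-1, 5, -2, 5, 5), (-1, 5, -1, 10, 5), (1, 5, 1, -10, 5), (-1, 10, -3, -5, 25), (-1, 17, -6, -15, 49), (1, 20, -11, -15, 80), (-1, 25, -7, -20, 55), (-1, 35, -8, -30, 65), (-1, 65, -28, -55, 215)]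
  | 4, 8 => [(1, 1, 0, -10, 23), (1, 1, 0, -5, 23), (-1, 4, -1, -5, 17), (1, 5, -3, 20, -85), (1, 5, -3, 45, -220), (-1, 5, -2, 5, 5), (-1, 5, -1, 10, 5), (1, 5, 1, -10, 5), (1, 8, -5, -5, 31), (-1, 10, -3, -5, 25), (-1, 11, -5, -10, 43), (1, 25, -14, -10, 55), (-1, 25, -7, -20, 55), (-1, 35, -8, -30, 65), (-1, 65, -28, -55, 215), (-1, 95, -48, -80, 365), (-1, 125, -68, -105, 515)]
  | 5, 0 => [(1, 1, -4, 0, 23), (-1, 1, -3, 0, 23), (1, 5, 1, -10, 5), (-1, 5, 6, -10, -85), (1, 5, 7, -5, -40), (-1, 5, 17, -5, -130), (-1, 7, -4, -5, 29), (1, 7, 10, -5, -61), (1, 8, -5, -5, 31), (-1, 8, 3, -5, -14), (1, 23, -4, 0, 1), (-1, 23, 19, 0, 1), (-1, 25, -7, -20, 55), (1, 25, 18, -20, -125)]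
  | 5, 1 => [(-1, 1, -4, 0, 23), (1, 1, -3, 0, 23), (-1, 5, 1, -10, 5), (-1, 5, 7, -5, -40), (1, 7, -4, -5, 29), (1, 10, -3, -5, 25), (-1, 13, 3, -10, -19), (1, 14, 3, -5, -8), (-1, 19, 2, -15, -13), (-1, 20, 9, -15, -55), (-1, 23, -4, 0, 1), (1, 23, 0, -15, 1), (1, 25, -1, -15, 10), (1, 38, 5, -25, -29), (-1, 49, 10, -40, -73), (1, 53, 10, -35, -59), (-1, 55, 3, -45, -20), (1, 65, 17, -5, -10), (1, 68, 15, -45, -89), (-1, 85, 13, -70, -95), (1, 100, 19, -65, -110), (-1, 115, 23, -95, -170), (-1, 145, 33, -120, -245), (1, 175, 39, -115, -230)]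
  | 5, 2 => [(-1, 1, -4, 0, 23), (1, 1, -3, 0, 23), (-1, 5, 1, -10, 5), (-1, 5, 7, -5, -40), (1, 7, -4, -5, 29), (1, 10, -3, -5, 25), (1, 11, 1, -5, -2), (-1, 13, 3, -10, -19), (-1, 19, 2, -15, -13), (1, 19, 3, -10, -13), (-1, 20, 9, -15, -55), (-1, 23, -4, 0, 1), (1, 23, 0, -15, 1), (1, 25, -1, -15, 10), (1, 37, 7, -45, -76), (1, 38, 5, -25, -29), (-1, 55, 3, -45, -20), (-1, 85, 13, -70, -95), (-1, 85, 14, -65, -95), (-1, 89, 16, -70, -113), (1, 92, 17, -115, -191), (1, 110, 19, -65, -100), (-1, 110, 21, -85, -145), (1, 116, 21, -75, -122), (-1, 136, 25, -95, -157), (1, 155, 29, -140, -235), (-1, 239, 44, -195, -323), (-1, 295, 54, -240, -395), (1, 485, 89, -315, -520), (1, 955, 176, 15, 25)]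
  | 5, 3 => [(1, 17, -3, -30, 49), (-1, 20, -11, -15, 80), (-1, 23, -4, 0, 1), (1, 31, -9, -20, 53), (-1, 34, -7, -25, 47), (-1, 37, -8, -30, 59), (1, 61, -14, -40, 83), (1, 70, -17, -45, 100), (-1, 80, -21, -65, 155), (1, 91, -19, -60, 113), (1, 97, -18, -125, 209), (1, 115, -21, -115, 190), (1, 121, -24, -80, 143), (-1, 140, -31, -115, 230), (1, 151, -29, -100, 173), (-1, 154, -29, -125, 212), (-1, 161, -30, -115, 193), (1, 181, -34, -120, 203), (-1, 200, -41, -165, 305), (-1, 260, -51, -215, 380), (-1, 274, -51, -225, 377), (1, 295, -56, -190, 325), (-1, 320, -61, -265, 455), (-1, 380, -71, -315, 530), (1, 595, -111, -390, 655), (1, 1070, -199, 15, -25)]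
  | 5, 4 => [(-1, 1, -4, 0, 23), (1, 1, -3, 0, 23), (-1, 5, 1, -10, 5), (-1, 5, 7, -5, -40), (1, 7, -4, -5, 29), (1, 10, -3, -5, 25), (-1, 13, 3, -10, -19), (-1, 20, 9, -15, -55), (-1, 23, -4, 0, 1), (1, 23, 0, -15, 1), (1, 25, -1, -15, 10), (1, 29, 5, -25, -38), (1, 50, 3, 5, 5), (-1, 55, 3, -45, -20), (1, 59, 7, -50, -53), (-1, 95, 14, -65, -85)]
  | 5, 5 => [(-1, 1, -4, 0, 23), (1, 1, -3, 0, 23), (-1, 5, 1, -10, 5), (-1, 5, 7, -5, -40), (1, 7, -4, -5, 29), (1, 10, -3, -5, 25), (-1, 13, 3, -10, -19), (-1, 20, 9, -15, -55), (-1, 23, -4, 0, 1), (1, 23, 0, -15, 1), (1, 25, -1, -15, 10), (1, 29, 5, -25, -38), (-1, 55, 3, -45, -20), (-1, 85, 13, -70, -95), (-1, 85, 14, -65, -95), (-1, 95, 14, -65, -85), (1, 110, 17, -105, -145)]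
  | 5, 6 => [(-1, 1, -4, 0, 23), (-1, 5, 1, -10, 5), (-1, 5, 7, -5, -40), (-1, 23, -4, 0, 1), (-1, 29, -1, -20, 7), (-1, 37, -8, -30, 59), (1, 40, 1, -35, -5), (-1, 59, -6, -40, 37), (-1, 67, -12, -55, 89), (-1, 89, -11, -60, 67), (-1, 97, -16, -80, 119), (-1, 119, -16, -80, 97), (-1, 127, -20, -105, 149), (-1, 149, -21, -100, 127), (-1, 157, -24, -130, 179), (-1, 179, -26, -120, 157), (-1, 209, -31, -140, 187)]
  | 5, 7 => [(-1, 5, 1, -10, 5), (1, 17, -9, -10, 49), (1, 17, -6, -15, 49), (-1, 20, -11, -15, 80), (-1, 22, -7, -15, 44), (-1, 23, -4, 0, 1), (1, 25, -7, -20, 55), (1, 35, -8, -30, 65), (1, 65, -28, -55, 215)]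
  | 5, 8 => [(1, 1, -1, 5, -22), (1, 4, -1, -5, 17), (-1, 5, 1, -10, 5), (-1, 8, -5, -5, 31), (1, 10, -13, -5, 70), (1, 11, -5, -10, 43), (-1, 22, -7, -15, 44), (-1, 23, -4, 0, 1), (1, 25, -7, -20, 55), (1, 35, -8, -30, 65), (-1, 37, -17, -25, 104), (-1, 52, -27, -35, 164), (1, 65, -28, -55, 215), (1, 95, -48, -80, 365), (1, 125, -68, -105, 515)]
  | 6, 0 => [(1, 1, 3, 0, 23), (-1, 1, 4, 0, 23), (1, 5, -12, 5, -85), (-1, 5, -7, 5, -40), (-1, 7, -3, 5, -16), (1, 7, 4, 5, 29), (1, 8, 5, 5, 31), (-1, 8, 13, 5, 76), (1, 10, 3, 5, 25), (-1, 10, 13, 5, 70), (-1, 20, -9, 15, -55), (1, 20, 11, 15, 80), (1, 23, 0, 15, 1), (-1, 23, 23, 15, 136), (1, 25, 1, 15, 10), (-1, 25, 7, 20, 55), (-1, 25, 26, 15, 145), (1, 25, 32, 20, 235), (-1, 55, -3, 45, -20), (1, 55, 52, 45, 385)]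
  | 6, 1 => [(-1, 1, 3, 0, 23), (1, 1, 4, 0, 23), (1, 5, -7, 5, -40), (1, 5, -1, 10, 5), (-1, 7, 4, 5, 29), (-1, 10, 3, 5, 25), (1, 20, -9, 15, -55), (-1, 20, 11, 15, 80), (-1, 23, 0, 15, 1), (-1, 25, 1, 15, 10), (1, 31, 9, 20, 53), (1, 55, -3, 45, -20), (1, 70, 17, 45, 100), (-1, 80, 21, 65, 155)]
  | 6, 2 => [(-1, 1, 3, 0, 23), (1, 1, 4, 0, 23), (1, 5, -7, 5, -40), (1, 5, -1, 10, 5), (-1, 7, 4, 5, 29), (-1, 10, 3, 5, 25), (1, 20, -9, 15, -55), (-1, 20, 11, 15, 80), (-1, 23, 0, 15, 1), (-1, 25, 1, 15, 10), (1, 31, 9, 20, 53), (-1, 34, 7, 25, 47), (-1, 37, 8, 30, 59), (1, 55, -3, 45, -20), (1, 61, 14, 40, 83), (1, 70, 17, 45, 100), (-1, 80, 21, 65, 155), (1, 91, 19, 60, 113), (1, 121, 24, 80, 143), (-1, 140, 31, 115, 230), (1, 151, 29, 100, 173), (-1, 154, 29, 125, 212), (1, 181, 34, 120, 203), (-1, 200, 41, 165, 305), (1, 211, 39, 140, 233), (-1,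 260, 51, 215, 380), (-1, 274, 51, 225, 377), (1, 295, 56, 190, 325), (-1, 320, 61, 265, 455), (1, 352, 65, 225, 374), (-1, 380, 71, 315, 530), (-1, 394, 73, 325, 542), (-1, 514, 95, 425, 707), (1, 595, 111, 390, 655), (-1, 634, 117, 525, 872), (1, 895, 166, 590, 985), (1, 1195, 221, 790, 1315), (1, 1495, 276, 990, 1645)]
  | 6, 3 => [(1, 11, -1, 5, -2), (-1, 13, -3, 10, -19), (1, 19, -3, 10, -13), (-1, 19, -2, 15, -13), (1, 38, -5, 25, -29), (-1, 85, -14, 65, -95), (-1, 85, -13, 70, -95), (-1, 89, -16, 70, -113), (-1, 110, -21, 85, -145), (1, 110, -19, 65, -100), (1, 116, -21, 75, -122), (1, 221, -41, 145, -242), (-1, 239, -44, 195, -323), (-1, 295, -54, 240, -395), (1, 377, -70, 240, -401), (-1, 389, -72, 320, -533), (1, 485, -89, 315, -520), (-1, 539, -100, 445, -743), (-1, 689, -128, 570, -953), (1, 860, -159, 565, -940), (1, 1235, -229, 815,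 -1360), (1, 1610, -299, 1065, -1780)]
  | 6, 4 => [(-1, 1, 3, 0, 23), (1, 5, 2, -5, 5), (-1, 10, 3, 5, 25), (1, 20, -9, 15, -55), (-1, 23, 0, 15, 1), (1, 23, 0, 20, 1), (-1, 25, 1, 15, 10), (-1, 29, 1, 20, 7), (1, 40, -1, 35, -5), (1, 53, 4, 45, 31), (1, 55, -3, 45, -20), (-1, 80, 3, 55, 20), (1, 100, 9, 85, 70), (-1, 155, 13, 105, 80)]
  | 6, 5 => [(-1, 1, 3, 0, 23), (1, 5, -7, 5, -40), (-1, 7, 4, 5, 29), (-1, 10, 3, 5, 25), (1, 20, -9, 15, -55), (-1, 23, 0, 15, 1), (-1, 25, 1, 15, 10), (1, 40, -1, 35, -5), (1, 55, -3, 45, -20), (1, 70, 17, 45, 100), (1, 100, 9, 85, 70), (1, 145, 27, 95, 160), (1, 160, 19, 135, 145), (1, 220, 29, 185, 220), (1, 220, 37, 145, 220), (1, 280, 39, 235, 295), (1, 295, 47, 195, 280), (1, 340, 49, 285, 370), (1, 370, 57, 245, 340), (1, 445, 67, 295, 400)]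
  | 6, 6 => [(1, 2, -1, 5, -11), (1, 11, -1, 5, -2), (-1, 13, -3, 10, -19), (-1, 19, -2, 15, -13), (1, 29, -5, 25, -38), (1, 38, -5, 25, -29)]
  | 6, 7 => [(1, 4, -3, 5, -28), (1, 5, -17, 5, -130), (-1, 7, -10, 5, -61), (-1, 8, 5, 5, 31), (1, 10, -3, -5, 25), (1, 11, -6, 10, -47), (1, 13, -6, 5, -19), (-1, 13, -3, 10, -19), (-1, 22, -15, 15, -91), (-1, 23, 0, 15, 1), (-1, 25, 1, 15, 10), (1, 25, 7, 20, 55), (1, 35, -27, 30, -205), (-1, 37, -20, 25, -121), (-1, 43, -17, 35, -124), (-1, 52, -25, 35, -151), (1, 55, -3, 45, -20), (1, 65, -37, 55, -280)]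
  | 6, 8 => [(1, 5, -17, 5, -130), (-1, 7, -10, 5, -61), (-1, 8, 5, 5, 31), (-1, 10, 3, 5, 25), (1, 17, -8, 10, -41), (-1, 22, -15, 15, -91), (-1, 23, 0, 15, 1), (-1, 25, 1, 15, 10), (1, 25, 7, 20, 55), (1, 35, -27, 30, -205), (1, 55, -3, 45, -20), (-1, 70, -37, 55, -260)]
  | 7, 0 => [(1, 1, 8, 0, 23), (-1, 1, 11, 0, 23), (1, 10, -7, 5, -20), (-1, 10, 3, 5, 25), (1, 14, -3, 5, -8), (-1, 14, 11, 5, 37), (-1, 16, -3, 5, -7), (1, 16, 13, 5, 38), (-1, 20, -47, 5, -100), (1, 20, 13, 5, 35), (1, 22, -1, 5, -1), (-1, 22, 21, 5, 44), (1, 23, 0, 5, 1), (-1, 23, 23, 5, 46), (1, 25, -11, 10, -35), (1, 25, 3, 5, 10), (-1, 25, 14, 10, 55), (-1, 25, 28, 5, 55), (-1, 35, -11, 10, -25), (1, 35, 24, 10, 65), (-1, 41, -8, 10, -17), (1, 41, 33, 10, 73), (1, 85, -3, 20, -5), (-1, 85, 82, 20, 175)]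
  | 7, 1 => [(-1, 10, -7, 5, -20), (1, 16, -3, 5, -7), (-1, 22, -1, 5, -1), (-1, 23, 0, 5, 1), (-1, 25, -11, 10, -35), (-1, 25, 3, 5, 10), (1, 26, 7, 5, 13), (1, 29, 2, 10, 7), (1, 35, -11, 10, -25), (1, 41, -8, 10, -17), (1, 44, 7, 15, 22), (1, 55, 7, 20, 25), (1, 59, 12, 20, 37), (1, 65, 16, 15, 35), (1, 74, 17, 25, 52), (-1, 85, -3, 20, -5), (-1, 104, 17, 25, 37), (-1, 125, -12, 30, -25), (1, 130, 27, 45, 85), (1, 175, 41, 40, 85), (-1, 209, 45, 50, 97), (-1, 230, 23, 55, 50), (-1, 335, 58, 80, 125), (-1, 440, 93, 105, 200)]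
  | 7, 2 => [(-1, 10, -7, 5, -20), (1, 16, -3, 5, -7), (-1, 17, 1, 5, 4), (-1, 22, -1, 5, -1), (-1, 23, 0, 5, 1), (-1, 25, -11, 10, -35), (-1, 25, 3, 5, 10), (1, 28, 5, 25, 41), (1, 29, 2, 10, 7), (1, 35, -11, 10, -25), (1, 41, -8, 10, -17), (1, 44, 7, 15, 22), (1, 53, 9, 20, 31), (1, 55, 7, 20, 25), (1, 55, 14, 10, 25), (-1, 58, 11, 15, 26), (1, 59, 11, -5, -8), (1, 64, 15, 15, 32), (-1, 65, 12, 20, 35), (1, 65, 16, 15, 35), (-1, 85, -3, 20, -5), (-1, 104, 17, 25, 37), (-1, 125, -12, 30, -25), (-1, 230, 23, 55, 50), (1, 260, 47, 95, 155), (-1, 335, 58, 80, 125), (1, 406, 75, 95, 158), (-1, 499, 91, 120, 197), (1, 505, 93, 205, 340), (-1, 560, 99, 135, 215), (1, 1495, 276, 340, 565), (-1, 1585, 292, 395, 655)]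
  | 7, 3 => [(1, 13, -6, 5, -19), (-1, 14, -3, 5, -8), (-1, 19, -6, 5, -13), (1, 43, -11, 15, -34), (1, 49, -9, -10, 17), (1, 53, -10, 35, -59), (-1, 55, -9, 15, -20), (-1, 62, -19, 15, -41), (1, 73, -16, 25, -49), (1, 100, -21, 35, -65), (1, 103, -21, 35, -64), (1, 115, -23, 45, -80), (1, 133, -26, 45, -79), (-1, 145, -51, 35, -110), (1, 163, -31, 55, -94), (-1, 167, -33, 40, -71), (-1, 269, -52, 65, -113), (-1, 355, -86, 85, -185), (1, 415, -78, 145, -245), (1, 431, -80, 100, -167), (-1, 565, -121, 135, -260), (1, 575, -107, 230, -385), (-1, 689, -129, 165, -278), (-1, 775, -156, 185, -335), (-1, 985, -191, 235, -410), (-1, 1195, -226, 285, -485), (1, 1610, -299, 365, -610), (-1, 1790, -333, 445, -745)]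
  | 7, 4 => [(1, 5, -1, 10, 5), (-1, 10, -7, 5, -20), (1, 16, -3, 5, -7), (-1, 17, 1, 5, 4), (-1, 22, -1, 5, -1), (-1, 23, 0, 5, 1), (-1, 25, -11, 10, -35), (-1, 25, 3, 5, 10), (1, 29, 2, 10, 7), (1, 35, -11, 10, -25), (1, 41, -8, 10, -17), (1, 43, 5, 10, 11), (-1, 50, 1, 15, 5), (1, 64, 15, 15, 32), (-1, 65, 12, 20, 35), (1, 65, 16, 15, 35), (1, 80, 11, 15, 20), (-1, 85, -3, 20, -5), (-1, 125, -12, 30, -25), (-1, 140, 17, 45, 50), (1, 169, 22, 40, 47), (1, 235, 33, 55, 70)]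
  | 7, 5 => [(-1, 10, -7, 5, -20), (1, 16, -3, 5, -7), (-1, 22, -1, 5, -1), (-1, 23, 0, 5, 1), (-1, 25, -11, 10, -35), (-1, 25, 3, 5, 10), (1, 29, 2, 10, 7), (1, 35, -11, 10, -25), (1, 41, -8, 10, -17), (1, 43, 5, 10, 11), (1, 64, 15, 15, 32), (-1, 65, 12, 20, 35), (1, 65, 16, 15, 35), (-1, 85, -3, 20, -5), (-1, 125, -12, 30, -25), (1, 185, 29, 35, 50), (1, 205, 31, 40, 55), (-1, 230, 23, 55, 50)]
  | 7, 6 => [(-1, 14, -3, 5, -8), (-1, 17, 1, 5, 4), (-1, 19, -6, 5, -13), (1, 23, -3, 0, 1), (-1, 25, -11, 10, -35), (1, 28, -3, 5, -4), (1, 35, -11, 10, -25), (1, 47, -6, 10, -11), (-1, 47, -4, 15, -11), (-1, 50, 1, 15, 5), (-1, 62, -19, 15, -41), (1, 65, 16, 15, 35), (-1, 77, -9, 25, -26), (-1, 107, -14, 35, -41), (-1, 137, -19, 45, -56), (1, 157, -23, 35, -46), (-1, 167, -33, 40, -71), (-1, 167, -24, 55, -71), (-1, 197, -29, 65, -86), (-1, 227, -34,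 75, -101), (-1, 272, -47, 65, -101), (-1, 377, -61, 90, -131), (-1, 482, -75, 115, -161), (-1, 587, -89, 140, -191)]
  | 7, 7 => [(-1, 10, -7, 5, -20), (-1, 14, -3, 5, -8), (-1, 23, 0, 5, 1), (-1, 25, -11, 10, -35), (-1, 25, 3, 5, 10), (-1, 31, -13, 10, -37), (1, 41, -8, 10, -17), (1, 190, -73, 45, -155)]
  | 7, 8 => [(-1, 10, -7, 5, -20), (-1, 14, -3, 5, -8), (-1, 23, 0, 5, 1), (-1, 25, -11, 10, -35), (-1, 25, 3, 5, 10), (-1, 31, -13, 10, -37), (1, 35, -11, 10, -25), (1, 40, -29, 15, -95), (1, 41, -8, 10, -17), (-1, 46, -23, 15, -67), (1, 190, -73, 45, -155), (1, 295, -143, 70, -305), (1, 400, -213, 95, -455), (1, 505, -283, 120, -605)]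
  | 8, 0 => [(1, 1, 13, 0, 23), (-1, 1, 16, 0, 23), (-1, 25, 3, 5, 10), (1, 25, 78, 5, 145), (1, 31, 5, 5, 8), (-1, 31, 36, 5, 53), (1, 61, -5, 10, -7), (-1, 61, 56, 10, 83), (1, 70, -19, 15, -35), (-1, 70, 51, 15, 100), (-1, 145, 13, 30, 25), (1, 145, 158, 30, 295), (-1, 265, -27, 55, -50), (1, 265, 238, 55, 445)]
  | 8, 1 => [(1, 5, -2, 5, 5), (1, 20, -7, 5, -10), (1, 23, 0, 5, 1), (-1, 26, 7, 5, 13), (-1, 29, 4, 5, 7), (-1, 31, 5, 5, 8), (1, 32, 13, 5, 19), (-1, 55, 14, 10, 25), (-1, 61, -5, 10, -7), (1, 65, 24, 10, 35), (-1, 70, -19, 15, -35), (-1, 73, 22, 15, 41), (1, 92, 23, 15, 34), (1, 95, 2, 20, 5), (1, 145, 13, 30, 25), (-1, 170, 59, 35, 110), (1, 265, -27, 55, -50), (-1, 410, 99, 85, 185)]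
  | 8, 2 => [(1, 20, -7, 5, -10), (1, 22, -1, 5, -1), (1, 23, 0, 5, 1), (-1, 26, 7, 5, 13), (-1, 29, 4, 5, 7), (-1, 31, 5, 5, 8), (1, 32, 13, 5, 19), (1, 35, 13, 5, 20), (-1, 49, 9, 10, 17), (-1, 55, 14, 10, 25), (-1, 61, -5, 10, -7), (1, 65, 24, 10, 35), (-1, 70, -19, 15, -35), (-1, 73, 22, 15, 41), (-1, 80, 11, 15, 20), (1, 92, 23, 15, 34), (1, 95, 2, 20, 5), (1, 145, 13, 30, 25), (1, 152, 33, 25, 49), (-1, 170, 59, 35, 110), (-1, 193, 38, 40, 71), (1, 212, 43, 35, 64), (1, 215, 44, 35, 65), (1, 265, -27, 55, -50), (1, 269, 50, 40, 67), (1, 272, 53, 45, 79), (1, 290, 57, 45, 80), (-1, 316, 61, 65, 113), (1, 332, 63, 55, 94), (1, 392, 73, 65, 109), (1, 397, 73, 90, 149), (-1, 410, 99, 85, 185), (-1, 650, 139, 135, 260), (-1, 796, 149, 165, 278), (1, 890, 167, 145, 245), (-1, 890, 179, 185, 335), (-1, 1130, 219, 235, 410), (-1, 1276, 237, 265, 443),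 (-1, 1370, 259, 285, 485), (1, 1490, 277, 245, 410), (-1, 1610, 299, 335, 560), (-1, 1685, 312, 345, 575), (-1, 1756, 325, 365, 608), (1, 2090, 387, 345, 575), (-1, 2236, 413, 465, 773), (1, 2690, 497, 445, 740), (-1, 2716, 501, 565, 938), (1, 3290, 607, 545, 905)]
  | 8, 3 => [(-1, 28, -3, 5, -4), (1, 35, -11, 10, -25), (1, 71, -17, 15, -32), (-1, 77, -15, 15, -26), (1, 91, -15, 15, -22), (-1, 115, -23, 20, -35), (-1, 121, -20, 25, -37), (1, 125, -18, 20, -25), (1, 127, -22, 20, -31), (1, 244, -45, 35, -58), (1, 337, -62, 55, -91), (-1, 385, -67, 80, -125), (1, 467, -87, 105, -176), (-1, 581, -106, 120, -197), (1, 595, -108, 95, -155), (-1, 655, -116, 135, -215), (-1, 1181, -218, 245, -407), (1, 1345, -248, 220, -365), (-1, 1495, -276, 310, -515), (-1, 1690, -313, 345, -575), (-1, 1781, -330, 370, -617), (1, 2095, -388, 345, -575), (-1, 2381, -442,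 495, -827), (1, 2845, -528, 470, -785), (-1, 2981, -554, 620, -1037), (1, 3595, -668, 595, -995)]
  | 8, 4 => [(1, 20, -7, 5, -10), (1, 22, -1, 5, -1), (1, 23, 0, 5, 1), (-1, 26, 7, 5, 13), (-1, 28, -3, 5, -4), (-1, 29, 4, 5, 7), (1, 35, 13, 5, 20), (1, 47, -6, 10, -11), (-1, 49, 9, 10, 17), (-1, 55, 14, 10, 25), (-1, 61, -5, 10, -7), (-1, 80, 11, 15, 20), (-1, 85, -4, 15, -5), (-1, 88, 7, 15, 11), (1, 95, 2, 20, 5), (1, 145, 13, 30, 25), (1, 167, 10, 35, 19), (-1, 235, 16, 40, 25), (1, 265, -27, 55, -50), (1, 310, 21, 65, 40)]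
  | 8, 5 => [(1, 20, -7, 5, -10), (1, 22, -1, 5, -1), (1, 23, 0, 5, 1), (-1, 26, 7, 5, 13), (-1, 31, 5, 5, 8), (1, 35, 13, 5, 20), (1, 40, 7, -5, -5), (-1, 49, 9, 10, 17), (-1, 55, 14, 10, 25), (-1, 61, -5, 10, -7), (1, 65, 24, 10, 35), (-1, 80, 11, 15, 20), (1, 95, 2, 20, 5), (1, 145, 13, 30, 25), (-1, 185, 29, 35, 50), (-1, 205, 31, 40, 55), (1, 215, 44, 35, 65), (1, 265, -27, 55, -50), (1, 310, 21, 65, 40), (1, 365, 64, 60, 95), (1, 515, 84, 85, 125), (1, 550, 61, 115, 115), (1, 665, 104, 110, 155), (1, 790, 101, 165, 190), (1, 815, 124, 135, 185), (1, 965, 144, 160, 215), (1, 1030, 141, 215, 265), (1, 1270, 181, 265, 340), (1, 1510, 221, 315, 415)]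
  | 8, 6 => [(-1, 28, -3, 5, -4), (1, 71, -17, 15, -32), (1, 161, -23, 25, -32)]
  | 8, 7 => [(1, 1, 12, 0, 23), (-1, 1, 15, 0, 23), (1, 23, -9, 0, 1), (-1, 25, -22, 5, -35), (1, 25, 53, 5, 100), (-1, 29, -25, 5, -38), (-1, 31, 5, 5, 8), (1, 55, -27, 5, -20), (-1, 59, -35, 10, -53), (-1, 61, -5, 10, -7), (-1, 70, -19, 15, -35), (-1, 89, -45, 15, -68), (1, 95, -93, 20, -175), (1, 95, -29, 15, -40), (-1, 97, -33, 20, -61), (1, 145, 13, 30, 25), (1, 215, -133, 45, -250), (-1, 217, -89, 45, -166), (1, 265, -27, 55, -50)]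
  | 8, 8 => [(1, 1, 12, 0, 23), (-1, 1, 15, 0, 23), (1, 23, -23, 5, -44), (-1, 25, -22, 5, -35), (1, 25, 53, 5, 100), (-1, 29, -25, 5, -38), (-1, 31, 5, 5, 8), (-1, 55, -41, 10, -65), (-1, 59, -35, 10, -53), (-1, 61, -5, 10, -7), (-1, 70, -19, 15, -35), (1, 95, -93, 20, -175), (1, 145, 13, 30, 25), (1, 215, -133, 45, -250), (1, 265, -27, 55, -50)]

end Pool.Agent.Helper93.T53
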