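import Pool.Agent.Helper93.T53.Edge
import Pool.Agent.Helper93.T53.Lists
import Pool.Agent.Helper93.T53.Lists2
import Pool.Agent.Helper83.T5C.StB
import Pool.Agent.Helper78.W3.StD

/-!
# Levels `5·3^n`, `W_5 = +1`: lower bound

Models: `Helper93/TH3/StD.lean` (levels `2·3^n`, proved; modules `Pool/Agent/*/TH3/M_*.lean`, `Helper93/TH3/LB.lean`). The operator calculus on plane functions is the one of W3 (`tr`, `op3`, `opL`, `mulL`, `Wd3`, `Lw`, `dX`, `dY`, `oD`, `oN`, `sS`, `M5`, `bb3`, the proved statements `S3Trm, S3Low0, S3Nf, S3Exp, S3Lw1,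
S3Bb, S3PlA`): the plane is `ZMod (3^r) × ZMod (3^s)`, `(k, a, b, c, d)` stands for `k` times the operator of `(a 3b; 3c d)`. There are matrices of determinant five (`HTy`, second case); `5 ≡ -1` modulo `3`, so they act as `oN` on leading forms.
GEOMETRY. The group of all `HTy` is the free product of three groups of order two: `ε0 = (0 -1; 5 0)` exchanges `0, ∞`; `ε1 = (-2 1; -5 2)` exchanges `0, 1/2`; `ε2 = (5 -3; 10 -5)` exchanges `1/2, ∞`; ideal triangle `(∞, 0, 1/2)`. The group of matrices `(a 3b; 3c d)` has index twelve; its fundamental polygon consists of twelve triangles and has the vertices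
`∞, -1, -3/5, -1/2, -2/5, 0, 2/5, 1/2, 3/5, 1, 7/5, 3/2, 8/5, 2`; the sides: `∞ → -1` (paired with `2 → ∞` by `A = (1 3; 0 1)`), `-1 → -3/5` (paired with `2/5 → 0`), `-3/5 → -1/2` (with `3/2 → 7/5`), `1/2 → 3/5` (with `8/5 → 3/2`), `-2/5 → 0` (with `1 → 3/5`), and four sides which are paired with themselves:
`-1/2 → -2/5`, `2/5 → 1/2`, `1 → 7/5`, `8/5 → 2`. All rows, certificates, leading forms and counts were checked by machine.
-/

set_option autoImplicit false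

namespace Pool.Agent.Helper93.T53

open Pool.Agent.Helper14.CV (Homog EqC act Tl StFar StFex)
open Pool.Agent.Helper28.WK (Tw evw)
open Pool.Agent.Helper78.W3 (tr Fn3 Tm opL op3 mulL negL Wd3 dX dY oD oN Lw sS M5 bb3 S3PlA S3Trm S3Low0 S3Nf S3Exp S3Lw1 S3Bb)
open Pool.Agent.Helper28.T5 (HTy SymH)
open Pool.Agent.Helper83.T5C (SHHk SHHkS LBH)
open Pool.Agent.Helper93.TLE (DDE)

/-! ### Plane functions -/

/-- TRE (from EDG, PLT). Values on translated paths: for `γ = (a 3b; 3c d)` of type `HTy` the path from `γ v` to `γ u` at the point `p` is the path from `v` to `u` at `p γ`: the standard matrix `g0` has determinant one and lower left entry divisible by `5`, so `g0 γ` has the type of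
`γ` and the coordinates `p γ` (EDG). Model: `Pool/Agent/Helper36/TH3/M_Tre.lean` (replace `2` by `5`). -/
def TTre : Prop := ∀ (R : Type) (_ : AddCommGroup R) (r s : ℕ) (G : ℤ → ℤ → R), SymH 3 (r + 1) (s + 1) G →
  ∀ (a b c d u1 u2 v1 v2 : ℤ), HTy a (3 * b) (3 * c) d → (u1 ≠ 0 ∨ u2 ≠ 0) → (v1 ≠ 0 ∨ v2 ≠ 0) →
  ∀ (x : ZMod (3 ^ r)) (y : ZMod (3 ^ s)),
  edgeT (a * u1 + 3 * b * u2) (3 * c * u1 + d * u2) (a * v1 + 3 * b * v2) (3 * c * v1 + d * v2) G x y =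
    tr a b c d (edgeT u1 u2 v1 v2 G) x y

/-- The basic paths `(w, z)`, from `z` to `w`: `-1 → ∞`, `-1 → -3/5`, `-3/5 → -1/2`, `1/2 → 3/5`, `-2/5 → 0`, `-1/2 → -2/5`, `2/5 → 1/2`, `1 → 7/5`, `8/5 → 2`. -/
def bsT : Fin 9 → ℤ × ℤ × ℤ × ℤ
  | 0 => (1, 0, -1, 1)
  | 1 => (-3, 5, -1, 1)
  | 2 => (-1, 2, -3, 5)
  | 3 => (3, 5, 1, 2)
  | 4 => (0, 1, -2, 5)
  | 5 => (-2, 5, -1, 2)
  | 6 => (1, 2, 2, 5)
  | 7 => (7, 5, 1, 1)
  | 8 => (2, 1, 8, 5)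

/-- The nine plane functions of a symbol: `F_i(g) = G(g w) - G(g z)` for the basic path `(w, z)`. -/
noncomputable def pfT {R : Type} [AddCommGroup R] {q q' : ℕ} (G : ℤ → ℤ → R) (i : Fin 9) :
    ZMod q → ZMod q' → R :=
  fun x y => edgeT (bsT i).1 (bsT i).2.1 (bsT i).2.2.1 (bsT i).2.2.2 G x y

/-- The relations between the nine functions: four involutions and the boundary of the polygon. -/
def RelT {R : Type} [AddCommGroup R] {q q' : ℕ} (F : Fin 9 → ZMod q → ZMod q' → R) : Prop :=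
  (∀ x y, F 5 x y + tr 20 3 (-15) (-20) (F 5) x y = 0) ∧
  (∀ x y, F 6 x y + tr 20 (-3) 15 (-20) (F 6) x y = 0) ∧
  (∀ x y, F 7 x y + tr 20 (-9) 5 (-20) (F 7) x y = 0) ∧
  (∀ x y, F 8 x y + tr 25 (-14) 5 (-25) (F 8) x y = 0) ∧
  ∀ x y, (tr 1 1 0 1 (F 0) x y - F 0 x y) + (F 1 x y - tr 5 1 5 10 (F 1) x y) +
    (F 2 x y - tr 65 12 15 25 (F 2) x y) + (F 3 x y - tr 70 (-13) 15 (-25) (F 3) x y) +
    (F 4 x y - tr 10 1 5 5 (F 4) x y) + F 5 x y + F 6 x y + F 7 x y + F 8 x y = 0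

/-- REL (from TRE). The plane functions of a symbol satisfy the relations. The matrix `(20 9; -45 -20)` exchanges `-1/2, -2/5`; `(20 -9; 45 -20)` exchanges `2/5, 1/2`; `(20 -27; 15 -20)` exchanges `1, 7/5`; `(25 -42; 15 -25)` exchanges `8/5, 2` (all of type `HTy`, determinant five): the first four relations by TRE and `Homog`
(`(20 9; -45 -20)(-1, 2) = (-2, 5)`, `(20 9; -45 -20)(-2, 5) = 5 (1, -2)`). Boundary of the polygon (the values at the vertices `∞, -1, ..., 2, ∞` cancel): `∞ → -1` is `-F0`; `-1 → -3/5` is `F1`; `-3/5 → -1/2`: `F2`; `-1/2 → -2/5`: `F5`; `-2/5 → 0`: `F4`; `0 → 2/5`: `-F1∘M1`, `M1 = (5 3; 15 10)` maps `-1, -3/5` to `2/5, 0`;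
`2/5 → 1/2`: `F6`; `1/2 → 3/5`: `F3`; `3/5 → 1`: `-F4∘M4`, `M4 = (10 3; 15 5)` maps `-2/5, 0` to `1, 3/5`; `1 → 7/5`: `F7`; `7/5 → 3/2`: `-F2∘M2`, `M2 = (65 36; 45 25)` maps `-3/5, -1/2` to `3/2, 7/5`; `3/2 → 8/5`: `-F3∘M3`, `M3 = (70 -39; 45 -25)` maps `1/2, 3/5` to `8/5, 3/2`; `8/5 → 2`: `F8`; `2 → ∞`: `F0∘A`.
Model: `Pool/Agent/Helper51/TH3/M_Rel.lean`. -/
def TRel : Prop := ∀ (R : Type) (_ : AddCommGroup R) (r s : ℕ) (G : ℤ → ℤ → R),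
  SymH 3 (r + 1) (s + 1) G → RelT (fun i => (pfT G i : ZMod (3 ^ r) → ZMod (3 ^ s) → R))

/-- The properties of the three functions `V, W, U` on the matrices `g = (a b; c d)` of determinant one with `5 ∣ c` (`V(g) = G(g∞) - G(g0)`, `W(g) = G(g½) - G(g0)`, `U(g) = G(g(-2/5)) - G(g∞)` for a symbol). -/
def VWU {R : Type} [AddCommGroup R] (r s : ℕ) (F : Fin 9 → ZMod (3 ^ r) → ZMod (3 ^ s) → R)
    (V W U : ℤ → ℤ → ℤ → ℤ → R) : Prop :=
    (∀ a b c d : ℤ, a * d - b * c = 1 → (5 : ℤ) ∣ c → V (-a) (-b) (-c) (-d) = V a b c d ∧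
      W (-a) (-b) (-c) (-d) = W a b c d ∧ U (-a) (-b) (-c) (-d) = U a b c d) ∧
    (∀ a b c d : ℤ, a * d - b * c = 1 → (5 : ℤ) ∣ c →
      W (-2 * a - 5 * b) (a + 2 * b) (-2 * c - 5 * d) (c + 2 * d) = -W a b c d ∧
      U (2 * a - 5 * b) (a - 2 * b) (2 * c - 5 * d) (c - 2 * d) = -U a b c d ∧
      V a b c d - W a b c d = V (3 * a + 5 * b) (a + 2 * b) (3 * c + 5 * d) (c + 2 * d) +
        U (3 * a + 5 * b) (a + 2 * b) (3 * c + 5 * d) (c + 2 * d)) ∧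
    (∀ α β γ δ a b c d : ℤ, α * δ - β * γ = 1 → (5 : ℤ) ∣ γ → (3 : ℤ) ^ (r + 1) ∣ β → (3 : ℤ) ^ (s + 1) ∣ γ →
      a * d - b * c = 1 → (5 : ℤ) ∣ c →
      V (α * a + β * c) (α * b + β * d) (γ * a + δ * c) (γ * b + δ * d) = V a b c d ∧
      W (α * a + β * c) (α * b + β * d) (γ * a + δ * c) (γ * b + δ * d) = W a b c d ∧
      U (α * a + β * c) (α * b + β * d) (γ * a + δ * c) (γ * b + δ * d) = U a b c d) ∧
    (∀ α β γ δ a b c d : ℤ, 5 * α * δ - β * γ = 1 → (3 : ℤ) ^ (r + 1) ∣ β → (3 : ℤ) ^ (s + 1) ∣ γ →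
      a * d - 5 * b * c = 1 →
      V (5 * α * b + β * d) (-(α * a + β * c)) (5 * (γ * b + δ * d)) (-(γ * a + 5 * δ * c)) = -V a b (5 * c) d ∧
      W (5 * α * b + β * d) (-(α * a + β * c)) (5 * (γ * b + δ * d)) (-(γ * a + 5 * δ * c)) = U a b (5 * c) d ∧
      U (5 * α * b + β * d) (-(α * a + β * c)) (5 * (γ * b + δ * d)) (-(γ * a + 5 * δ * c)) = W a b (5 * c) d) ∧
    (∀ (x : ZMod (3 ^ r)) (y : ZMod (3 ^ s)) (a b c d : ℤ), a * d - 3 * b * (3 * c) = 1 → (5 : ℤ) ∣ c →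
      (b : ZMod (3 ^ r)) = x * a → (c : ZMod (3 ^ s)) = y * d →
      V a (3 * b - a) (3 * c) (d - 3 * c) = F 0 x y ∧
      V (3 * a - 15 * b) (6 * b - a) (9 * c - 5 * d) (2 * d - 3 * c) + W a (3 * b - a) (3 * c) (d - 3 * c) = F 1 x y ∧
      -V (3 * a - 15 * b) (6 * b - a) (9 * c - 5 * d) (2 * d - 3 * c) = F 2 x y ∧
      V (3 * a + 15 * b) (a + 6 * b) (9 * c + 5 * d) (3 * c + 2 * d) = F 3 x y ∧
      -V a (3 * b) (3 * c) d - U a (3 * b) (3 * c) d = F 4 x y ∧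
      V (15 * b - 2 * a) (6 * b - a) (5 * d - 6 * c) (2 * d - 3 * c) = F 5 x y ∧
      -V (-2 * a - 15 * b) (a + 6 * b) (-6 * c - 5 * d) (3 * c + 2 * d) = F 6 x y ∧
      V (-7 * a - 15 * b) (3 * a + 6 * b) (-21 * c - 5 * d) (9 * c + 2 * d) +
        W a (a + 3 * b) (3 * c) (3 * c + d) = F 7 x y ∧
      -V a (2 * a + 3 * b) (3 * c) (6 * c + d) - U a (2 * a + 3 * b) (3 * c) (6 * c + d) = F 8 x y)

/-- EXA (from TRM). For a solution `F` of the relations there are functions `V, W, U` with the properties `VWU`. CLASSES. The class of an integral matrix `g = (a b; c d)` of type `HTy` is the pair of points `((a : b), (c : d))` of the projective line over `ZMod 3` (12 classes, all with representatives of both types; left multiplication by `(α 3β; 3γ δ)`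
of type `HTy` does not change it; `g ρ⁻¹` (up to a scalar) has the form `(* 3*; 3* *)` and type `HTy` if and only if `g` and `ρ` have the same class). Representatives `ρ` (all triangles of the polygon, vertices `ρ∞, ρ0, ρ½`): `(1 -1; 0 1)`: `∞, -1, -1/2`; `(5 -2; -10 5)`: `-1/2, -2/5, ∞`; `(0 1; -5 0)`: `0, ∞, -2/5`; `(1 0; 0 1)`: `∞, 0, 1/2`;
`(5 -3; 10 -5)`: `1/2, 3/5, ∞`; `(5 -1; 5 0)`: `1, ∞, 3/5`; `(1 1; 0 1)`: `∞, 1, 3/2`; `(15 -8; 10 -5)`: `3/2, 8/5, ∞`; `(10 -1; 5 0)`: `2, ∞, 8/5`; `(3 -1; -5 2)`: `-3/5, -1/2, -1`; `(2 -1; 5 -2)`: `2/5, 1/2, 0`; `(7 -3; 5 -2)`: `7/5, 3/2, 1`.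
DEFINITION. For `g` of type `HTy` with representative `ρ`, `γ = g ρ⁻¹ = (a 3b; 3c d)` (up to a scalar), `p(γ) = (b/a, c/d)`, put `K_i(g)` (`i = 0, 1, 2`) for the value at `p(γ)` of the path `ρ0 → ρ∞`, `ρ0 → ρ½`, `ρ½ → ρ∞` of the polygon; the path between two vertices of the polygon is a sum of sides (see REL; `-F0`, `F1`, `F2`, `F5`, `F4`, `-F1∘M1`, `F6`, `F3`,
`-F4∘M4`, `F7`, `-F2∘M2`, `-F3∘M3`, `F8`, `F0∘A`; the last relation says that it does not matter which way one goes). So `K_0 = K_1 + K_2` and `K_i (g ε_i) = -K_i g`: in the twelve classes the edge `i` of the triangle is a diagonal of the polygon (then both sides are the same diagonal), or a side paired with another side (then by the definition of the sides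
`-F1∘M1`, ...; `p(γ M) = p(γ) M`), or a side paired with itself (`K_0` in the classes of `(5 -2; -10 5)`, `(2 -1; 5 -2)`, `K_2` in the classes of `(7 -3; 5 -2)`, `(10 -1; 5 0)`: the first four relations). Then `V = K_0`, `W = K_1` on matrices of determinant one and `U(g) = K_1(g ε0)`, `ε0 = (0 -1; 5 0)`. The properties: `ε1 = (-2 1; -5 2)`;
`ε0 ε1 ε0⁻¹ = (2 1; -5 -2)`; `K_2(g) = -K_2(g ε2)`, `g ε2 = g ρ' ε0` with `ρ' = (3 1; 5 2)` (up to a scalar) and `K_2(h ε0) = K_0(h ε0) - K_1(h ε0) = -V(h) - U(h)`; left multiplication does not change the class and the coordinates (type five: the matrix in the fourth property is `Γ g ε0/5`, `Γ = (5α β; 5γ 5δ)`, `g = (a b; 5c d)`). Model: `Pool/Agent/Helper66/TH3/M_ExA.lean`. -/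
def TExA : Prop := ∀ (R : Type) (_ : AddCommGroup R) (r s : ℕ)
  (F : Fin 9 → ZMod (3 ^ r) → ZMod (3 ^ s) → R), RelT F → ∃ V W U : ℤ → ℤ → ℤ → ℤ → R, VWU r s F V W U

/-- EXB (from PLT, FEX, FAR; no EXA needed). Every solution of the relations comes from a symbol. For `g ∈ SL2(ℤ)`, `g = (a b; c d)`, define `E g` (the future value `G(g∞) - G(g0)`): `5 ∣ c`: `V g`; `5 ∣ d`: `-V(gS)`, `gS = (b -a; d -c)`; `c ≡ 2d` modulo `5`: `W(h)`, `h = g(1 0; -2 1)`; `c ≡ -2d`, `h = g(1 0; 2 1)`: `V(h) - V(hT⁻¹) + W(hT⁻¹)` (path `0 → -1/2`);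
`c ≡ d`, `h = g(1 0; -1 1)`: `V(h) - V(hT)` (path `0 → 1`); `c ≡ -d`, `h = g(1 0; 1 1)`: `V(h) - V(hT⁻¹)`; `T = (1 1; 0 1)`. Then `E(-g) = E g`, `E(gS) = -E g` (class `2`: `gS(1 0; -2 1) = -hε1`; class `-2`: `gS(1 0; 2 1) = -hε1'`, `ε1' = (2 1; -5 -2)`, `T⁻¹ρ' = -ε1'` for `ρ' = (3 1; 5 2)`, so `V(hT⁻¹) - W(hT⁻¹) = V(hε1') + U(hε1')`, and `U(hε1') = -U(h)`) and the triangle
relation (two orbits of classes); FEX gives `G` with `G(g∞) - G(g0) = E g`. So for `h` of determinant one, `5 ∣ c`: `G(h∞) - G(h0) = V h`, `G(h½) - G(h0) = W h` (`h(1 0; 2 1)`), `G(h(-2/5)) - G(h∞) = U h` (`∞ → -1/2 → -2/5`: `-V(hT⁻¹) + W(hT⁻¹)` and `V(h(2 1; -5 -2))`: `(2 1; -5 -2)` maps `∞, 0` to `-2/5, -1/2`). Invariance under matrices of determinant one: on all Farey edges. Under `Γ` of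
determinant five: `G(Γh∞) - G(Γh0) = -V(g*) = V(h)`, `G(Γh½) - G(Γh0) = U(g*) = W(h)` with `g* = Γhε0/5` (fourth property), and every Farey edge is a sum of such paths. FAR for the conclusion on all vectors. Last property with the standard matrix `(1, 3X; 3Y, 1 + 9XY)`. Model: `Pool/Agent/Helper2/TH3/M_ExB.lean`. -/
def TExB : Prop := ∀ (R : Type) (_ : AddCommGroup R) (r s : ℕ)
  (F : Fin 9 → ZMod (3 ^ r) → ZMod (3 ^ s) → R) (V W U : ℤ → ℤ → ℤ → ℤ → R), VWU r s F V W U →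
  ∃ G : ℤ → ℤ → R, SymH 3 (r + 1) (s + 1) G ∧ ∀ i, pfT G i = F i

/-- EX (from EXA, EXB; proved below). -/
def TEx : Prop := ∀ (R : Type) (_ : AddCommGroup R) (r s : ℕ)
  (F : Fin 9 → ZMod (3 ^ r) → ZMod (3 ^ s) → R), RelT F →
  ∃ G : ℤ → ℤ → R, SymH 3 (r + 1) (s + 1) G ∧ ∀ i, pfT G i = F i

theorem hEx (ha : TExA) (hb : TExB) : TEx := by
  intro R _ r s F hF
  obtain ⟨V, W, U, h⟩ := ha R _ r s F hF
  exact hb R _ r s F V W U h

/-- UNI (from EDG, PLT, FAR). A symbol with `F0 = ... = F8 = 0` is constant. For `γ = (a 3b; 3c d)` of type `HTy` (any plane point, EDG) `G` has the same value at the images `γv` of all fourteen vertices `v` of the polygon: walk along the sides: `F0` (`-1, ∞`), `F1, F2, F5, F4` (`-1, -3/5, -1/2, -2/5, 0`), the side `0, 2/5` is `M1 {-3/5, -1}` (`γM1` instead of `γ`), `F6, F3`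
(`2/5, 1/2, 3/5`), `3/5, 1` is `M4 {0, -2/5}`, `F7`, `7/5, 3/2` is `M2 {-1/2, -3/5}`, `3/2, 8/5` is `M3 {3/5, 1/2}`, `F8` (`8/5, 2`). So for `g` of type `HTy` the values at `g∞, g0, g½` are equal (`g = γρ` with a representative `ρ` of EXA). For an edge `(a b; c d)` of determinant one: the six classes of EXB. FAR. Model: `Pool/Agent/Helper53/TH3/M_Uni.lean`. -/
def TUni : Prop := ∀ (R : Type) (_ : AddCommGroup R) (r s : ℕ) (G : ℤ → ℤ → R),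
  SymH 3 (r + 1) (s + 1) G → (∀ i, (pfT G i : ZMod (3 ^ r) → ZMod (3 ^ s) → R) = 0) → EqC G 0

/-- HKB. Hecke sums for balanced levels `(r, s)` (from SHHk by `G0(p,q) = G(3^r p, q)`), and `T_l` preserves symbols (SHHkS). As `THkB` of `Helper93/TH3/StD.lean` with `5` in place of `2`. Hypotheses: `SHHk`, `SHHkS` of `Helper83/T5C/StB.lean`. Model: `Pool/Agent/Helper8/TH3/M_HkB.lean`. -/
def THkB : Prop := ∀ (R : Type) (_ : AddCommGroup R) (r s l : ℕ) (G : ℤ → ℤ → R), l.Prime →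
  l ≠ 3 → l ≠ 5 → SymH 3 r s G → SymH 3 r s (Tl l (3 ^ r) G) ∧
  ∀ δ : Fin (l + 1) → Matrix (Fin 2) (Fin 2) ℤ,
  (∀ P, (δ P).det = l) → (∀ P, (3 : ℤ) ^ r ∣ δ P 0 1) → (∀ P, 5 * (3 : ℤ) ^ s ∣ δ P 1 0) →
  (∀ P P', P ≠ P' → ¬ ∀ i j, (l : ℤ) ∣ (δ P * (δ P').adjugate) i j) →
  EqC (fun p q => ∑ P, G (δ P 0 0 * p + δ P 0 1 * q) (δ P 1 0 * p + δ P 1 1 * q)) (Tl l (3 ^ r) G)

/-- HKF (from HKB, PLT). Hecke formula on the plane for the path from `v` to `u`, as `THkF` of `Helper93/TH3/StD.lean` (all standard matrices have determinant one and lower left entry divisible by `15`). Model: `Pool/Agent/Helper73/TH3/M_HkF.lean`. -/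
def THkF : Prop := ∀ (R : Type) (_ : AddCommGroup R) (r s l : ℕ) (G : ℤ → ℤ → R) (J : Finset ℤ),
  l.Prime → l ≠ 3 → l ≠ 5 → SymH 3 (r + 1) (s + 1) G → J.card = l →
  (∀ j ∈ J, ∀ j' ∈ J, (l : ℤ) ∣ j - j' → j = j') →
  ∀ (u1 u2 v1 v2 : ℤ), (u1 ≠ 0 ∨ u2 ≠ 0) → (v1 ≠ 0 ∨ v2 ≠ 0) → ∀ (x : ZMod (3 ^ r)) (y : ZMod (3 ^ s)),
  edgeT u1 u2 v1 v2 (Tl l (3 ^ (r + 1)) G) x y =
    tr 1 0 0 l (edgeT (l * u1) u2 (l * v1) v2 G) x y +
    ∑ j ∈ J, tr l (-j) 0 1 (edgeT (u1 + 3 * j * u2) (l * u2) (v1 + 3 * j * v2) (l * v2) G) x y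

/-- RLL (from TRM). The relations as operators (`tr` is additive in the function). Model: `Pool/Agent/Helper47/TH3/M_Rll.lean`. -/
def TRll : Prop := ∀ (r s : ℕ) (F : Fin 9 → Fn3 (3 ^ r) (3 ^ s)), RelT F → ∀ ρ : Fin 5,
  ∑ f : Fin 9, opL (relT ρ f) (F f) = 0

/-- HK `l T` (from HKF, TRE, TRM): the lists `T` are the rows of `T_l`. -/
def THk (l : ℕ) (T : Fin 9 → Fin 9 → List Tm) : Prop := ∀ (r s : ℕ) (G : ℤ → ℤ → ZMod 3), SymH 3 (r + 1) (s + 1) G → ∀ i : Fin 9,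
  (pfT (Tl l (3 ^ (r + 1)) G) i : Fn3 (3 ^ r) (3 ^ s)) = ∑ f : Fin 9, opL (T i f) (pfT G f)

/-! ### The operators -/

/-- The operator `T_13 + T_17 + 1`. -/
def UoT {R : Type} [AddCommGroup R] (m : ℤ) (G : ℤ → ℤ → R) : ℤ → ℤ → R := Tl 13 m G + Tl 17 m G + G

/-- The operator `V = T_13 + T_17 + T_19 - T_7 - T_11 - T_23 + T_7² - T_2 T_11 - T_2 T_17`. -/
def VoT {R : Type} [AddCommGroup R] (m : ℤ) (G : ℤ → ℤ → R) : ℤ → ℤ → R :=
  Tl 13 m G + Tl 17 m G + Tl 19 m G - Tl 7 m G - Tl 11 m G - Tl 23 m G + Tl 7 m (Tl 7 m G) -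
    Tl 2 m (Tl 11 m G) - Tl 2 m (Tl 17 m G)

/-- The last operators: `T_19 + T_11 + T_7 - T_2 - 1`, `T_7 + 1 - T_2`, `T_23`, `T_19 + T_17 + 1`, `1`, `T_2` for `c = 0, ..., 5`. -/
def PoT {R : Type} [AddCommGroup R] (m : ℤ) (c : ℕ) (G : ℤ → ℤ → R) : ℤ → ℤ → R :=
  if c = 0 then Tl 19 m G + Tl 11 m G + Tl 7 m G - Tl 2 m G - G
  else if c = 1 then Tl 7 m G + G - Tl 2 m G
  else if c = 2 then Tl 23 m G
  else if c = 3 then Tl 19 m G + Tl 17 m G + G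
  else if c = 4 then G
  else Tl 2 m G

/-- The value of the symbol at `{0, ∞}`. -/
def e0T {R : Type} [AddCommGroup R] (G : ℤ → ℤ → R) : R := G 1 0 - G 0 1

/-- The value of `P_c U^i V^j G` at `{0, ∞}`; for `c = 3`, `i ≥ 1` plus the value of `(P_1 - P_2) U^(i-1) V^(j+1) G`. -/
def evT {R : Type} [AddCommGroup R] (m : ℤ) (G : ℤ → ℤ → R) (c i j : ℕ) : R :=
  e0T (PoT m c ((UoT m)^[i] ((VoT m)^[j] G))) +
    if c = 3 ∧ 1 ≤ i then e0T (PoT m 1 ((UoT m)^[i - 1] ((VoT m)^[j + 1] G))) -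
      e0T (PoT m 2 ((UoT m)^[i - 1] ((VoT m)^[j + 1] G))) else 0

/-- Scalar multiples of a list. -/
def scT (n : ℤ) (L : List Tm) : List Tm := L.map fun t => (n * t.1, t.2)

/-- The list of a multiple of the identity. -/
def idT (n : ℤ) (i f : Fin 9) : List Tm := if i = f then [(n, 1, 0, 0, 1)] else []

/-- The rows of a product. -/
def mmT (M N : Fin 9 → Fin 9 → List Tm) (i f : Fin 9) : List Tm :=
  mulL (M i 0) (N 0 f) ++ mulL (M i 1) (N 1 f) ++ mulL (M i 2) (N 2 f) ++ mulL (M i 3) (N 3 f) ++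
    mulL (M i 4) (N 4 f) ++ mulL (M i 5) (N 5 f) ++ mulL (M i 6) (N 6 f) ++ mulL (M i 7) (N 7 f) ++
    mulL (M i 8) (N 8 f)

/-- A combination of the five relations. -/
def rmT (M : Fin 5 → List Tm) (f : Fin 9) : List Tm :=
  mulL (M 0) (relT 0 f) ++ mulL (M 1) (relT 1 f) ++ mulL (M 2) (relT 2 f) ++ mulL (M 3) (relT 3 f) ++
    mulL (M 4) (relT 4 f)

/-- The rows of `U`. -/
def ULT (i f : Fin 9) : List Tm := T13T i f ++ T17T i f ++ idT 1 i f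

/-- The rows of `V`. -/
def VLT (i f : Fin 9) : List Tm :=
  T13T i f ++ T17T i f ++ T19T i f ++ scT (-1) (T7T i f) ++ scT (-1) (T11T i f) ++ scT (-1) (T23T i f) ++
    mmT T7T T7T i f ++ scT (-1) (mmT T2T T11T i f) ++ scT (-1) (mmT T2T T17T i f)

/-- The rows of the last operators. -/
def PLT (c : Fin 6) (i f : Fin 9) : List Tm :=
  match c with
  | 0 => T19T i f ++ T11T i f ++ T7T i f ++ scT (-1) (T2T i f) ++ idT (-1) i f
  | 1 => T7T i f ++ idT 1 i f ++ scT (-1) (T2T i f)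
  | 2 => T23T i f
  | 3 => T19T i f ++ T17T i f ++ idT 1 i f
  | 4 => idT 1 i f
  | 5 => T2T i f

/-- The row of the path `0 → ∞`, which is `F0 - F1 - F2 - F4 - F5`. -/
def evL (M : Fin 9 → Fin 9 → List Tm) (f : Fin 9) : List Tm :=
  M 0 f ++ scT (-1) (M 1 f) ++ scT (-1) (M 2 f) ++ scT (-1) (M 4 f) ++ scT (-1) (M 5 f)

/-- `U` minus multiples of the relations. -/
def BUT (i f : Fin 9) : List Tm := ULT i f ++ scT (-1) (rmT (mUT i) f)

/-- `V` minus multiples of the relations. -/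
def BVT (i f : Fin 9) : List Tm := VLT i f ++ scT (-1) (rmT (mVT i) f)

/-- The row of `0 → ∞` of the last operators minus multiples of the relations. -/
def BPT (c : Fin 6) (f : Fin 9) : List Tm := evL (PLT c) f ++ scT (-1) (rmT (mPT c) f)

/-- The terms with `a d ≡ 1` modulo `3`. -/
def pA (L : List Tm) : List Tm := L.filter fun t => decide ((t.2.1 * t.2.2.2.2) % 3 = 1)

/-- The other terms, with `oN` taken out on the left: `op3 a b c d = oN * op3 (-a) (-b) c d`. -/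
def pB (L : List Tm) : List Tm :=
  (L.filter fun t => decide ((t.2.1 * t.2.2.2.2) % 3 ≠ 1)).map fun t =>
    (t.1, -t.2.1, -t.2.2.1, t.2.2.2.1, t.2.2.2.2)

/-- The leading operator of `U`. -/
def QoT {q q' : ℕ} : Module.End (ZMod 3) (Fn3 q q') := dX * dY

/-- The leading operator of `V`. -/
def LoT {q q' : ℕ} : Module.End (ZMod 3) (Fn3 q q') := dX ^ 3 * dY + dX ^ 2 * dY ^ 2 + dX * dY ^ 3

/-- The part of `al` of the family `c`. -/
def bT (c : ℕ) : ℕ := if c = 0 then 2 else if c = 1 then 1 else if c = 2 then 1 else if c = 3 then 2 else 0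

/-- The part of `be` of the family `c`. -/
def cT (c : ℕ) : ℕ := if c = 3 then 1 else 0

/-- The degrees lost by the last operators: `2, 1, 1, 3, 0, 0`. -/
def aT (c : ℕ) : ℕ := bT c + cT c

/-- The leading forms of the values at `{0, ∞}` of the last operators (`X = dX`, `Y = dY`). -/
def phT {q q' : ℕ} (c : ℕ) (F : Fin 9 → Fn3 q q') : Fn3 q q' :=
  if c = 0 then -((dX ^ 2 : Module.End (ZMod 3) (Fn3 q q')) (F 0)) +
    (dX ^ 2 + dX * dY + dY ^ 2 : Module.End (ZMod 3) (Fn3 q q')) (F 1 + F 4) +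
    (dX * dY - dY ^ 2 : Module.End (ZMod 3) (Fn3 q q')) (F 2) +
    (dX ^ 2 - dX * dY + dY ^ 2 : Module.End (ZMod 3) (Fn3 q q')) (F 3)
  else if c = 1 then (dX - dY : Module.End (ZMod 3) (Fn3 q q')) (F 1 + F 2 + F 3 + F 4)
  else if c = 2 then -((dX + dY : Module.End (ZMod 3) (Fn3 q q')) (F 1 + F 4)) - dY (F 5 + F 6)
  else if c = 3 then (dX ^ 3 - dX ^ 2 * dY + dX * dY ^ 2 : Module.End (ZMod 3) (Fn3 q q')) (F 1 + F 4) +
    (-dX ^ 3 - dX ^ 2 * dY + dX * dY ^ 2 + dY ^ 3 : Module.End (ZMod 3) (Fn3 q q')) (F 2 + F 3) +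
    (dX ^ 2 * dY - dX * dY ^ 2 - dY ^ 3 : Module.End (ZMod 3) (Fn3 q q')) (F 5 + F 6)
  else if c = 4 then F 0 - F 1 - F 2 - F 4 - F 5
  else F 1 + F 2 - F 3 + F 4

/-- The coefficients of `phT`: operator `c`, function `f`, monomial `dX^j dY^k`. -/
def phC (c f j k : ℕ) : ℤ :=
  match c, f, j, k with
  | 0, 0, 2, 0 => -1
  | 0, 1, 0, 2 => 1
  | 0, 1, 1, 1 => 1
  | 0, 1, 2, 0 => 1
  | 0, 2, 0, 2 => -1
  | 0, 2, 1, 1 => 1
  | 0, 3, 0, 2 => 1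
  | 0, 3, 1, 1 => -1
  | 0, 3, 2, 0 => 1
  | 0, 4, 0, 2 => 1
  | 0, 4, 1, 1 => 1
  | 0, 4, 2, 0 => 1
  | 1, 1, 0, 1 => -1
  | 1, 1, 1, 0 => 1
  | 1, 2, 0, 1 => -1
  | 1, 2, 1, 0 => 1
  | 1, 3, 0, 1 => -1
  | 1, 3, 1, 0 => 1
  | 1, 4, 0, 1 => -1
  | 1, 4, 1, 0 => 1
  | 2, 1, 0, 1 => -1
  | 2, 1, 1, 0 => -1
  | 2, 4, 0, 1 => -1
  | 2, 4, 1, 0 => -1
  | 2, 5, 0, 1 => -1
  | 2, 6, 0, 1 => -1
  | 3, 1, 1, 2 => 1
  | 3, 1, 2, 1 => -1
  | 3, 1, 3, 0 => 1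
  | 3, 2, 0, 3 => 1
  | 3, 2, 1, 2 => 1
  | 3, 2, 2, 1 => -1
  | 3, 2, 3, 0 => -1
  | 3, 3, 0, 3 => 1
  | 3, 3, 1, 2 => 1
  | 3, 3, 2, 1 => -1
  | 3, 3, 3, 0 => -1
  | 3, 4, 1, 2 => 1
  | 3, 4, 2, 1 => -1
  | 3, 4, 3, 0 => 1
  | 3, 5, 0, 3 => -1
  | 3, 5, 1, 2 => -1
  | 3, 5, 2, 1 => 1
  | 3, 6, 0, 3 => -1
  | 3, 6, 1, 2 => -1
  | 3, 6, 2, 1 => 1
  | 4, 0, 0, 0 => 1
  | 4, 1, 0, 0 => -1
  | 4, 2, 0, 0 => -1
  | 4, 4, 0, 0 => -1
  | 4, 5, 0, 0 => -1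
  | 5, 1, 0, 0 => 1
  | 5, 2, 0, 0 => 1
  | 5, 3, 0, 0 => -1
  | 5, 4, 0, 0 => 1
  | _, _, _, _ => 0

/-! ### Certificates (finite computations) -/

/-- A good term. -/
def GdT (t : Tm) : Prop := ¬ (3 : ℤ) ∣ t.2.1 ∧ ¬ (3 : ℤ) ∣ t.2.2.2.2

instance (t : Tm) : Decidable (GdT t) := by unfold GdT; infer_instance

/-- CEG. All terms are good. -/
def TCeG : Prop :=
  (∀ i f : Fin 9, (∀ t ∈ T2T i f, GdT t) ∧ (∀ t ∈ T7T i f, GdT t) ∧ (∀ t ∈ T11T i f, GdT t) ∧ (∀ t ∈ T13T i f, GdT t) ∧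
    (∀ t ∈ T17T i f, GdT t) ∧ (∀ t ∈ T19T i f, GdT t) ∧ (∀ t ∈ T23T i f, GdT t)) ∧
  (∀ ρ : Fin 5, ∀ f : Fin 9, ∀ t ∈ relT ρ f, GdT t) ∧
  (∀ i : Fin 9, ∀ ρ : Fin 5, (∀ t ∈ mUT i ρ, GdT t) ∧ (∀ t ∈ mVT i ρ, GdT t)) ∧
  (∀ c : Fin 6, ∀ ρ : Fin 5, ∀ t ∈ mPT c ρ, GdT t)

/-- CEU. The coefficients of `U` (row `i`, column `f`) of weight at most `2`. -/
def TCeU : Prop := ∀ i f : Fin 9, ∀ t ∈ M5, 2 * t.1 + t.2.1 + t.2.2 ≤ 2 →
  (3 : ℤ) ∣ sS (pA (BUT i f)) t.1 t.2.1 t.2.2 - (if f = i ∧ t = (0, 1, 1) then 1 else 0) ∧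
  (3 : ℤ) ∣ sS (pB (BUT i f)) t.1 t.2.1 t.2.2

/-- CEV. The coefficients of the row `i` of `V` of weight at most `4`. -/
def TCeV (i : Fin 9) : Prop := ∀ f : Fin 9, ∀ t ∈ M5,
  (3 : ℤ) ∣ sS (pA (BVT i f)) t.1 t.2.1 t.2.2 -
    (if f = i ∧ (t = (0, 3, 1) ∨ t = (0, 2, 2) ∨ t = (0, 1, 3)) then 1 else 0) ∧
  (3 : ℤ) ∣ sS (pB (BVT i f)) t.1 t.2.1 t.2.2

/-- CEP. The coefficients of the values at `{0, ∞}` of the last operators, without powers of `oD - 1`, of weight at most `aT c`. -/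
def TCeP : Prop := ∀ (c : Fin 6) (f : Fin 9), ∀ j ∈ Finset.range 4, ∀ k ∈ Finset.range 4, j + k ≤ aT c.val →
  (3 : ℤ) ∣ sS (pA (BPT c f)) 0 j k + sS (pB (BPT c f)) 0 j k - phC c.val f.val j k

/-! ### Leading forms -/

/-- SPL (from TRM). `opL L = opL (pA L) + oN * opL (pB L)` for good lists (`op3 a b c d = oN * op3 (-a) (-b) c d` by TRM), and the terms of `pA L`, `pB L` satisfy `a d ≡ 1` modulo `3` (hypothesis of EXP). The same statement (and proof) as `Pool/Agent/Helper75/TH3/M_Spl.lean`. -/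
def TSpl : Prop := ∀ (r s : ℕ) (L : List Tm), (∀ t ∈ L, GdT t) →
  (opL L : Module.End (ZMod 3) (Fn3 (3 ^ r) (3 ^ s))) = opL (pA L) + oN * opL (pB L) ∧
  (∀ t ∈ pA L, (t.2.1 * t.2.2.2.2) % 3 = 1) ∧ (∀ t ∈ pB L, (t.2.1 * t.2.2.2.2) % 3 = 1)

/-- LDU (from TRM, LOW0, EXP, LW1, SPL, RLL, CEG, CEU). Leading forms of `U = T_13 + T_17 + 1`, for nine functions of degree at most `d` satisfying the relations. Model: `Pool/Agent/Helper22/TH3/M_LdU.lean`. -/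
def TLdU : Prop := ∀ (r s : ℕ) (d : ℤ) (F : Fin 9 → Fn3 (3 ^ r) (3 ^ s)), RelT F → (∀ f, F f ∈ Wd3 d) →
  ∀ i : Fin 9, (∑ f : Fin 9, opL (ULT i f) (F f)) - QoT (F i) ∈ Wd3 (d - 3)

/-- LDV (from TRM, LOW0, EXP, LW1, SPL, RLL, CEG, CEV). Leading forms of `V`, as LDU, up to terms which lower by `5`. Model: `Pool/Agent/Helper80/TH3/M_LdV.lean`. -/
def TLdV : Prop := ∀ (r s : ℕ) (d : ℤ) (F : Fin 9 → Fn3 (3 ^ r) (3 ^ s)), RelT F → (∀ f, F f ∈ Wd3 d) →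
  ∀ i : Fin 9, (∑ f : Fin 9, opL (VLT i f) (F f)) - LoT (F i) ∈ Wd3 (d - 5)

/-- LDP (from TRM, LOW0, EXP, LW1, SPL, RLL, CEG, CEP). The value at `(0, 0)` of the row `0 → ∞` of the last operators on functions of degree at most `aT c ≤ 3`. Modulo the relations (RLL) the row is the list `BPT`; `opL (mulL L L') = opL L * opL L'` (TRM). SPL; `(oN H) 0 0 = H 0 0` (S3Lw1), so the value is the one of `opL (pA ..) + opL (pB ..)`; EXP (the error lowers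
by `5 > aT c`: zero, `Wd3 (-1)` is zero); `((oD - 1) H) 0 0 = 0` (`op3 4 0 0 1`: `H(x/4, 4y)`), so only the terms `dX^j dY^k` remain, those with `j + k > aT c` are zero, the others are given by CEP; `phC` is the table of `phT`. Model for the first part: `Pool/Agent/Helper94/TH3/M_LdA.lean`. -/
def TLdP : Prop := ∀ (r s : ℕ) (c : Fin 6) (F : Fin 9 → Fn3 (3 ^ r) (3 ^ s)), RelT F → (∀ f, F f ∈ Wd3 (aT c.val : ℤ)) →
  (∑ f : Fin 9, opL (evL (PLT c) f) (F f)) 0 0 = (phT c.val F) 0 0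

/-- LWT (from TRM, LOW0, NF, LW1, BB). Elementary facts; the first six are those of `Pool/Agent/Helper55/TH3/M_Lwt.lean`. The matrices: normal forms by NF (`op3 a b c d - oD^m (1+dX)^β (1+dY)^γ` lowers by `7` for `a d ≡ 1`; `oD - 1` lowers by `2`), with `oN` taken out on the left by TRM (`op3 a b c d = oN * op3 (-a) (-b) c d`): `β ≡ b/a`, `γ ≡ c/d` modulo `3`:
`(5, 1, 5, 10)`: `(-1, -1)`; `(65, 12, 15, 25)`: `(0, 0)`; `(70, -13, 15, -25)`: `(-1, 0)`; `(10, 1, 5, 5)`: `(1, 1)`; `(20, 3, -15, -20)`, `(20, -3, 15, -20)`: `(0, 0)`; `(20, -9, 5, -20)`: `(0, -1)`; `(25, -14, 5, -25)`: `(1, 1)`. -/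
def TLwt : Prop := ∀ (r s : ℕ),
  (oN * oN : Module.End (ZMod 3) (Fn3 (3 ^ r) (3 ^ s))) = 1 ∧
  Lw (oN * dX + dX * oN : Module.End (ZMod 3) (Fn3 (3 ^ r) (3 ^ s))) 2 ∧
  Lw (oN * dY + dY * oN : Module.End (ZMod 3) (Fn3 (3 ^ r) (3 ^ s))) 2 ∧
  (∀ (d : ℤ) (F : Fn3 (3 ^ r) (3 ^ s)), F ∈ Wd3 d → Even d → oN F - F ∈ Wd3 (d - 1)) ∧
  (∀ (d : ℤ) (F : Fn3 (3 ^ r) (3 ^ s)), F ∈ Wd3 d → Odd d → oN F + F ∈ Wd3 (d - 1)) ∧
  Lw (op3 1 1 0 1 - 1 - dX : Module.End (ZMod 3) (Fn3 (3 ^ r) (3 ^ s))) 2 ∧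
  Lw (op3 5 1 5 10 - oN * (1 - dX - dY) : Module.End (ZMod 3) (Fn3 (3 ^ r) (3 ^ s))) 2 ∧
  Lw (op3 65 12 15 25 - oN : Module.End (ZMod 3) (Fn3 (3 ^ r) (3 ^ s))) 2 ∧
  Lw (op3 70 (-13) 15 (-25) - oN * (1 - dX) : Module.End (ZMod 3) (Fn3 (3 ^ r) (3 ^ s))) 2 ∧
  Lw (op3 10 1 5 5 - oN * (1 + dX + dY) : Module.End (ZMod 3) (Fn3 (3 ^ r) (3 ^ s))) 2 ∧
  Lw (op3 20 3 (-15) (-20) - oN : Module.End (ZMod 3) (Fn3 (3 ^ r) (3 ^ s))) 2 ∧
  Lw (op3 20 (-3) 15 (-20) - oN : Module.End (ZMod 3) (Fn3 (3 ^ r) (3 ^ s))) 2 ∧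
  Lw (op3 20 (-9) 5 (-20) - oN * (1 - dY) : Module.End (ZMod 3) (Fn3 (3 ^ r) (3 ^ s))) 2 ∧
  Lw (op3 25 (-14) 5 (-25) - oN * (1 + dX + dY) : Module.End (ZMod 3) (Fn3 (3 ^ r) (3 ^ s))) 2

/-! ### Solutions of the relations -/

/-- The solution with the parameters `f : Fin 5` (for `F0, ..., F4`) and `b : Fin 4` (`F5, ..., F8` are `b - b∘S`). -/
def solT {R : Type} [AddCommGroup R] {q q' : ℕ} (f : Fin 5 → ZMod q → ZMod q' → R)
    (b : Fin 4 → ZMod q → ZMod q' → R) : Fin 9 → ZMod q → ZMod q' → R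
  | 0 => f 0
  | 1 => f 1
  | 2 => f 2
  | 3 => f 3
  | 4 => f 4
  | 5 => fun x y => b 0 x y - tr 20 3 (-15) (-20) (b 0) x y
  | 6 => fun x y => b 1 x y - tr 20 (-3) 15 (-20) (b 1) x y
  | 7 => fun x y => b 2 x y - tr 20 (-9) 5 (-20) (b 2) x y
  | 8 => fun x y => b 3 x y - tr 25 (-14) 5 (-25) (b 3) x y

/-- The left side of the last relation for `solT f b`. -/
def qT {R : Type} [AddCommGroup R] {q q' : ℕ} (f : Fin 5 → ZMod q → ZMod q' → R)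
    (b : Fin 4 → ZMod q → ZMod q' → R) : ZMod q → ZMod q' → R :=
  fun x y => (tr 1 1 0 1 (f 0) x y - f 0 x y) + (f 1 x y - tr 5 1 5 10 (f 1) x y) +
    (f 2 x y - tr 65 12 15 25 (f 2) x y) + (f 3 x y - tr 70 (-13) 15 (-25) (f 3) x y) +
    (f 4 x y - tr 10 1 5 5 (f 4) x y) + (b 0 x y - tr 20 3 (-15) (-20) (b 0) x y) +
    (b 1 x y - tr 20 (-3) 15 (-20) (b 1) x y) + (b 2 x y - tr 20 (-9) 5 (-20) (b 2) x y) +
    (b 3 x y - tr 25 (-14) 5 (-25) (b 3) x y)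

/-- SOL (from TRM). If `qT f b = 0` then `solT f b` satisfies the relations: the squares of the four matrices are scalars (`-5 = 20 * 20 - 9 * 45`, ...), so they act trivially twice. Model: `hSol` in `Pool/Agent/Helper47/TH3/M_Rll.lean`. -/
def TSol : Prop := ∀ (R : Type) (_ : AddCommGroup R) (r s : ℕ) (f : Fin 5 → ZMod (3 ^ r) → ZMod (3 ^ s) → R)
  (b : Fin 4 → ZMod (3 ^ r) → ZMod (3 ^ s) → R), (∀ x y, qT f b x y = 0) → RelT (solT f b)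

/-- SUR (from TRM, LOW0, S3Lw1 (first part), LWT, BB). Solving the inhomogeneous relation below the top degree. Proof by induction on `e` (downwards until `Wd3 (-1) = 0`); it is enough to solve up to an error in `Wd3 (e - 1)` with functions of the degree allowed (the remaining error is solved with smaller degrees; `qT` is additive). Write `X = dX`, `Y = dY`. For `f` with `oN f = -f` one has for
`M = oN (1 + βX + γY)` modulo lowering by `2`: `M f ≡ -f + βX f + γY f` (`oN X f ≡ -X oN f = X f`), so `f - M f ≡ 2f - βXf - γYf = -f - βX f - γ Y f` (characteristic three). `e` odd: `w = -(E - oN E) ≡ E` (`-2 = 1`), `oN w = -w`, take `f 2 = -w`, all others `0`: `qT = -f 2 = w ≡ E`. `e` even: every `E ∈ Wd3 e` with `e < 3^r + 3^s - 2` is `X P + Y Q` with `P, Q ∈ Wd3 (e+1)` (as in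
`S3Sur`, by BB); `P' = -(P - oN P)`, `Q' = -(Q - oN Q)`; take `f 0 = P'` (`tr 1 1 0 1 P' - P' ≡ X P'`), `b 2 = Q'`, `b 0 = -Q'` (`b 0 - S1 b 0 ≡ -b 0 = Q'`, `b 2 - S3 b 2 ≡ -b 2 + Y b 2 = -Q' + Y Q'`), all others `0`: `qT ≡ X P' + Y Q' ≡ E` modulo `Wd3 (e - 1)`. Model: `Pool/Agent/Helper89/TH3/M_Sur.lean`. -/
def TSur : Prop := ∀ (r s : ℕ) (e : ℤ) (E : Fn3 (3 ^ r) (3 ^ s)), e < 3 ^ r + 3 ^ s - 2 → E ∈ Wd3 e →
  ∃ (f : Fin 5 → Fn3 (3 ^ r) (3 ^ s)) (b : Fin 4 → Fn3 (3 ^ r) (3 ^ s)), (∀ i, f i ∈ Wd3 (e + 1)) ∧ (∀ i, b i ∈ Wd3 (e + 1)) ∧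
    (Odd e → (∀ i, f i ∈ Wd3 e) ∧ (∀ i, b i ∈ Wd3 e)) ∧ qT f b = E

/-- LED (from TRM, LOW0, S3Lw1, LWT, BB, SOL, SUR). Solutions of the relations with given leading coefficients, even degree `d = al + be`. Start with `f i = u i • bb`, `b = 0`, `bb = bb3 al be`: the defect has degree at most `d - 1` (on even degree all the operators are the identity modulo lower degree), `d - 1` is odd and `< 3^r + 3^s - 2`: subtract the solution of SUR, whose functions have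
degree at most `d - 1`. Model: `Pool/Agent/Helper44/TH3/M_Led.lean`. -/
def TLed : Prop := ∀ (r s al be : ℕ) (u : Fin 9 → ZMod 3), al < 3 ^ r → be < 3 ^ s → Even (al + be) →
  u 5 = 0 → u 6 = 0 → u 7 = 0 → u 8 = 0 →
  ∃ F : Fin 9 → Fn3 (3 ^ r) (3 ^ s), RelT F ∧ (∀ f, F f ∈ Wd3 ((al : ℤ) + be)) ∧
    ∀ f, F f - u f • bb3 al be ∈ Wd3 ((al : ℤ) + be - 1)

/-- LEO (from TRM, LOW0, S3Lw1, LWT, BB, SOL, SUR). Odd degree `d = al + be`. Let `w = -(bb - oN bb)`, so `w ≡ bb` modulo `Wd3 (d-1)` and `oN w = -w`. Start with `f i = u i • w`, `b i = -u (5+i) • w` (`b - S b ≡ -b`). As in SUR the defect is `≡ X (f 0) + (-f1 + (X+Y) f1) + (-f2) + (-f3 + X f3) + (-f4 - (X+Y) f4) + (-b0) + (-b1) + (-b2 + Y b2) + (-b3 - (X+Y) b3)` modulo `Wd3 (d-2)`: zero by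
the three conditions; `d - 2` is odd: subtract the solution of SUR, whose functions have degree at most `d - 2`. Model: `Pool/Agent/Helper41/TH3/M_Leo.lean`. -/
def TLeo : Prop := ∀ (r s al be : ℕ) (u : Fin 9 → ZMod 3), al < 3 ^ r → be < 3 ^ s → Odd (al + be) →
  u 1 + u 2 + u 3 + u 4 = u 5 + u 6 + u 7 + u 8 → u 0 + u 1 + u 3 - u 4 + u 8 = 0 → u 1 - u 4 - u 7 + u 8 = 0 →
  ∃ F : Fin 9 → Fn3 (3 ^ r) (3 ^ s), RelT F ∧ (∀ f, F f ∈ Wd3 ((al : ℤ) + be)) ∧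
    ∀ f, F f - u f • bb3 al be ∈ Wd3 ((al : ℤ) + be - 1)

/-! ### Iteration and counting -/

/-- ITR (from REL, HKB, the seven HK, TRM, LOW0, CEG, LDU, LDV, LDP). Iteration. For a symbol `G` modulo 3 of level `(r+1, s+1)` with all nine functions in `Wd3 d`, and `m = 3^(r+1)`. `T_l` preserves symbols (HKB), so `UoT m`, `VoT m` of symbols are symbols, with the functions `∑_f opL (ULT i f) F_f(G)`, `∑_f opL (VLT i f) F_f(G)` (HK; `opL (mmT ..)`; `pfT` is additive).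
First LDV `j` times, then LDU `i` times: the functions of `K = U^i V^j G` have degree at most `d - 2i - 4j` and `F_f(K) ≡ QoT^i LoT^j F_f(G)` modulo lower degree. The value of `P_c K` at `{0, ∞}` is the value at `(0,0)` of `F0 - F1 - F2 - F4 - F5` of `P_c K` (the standard matrix of `(0,0)` is `1`: `yT 0 0 = 0`), that is of the rows `evL (PLT c) f`; LDP (`phT` is linear, commutes with
`QoT`, `LoT` and is zero at `(0,0)` on functions of degree `< aT c`). If `d - 2i - 4j < aT c` the value is `0`. For `c = 3`, `i ≥ 1` the second part of `evT` in the same way (`1 + 2(i-1) + 4(j+1) = 3 + 2i + 4j`). Model: `Pool/Agent/Helper60/TH3/M_Itr.lean`. -/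
def TItr : Prop := ∀ (r s : ℕ) (G : ℤ → ℤ → ZMod 3) (d : ℕ), SymH 3 (r + 1) (s + 1) G →
  (∀ f, (pfT G f : Fn3 (3 ^ r) (3 ^ s)) ∈ Wd3 (d : ℤ)) → ∀ c i j : ℕ, c ≤ 5 →
  (d < aT c + 2 * i + 4 * j → evT (3 ^ (r + 1)) G c i j = 0) ∧
  (aT c + 2 * i + 4 * j = d → evT (3 ^ (r + 1)) G c i j =
    ((QoT ^ i * LoT ^ j : Module.End (ZMod 3) (Fn3 (3 ^ r) (3 ^ s))) (phT c (fun f => pfT G f))) 0 0 +
    if c = 3 ∧ 1 ≤ i then ((QoT ^ (i - 1) * LoT ^ (j + 1) : Module.End (ZMod 3) (Fn3 (3 ^ r) (3 ^ s)))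
      (phT 1 (fun f => pfT G f) - phT 2 (fun f => pfT G f))) 0 0 else 0)

/-- TRI (from LOW0, BB, LED, LEO, EX, ITR). Triangular system of symbols modulo 3. For `(c, i, j)`, `c ≤ 5`, put `al = bT c + i + 3j < 3^r`, `be = cT c + i + j < 3^s`, `D = al + be = aT c + 2i + 4j` (even for `c = 0, 4, 5`, odd for `c = 1, 2, 3`) and take the symbol (EX) with the following leading coefficients `u` (the others zero): `c = 0`: `u 1 = 1, u 2 = -1`; `c = 4`: `u 0 = 1`;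
`c = 5`: `u 3 = -1` (LED); `c = 1`: `u 0 = u 2 = 1`, `u 7 = u 8 = -1`; `c = 2`: `u 1 = u 2 = u 4 = 1`; `c = 3`: `u 0 = 1`, `u 5 = u 7 = u 8 = -1` (LEO). By ITR `evT G c' i' j' = 0` if `D' > D`. Let `D' = D`, `X = dX`, `Y = dY`, `m' = i' + j'`, `m = i + j`; terms of degree lower than `D` are killed; `QoT^i' LoT^j' = (XY)^m' (X - Y)^(2j')` (`X² + XY + Y² = (X - Y)²` modulo 3); the value is
the coefficient of `X^al Y^be` in `(XY)^m' (X - Y)^(2j') f`, where `f` is the following form. `c = 0`: `c' = 0`: `X² - Y²`; `c' = 4, 5`: `0`. `c = 4`: `c' = 0`: `-X²`; `4`: `1`; `5`: `0`. `c = 5`: `c' = 0`: `-(X² - XY + Y²)`; `4`: `0`; `5`: `1`. `c = 1` (`be = m`): `c' = 1`: `X - Y`; `2`: `0`; `3`: `-X³ - X²Y + XY² + Y³` for `i' = 0`, and with the second part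
`f = -X³ - X²Y + XY² + Y³ + (X - Y)²(X - Y) = -X²Y + XY²` for `i' ≥ 1`. `c = 2` (`be = m`): `c' = 1`: `0`; `2`: `X + Y`; `3`: `2(X³ - X²Y + XY²) + (-X³ - X²Y + XY² + Y³) = X³ + Y³` for `i' = 0`, and `X³ + Y³ - (X - Y)²(X + Y) = X²Y + XY²` for `i' ≥ 1`. `c = 3` (`be = m + 1`): `c' = 1`: `0`; `2`: `Y`; `3`: `-(X²Y - XY² - Y³)` for `i' = 0`, and `-(X²Y - XY² - Y³) - (X - Y)² Y = X²Y` for `i' ≥ 1`.
The coefficient of `X^al Y^be` is zero if `m' > be`, or `m' ≥ be` and `Y ∣ f`. So for `c' = c`: `m' ≤ m`, with nonzero value for `(i', j') = (i, j)` (`m' = m`; coefficient of `X^(al-m) Y^(be-m)`); `c = 4, 5`, `c' = 0`: `m' ≤ m`; `c = 3`, `c' = 2`: `m' ≤ m` (`Y ∣ f`, `be = m + 1`); `c = 1, 2`, `c' = 3`: for `i' ≥ 1` `m' < m`; for `i' = 0`: `m' = j'`, `D = 3 + 4m' = 1 + 2i + 4j`, so `2m' + 1 = i + 2j ≤ 2m` and again `m' < m`.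
This is the last alternative. Models: `Pool/Agent/Helper33/TH3/M_Tri.lean`, `Pool/Agent/Helper22/W3/M_Tri.lean`. -/
def TTri : Prop := ∀ (r s c i j : ℕ), c ≤ 5 → bT c + i + 3 * j < 3 ^ r → cT c + i + j < 3 ^ s →
  ∃ G : ℤ → ℤ → ZMod 3, SymH 3 (r + 1) (s + 1) G ∧ evT (3 ^ (r + 1)) G c i j ≠ 0 ∧
    ∀ c' i' j' : ℕ, c' ≤ 5 → evT (3 ^ (r + 1)) G c' i' j' ≠ 0 →
      (aT c' + 2 * i' + 4 * j' < aT c + 2 * i + 4 * j ∨
        (aT c' + 2 * i' + 4 * j' = aT c + 2 * i + 4 * j ∧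
          (i' + j' < i + j ∨ (i' + j' = i + j ∧ c' ≤ c))))

/-- LIFP (from TRM, SOL). Lifting solutions of the relations to integers. Modulo 3 put `b i = -F (5+i)` (`F + F∘S = 0`, so `b - b∘S = -2F = F`); then `F = solT f b` and `qT f b = 0`. Take any integral lifts of `f, b`; the defect `qT` is divisible by 3 and has total sum zero over the plane (`p ↦ pA` etc. are bijections, TRM); `qT/3` has total sum zero, and every integral function with sum zero is `qT` of some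
`(f, b)`, because modulo such functions `δ_p ≡ δ_(pg)` for `g = A = (1 3; 0 1)` (from `f 0`), `M1 = (5 3; 15 10)`, `M2 = (65 36; 45 25)`, `M3 = (70 -39; 45 -25)`, `M4 = (10 3; 15 5)` (from `f 1, ..., f 4`), so also for `B' = M1 M2⁻¹ M3 M4 = (1 0; 15 1)` up to a scalar, and the plane is connected under `A` and `B'` (`(x,y) A^z = (x + z, y/(1 + 9zy))`,
`(x, y) B'^z = (x/(1 + 45zx), y + 5z)`, `5` is invertible: move to `(0, y')` and then to `(0,0)`). Subtract `3` times this solution; SOL. Model: `Pool/Agent/Helper99/TH3/M_Lifp.lean`. -/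
def TLifp : Prop := ∀ (r s : ℕ) (f : Fin 9 → Fn3 (3 ^ r) (3 ^ s)), RelT f →
  ∃ F : Fin 9 → ZMod (3 ^ r) → ZMod (3 ^ s) → ℤ, RelT F ∧
    ∀ i x y, ((F i x y : ℤ) : ZMod 3) = f i x y

/-- LIF (from REL, LIFP, EX, UNI). Lifting symbols: every symbol `g` modulo 3 lifts to an integral symbol `G` with the same
`evT` modulo 3. Model: `Pool/Agent/Helper61/TH3/M_Lif.lean`. -/
def TLif : Prop := ∀ (r s : ℕ) (g : ℤ → ℤ → ZMod 3), SymH 3 (r + 1) (s + 1) g →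
  ∃ G : ℤ → ℤ → ℤ, SymH 3 (r + 1) (s + 1) G ∧
    ∀ c i j : ℕ, ((evT (3 ^ (r + 1)) G c i j : ℤ) : ZMod 3) = evT (3 ^ (r + 1)) g c i j

/-- UNB. Back to `Γ₀(5·3^n)` and to complex values. Model: `Pool/Agent/Helper81/TH3/M_Unb.lean`. -/
def TUnb : Prop := ∀ (r s : ℕ) (G : ℤ → ℤ → ℤ), SymH 3 r s G →
  SymH 3 0 (r + s) (fun p q => ((G (3 ^ r * p) q : ℤ) : ℂ)) ∧
    ∀ c i j : ℕ, evT 1 (fun p q => ((G (3 ^ r * p) q : ℤ) : ℂ)) c i j = ((evT (3 ^ r) G c i j : ℤ) : ℂ)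

/-- CNT. Counting the index sets. `DDE 2 dd5 (2k) = t² + t`, `DDE 2 dd5 (2k+1) = 3t² + 2t` with `t = 3^(k-1)` (`k ≥ 1`; induction: `2, 5, 12, 33, 90`). First set (the second condition follows from the first for `c ≠ 3`; for `c = 3` too: `1 + i + j ≤ 2 + i + 3j`): `∑_(c, j) max(0, t - bT c - 3j) = 2 (t + (t - 1) + ... + 1)` (`bT c = 2, 1, 1, 2, 0, 0`). Second set: the first condition
follows from the second (`bT c + i + 3j ≤ 2 + 3(t - 1)`); five times `t(t + 1)/2` and `t(t - 1)/2` for `c = 3`. Model: `Pool/Agent/Helper62/TH3/M_Cnt.lean`. -/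
def TCnt : Prop :=
  (∀ k : ℕ, 1 ≤ k → ((Finset.range 6 ×ˢ Finset.range (3 ^ k) ×ˢ Finset.range (3 ^ k)).filter
    fun t : ℕ × ℕ × ℕ => bT t.1 + t.2.1 + 3 * t.2.2 < 3 ^ (k - 1) ∧ cT t.1 + t.2.1 + t.2.2 < 3 ^ (k - 1)).card = DDE 2 dd5 (2 * k)) ∧
  (∀ k : ℕ, 1 ≤ k → ((Finset.range 6 ×ˢ Finset.range (3 ^ k) ×ˢ Finset.range (3 ^ k)).filter
    fun t : ℕ × ℕ × ℕ => bT t.1 + t.2.1 + 3 * t.2.2 < 3 ^ k ∧ cT t.1 + t.2.1 + t.2.2 < 3 ^ (k - 1)).card = DDE 2 dd5 (2 * k + 1))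

/-- LB from TRI, LIF, UNB, CNT. For `n = 2k` (`k ≥ 1`) use `(r,s) = (k-1,k-1)`, for `n = 2k+1` use
`(r,s) = (k,k-1)`: level `(r+1, s+1)`. The matrix `M (κ, (c,i,j)) = evT G_κ c i j` (`κ`, `(c,i,j)` in the index set of CNT) is integral, and modulo 3 its rows are
linearly independent: in a relation `∑ x_κ M(κ,·) = 0` take `κ0` maximal with `x_{κ0} ≠ 0` for the lexicographic order of (`D = aT c + 2i + 4j`, `i + j`, `c`), which determines `(c, i, j)`; the column `κ0` gives `x_{κ0} = 0`. So its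
determinant is prime to `3`, nonzero in `ℂ`. If a combination `H` of the `G_κ` (complex, level `(0, n)`) is killed by all words (`evLH 3 H = 0`) then `evT 1 H c i j = 0`: the set of all `K` with `evw 1 ls K = 0` for all
words is stable under `Tl l 1`, `l = 2, 7, 11, 13, 17, 19, 23`, sums and integer multiples. So the vectors `evLH 3 (G_κ)` are independent. Model: `Pool/Agent/Helper72/TH3/M_LBof.lean`. -/
def TLBof : Prop := TTri → TLif → TUnb → TCnt → LBH 3 2 dd5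

end Pool.Agent.Helper93.T53
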