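import Pool.Agent.Helper93.T53.StD

/-!
# Levels `5·3^n`: certificates
-/

set_option autoImplicit false
set_option maxRecDepth 100000

namespace Pool.Agent.Helper93.T53

theorem hCeG : TCeG := by unfold TCeG; decide +kernel

theorem hCeU : TCeU := by unfold TCeU; decide +kernel

theorem hCeP : TCeP := by unfold TCeP; decide +kernel

end Pool.Agent.Helper93.T53
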