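import Pool.Agent.Helper93.T53.StD

/-!
# Levels `5·3^n`: certificate of the row 4 of `V`
-/

set_option autoImplicit false
set_option maxRecDepth 100000

namespace Pool.Agent.Helper93.T53

open Pool.Agent.Helper78.W3 (sS M5)

private theorem v0 : ∀ t ∈ M5,
    (3 : ℤ) ∣ sS (pA (BVT 4 0)) t.1 t.2.1 t.2.2 -
      (if (0 : Fin 9) = 4 ∧ (t = (0, 3, 1) ∨ t = (0, 2, 2) ∨ t = (0, 1, 3)) then 1 else 0) ∧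
    (3 : ℤ) ∣ sS (pB (BVT 4 0)) t.1 t.2.1 t.2.2 := by decide +kernel

private theorem v1 : ∀ t ∈ M5,
    (3 : ℤ) ∣ sS (pA (BVT 4 1)) t.1 t.2.1 t.2.2 -
      (if (1 : Fin 9) = 4 ∧ (t = (0, 3, 1) ∨ t = (0, 2, 2) ∨ t = (0, 1, 3)) then 1 else 0) ∧
    (3 : ℤ) ∣ sS (pB (BVT 4 1)) t.1 t.2.1 t.2.2 := by decide +kernel

private theorem v2 : ∀ t ∈ M5,
    (3 : ℤ) ∣ sS (pA (BVT 4 2)) t.1 t.2.1 t.2.2 -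
      (if (2 : Fin 9) = 4 ∧ (t = (0, 3, 1) ∨ t = (0, 2, 2) ∨ t = (0, 1, 3)) then 1 else 0) ∧
    (3 : ℤ) ∣ sS (pB (BVT 4 2)) t.1 t.2.1 t.2.2 := by decide +kernel

private theorem v3 : ∀ t ∈ M5,
    (3 : ℤ) ∣ sS (pA (BVT 4 3)) t.1 t.2.1 t.2.2 -
      (if (3 : Fin 9) = 4 ∧ (t = (0, 3, 1) ∨ t = (0, 2, 2) ∨ t = (0, 1, 3)) then 1 else 0) ∧
    (3 : ℤ) ∣ sS (pB (BVT 4 3)) t.1 t.2.1 t.2.2 := by decide +kernel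

private theorem v4 : ∀ t ∈ M5,
    (3 : ℤ) ∣ sS (pA (BVT 4 4)) t.1 t.2.1 t.2.2 -
      (if (4 : Fin 9) = 4 ∧ (t = (0, 3, 1) ∨ t = (0, 2, 2) ∨ t = (0, 1, 3)) then 1 else 0) ∧
    (3 : ℤ) ∣ sS (pB (BVT 4 4)) t.1 t.2.1 t.2.2 := by decide +kernel

private theorem v5 : ∀ t ∈ M5,
    (3 : ℤ) ∣ sS (pA (BVT 4 5)) t.1 t.2.1 t.2.2 -
      (if (5 : Fin 9) = 4 ∧ (t = (0, 3, 1) ∨ t = (0, 2, 2) ∨ t = (0, 1, 3)) then 1 else 0) ∧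
    (3 : ℤ) ∣ sS (pB (BVT 4 5)) t.1 t.2.1 t.2.2 := by decide +kernel

private theorem v6 : ∀ t ∈ M5,
    (3 : ℤ) ∣ sS (pA (BVT 4 6)) t.1 t.2.1 t.2.2 -
      (if (6 : Fin 9) = 4 ∧ (t = (0, 3, 1) ∨ t = (0, 2, 2) ∨ t = (0, 1, 3)) then 1 else 0) ∧
    (3 : ℤ) ∣ sS (pB (BVT 4 6)) t.1 t.2.1 t.2.2 := by decide +kernel

private theorem v7 : ∀ t ∈ M5,
    (3 : ℤ) ∣ sS (pA (BVT 4 7)) t.1 t.2.1 t.2.2 -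
      (if (7 : Fin 9) = 4 ∧ (t = (0, 3, 1) ∨ t = (0, 2, 2) ∨ t = (0, 1, 3)) then 1 else 0) ∧
    (3 : ℤ) ∣ sS (pB (BVT 4 7)) t.1 t.2.1 t.2.2 := by decide +kernel

private theorem v8 : ∀ t ∈ M5,
    (3 : ℤ) ∣ sS (pA (BVT 4 8)) t.1 t.2.1 t.2.2 -
      (if (8 : Fin 9) = 4 ∧ (t = (0, 3, 1) ∨ t = (0, 2, 2) ∨ t = (0, 1, 3)) then 1 else 0) ∧
    (3 : ℤ) ∣ sS (pB (BVT 4 8)) t.1 t.2.1 t.2.2 := by decide +kernel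

theorem hCeV4 : TCeV 4 := by
  intro f
  fin_cases f
  · exact v0
  · exact v1
  · exact v2
  · exact v3
  · exact v4
  · exact v5
  · exact v6
  · exact v7
  · exact v8

end Pool.Agent.Helper93.T53
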