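import Pool.Agent.Helper93.T53.HkG

/-!
# Levels `5·3^n`: the rows of the Hecke operator `T_11`
-/

set_option autoImplicit false
set_option maxRecDepth 100000

namespace Pool.Agent.Helper93.T53

open Pool.Agent.Helper78.W3 (S3Trm)

private def cc : Fin 9 → Fin 9 → List C3
  | 0, 0 => [(0, 0, 2), (8, 0, 2), (7, 0, 2), (6, 0, 2), (5, 0, 2), (4, 0, 2), (3, 0, 2), (2, 0, 2), (1, 0, 2), (11, 0, 2), (10, 0, 2), (9, 0, 2), (9, 3, 4), (9, 3, 5)]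
  | 0, 1 => [(8, 3, 2), (7, 3, 2), (6, 3, 2), (5, 3, 2), (4, 3, 2), (8, 4, 5), (9, 6, 4), (8, 6, 7)]
  | 0, 2 => [(7, 4, 5), (8, 8, 3), (7, 6, 3), (6, 4, 3), (5, 4, 3), (8, 1, 4), (9, 7, 6), (9, 8, 9), (11, 3, 4), (11, 5, 6), (2, 1, 3), (6, 5, 6), (3, 1, 3), (10, 3, 4), (11, 7, 8), (9, 10, 11), (0, 3, 4), (9, 12, 13)]
  | 0, 3 => [(2, 3, 2), (3, 3, 2), (1, 3, 4), (11, 4, 9), (11, 6, 10), (11, 8, 11), (10, 4, 5), (9, 11, 14), (0, 4, 5), (9, 13, 15)]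
  | 0, 4 => [(8, 6, 9), (7, 5, 7), (6, 6, 7), (9, 9, 16), (1, 3, 5), (4, 3, 1)]
  | 0, 5 => [(8, 9, 8), (7, 7, 6), (6, 7, 4), (5, 5, 4), (9, 16, 7), (9, 17, 8), (6, 1, 5), (7, 1, 4), (1, 1, 5)]
  | 0, 6 => [(8, 5, 7)]
  | 0, 7 => [(0, 3, 1), (11, 3, 5), (5, 1, 5), (10, 3, 1), (9, 10, 17), (9, 12, 1), (11, 7, 1)]
  | 0, 8 => [(0, 2, 5), (1, 4, 2), (11, 2, 10), (10, 2, 5), (9, 2, 14), (9, 5, 15), (11, 9, 11)]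
  | 1, 0 => [(0, 2, 3), (0, 2, 4), (3, 2, 3), (3, 2, 4), (5, 2, 3), (5, 2, 4), (9, 2, 3), (9, 2, 4), (6, 2, 3), (6, 2, 4)]
  | 1, 1 => [(0, 0, 4), (3, 5, 6), (3, 7, 3), (5, 5, 3), (8, 2, 3), (9, 5, 3), (1, 2, 3), (6, 5, 3)]
  | 1, 2 => [(3, 8, 7), (5, 6, 5), (8, 1, 2), (9, 6, 5), (1, 4, 2), (2, 1, 2), (2, 3, 0), (6, 6, 5), (6, 7, 8), (3, 1, 9), (3, 10, 0), (5, 1, 7), (7, 2, 0), (11, 2, 3), (3, 11, 12), (6, 9, 10), (0, 5, 6), (9, 7, 8)]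
  | 1, 3 => [(3, 9, 13), (11, 0, 4), (1, 5, 3), (8, 0, 3), (11, 3, 5), (9, 9, 10), (5, 7, 8), (9, 0, 11), (3, 12, 14), (0, 6, 7), (6, 10, 11), (9, 8, 12)]
  | 1, 4 => [(3, 5, 15), (5, 0, 9), (6, 8, 12), (9, 9, 13), (1, 5, 6), (4, 0, 1), (2, 2, 3), (1, 0, 7), (6, 0, 13), (10, 0, 1)]
  | 1, 5 => [(3, 15, 8), (5, 9, 6), (9, 13, 6), (1, 7, 4), (6, 13, 6), (6, 1, 7), (7, 1, 3), (1, 1, 6)]
  | 1, 6 => [(3, 13, 6), (11, 4, 5)]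
  | 1, 7 => [(0, 5, 1), (3, 11, 10), (9, 7, 1), (11, 2, 1), (7, 2, 3), (6, 9, 12)]
  | 1, 8 => [(0, 3, 7), (11, 5, 6), (3, 4, 14), (5, 4, 8), (9, 4, 12), (11, 6, 5), (9, 11, 10), (6, 4, 11)]
  | 2, 0 => [(3, 2, 0), (3, 2, 3), (5, 2, 3), (5, 2, 4), (7, 2, 3), (7, 2, 4), (6, 2, 3), (6, 2, 4)]
  | 2, 1 => [(11, 2, 3), (5, 5, 3), (10, 2, 0), (7, 5, 3), (1, 2, 3), (7, 6, 0), (6, 5, 3), (0, 2, 3)]
  | 2, 2 => [(0, 4, 1), (11, 4, 2), (5, 6, 5), (10, 3, 2), (7, 7, 5), (9, 2, 3), (1, 4, 2), (2, 2, 1), (6, 6, 5), (9, 4, 5), (3, 4, 1), (2, 3, 4), (3, 5, 6), (6, 7, 8)]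
  | 2, 3 => [(11, 1, 5), (11, 6, 0), (6, 9, 10), (4, 1, 0), (8, 1, 0), (9, 5, 0), (9, 3, 6), (9, 1, 7), (7, 1, 8), (2, 4, 5), (3, 6, 7), (6, 8, 11)]
  | 2, 4 => [(0, 2, 5), (11, 6, 7), (5, 1, 7), (6, 9, 12), (7, 6, 9), (1, 1, 5), (6, 1, 13), (10, 1, 3)]
  | 2, 5 => [(0, 5, 4), (11, 7, 4), (5, 7, 6), (7, 9, 7), (1, 5, 4), (6, 13, 6)]
  | 2, 6 => [(0, 0, 3), (7, 10, 0), (11, 5, 3), (5, 0, 4), (1, 0, 3), (7, 0, 10)]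
  | 2, 7 => [(2, 3, 2), (3, 5, 4), (9, 4, 2), (6, 7, 12)]
  | 2, 8 => [(2, 0, 5), (3, 3, 7), (9, 7, 6), (6, 0, 10), (7, 4, 8), (6, 4, 11)]
  | 3, 0 => [(0, 2, 3), (0, 2, 4), (1, 2, 3), (1, 2, 4), (9, 2, 3), (9, 2, 4), (11, 2, 3), (11, 2, 4)]
  | 3, 1 => [(0, 5, 3), (1, 5, 3), (7, 2, 3), (2, 0, 2), (5, 2, 3), (11, 5, 3)]
  | 3, 2 => [(0, 1, 5), (1, 6, 5), (7, 4, 2), (5, 4, 2), (1, 7, 0), (1, 1, 8), (11, 6, 5), (1, 9, 10), (8, 1, 0), (4, 1, 0), (3, 1, 2), (3, 3, 4), (3, 5, 0), (7, 5, 6), (11, 7, 8), (0, 6, 7), (10, 2, 3), (9, 5, 6)]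
  | 3, 3 => [(2, 3, 2), (3, 4, 6), (1, 10, 11), (10, 0, 4), (3, 2, 7), (9, 0, 3), (5, 0, 5), (7, 6, 7), (11, 8, 9), (10, 3, 5), (0, 7, 8), (9, 6, 7)]
  | 3, 4 => [(1, 8, 12), (7, 0, 8), (11, 0, 10), (2, 3, 1), (6, 0, 2), (0, 0, 9)]
  | 3, 5 => [(1, 12, 6), (7, 8, 4), (4, 2, 1), (5, 1, 4), (11, 10, 6), (4, 1, 2), (6, 2, 3), (11, 1, 11), (1, 7, 13), (7, 1, 9)]
  | 3, 6 => [(10, 6, 4), (10, 4, 6)]
  | 3, 7 => [(0, 6, 9), (1, 9, 13), (10, 2, 1), (9, 5, 1), (7, 5, 9), (3, 3, 5), (6, 3, 1), (11, 7, 11)]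
  | 3, 8 => [(0, 4, 8), (1, 4, 11), (10, 4, 5), (9, 4, 7), (7, 3, 7), (3, 6, 7), (5, 3, 5), (11, 4, 9)]
  | 4, 0 => [(0, 2, 3), (7, 2, 3), (0, 2, 4), (7, 2, 4), (11, 2, 3), (11, 2, 1), (2, 2, 3), (2, 2, 4)]
  | 4, 1 => [(7, 5, 3), (0, 5, 4), (1, 0, 1), (3, 2, 3), (2, 5, 3), (7, 6, 7), (4, 2, 1), (6, 0, 1)]
  | 4, 2 => [(7, 8, 5), (0, 6, 5), (5, 2, 3), (4, 3, 0), (9, 2, 0), (10, 2, 0), (2, 6, 5), (4, 4, 5), (7, 9, 6), (10, 3, 4), (4, 6, 2), (11, 4, 5), (7, 10, 11), (2, 7, 8)]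
  | 4, 3 => [(2, 0, 9), (3, 0, 3), (8, 0, 2), (2, 10, 11), (5, 3, 4), (9, 3, 1), (11, 5, 6), (10, 4, 5), (7, 11, 12), (2, 12, 1), (3, 2, 1), (2, 8, 13)]
  | 4, 4 => [(7, 0, 13), (0, 0, 7), (5, 0, 5), (11, 0, 7), (2, 12, 14), (9, 3, 2), (4, 5, 7), (2, 10, 15)]
  | 4, 5 => [(7, 13, 8), (0, 7, 6), (5, 5, 2), (10, 3, 2), (2, 14, 6), (4, 7, 6)]
  | 4, 6 => [(2, 11, 9), (5, 6, 7), (5, 7, 6), (5, 4, 1), (8, 3, 1), (7, 7, 1)]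
  | 4, 7 => [(7, 10, 9), (4, 3, 4), (10, 6, 3), (11, 4, 7), (2, 7, 15), (10, 3, 6)]
  | 4, 8 => [(7, 4, 12), (8, 2, 3), (11, 3, 6), (2, 4, 13), (10, 1, 5), (0, 1, 3)]
  | 5, 0 => [(0, 2, 3), (0, 2, 4), (11, 2, 3), (11, 2, 0), (2, 2, 3), (2, 2, 1), (8, 2, 3), (8, 2, 4), (7, 2, 3), (7, 2, 4)]
  | 5, 1 => [(0, 5, 3), (11, 4, 3), (2, 4, 3), (3, 2, 1), (5, 2, 3), (8, 5, 3), (7, 5, 6), (10, 2, 1), (7, 7, 3), (4, 2, 0), (8, 6, 7), (7, 8, 1), (6, 2, 0), (0, 6, 7)]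
  | 5, 2 => [(0, 8, 5), (11, 5, 4), (2, 5, 4), (3, 3, 2), (5, 4, 2), (8, 8, 5), (7, 9, 5), (7, 10, 7), (4, 3, 2), (9, 2, 3), (7, 11, 12), (8, 9, 10)]
  | 5, 3 => [(8, 11, 1), (5, 5, 6), (9, 4, 0), (11, 6, 1), (6, 2, 3), (10, 2, 3), (4, 4, 1), (2, 6, 0), (9, 3, 1), (3, 4, 0), (7, 12, 13), (8, 10, 12)]
  | 5, 4 => [(0, 6, 9), (11, 6, 7), (2, 6, 7), (3, 4, 5), (5, 5, 7), (8, 6, 13), (8, 11, 14), (9, 4, 5), (7, 8, 14), (4, 4, 5)]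
  | 5, 5 => [(0, 9, 8), (11, 7, 5), (2, 7, 5), (3, 5, 3), (5, 7, 4), (7, 9, 15), (8, 13, 8), (7, 14, 10), (4, 5, 3)]
  | 5, 6 => [(0, 1, 7), (8, 1, 7), (5, 6, 0), (7, 16, 1), (5, 1, 3), (8, 1, 0), (1, 1, 0), (7, 6, 0), (7, 1, 16)]
  | 5, 7 => [(10, 4, 5), (8, 9, 14), (9, 2, 5), (7, 11, 15), (10, 5, 4)]
  | 5, 8 => [(8, 4, 12), (6, 1, 3), (7, 4, 13), (10, 0, 3), (0, 0, 4)]
  | 6, 0 => [(9, 2, 3), (9, 2, 4), (7, 2, 3), (7, 2, 4), (8, 2, 3), (8, 2, 4)]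
  | 6, 1 => [(0, 2, 3), (1, 2, 3), (10, 2, 3), (9, 5, 3), (7, 5, 3), (3, 2, 3), (8, 5, 3), (5, 2, 3)]
  | 6, 2 => [(0, 0, 2), (1, 4, 2), (10, 4, 2), (9, 6, 5), (7, 6, 5), (7, 7, 8), (3, 1, 2), (8, 6, 5), (5, 4, 2), (1, 0, 5), (6, 2, 3), (2, 2, 3), (8, 0, 7), (10, 1, 5), (3, 0, 4), (9, 1, 7), (7, 9, 10), (1, 6, 7), (0, 1, 4), (8, 8, 9), (10, 6, 7), (9, 8, 9)]
  | 6, 3 => [(5, 5, 6), (3, 4, 5), (7, 10, 11), (1, 7, 8), (0, 4, 5), (10, 7, 8), (8, 9, 10), (9, 9, 10)]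
  | 6, 4 => [(1, 5, 9), (10, 5, 9), (9, 7, 11), (7, 8, 12), (6, 3, 1), (8, 7, 11), (5, 5, 7), (2, 3, 0)]
  | 6, 5 => [(1, 9, 4), (10, 9, 4), (7, 12, 6), (8, 11, 6), (9, 6, 11), (5, 0, 4), (5, 7, 1), (4, 0, 1), (11, 0, 1), (7, 7, 1), (7, 0, 13)]
  | 6, 6 => [(5, 6, 3)]
  | 6, 7 => [(1, 6, 1), (10, 6, 0), (9, 8, 0), (7, 9, 13), (6, 2, 0), (8, 8, 1), (2, 2, 1)]
  | 6, 8 => [(0, 3, 5), (1, 3, 8), (10, 3, 8), (9, 4, 10), (7, 4, 11), (3, 3, 5), (8, 4, 10)]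
  | 7, 0 => [(0, 2, 1), (0, 2, 3), (8, 2, 0), (8, 2, 3)]
  | 7, 1 => [(0, 4, 3), (3, 2, 1), (8, 4, 3), (8, 5, 1), (11, 2, 3), (10, 2, 3), (9, 2, 0), (0, 5, 0)]
  | 7, 2 => [(0, 6, 4), (9, 3, 4), (3, 3, 2), (8, 6, 4), (1, 2, 3), (9, 5, 2), (3, 4, 5), (4, 2, 3)]
  | 7, 3 => [(4, 4, 1), (10, 2, 1), (9, 4, 1), (1, 4, 0), (1, 3, 5), (4, 3, 5), (11, 2, 0), (3, 5, 0)]
  | 7, 4 => [(0, 5, 7), (8, 5, 7), (1, 4, 6), (4, 4, 6)]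
  | 7, 5 => [(0, 7, 6), (3, 4, 3), (8, 7, 6), (1, 6, 7), (4, 6, 7), (9, 3, 5)]
  | 7, 6 => [(11, 1, 3), (8, 8, 1), (5, 1, 2), (10, 0, 3), (6, 1, 2), (5, 3, 0), (8, 1, 8), (6, 3, 0)]
  | 7, 7 => [(1, 2, 7), (4, 2, 7)]
  | 7, 8 => [(7, 0, 1), (1, 1, 5), (6, 3, 2), (5, 2, 3), (4, 0, 5), (2, 0, 1)]
  | 8, 0 => [(0, 2, 3), (0, 2, 4), (3, 2, 3), (3, 2, 4), (8, 2, 3), (8, 2, 4), (2, 2, 3), (2, 2, 4)]
  | 8, 1 => [(0, 5, 3), (8, 5, 6), (3, 5, 3), (2, 5, 6), (8, 7, 3), (7, 2, 3), (2, 7, 3), (10, 2, 3)]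
  | 8, 2 => [(0, 6, 5), (3, 6, 5), (8, 8, 7), (7, 0, 2), (1, 0, 2), (2, 8, 7), (2, 0, 9), (10, 1, 2), (10, 4, 5), (11, 1, 2), (7, 4, 5), (8, 1, 9), (3, 7, 8), (0, 7, 8), (2, 10, 11), (8, 10, 11)]
  | 8, 3 => [(2, 9, 6), (10, 5, 6), (8, 9, 6), (7, 5, 6), (3, 8, 9), (0, 8, 9), (2, 11, 12), (8, 11, 12)]
  | 8, 4 => [(11, 2, 3), (8, 5, 13), (1, 2, 3), (2, 5, 13)]
  | 8, 5 => [(0, 1, 6), (3, 0, 6), (8, 13, 8), (1, 3, 1), (5, 0, 2), (2, 13, 8), (6, 0, 2), (5, 3, 1), (11, 0, 3), (6, 3, 1)]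
  | 8, 6 => [(7, 3, 7), (10, 7, 3)]
  | 8, 7 => [(0, 7, 0), (10, 8, 9), (5, 2, 3), (3, 7, 1), (10, 4, 0), (8, 10, 0), (4, 0, 1), (10, 9, 8), (9, 1, 0), (6, 3, 2), (7, 4, 1), (2, 10, 1)]
  | 8, 8 => [(0, 4, 9), (3, 4, 9), (10, 7, 6), (8, 4, 12), (7, 7, 6), (2, 4, 12)]

private def kk : Fin 9 → List (ℕ × ℕ × List (ℤ × ℤ))
  | 0 => [(0, 1, [(1, 0), (-11, 1), (-10, 1), (-53, 5), (-21, 2), (-52, 5)]),
    (0, 1, [(1, 0), (-16, 11), (-1, 1), (-3, 2), (-7, 5), (-29, 20)]),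
    (0, 1, [(1, 0), (-13, 11), (-1, 1), (-6, 5)]),
    (0, 1, [(1, 0), (-10, 11), (-1, 1), (-9, 10)]),
    (0, 1, [(1, 0), (-7, 11), (-1, 1), (-3, 5)]),
    (0, 1, [(1, 0), (-4, 11), (-1, 1), (-3, 5), (-1, 2), (-2, 5)]),
    (0, 1, [(1, 0), (-1, 11), (-1, 1), (-3, 5), (-1, 2), (-1, 10), (0, 1), (-2, 5)]),
    (0, 1, [(1, 0), (2, 11), (-1, 1), (-3, 5), (1, 5), (0, 1), (-1, 2), (-2, 5)]),
    (0, 1, [(1, 0), (5, 11), (-1, 1), (-3, 5), (9, 20), (1, 2), (0, 1), (2, 5), (-1, 2), (-2, 5)]),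
    (0, 1, [(1, 0), (8, 11), (2, 1), (11, 15), (14, 19), (19, 26), (48, 65), (17, 23), (4, 5), (3, 4), (7, 5), (3, 2), (62, 85), (27, 37), (8, 5), (73, 100), (37, 50), (1, 1)]),
    (0, 1, [(1, 0), (1, 1), (2, 1), (7, 5), (3, 2), (8, 5)]),
    (0, 1, [(1, 0), (14, 11), (2, 1), (1, 1), (6, 5), (7, 5), (3, 2), (32, 25), (9, 7), (5, 4), (8, 5), (13, 10)])]
  | 1 => [(0, 1, [(-33, 5), (-11, 1), (1, 0), (-10, 1), (-7, 1), (-53, 5), (-21, 2), (-52, 5)]),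
    (0, 1, [(-78, 55), (-16, 11), (-27, 19), (-7, 5), (-71, 50), (-3, 2), (-29, 20), (-44, 31)]),
    (0, 1, [(-63, 55), (-13, 11), (-6, 5), (-8, 7)]),
    (0, 1, [(-48, 55), (-10, 11), (-13, 15), (-19, 22), (-20, 23), (-6, 7), (-4, 5), (-69, 80), (-25, 29), (-9, 10), (-7, 8), (-61, 70), (-27, 31), (-1, 1), (-74, 85), (-56, 65)]),
    (0, 1, [(-3, 5), (-7, 11)]),
    (0, 1, [(-18, 55), (-4, 11), (-1, 3), (-23, 70), (-7, 20), (-21, 64), (-41, 125), (-9, 25), (-5, 14), (-20, 61)]),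
    (0, 1, [(-3, 55), (-1, 11), (-1, 18), (-8, 145), (-7, 125), (-6, 109), (-11, 200), (-1, 10), (0, 1), (-4, 71), (-9, 160), (-5, 89), (-2, 35), (-5, 91)]),
    (0, 1, [(12, 55), (2, 11), (5, 23), (1, 5)]),
    (0, 1, [(27, 55), (5, 11), (9, 20), (1, 2)]),
    (0, 1, [(42, 55), (8, 11), (11, 15), (14, 19), (19, 26), (48, 65), (17, 23), (62, 85), (27, 37), (3, 4), (19, 25), (13, 17), (73, 100), (37, 50)]),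
    (0, 1, [(57, 55), (1, 1)]),
    (0, 1, [(72, 55), (14, 11), (32, 25), (9, 7), (17, 13), (13, 10), (5, 4)])]
  | 2 => [(0, 1, [(-11, 2), (-33, 5), (-6, 1), (-28, 5), (-13, 2), (-32, 5)]),
    (0, 1, [(-31, 22), (-78, 55), (-27, 19), (-7, 5), (-71, 50), (-44, 31)]),
    (0, 1, [(-25, 22), (-63, 55), (-8, 7), (-74, 65), (-33, 29), (-91, 80)]),
    (0, 1, [(-19, 22), (-48, 55), (-13, 15), (-20, 23), (-7, 8), (-61, 70), (-27, 31), (-74, 85)]),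
    (0, 1, [(-13, 22), (-3, 5)]),
    (0, 1, [(-7, 22), (-18, 55), (-1, 3), (-23, 70), (-8, 25), (-21, 64), (-41, 125), (-20, 61)]),
    (0, 1, [(-1, 22), (-3, 55), (-1, 18), (-8, 145), (-7, 125), (-6, 109), (-11, 200), (-4, 71), (-9, 160), (0, 1), (-1, 20), (-5, 89), (-2, 35), (-5, 91)]),
    (0, 1, [(5, 22), (12, 55), (2, 9), (19, 85), (11, 50), (15, 67), (9, 40), (28, 125), (7, 32), (13, 58), (8, 35)]),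
    (0, 1, [(1, 2), (27, 55)]),
    (0, 1, [(17, 22), (42, 55), (4, 5), (3, 4), (10, 13), (27, 35), (19, 25), (13, 17)]),
    (0, 1, [(23, 22), (57, 55), (21, 20), (1, 1)]),
    (0, 1, [(29, 22), (72, 55), (21, 16), (13, 10), (46, 35), (17, 13), (33, 25), (25, 19)])]
  | 3 => [(0, 1, [(33, 5), (11, 2), (1, 0), (5, 1), (8, 1), (27, 5), (37, 5), (15, 2), (38, 5), (7, 1)]),
    (0, 1, [(-72, 55), (-29, 22), (-4, 3), (-53, 40), (-7, 5), (-45, 34), (-86, 65), (-17, 13), (-33, 25), (-5, 4), (-6, 5), (-1, 1), (-41, 31), (-13, 10)]),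
    (0, 1, [(-57, 55), (-23, 22), (-1, 1), (-21, 20)]),
    (0, 1, [(-42, 55), (-17, 22), (-27, 35), (-19, 25), (-3, 4), (-13, 17), (-4, 5), (-10, 13)]),
    (0, 1, [(-27, 55), (-1, 2), (-2, 5)]),
    (0, 1, [(-12, 55), (-5, 22), (-3, 13), (-1, 5), (-8, 35), (-5, 23)]),
    (0, 1, [(3, 55), (1, 22), (1, 19), (1, 20)]),
    (0, 1, [(18, 55), (7, 22), (15, 46), (13, 40), (31, 95), (10, 31), (21, 65), (11, 34), (16, 49), (8, 25)]),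
    (0, 1, [(3, 5), (13, 22)]),
    (0, 1, [(48, 55), (19, 22), (13, 15), (7, 8), (32, 37), (121, 140), (51, 59), (134, 155)]),
    (0, 1, [(63, 55), (25, 22), (91, 80), (33, 29), (8, 7), (74, 65), (23, 20)]),
    (0, 1, [(78, 55), (31, 22), (17, 12), (163, 115), (92, 65), (129, 91), (241, 170), (41, 29), (99, 70), (58, 41), (112, 79), (7, 5)])]
  | 4 => [(0, 1, [(0, 1), (-22, 5), (1, 0), (-4, 1), (-1, 1), (-3, 5), (-1, 2), (-2, 5)]),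
    (0, 1, [(-15, 11), (-7, 5)]),
    (0, 1, [(-12, 11), (-62, 55), (-17, 15), (-26, 23), (-25, 22), (-96, 85), (-35, 31), (-74, 65), (-33, 29), (-11, 10), (-6, 5), (-1, 1), (-9, 8), (-91, 80), (-79, 70), (-8, 7)]),
    (0, 1, [(-9, 11), (-47, 55), (-6, 7), (-4, 5)]),
    (0, 1, [(-6, 11), (-32, 55), (-18, 31), (-11, 20), (-1, 2), (-3, 5), (-29, 50), (-11, 19)]),
    (0, 1, [(-3, 11), (-17, 55), (-2, 7), (-3, 10), (-4, 13), (-7, 25), (-1, 5), (-1, 4)]),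
    (0, 1, [(0, 1), (-2, 55)]),
    (0, 1, [(3, 11), (13, 55), (4, 15), (7, 26), (5, 19), (27, 100), (6, 25), (4, 17), (10, 37), (1, 4), (13, 50), (6, 23), (17, 65), (23, 85)]),
    (0, 1, [(6, 11), (28, 55), (11, 20), (1, 2)]),
    (0, 1, [(9, 11), (43, 55), (4, 5), (18, 23)]),
    (0, 1, [(12, 11), (58, 55), (11, 10), (1, 1), (21, 20), (20, 19), (37, 35)]),
    (0, 1, [(15, 11), (73, 55), (4, 3), (13, 10), (1, 1), (6, 5), (5, 4), (7, 5)])]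
  | 5 => [(0, 1, [(-22, 5), (-11, 2), (1, 0), (-7, 1), (-4, 1), (-33, 5), (-6, 1), (-28, 5), (-13, 2), (-32, 5)]),
    (0, 1, [(-7, 5), (-31, 22)]),
    (0, 1, [(-62, 55), (-25, 22), (-17, 15), (-26, 23), (-96, 85), (-35, 31), (-9, 8), (-79, 70)]),
    (0, 1, [(-47, 55), (-19, 22), (-69, 80), (-25, 29), (-6, 7), (-56, 65)]),
    (0, 1, [(-32, 55), (-13, 22), (-18, 31), (-29, 50), (-3, 5), (-11, 19)]),
    (0, 1, [(-17, 55), (-7, 22), (-6, 19), (-8, 25), (-11, 35), (-3, 10), (-4, 13), (-5, 16)]),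
    (0, 1, [(-2, 55), (-1, 22), (0, 1), (-1, 20)]),
    (0, 1, [(13, 55), (5, 22), (2, 9), (19, 85), (11, 50), (6, 25), (4, 17), (15, 67), (9, 40), (1, 4), (28, 125), (5, 23), (12, 55), (7, 32), (13, 58), (1, 5), (8, 35)]),
    (0, 1, [(28, 55), (1, 2), (1, 0), (-1, 1), (2, 1), (-3, 5), (0, 1), (2, 5), (-1, 2), (7, 5), (3, 2), (3, 5), (8, 5), (-2, 5), (1, 1)]),
    (0, 1, [(43, 55), (17, 22), (10, 13), (27, 35), (18, 23), (4, 5)]),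
    (0, 1, [(58, 55), (23, 22), (21, 20), (20, 19), (37, 35), (1, 1)]),
    (0, 1, [(73, 55), (29, 22), (4, 3), (13, 10), (21, 16), (46, 35), (33, 25), (25, 19)])]
  | 6 => [(0, 1, [(11, 2), (22, 5), (27, 5), (5, 1), (9, 2), (23, 5)]),
    (0, 1, [(-29, 22), (-73, 55), (-45, 34), (-53, 40), (-86, 65), (-33, 25), (-65, 49), (-126, 95), (-61, 46), (-41, 31)]),
    (0, 1, [(-23, 22), (-58, 55), (-20, 19), (-21, 20)]),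
    (0, 1, [(-17, 22), (-43, 55), (-18, 23), (-4, 5), (-27, 35), (-10, 13)]),
    (0, 1, [(-1, 2), (-28, 55)]),
    (0, 1, [(-5, 22), (-13, 55), (-3, 13), (-1, 5), (-8, 35), (-6, 25), (-1, 4), (-4, 17)]),
    (0, 1, [(1, 22), (2, 55), (1, 20), (0, 1)]),
    (0, 1, [(7, 22), (17, 55), (1, 3), (2, 5), (13, 40), (0, 1), (1, 5), (4, 13), (3, 10), (10, 31), (21, 65), (11, 34), (1, 4), (8, 25)]),
    (0, 1, [(13, 22), (32, 55), (7, 12), (38, 65), (67, 115), (24, 41), (41, 70), (3, 5), (46, 79), (99, 170), (53, 91), (17, 29)]),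
    (0, 1, [(19, 22), (47, 55), (13, 15), (7, 8), (32, 37), (9, 10), (1, 1), (6, 7), (121, 140), (51, 59), (134, 155), (4, 5)]),
    (0, 1, [(25, 22), (62, 55), (6, 5), (8, 7), (1, 1), (9, 8), (91, 80), (33, 29), (74, 65), (11, 10)]),
    (0, 1, [(31, 22), (7, 5)])]
  | 7 => [(0, 1, [(77, 5), (11, 1), (1, 0), (14, 1), (72, 5), (15, 1), (29, 2), (73, 5)]),
    (0, 1, [(-68, 55), (-14, 11), (-13, 10), (-9, 7), (-21, 17), (-32, 25), (-31, 25), (-5, 4)]),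
    (0, 1, [(-53, 55), (-1, 1)]),
    (0, 1, [(-38, 55), (-8, 11), (-18, 25), (-5, 7), (-7, 10), (-9, 13)]),
    (0, 1, [(-23, 55), (-5, 11), (-8, 19), (-21, 50), (-9, 20), (-13, 31), (-1, 2), (-2, 5)]),
    (0, 1, [(-8, 55), (-2, 11), (-1, 5), (-1, 7)]),
    (0, 1, [(7, 55), (1, 11), (1, 10), (1, 8)]),
    (0, 1, [(2, 5), (4, 11)]),
    (0, 1, [(37, 55), (7, 11), (2, 3), (7, 10), (3, 4), (3, 5), (4, 5), (1, 1), (16, 25)]),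
    (0, 1, [(52, 55), (10, 11), (18, 19), (1, 1), (9, 10), (19, 20)]),
    (0, 1, [(67, 55), (13, 11), (6, 5), (28, 23)]),
    (0, 1, [(82, 55), (16, 11), (3, 2), (29, 20)])]
  | 8 => [(0, 1, [(22, 1), (88, 5), (1, 0), (17, 1), (23, 1), (87, 5), (35, 2), (112, 5), (45, 2), (113, 5)]),
    (0, 1, [(-13, 11), (-67, 55), (-6, 5), (-28, 23)]),
    (0, 1, [(-10, 11), (-52, 55), (-17, 18), (-118, 125), (-137, 145), (-33, 35), (-1, 1), (-84, 89), (-151, 160), (-9, 10), (-86, 91), (-189, 200), (-103, 109), (-67, 71)]),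
    (0, 1, [(-7, 11), (-37, 55), (-2, 3), (-13, 20), (-47, 70), (-9, 14), (-16, 25), (-41, 61), (-84, 125), (-43, 64)]),
    (0, 1, [(-4, 11), (-2, 5)]),
    (0, 1, [(-1, 11), (-7, 55), (-1, 10), (-1, 8)]),
    (0, 1, [(2, 11), (8, 55), (1, 5), (1, 7)]),
    (0, 1, [(5, 11), (23, 55), (9, 20), (1, 2), (13, 31), (21, 50), (8, 19), (2, 5)]),
    (0, 1, [(8, 11), (38, 55), (11, 15), (14, 19), (19, 26), (3, 4), (7, 10), (48, 65), (17, 23), (9, 13), (62, 85), (27, 37), (73, 100), (37, 50)]),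
    (0, 1, [(1, 1), (53, 55)]),
    (0, 1, [(14, 11), (68, 55), (21, 17), (31, 25), (32, 25), (9, 7), (13, 10), (5, 4), (7, 5), (1, 1)]),
    (0, 1, [(17, 11), (83, 55), (3, 2), (31, 20)])]

private theorem c0 : ChkW 3 3 11 5 1 0 (-1) 1 (kk 0) (tcT (T11T 0) (cc 0)) := by
  decide +kernel

private theorem c1 : ChkW 3 3 11 5 (-3) 5 (-1) 1 (kk 1) (tcT (T11T 1) (cc 1)) := by
  decide +kernel

private theorem c2 : ChkW 3 3 11 5 (-1) 2 (-3) 5 (kk 2) (tcT (T11T 2) (cc 2)) := by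
  decide +kernel

private theorem c3 : ChkW 3 3 11 5 3 5 1 2 (kk 3) (tcT (T11T 3) (cc 3)) := by
  decide +kernel

private theorem c4 : ChkW 3 3 11 5 0 1 (-2) 5 (kk 4) (tcT (T11T 4) (cc 4)) := by
  decide +kernel

private theorem c5 : ChkW 3 3 11 5 (-2) 5 (-1) 2 (kk 5) (tcT (T11T 5) (cc 5)) := by
  decide +kernel

private theorem c6 : ChkW 3 3 11 5 1 2 2 5 (kk 6) (tcT (T11T 6) (cc 6)) := by
  decide +kernel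

private theorem c7 : ChkW 3 3 11 5 7 5 1 1 (kk 7) (tcT (T11T 7) (cc 7)) := by
  decide +kernel

private theorem c8 : ChkW 3 3 11 5 2 1 8 5 (kk 8) (tcT (T11T 8) (cc 8)) := by
  decide +kernel

/-- HK11. -/
theorem hHk11 (hf : THkF) (ht : TTre) (hm : S3Trm) : THk 11 T11T := by
  intro r s G hG i
  have h0 : Nat.Prime 11 := by norm_num
  fin_cases i
  · exact row3 hf ht hm 11 h0 (by norm_num) (by norm_num) 5 (T11T 0) _ _ _ _ (by decide) (by decide) _ _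
      c0 r s G hG
  · exact row3 hf ht hm 11 h0 (by norm_num) (by norm_num) 5 (T11T 1) _ _ _ _ (by decide) (by decide) _ _
      c1 r s G hG
  · exact row3 hf ht hm 11 h0 (by norm_num) (by norm_num) 5 (T11T 2) _ _ _ _ (by decide) (by decide) _ _
      c2 r s G hG
  · exact row3 hf ht hm 11 h0 (by norm_num) (by norm_num) 5 (T11T 3) _ _ _ _ (by decide) (by decide) _ _
      c3 r s G hG
  · exact row3 hf ht hm 11 h0 (by norm_num) (by norm_num) 5 (T11T 4) _ _ _ _ (by decide) (by decide) _ _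
      c4 r s G hG
  · exact row3 hf ht hm 11 h0 (by norm_num) (by norm_num) 5 (T11T 5) _ _ _ _ (by decide) (by decide) _ _
      c5 r s G hG
  · exact row3 hf ht hm 11 h0 (by norm_num) (by norm_num) 5 (T11T 6) _ _ _ _ (by decide) (by decide) _ _
      c6 r s G hG
  · exact row3 hf ht hm 11 h0 (by norm_num) (by norm_num) 5 (T11T 7) _ _ _ _ (by decide) (by decide) _ _
      c7 r s G hG
  · exact row3 hf ht hm 11 h0 (by norm_num) (by norm_num) 5 (T11T 8) _ _ _ _ (by decide) (by decide) _ _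
      c8 r s G hG

end Pool.Agent.Helper93.T53
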