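import Pool.Agent.Helper93.T53.HkG

/-!
# Levels `5·3^n`: the rows of the Hecke operator `T_13`
-/

set_option autoImplicit false
set_option maxRecDepth 100000

namespace Pool.Agent.Helper93.T53

open Pool.Agent.Helper78.W3 (S3Trm)

private def cc : Fin 9 → Fin 9 → List C3
  | 0, 0 => [(0, 0, 1), (9, 0, 2), (8, 0, 2), (7, 0, 2), (6, 0, 2), (5, 0, 2), (4, 0, 2), (3, 0, 1), (2, 0, 2), (1, 0, 2), (13, 0, 2), (12, 0, 2), (11, 0, 2), (10, 0, 2), (6, 3, 4), (6, 3, 5), (11, 3, 4), (11, 3, 5)]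
  | 0, 1 => [(9, 3, 2), (8, 3, 2), (7, 3, 2), (6, 6, 2), (5, 3, 2), (1, 3, 1), (6, 7, 4), (9, 4, 5), (2, 3, 1), (11, 6, 4), (11, 7, 1), (7, 4, 5)]
  | 0, 2 => [(9, 6, 3), (8, 4, 3), (7, 6, 3), (6, 8, 6), (5, 4, 3), (1, 4, 3), (6, 9, 7), (8, 5, 6), (11, 8, 6), (13, 3, 4), (13, 5, 6), (8, 7, 8), (12, 3, 4), (6, 10, 11), (11, 9, 10), (5, 5, 6), (11, 11, 12), (10, 3, 4)]
  | 0, 3 => [(2, 3, 2), (12, 5, 1), (1, 5, 6), (6, 12, 1), (13, 6, 7), (10, 5, 1), (13, 4, 8), (8, 8, 1), (6, 11, 13), (12, 4, 6), (11, 10, 13), (5, 6, 7), (11, 12, 14), (10, 4, 6)]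
  | 0, 4 => [(10, 5, 7), (9, 4, 7), (8, 6, 9), (7, 4, 7), (1, 5, 7), (6, 12, 14), (11, 7, 15), (12, 5, 7)]
  | 0, 5 => [(9, 7, 6), (8, 9, 4), (7, 7, 6), (6, 15, 8), (1, 7, 4), (6, 14, 9), (11, 15, 8), (11, 16, 17)]
  | 0, 6 => [(7, 1, 5), (4, 2, 3), (11, 18, 1), (13, 1, 9), (9, 1, 5), (11, 1, 18)]
  | 0, 7 => [(13, 5, 3), (12, 3, 7), (11, 11, 16), (10, 3, 7), (5, 5, 4), (6, 10, 15), (8, 7, 5), (11, 9, 17)]
  | 0, 8 => [(1, 6, 2), (13, 9, 7), (13, 2, 8), (12, 2, 6), (11, 2, 14), (10, 2, 6), (5, 1, 7), (6, 5, 13), (4, 1, 3), (11, 5, 13)]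
  | 1, 0 => [(0, 2, 1), (0, 2, 3), (4, 2, 3), (10, 2, 3), (4, 2, 4), (10, 2, 4), (4, 5, 6), (4, 5, 7), (13, 2, 3), (13, 2, 4), (11, 2, 3), (11, 2, 4), (6, 2, 3), (6, 2, 4)]
  | 1, 1 => [(4, 8, 3), (10, 5, 3), (4, 9, 6), (13, 5, 3), (11, 5, 6), (4, 10, 11), (1, 2, 1), (3, 0, 1), (2, 0, 1), (11, 7, 3), (9, 2, 3), (11, 8, 1), (6, 5, 3), (7, 2, 3)]
  | 1, 2 => [(4, 12, 8), (10, 6, 5), (6, 6, 7), (4, 13, 9), (13, 6, 5), (11, 9, 5), (4, 14, 15), (1, 3, 2), (10, 7, 0), (11, 10, 7), (9, 4, 2), (6, 8, 5), (5, 2, 0), (8, 2, 3), (0, 4, 0), (10, 8, 9), (12, 2, 0), (11, 11, 12), (5, 3, 4), (0, 5, 6), (6, 9, 10), (4, 16, 17)]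
  | 1, 3 => [(4, 15, 18), (12, 3, 1), (1, 4, 5), (6, 7, 1), (11, 0, 6), (7, 2, 4), (10, 10, 1), (1, 0, 6), (8, 3, 1), (10, 9, 11), (7, 0, 5), (11, 12, 13), (5, 4, 5), (0, 6, 7), (6, 10, 11), (4, 17, 19)]
  | 1, 4 => [(4, 10, 20), (10, 10, 12), (13, 0, 7), (1, 4, 7), (11, 8, 14), (9, 0, 5), (6, 0, 12), (12, 3, 4), (8, 0, 4), (4, 0, 21)]
  | 1, 5 => [(4, 20, 12), (10, 12, 6), (6, 13, 6), (4, 22, 13), (13, 7, 6), (1, 7, 3), (11, 14, 10), (9, 5, 4), (11, 9, 15), (6, 12, 8), (12, 4, 5), (8, 4, 5), (10, 7, 13)]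
  | 1, 6 => [(6, 14, 15), (7, 1, 3), (6, 15, 14), (1, 6, 5), (4, 11, 23), (11, 16, 1), (13, 1, 4), (9, 1, 3), (11, 1, 16)]
  | 1, 7 => [(0, 5, 4), (4, 14, 22), (10, 8, 13), (4, 16, 21), (5, 3, 2), (8, 2, 5), (12, 2, 5), (11, 11, 15), (6, 9, 13)]
  | 1, 8 => [(0, 3, 7), (4, 4, 18), (10, 4, 11), (4, 7, 19), (5, 1, 5), (4, 1, 23), (11, 4, 13), (6, 4, 11), (7, 4, 5)]
  | 2, 0 => [(6, 2, 3), (6, 2, 4), (4, 2, 3), (4, 2, 4), (13, 2, 3), (13, 2, 4), (11, 2, 3), (11, 2, 4), (12, 2, 3), (12, 2, 4), (6, 5, 6), (6, 5, 7)]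
  | 2, 1 => [(0, 2, 3), (6, 8, 3), (13, 5, 3), (13, 6, 4), (11, 5, 6), (3, 1, 2), (11, 7, 3), (12, 5, 3), (9, 2, 3), (6, 9, 6)]
  | 2, 2 => [(0, 0, 2), (6, 10, 8), (13, 7, 5), (13, 8, 6), (11, 8, 7), (12, 6, 5), (10, 2, 1), (12, 0, 7), (9, 4, 2), (6, 11, 9), (2, 0, 1), (7, 2, 3), (5, 0, 1), (3, 0, 3), (0, 4, 1), (9, 5, 6), (11, 9, 10), (0, 5, 6), (6, 12, 13), (4, 5, 6), (4, 7, 8), (6, 14, 15)]
  | 2, 3 => [(9, 6, 3), (3, 3, 2), (1, 2, 3), (11, 1, 6), (7, 3, 4), (1, 1, 3), (7, 1, 5), (12, 1, 8), (11, 10, 11), (0, 6, 7), (4, 6, 9), (6, 13, 16), (4, 8, 10), (6, 15, 17)]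
  | 2, 4 => [(13, 1, 9), (11, 5, 12), (12, 7, 9), (9, 1, 7), (6, 1, 18), (8, 1, 2), (1, 2, 0), (4, 1, 11)]
  | 2, 5 => [(12, 10, 11), (6, 19, 10), (13, 9, 7), (13, 0, 8), (11, 12, 8), (12, 9, 6), (9, 7, 4), (6, 18, 11), (12, 11, 10), (7, 0, 2), (8, 2, 3), (8, 0, 3), (10, 2, 3), (11, 0, 13)]
  | 2, 6 => []
  | 2, 7 => [(0, 5, 4), (10, 0, 3), (6, 14, 0), (4, 5, 0), (4, 7, 11), (11, 9, 13), (9, 5, 0), (6, 12, 19)]
  | 2, 8 => [(0, 3, 7), (6, 4, 17), (4, 3, 9), (4, 4, 10), (11, 4, 11), (12, 4, 8), (6, 7, 16), (7, 4, 5)]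
  | 3, 0 => [(0, 2, 3), (0, 2, 4), (8, 2, 1), (8, 2, 3), (10, 2, 3), (10, 2, 1), (1, 2, 3), (1, 2, 4), (9, 2, 3), (9, 2, 4), (5, 2, 3), (5, 2, 4)]
  | 3, 1 => [(0, 5, 3), (10, 0, 3), (1, 5, 3), (1, 6, 4), (9, 5, 3), (3, 2, 3), (13, 2, 1), (2, 2, 3), (9, 6, 7), (5, 5, 3), (1, 7, 1), (6, 0, 2), (8, 4, 5), (0, 6, 7)]
  | 3, 2 => [(0, 8, 5), (5, 6, 7), (1, 8, 5), (1, 9, 6), (9, 8, 5), (11, 2, 3), (3, 4, 2), (13, 3, 2), (2, 4, 2), (5, 8, 5), (3, 5, 0), (8, 6, 4), (7, 2, 3), (13, 3, 0), (5, 9, 10), (7, 4, 0), (8, 7, 8), (9, 9, 10)]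
  | 3, 3 => [(8, 9, 10), (9, 11, 1), (4, 0, 2), (2, 5, 1), (12, 0, 1), (7, 3, 5), (9, 0, 1), (11, 3, 1), (0, 0, 4), (5, 7, 11), (5, 10, 12), (2, 0, 6), (8, 8, 11), (9, 10, 12)]
  | 3, 4 => [(0, 6, 9), (1, 7, 10), (1, 0, 11), (9, 6, 13), (8, 9, 12), (2, 5, 7), (5, 0, 13), (9, 11, 14), (8, 0, 13), (11, 0, 2)]
  | 3, 5 => [(0, 9, 8), (1, 10, 8), (1, 11, 9), (9, 13, 8), (3, 5, 4), (2, 7, 4), (5, 13, 8), (8, 13, 6)]
  | 3, 6 => [(0, 1, 7), (8, 10, 5), (1, 12, 1), (9, 1, 7), (4, 2, 3), (6, 2, 3), (3, 1, 3), (6, 1, 3), (7, 1, 5), (1, 1, 12)]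
  | 3, 7 => [(8, 7, 12), (9, 9, 14), (5, 9, 6), (7, 4, 2)]
  | 3, 8 => [(4, 3, 1), (8, 3, 11), (9, 4, 12), (5, 1, 11), (2, 3, 6), (5, 4, 12)]
  | 4, 0 => [(0, 2, 3), (5, 2, 3), (0, 2, 4), (5, 2, 4), (12, 2, 3), (10, 2, 3), (12, 2, 4), (10, 2, 4), (13, 2, 3), (13, 2, 4), (6, 2, 3), (6, 2, 4), (4, 2, 3), (4, 2, 4)]
  | 4, 1 => [(5, 5, 3), (0, 5, 4), (9, 2, 3), (12, 5, 3), (6, 0, 5), (6, 6, 7), (13, 5, 3), (6, 8, 3), (4, 5, 3), (3, 2, 3)]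
  | 4, 2 => [(5, 6, 5), (0, 6, 5), (9, 4, 2), (12, 6, 7), (12, 8, 5), (11, 2, 0), (4, 6, 0), (13, 6, 0), (2, 2, 0), (4, 7, 8), (13, 7, 5), (11, 3, 4), (2, 3, 4), (13, 8, 9), (6, 9, 8), (4, 9, 5), (12, 9, 10), (3, 1, 2), (13, 10, 11), (5, 7, 8), (9, 1, 5), (1, 2, 3), (12, 1, 11), (6, 10, 11), (0, 7, 8), (6, 1, 12), (10, 5, 6), (4, 10, 11)]
  | 4, 3 => [(1, 0, 4), (10, 0, 3), (3, 0, 4), (9, 5, 6), (6, 13, 5), (12, 10, 12), (13, 11, 12), (5, 8, 9), (1, 3, 5), (6, 12, 14), (6, 11, 15), (0, 8, 9), (10, 6, 7), (4, 11, 12)]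
  | 4, 4 => [(5, 0, 10), (0, 0, 10), (9, 0, 7), (8, 0, 1), (12, 0, 13), (12, 11, 14), (12, 7, 15), (2, 4, 5), (13, 9, 13), (7, 0, 1), (6, 13, 16), (6, 6, 17), (11, 4, 5), (4, 8, 13)]
  | 4, 5 => [(5, 10, 6), (0, 10, 6), (9, 7, 4), (8, 1, 2), (12, 14, 6), (12, 15, 8), (2, 5, 2), (13, 13, 7), (6, 17, 9), (11, 5, 1), (8, 2, 1), (4, 7, 6), (4, 13, 9), (0, 11, 1), (5, 11, 1), (13, 8, 1)]
  | 4, 6 => [(6, 7, 5), (13, 14, 15), (9, 3, 6), (3, 5, 3), (6, 5, 7), (13, 15, 14)]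
  | 4, 7 => [(0, 7, 11), (5, 7, 11), (11, 2, 3), (12, 9, 13), (10, 5, 1), (13, 10, 6), (6, 10, 16), (2, 1, 3), (1, 2, 1), (4, 10, 1)]
  | 4, 8 => [(0, 3, 9), (5, 4, 9), (3, 4, 5), (12, 4, 12), (10, 4, 7), (6, 7, 14), (13, 4, 12), (6, 4, 15), (1, 4, 5), (4, 4, 12)]
  | 5, 0 => [(0, 2, 3), (0, 2, 4), (10, 2, 3), (10, 2, 4), (6, 2, 3), (6, 2, 4), (11, 2, 3), (11, 2, 4), (12, 2, 3), (12, 2, 4), (4, 2, 3), (4, 2, 4)]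
  | 5, 1 => [(0, 5, 3), (4, 5, 6), (11, 5, 3), (12, 5, 3), (4, 7, 3), (3, 2, 3)]
  | 5, 2 => [(0, 1, 5), (2, 2, 3), (13, 2, 3), (11, 0, 5), (12, 6, 5), (12, 1, 7), (4, 8, 7), (3, 0, 2), (2, 1, 3), (7, 2, 3), (3, 1, 4), (9, 0, 2), (10, 1, 5), (9, 3, 2), (1, 2, 3), (12, 0, 8), (12, 9, 10), (0, 6, 7), (6, 0, 5), (11, 6, 7), (10, 6, 7), (4, 9, 10), (4, 11, 12), (6, 6, 7)]
  | 5, 3 => [(3, 4, 5), (1, 4, 5), (1, 3, 6), (10, 5, 8), (6, 5, 8), (12, 10, 11), (0, 7, 8), (11, 7, 8), (10, 7, 9), (4, 12, 13), (4, 10, 14), (6, 7, 9)]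
  | 5, 4 => [(12, 8, 12), (13, 3, 1), (7, 3, 0), (12, 7, 13), (4, 5, 15), (1, 4, 1)]
  | 5, 5 => [(4, 16, 17), (5, 1, 2), (5, 2, 1), (12, 13, 6), (4, 17, 16), (4, 15, 8), (7, 1, 2), (0, 9, 0), (5, 1, 0), (8, 1, 0), (13, 2, 0), (11, 1, 9)]
  | 5, 6 => [(13, 4, 5), (3, 5, 3), (1, 5, 7), (13, 5, 4)]
  | 5, 7 => [(0, 6, 9), (10, 6, 0), (6, 6, 1), (4, 11, 1), (11, 6, 9), (9, 3, 1), (2, 0, 2), (1, 2, 0), (12, 9, 12), (4, 9, 0)]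
  | 5, 8 => [(0, 4, 8), (10, 3, 8), (10, 4, 9), (6, 3, 8), (6, 4, 9), (4, 6, 13), (11, 4, 8), (1, 7, 6), (12, 4, 11), (4, 4, 14)]
  | 6, 0 => [(4, 2, 1), (4, 2, 3), (8, 2, 0), (8, 2, 3), (10, 2, 3), (10, 2, 0)]
  | 6, 1 => [(0, 2, 3), (10, 4, 5), (10, 6, 3), (3, 2, 3), (13, 2, 0), (3, 4, 5), (10, 7, 1), (1, 2, 0), (7, 2, 1), (0, 4, 5)]
  | 6, 2 => [(0, 6, 2), (10, 8, 6), (11, 2, 3), (3, 6, 2), (13, 3, 2), (2, 2, 3), (10, 9, 7), (13, 4, 5)]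
  | 6, 3 => [(10, 10, 11), (12, 2, 3), (1, 2, 3), (2, 4, 0), (11, 4, 1), (12, 2, 0), (7, 2, 3), (11, 3, 0), (5, 2, 1), (5, 2, 3), (13, 5, 6), (2, 3, 1)]
  | 6, 4 => [(0, 4, 7), (10, 4, 12), (11, 4, 5), (3, 4, 7), (2, 4, 5), (10, 10, 13)]
  | 6, 5 => [(0, 7, 6), (10, 12, 8), (3, 7, 6), (11, 2, 5), (2, 5, 2), (10, 13, 9), (13, 3, 7)]
  | 6, 6 => [(0, 0, 5), (10, 11, 5), (1, 4, 0), (1, 3, 1), (3, 1, 5), (3, 0, 3), (9, 0, 1), (6, 0, 1), (0, 3, 1), (7, 0, 3), (1, 0, 4)]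
  | 6, 7 => [(13, 4, 7)]
  | 6, 8 => [(4, 3, 0), (5, 0, 3), (13, 1, 6), (12, 1, 3), (8, 1, 3)]
  | 7, 0 => [(0, 2, 3), (0, 2, 4), (13, 2, 3), (13, 2, 4), (8, 2, 3), (8, 2, 4), (4, 2, 3), (4, 2, 4)]
  | 7, 1 => [(0, 5, 4), (13, 5, 3), (2, 2, 3), (8, 5, 4), (12, 2, 3), (3, 2, 3), (7, 2, 3), (4, 5, 3)]
  | 7, 2 => [(0, 6, 5), (13, 6, 5), (2, 1, 2), (8, 6, 5), (12, 4, 2), (3, 4, 2), (8, 1, 7), (7, 0, 2), (9, 2, 3), (4, 1, 6), (4, 7, 5), (6, 1, 2), (6, 3, 4), (5, 2, 3), (1, 2, 3), (0, 0, 7), (9, 4, 5), (1, 4, 5), (13, 0, 7), (0, 8, 9), (5, 0, 4), (8, 8, 9), (13, 8, 9), (4, 8, 9)]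
  | 7, 3 => [(9, 3, 6), (6, 4, 5), (12, 5, 3), (2, 4, 3), (7, 4, 3), (6, 2, 6), (5, 3, 5), (3, 5, 3), (1, 5, 6), (9, 5, 7), (1, 3, 7), (5, 4, 6), (0, 9, 10), (8, 9, 10), (13, 9, 10), (4, 9, 10)]
  | 7, 4 => [(0, 7, 11), (7, 4, 5), (13, 7, 11), (8, 7, 11), (12, 5, 1), (3, 5, 0), (4, 6, 11), (2, 4, 5)]
  | 7, 5 => [(0, 11, 6), (13, 11, 6), (8, 11, 6), (12, 0, 4), (3, 1, 4), (4, 11, 7), (5, 1, 7), (2, 5, 0), (1, 1, 2), (7, 1, 5), (9, 2, 0), (6, 7, 0)]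
  | 7, 6 => []
  | 7, 7 => [(0, 8, 1), (1, 8, 2), (12, 6, 7), (9, 4, 1), (13, 8, 1), (6, 3, 7), (8, 8, 0), (1, 2, 8), (5, 2, 7), (10, 0, 1), (12, 7, 6), (11, 0, 1), (4, 8, 0), (1, 4, 0)]
  | 7, 8 => [(0, 3, 10), (9, 6, 7), (13, 4, 10), (8, 3, 10), (1, 6, 7), (6, 5, 6), (5, 6, 5), (4, 4, 10)]
  | 8, 0 => [(0, 2, 3), (0, 2, 0), (1, 2, 3), (1, 2, 4), (5, 2, 3), (5, 2, 1), (10, 2, 3), (10, 2, 4)]
  | 8, 1 => [(0, 4, 3), (1, 5, 3), (5, 4, 3), (13, 2, 0), (10, 5, 3), (1, 6, 0), (11, 2, 3), (10, 6, 0), (9, 2, 1), (6, 2, 3), (10, 7, 1), (1, 7, 1)]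
  | 8, 2 => [(0, 5, 4), (4, 2, 3), (1, 8, 5), (5, 5, 4), (13, 3, 2), (10, 8, 5), (1, 9, 6), (7, 2, 3), (11, 4, 2), (9, 3, 2), (6, 4, 2), (7, 4, 5), (1, 10, 11), (8, 2, 3), (12, 2, 3), (10, 9, 7), (10, 10, 11), (12, 4, 5), (4, 4, 5), (8, 4, 5)]
  | 8, 3 => [(11, 5, 0), (7, 3, 6), (4, 3, 6), (6, 5, 1), (5, 6, 0), (9, 4, 0), (8, 3, 6), (7, 5, 0), (12, 5, 6), (1, 11, 12), (0, 6, 1), (10, 11, 12), (12, 3, 7), (13, 4, 1), (4, 5, 7), (8, 5, 1)]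
  | 8, 4 => [(0, 6, 7), (1, 7, 13), (5, 6, 7), (13, 4, 5), (10, 6, 13), (9, 4, 5), (6, 5, 4), (11, 5, 4)]
  | 8, 5 => [(0, 7, 5), (1, 13, 8), (5, 7, 5), (13, 5, 3), (10, 13, 8), (9, 5, 3)]
  | 8, 6 => [(6, 0, 3), (10, 14, 0), (12, 0, 6), (7, 7, 1), (8, 0, 7), (11, 1, 3), (10, 0, 14), (4, 6, 1)]
  | 8, 7 => [(1, 10, 9), (4, 4, 2), (10, 10, 9), (7, 4, 2), (8, 4, 2), (12, 2, 4)]
  | 8, 8 => [(8, 7, 6), (1, 4, 12), (7, 7, 6), (4, 0, 7), (10, 4, 12), (3, 0, 1), (12, 1, 7), (2, 1, 0)]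

private def kk : Fin 9 → List (ℕ × ℕ × List (ℤ × ℤ))
  | 0 => [(0, 1, [(1, 0), (-13, 1)]),
    (0, 1, [(1, 0), (-19, 13), (-1, 1), (-51, 35), (-16, 11), (-3, 2), (-7, 5), (-29, 20)]),
    (0, 1, [(1, 0), (-16, 13), (-1, 1), (-6, 5)]),
    (0, 1, [(1, 0), (-1, 1)]),
    (0, 1, [(1, 0), (-10, 13), (-1, 1), (-4, 5)]),
    (0, 1, [(1, 0), (-7, 13), (-1, 1), (-3, 5), (-1, 2), (-11, 20), (-6, 11), (-19, 35)]),
    (0, 1, [(1, 0), (-4, 13), (-1, 1), (-1, 3), (-8, 25), (-7, 20), (-3, 5), (-6, 19), (-1, 2), (-11, 35), (-4, 11), (-9, 25), (-3, 10), (-5, 14), (-5, 16), (-2, 5)]),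
    (0, 1, [(1, 0), (-1, 13), (-1, 1), (-3, 5), (0, 1), (-2, 25), (-1, 2), (-2, 5)]),
    (0, 1, [(1, 0), (2, 13), (-1, 1), (-3, 5), (-1, 2), (1, 5), (0, 1), (1, 7), (3, 20), (-2, 5)]),
    (0, 1, [(1, 0), (5, 13), (-1, 1), (-3, 5), (0, 1), (2, 5), (-1, 2), (-2, 5)]),
    (0, 1, [(1, 0), (8, 13), (2, 1), (7, 5), (3, 2), (3, 5), (8, 5), (1, 1)]),
    (0, 1, [(1, 0), (11, 13), (2, 1), (5, 6), (46, 55), (29, 35), (36, 43), (21, 25), (67, 80), (14, 17), (33, 40), (7, 5), (3, 2), (19, 23), (8, 5), (31, 37), (1, 1), (4, 5), (17, 20)]),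
    (0, 1, [(1, 0), (14, 13), (2, 1), (7, 5), (3, 2), (27, 25), (8, 5), (1, 1)]),
    (0, 1, [(1, 0), (17, 13), (2, 1), (7, 5), (3, 2), (1, 1), (6, 5), (5, 4), (8, 5), (13, 10)])]
  | 1 => [(0, 1, [(-39, 5), (-13, 1), (1, 0), (-7, 1), (-8, 1), (-38, 5), (-15, 2), (-37, 5)]),
    (0, 1, [(-93, 65), (-19, 13), (-51, 35), (-16, 11), (-3, 2), (-7, 5), (-10, 7), (-29, 20)]),
    (0, 1, [(-6, 5), (-16, 13)]),
    (0, 1, [(-63, 65), (-1, 1)]),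
    (0, 1, [(-48, 65), (-10, 13), (-2, 3), (-13, 20), (-17, 25), (-11, 15), (-8, 11), (-25, 34), (-9, 14), (-18, 25), (-3, 5), (-1, 1), (-16, 25), (-5, 7), (-11, 16), (-24, 35), (-92, 125), (-39, 53), (-13, 19), (-103, 140), (-7, 11), (-14, 19), (-7, 10), (-4, 5)]),
    (0, 1, [(-33, 65), (-7, 13), (-1, 2), (-11, 20), (-6, 11), (-19, 35)]),
    (0, 1, [(-18, 65), (-4, 13), (-5, 18), (-43, 155), (-32, 115), (-33, 119), (-2, 7), (-3, 10), (-61, 220), (-17, 61), (-39, 140), (-22, 79), (-28, 101), (-7, 25), (-1, 4), (-1, 5)]),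
    (0, 1, [(-3, 65), (-1, 13), (0, 1), (-2, 25), (-1, 20), (-1, 22)]),
    (0, 1, [(12, 65), (2, 13), (1, 7), (3, 20), (2, 11), (1, 5)]),
    (0, 1, [(27, 65), (5, 13), (12, 29), (2, 5), (29, 70), (17, 41)]),
    (0, 1, [(42, 65), (8, 13), (2, 3), (7, 10), (23, 35), (3, 4), (4, 5), (11, 17), (17, 26), (36, 55), (3, 5), (19, 29), (1, 1), (13, 20)]),
    (0, 1, [(57, 65), (11, 13), (5, 6), (46, 55), (29, 35), (9, 10), (7, 8), (36, 43), (21, 25), (1, 1), (67, 80), (14, 17), (33, 40), (19, 23), (31, 37), (4, 5), (17, 20)]),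
    (0, 1, [(72, 65), (14, 13), (31, 28), (27, 25), (1, 1), (11, 10)]),
    (0, 1, [(87, 65), (17, 13), (4, 3), (107, 80), (13, 10), (99, 74), (194, 145), (95, 71)])]
  | 2 => [(0, 1, [(-13, 2), (-39, 5), (-33, 5), (-7, 1), (-8, 1), (-38, 5), (-15, 2), (-37, 5)]),
    (0, 1, [(-37, 26), (-93, 65), (-57, 40), (-10, 7)]),
    (0, 1, [(-31, 26), (-6, 5)]),
    (0, 1, [(-25, 26), (-63, 65), (-1, 1), (-24, 25)]),
    (0, 1, [(-19, 26), (-48, 65), (-11, 15), (-8, 11), (-25, 34), (-73, 100), (-27, 37), (-92, 125), (-39, 53), (-62, 85), (-103, 140), (-14, 19)]),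
    (0, 1, [(-1, 2), (-33, 65)]),
    (0, 1, [(-7, 26), (-18, 65), (-4, 15), (-1, 4), (-11, 41), (-5, 18), (-43, 155), (-32, 115), (-3, 10), (-33, 119), (-2, 7), (-61, 220), (-17, 61), (-39, 140), (-43, 160), (-18, 67), (-22, 79), (-47, 175), (-28, 101), (-7, 25)]),
    (0, 1, [(-1, 26), (-3, 65), (-1, 25), (0, 1), (-1, 20), (-1, 22)]),
    (0, 1, [(5, 26), (12, 65), (2, 11), (1, 5)]),
    (0, 1, [(11, 26), (27, 65), (12, 29), (2, 5), (29, 70), (17, 40), (3, 7), (17, 41)]),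
    (0, 1, [(17, 26), (42, 65), (11, 17), (13, 20)]),
    (0, 1, [(23, 26), (57, 65), (8, 9), (49, 55), (71, 80), (9, 10), (7, 8), (33, 37), (58, 65), (47, 53), (102, 115), (55, 62), (25, 28), (31, 35)]),
    (0, 1, [(29, 26), (72, 65), (10, 9), (89, 80), (61, 55), (69, 62), (128, 115), (39, 35), (41, 37), (59, 53), (11, 10), (1, 1)]),
    (0, 1, [(35, 26), (87, 65), (4, 3), (107, 80), (47, 35), (99, 74), (39, 29), (194, 145), (74, 55), (95, 71)])]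
  | 3 => [(0, 1, [(39, 5), (13, 2), (1, 0), (5, 1), (8, 1), (27, 5), (6, 1), (32, 5), (11, 2), (28, 5)]),
    (0, 1, [(-87, 65), (-35, 26), (-4, 3), (-7, 5), (-67, 50), (-15, 11), (-75, 56), (-27, 20), (-34, 25), (-154, 115), (-19, 14), (-79, 59), (-74, 55)]),
    (0, 1, [(-72, 65), (-29, 26), (-9, 8), (-11, 10), (-28, 25), (-39, 35), (-31, 28), (-19, 17)]),
    (0, 1, [(-57, 65), (-23, 26), (-15, 17), (-31, 35), (-22, 25), (-7, 8)]),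
    (0, 1, [(-42, 65), (-17, 26), (-11, 17), (-13, 20)]),
    (0, 1, [(-27, 65), (-11, 26), (-5, 12), (-52, 125), (-23, 55), (-42, 101), (-2, 5), (-3, 7), (-79, 190), (-8, 19), (-21, 50), (-17, 40), (-13, 31), (-37, 89)]),
    (0, 1, [(-12, 65), (-5, 26), (-2, 11), (-1, 5)]),
    (0, 1, [(3, 65), (1, 26), (1, 20), (0, 1), (1, 22), (1, 25)]),
    (0, 1, [(18, 65), (7, 26), (4, 15), (5, 19), (3, 11), (7, 25), (11, 40), (13, 50), (6, 23), (3, 10), (2, 7), (17, 65), (1, 4), (8, 29)]),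
    (0, 1, [(33, 65), (1, 2), (1, 0), (-1, 1), (2, 1), (-3, 5), (0, 1), (2, 5), (-1, 2), (7, 5), (3, 2), (3, 5), (8, 5), (-2, 5), (1, 1)]),
    (0, 1, [(48, 65), (19, 26), (11, 15), (14, 19)]),
    (0, 1, [(63, 65), (25, 26), (1, 1), (24, 25)]),
    (0, 1, [(6, 5), (31, 26)]),
    (0, 1, [(93, 65), (37, 26), (57, 40), (10, 7)])]
  | 4 => [(0, 1, [(0, 1), (-26, 5), (1, 0), (-4, 1), (-1, 1), (-3, 5), (-1, 2), (-23, 5), (-9, 2), (-22, 5), (-2, 5), (-5, 1)]),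
    (0, 1, [(-18, 13), (-92, 65), (-58, 41), (-99, 70), (-7, 5), (-41, 29)]),
    (0, 1, [(-15, 13), (-77, 65), (-23, 20), (-13, 11), (-6, 5), (-8, 7)]),
    (0, 1, [(-12, 13), (-62, 65), (-21, 22), (-19, 20), (-23, 25), (-1, 1)]),
    (0, 1, [(-9, 13), (-47, 65), (-13, 18), (-83, 115), (-112, 155), (-57, 79), (-7, 10), (-5, 7), (-18, 25), (-101, 140), (-73, 101), (-159, 220), (-86, 119), (-44, 61)]),
    (0, 1, [(-6, 13), (-32, 65), (-7, 15), (-13, 28), (-8, 17), (-51, 110), (-19, 41), (-19, 40), (-9, 19), (-26, 55), (-44, 95), (-1, 2)]),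
    (0, 1, [(-3, 13), (-17, 65), (-1, 3), (-8, 25), (-7, 20), (-1, 5), (-3, 10), (-1, 4), (-6, 19), (-11, 35), (-4, 11), (-9, 25), (-6, 23), (0, 1), (-13, 50), (-5, 14), (-2, 5), (-5, 16)]),
    (0, 1, [(0, 1), (-2, 65)]),
    (0, 1, [(3, 13), (1, 5), (1, 4)]),
    (0, 1, [(6, 13), (28, 65), (9, 20), (1, 2), (5, 11), (3, 7), (2, 5), (16, 35)]),
    (0, 1, [(9, 13), (43, 65), (2, 3), (7, 10), (53, 80), (47, 71), (96, 145), (49, 74)]),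
    (0, 1, [(12, 13), (58, 65), (23, 25), (1, 1), (9, 10), (25, 28)]),
    (0, 1, [(15, 13), (73, 65), (7, 6), (41, 35), (64, 55), (27, 23), (1, 1), (6, 5), (47, 40), (43, 37), (93, 80), (9, 8), (50, 43), (29, 25), (11, 10), (20, 17)]),
    (0, 1, [(18, 13), (88, 65), (4, 3), (47, 35), (13, 10), (39, 29), (7, 5), (74, 55), (23, 17), (27, 20), (1, 1), (6, 5), (5, 4), (35, 26), (34, 25), (19, 14)])]
  | 5 => [(0, 1, [(-26, 5), (-13, 2), (1, 0), (-7, 1), (-4, 1), (-33, 5), (-23, 5), (-9, 2), (-22, 5), (-5, 1)]),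
    (0, 1, [(-92, 65), (-37, 26), (-58, 41), (-99, 70), (-57, 40), (-10, 7), (-41, 29), (-7, 5)]),
    (0, 1, [(-77, 65), (-31, 26), (-13, 11), (-6, 5)]),
    (0, 1, [(-62, 65), (-25, 26), (-21, 22), (-19, 20), (-24, 25), (-1, 1)]),
    (0, 1, [(-47, 65), (-19, 26), (-13, 18), (-83, 115), (-112, 155), (-18, 25), (-8, 11), (-57, 79), (-101, 140), (-73, 101), (-159, 220), (-73, 100), (-27, 37), (-62, 85), (-86, 119), (-44, 61), (-7, 10), (-5, 7)]),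
    (0, 1, [(-32, 65), (-1, 2), (-2, 5)]),
    (0, 1, [(-17, 65), (-7, 26), (-4, 15), (-1, 4), (-11, 41), (-6, 23), (-43, 160), (-18, 67), (-13, 50), (-47, 175)]),
    (0, 1, [(-2, 65), (-1, 26), (-1, 25), (0, 1)]),
    (0, 1, [(1, 5), (5, 26)]),
    (0, 1, [(28, 65), (11, 26), (3, 7), (17, 40)]),
    (0, 1, [(43, 65), (17, 26), (2, 3), (23, 35), (53, 80), (36, 55), (47, 71), (96, 145), (19, 29), (49, 74)]),
    (0, 1, [(58, 65), (23, 26), (8, 9), (49, 55), (71, 80), (33, 37), (47, 53), (102, 115), (55, 62), (31, 35)]),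
    (0, 1, [(73, 65), (29, 26), (10, 9), (89, 80), (61, 55), (69, 62), (128, 115), (39, 35), (9, 8), (31, 28), (72, 65), (41, 37), (11, 10), (59, 53)]),
    (0, 1, [(88, 65), (35, 26), (23, 17), (27, 20), (34, 25), (19, 14)])]
  | 6 => [(0, 1, [(13, 2), (26, 5), (27, 5), (5, 1), (6, 1), (32, 5), (11, 2), (28, 5)]),
    (0, 1, [(-35, 26), (-88, 65), (-27, 20), (-23, 17), (-74, 55)]),
    (0, 1, [(-29, 26), (-73, 65), (-28, 25), (-9, 8), (-39, 35), (-19, 17)]),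
    (0, 1, [(-23, 26), (-58, 65), (-15, 17), (-31, 35), (-9, 10), (-25, 28), (-22, 25), (-7, 8)]),
    (0, 1, [(-17, 26), (-43, 65), (-2, 3), (-13, 20)]),
    (0, 1, [(-11, 26), (-28, 65), (-3, 7), (-17, 40)]),
    (0, 1, [(-5, 26), (-1, 5)]),
    (0, 1, [(1, 26), (2, 65), (0, 1), (1, 25)]),
    (0, 1, [(7, 26), (17, 65), (4, 15), (5, 19)]),
    (0, 1, [(1, 2), (32, 65)]),
    (0, 1, [(19, 26), (47, 65), (11, 15), (14, 19), (3, 4), (7, 10), (48, 65), (21, 29), (17, 23), (29, 40), (18, 25), (5, 7), (37, 50), (8, 11)]),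
    (0, 1, [(25, 26), (62, 65), (1, 1), (24, 25), (21, 22), (19, 20)]),
    (0, 1, [(31, 26), (77, 65), (6, 5), (13, 11)]),
    (0, 1, [(37, 26), (92, 65), (57, 40), (10, 7), (41, 29), (99, 70), (58, 41), (7, 5)])]
  | 7 => [(0, 1, [(91, 5), (13, 1), (1, 0), (14, 1), (17, 1), (87, 5), (35, 2), (18, 1), (67, 5), (27, 2), (68, 5), (88, 5)]),
    (0, 1, [(-83, 65), (-17, 13), (-13, 10), (-9, 7), (-37, 29), (-51, 40), (-14, 11), (-32, 25), (-5, 4)]),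
    (0, 1, [(-68, 65), (-14, 13), (-27, 25), (-1, 1), (-21, 20), (-23, 22)]),
    (0, 1, [(-53, 65), (-11, 13), (-6, 7), (-4, 5), (-17, 20), (-9, 11)]),
    (0, 1, [(-38, 65), (-8, 13), (-7, 12), (-32, 55), (-73, 125), (-18, 31), (-3, 5), (-29, 50), (-52, 89), (-111, 190), (-59, 101), (-11, 19)]),
    (0, 1, [(-23, 65), (-5, 13), (-4, 11), (-9, 25), (-6, 17), (-5, 14), (-7, 20), (-2, 5)]),
    (0, 1, [(-8, 65), (-2, 13), (-3, 20), (-1, 10), (0, 1), (-1, 5), (-1, 7), (-1, 8)]),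
    (0, 1, [(7, 65), (1, 13), (3, 28), (1, 10), (0, 1), (2, 25)]),
    (0, 1, [(22, 65), (4, 13), (1, 3), (17, 50), (2, 5), (0, 1), (1, 5), (3, 10), (20, 59), (39, 115), (19, 56), (1, 4)]),
    (0, 1, [(37, 65), (7, 13), (4, 7), (3, 5), (19, 35), (6, 11), (1, 2), (11, 20)]),
    (0, 1, [(4, 5), (10, 13)]),
    (0, 1, [(67, 65), (1, 1)]),
    (0, 1, [(82, 65), (16, 13), (63, 50), (5, 4), (29, 23), (6, 5), (7, 5), (1, 1)]),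
    (0, 1, [(97, 65), (19, 13), (22, 15), (25, 17), (41, 28), (81, 55), (28, 19), (3, 2), (139, 95), (60, 41), (161, 110), (59, 40)])]
  | 8 => [(0, 1, [(26, 1), (104, 5), (1, 0), (20, 1), (102, 5), (41, 2), (21, 1), (103, 5)]),
    (0, 1, [(-16, 13), (-82, 65), (-19, 15), (-43, 34), (-14, 11), (-177, 140), (-6, 5), (-24, 19), (-67, 53), (-5, 4), (-13, 10), (-9, 7), (-32, 25), (-158, 125)]),
    (0, 1, [(-1, 1), (-67, 65)]),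
    (0, 1, [(-10, 13), (-4, 5)]),
    (0, 1, [(-7, 13), (-37, 65), (-1, 2), (-3, 5), (-11, 20), (-6, 11), (-4, 7), (-19, 35)]),
    (0, 1, [(-4, 13), (-22, 65), (-1, 3), (-8, 25), (-6, 19), (-11, 35), (-3, 10), (-5, 16)]),
    (0, 1, [(-1, 13), (-7, 65), (0, 1), (-2, 25), (-1, 10), (-3, 28)]),
    (0, 1, [(2, 13), (8, 65), (1, 5), (0, 1), (1, 7), (3, 20), (1, 10), (1, 8)]),
    (0, 1, [(5, 13), (23, 65), (5, 14), (9, 25), (7, 20), (6, 17), (4, 11), (2, 5)]),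
    (0, 1, [(8, 13), (38, 65), (24, 41), (41, 70), (3, 5), (17, 29)]),
    (0, 1, [(11, 13), (53, 65), (5, 6), (46, 55), (29, 35), (36, 43), (21, 25), (9, 11), (67, 80), (4, 5), (14, 17), (33, 40), (19, 23), (31, 37), (17, 20)]),
    (0, 1, [(14, 13), (68, 65), (21, 20), (23, 22), (1, 1), (27, 25)]),
    (0, 1, [(17, 13), (83, 65), (14, 11), (51, 40), (32, 25), (9, 7), (13, 10), (37, 29)]),
    (0, 1, [(20, 13), (98, 65), (54, 35), (17, 11), (3, 2), (31, 20)])]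

private theorem c0 : ChkW 3 3 13 6 1 0 (-1) 1 (kk 0) (tcT (T13T 0) (cc 0)) := by
  decide +kernel

private theorem c1 : ChkW 3 3 13 6 (-3) 5 (-1) 1 (kk 1) (tcT (T13T 1) (cc 1)) := by
  decide +kernel

private theorem c2 : ChkW 3 3 13 6 (-1) 2 (-3) 5 (kk 2) (tcT (T13T 2) (cc 2)) := by
  decide +kernel

private theorem c3 : ChkW 3 3 13 6 3 5 1 2 (kk 3) (tcT (T13T 3) (cc 3)) := by
  decide +kernel

private theorem c4 : ChkW 3 3 13 6 0 1 (-2) 5 (kk 4) (tcT (T13T 4) (cc 4)) := by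
  decide +kernel

private theorem c5 : ChkW 3 3 13 6 (-2) 5 (-1) 2 (kk 5) (tcT (T13T 5) (cc 5)) := by
  decide +kernel

private theorem c6 : ChkW 3 3 13 6 1 2 2 5 (kk 6) (tcT (T13T 6) (cc 6)) := by
  decide +kernel

private theorem c7 : ChkW 3 3 13 6 7 5 1 1 (kk 7) (tcT (T13T 7) (cc 7)) := by
  decide +kernel

private theorem c8 : ChkW 3 3 13 6 2 1 8 5 (kk 8) (tcT (T13T 8) (cc 8)) := by
  decide +kernel

/-- HK13. -/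
theorem hHk13 (hf : THkF) (ht : TTre) (hm : S3Trm) : THk 13 T13T := by
  intro r s G hG i
  have h0 : Nat.Prime 13 := by norm_num
  fin_cases i
  · exact row3 hf ht hm 13 h0 (by norm_num) (by norm_num) 6 (T13T 0) _ _ _ _ (by decide) (by decide) _ _
      c0 r s G hG
  · exact row3 hf ht hm 13 h0 (by norm_num) (by norm_num) 6 (T13T 1) _ _ _ _ (by decide) (by decide) _ _
      c1 r s G hG
  · exact row3 hf ht hm 13 h0 (by norm_num) (by norm_num) 6 (T13T 2) _ _ _ _ (by decide) (by decide) _ _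
      c2 r s G hG
  · exact row3 hf ht hm 13 h0 (by norm_num) (by norm_num) 6 (T13T 3) _ _ _ _ (by decide) (by decide) _ _
      c3 r s G hG
  · exact row3 hf ht hm 13 h0 (by norm_num) (by norm_num) 6 (T13T 4) _ _ _ _ (by decide) (by decide) _ _
      c4 r s G hG
  · exact row3 hf ht hm 13 h0 (by norm_num) (by norm_num) 6 (T13T 5) _ _ _ _ (by decide) (by decide) _ _
      c5 r s G hG
  · exact row3 hf ht hm 13 h0 (by norm_num) (by norm_num) 6 (T13T 6) _ _ _ _ (by decide) (by decide) _ _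
      c6 r s G hG
  · exact row3 hf ht hm 13 h0 (by norm_num) (by norm_num) 6 (T13T 7) _ _ _ _ (by decide) (by decide) _ _
      c7 r s G hG
  · exact row3 hf ht hm 13 h0 (by norm_num) (by norm_num) 6 (T13T 8) _ _ _ _ (by decide) (by decide) _ _
      c8 r s G hG

end Pool.Agent.Helper93.T53
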