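import Pool.Agent.Helper93.T53.HkG

/-!
# Levels `5·3^n`: the rows of the Hecke operator `T_17`
-/

set_option autoImplicit false
set_option maxRecDepth 100000

namespace Pool.Agent.Helper93.T53

open Pool.Agent.Helper78.W3 (S3Trm)

private def cc : Fin 9 → Fin 9 → List C3
  | 0, 0 => [(0, 0, 2), (13, 2, 3), (13, 2, 4), (1, 2, 3), (1, 2, 4), (12, 0, 2), (11, 0, 2), (10, 0, 2), (9, 0, 2), (8, 0, 2), (7, 0, 2), (6, 0, 2), (5, 0, 2), (4, 0, 2), (3, 0, 2), (2, 0, 2), (1, 0, 5), (17, 0, 2), (16, 0, 2), (15, 0, 2), (14, 0, 2), (13, 0, 5), (17, 3, 4), (17, 3, 5)]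
  | 0, 1 => [(13, 6, 3), (4, 3, 2), (1, 6, 3), (12, 3, 2), (11, 3, 2), (10, 3, 2), (9, 3, 2), (8, 3, 2), (7, 3, 2), (6, 3, 2), (17, 6, 4), (3, 3, 4), (12, 4, 5)]
  | 0, 2 => [(2, 3, 4), (11, 4, 5), (13, 7, 6), (4, 1, 3), (1, 7, 6), (12, 6, 3), (11, 6, 3), (10, 4, 3), (9, 4, 3), (8, 4, 3), (7, 4, 3), (17, 7, 6), (17, 8, 9), (16, 3, 4), (3, 5, 3), (17, 1, 10), (17, 11, 12), (6, 1, 3), (11, 1, 7), (10, 1, 5), (5, 3, 4), (16, 5, 6), (13, 8, 9), (15, 3, 4), (14, 3, 4), (12, 7, 8), (13, 10, 11), (0, 3, 4), (1, 8, 9)]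
  | 0, 3 => [(5, 4, 5), (1, 10, 11), (2, 4, 2), (8, 5, 6), (8, 7, 8), (10, 5, 6), (17, 12, 13), (10, 7, 8), (17, 9, 14), (13, 9, 12), (16, 6, 7), (12, 8, 9), (15, 4, 5), (14, 4, 5), (13, 11, 13), (0, 4, 5), (1, 9, 12)]
  | 0, 4 => [(11, 7, 8), (1, 10, 13), (12, 4, 10), (11, 5, 9), (10, 7, 9), (9, 5, 6), (9, 5, 7), (8, 7, 9), (17, 10, 15), (16, 4, 1), (8, 5, 1)]
  | 0, 5 => [(11, 8, 4), (13, 14, 7), (1, 13, 7), (12, 10, 6), (11, 9, 6), (10, 9, 4), (9, 7, 4), (8, 9, 4), (7, 5, 4), (17, 15, 7), (3, 1, 5), (14, 6, 7), (2, 1, 5), (7, 1, 5), (13, 1, 15), (9, 1, 6)]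
  | 0, 6 => [(12, 11, 5), (3, 2, 4), (8, 6, 8), (5, 2, 5)]
  | 0, 7 => [(0, 3, 1), (13, 8, 15), (1, 8, 1), (12, 7, 1), (16, 5, 3), (15, 3, 1), (14, 3, 6), (13, 10, 14), (17, 11, 8), (2, 3, 5), (14, 1, 7), (5, 3, 1)]
  | 0, 8 => [(0, 2, 5), (13, 4, 12), (10, 6, 8), (1, 4, 12), (12, 11, 9), (17, 2, 14), (16, 2, 7), (15, 2, 5), (14, 2, 5), (13, 5, 13), (1, 11, 5), (17, 5, 13)]
  | 1, 0 => [(0, 2, 3), (0, 2, 4), (11, 2, 3), (11, 2, 4), (13, 2, 3), (5, 2, 3), (5, 2, 4), (13, 2, 4), (1, 2, 3), (1, 2, 4), (17, 2, 3), (17, 2, 4), (7, 2, 3), (7, 2, 4)]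
  | 1, 1 => [(11, 5, 3), (2, 0, 2), (13, 5, 3), (5, 5, 3), (4, 2, 3), (1, 5, 3), (5, 6, 7), (17, 5, 3), (4, 4, 5), (3, 2, 3), (8, 0, 2), (7, 5, 3), (9, 2, 3)]
  | 1, 2 => [(11, 6, 5), (13, 6, 5), (5, 8, 5), (4, 1, 2), (1, 6, 5), (17, 6, 5), (4, 6, 4), (11, 7, 0), (10, 2, 3), (3, 4, 2), (17, 1, 7), (5, 9, 10), (7, 6, 5), (17, 8, 9), (6, 1, 2), (5, 11, 12), (10, 4, 0), (11, 1, 8), (2, 3, 4), (17, 10, 0), (10, 1, 5), (5, 13, 12), (11, 9, 10), (6, 3, 0), (13, 7, 8), (1, 7, 0), (6, 4, 5), (7, 7, 8), (12, 2, 3), (0, 5, 6), (1, 8, 9)]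
  | 1, 3 => [(5, 12, 14), (9, 0, 4), (14, 2, 3), (8, 3, 4), (6, 2, 6), (5, 10, 15), (14, 0, 4), (10, 5, 6), (17, 9, 11), (10, 3, 7), (12, 0, 4), (11, 10, 11), (0, 0, 4), (2, 4, 5), (6, 5, 7), (3, 0, 5), (13, 8, 9), (7, 8, 9), (12, 3, 5), (0, 6, 7), (1, 9, 10)]
  | 1, 4 => [(14, 2, 5), (11, 8, 12), (5, 12, 16), (13, 0, 10), (5, 6, 17), (9, 2, 5), (17, 7, 12), (16, 0, 1), (4, 0, 7), (7, 0, 10), (5, 0, 18), (8, 3, 1), (15, 0, 1)]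
  | 1, 5 => [(11, 12, 6), (13, 10, 6), (5, 17, 8), (1, 11, 6), (17, 12, 6), (4, 7, 6), (3, 1, 4), (7, 10, 6), (17, 10, 13), (5, 18, 11), (2, 1, 3), (7, 1, 11), (11, 7, 13), (13, 1, 11), (9, 1, 5)]
  | 1, 6 => [(9, 4, 3), (8, 4, 5), (5, 7, 14), (8, 2, 5), (14, 4, 3)]
  | 1, 7 => [(0, 5, 1), (11, 9, 13), (2, 3, 6), (5, 9, 16), (13, 7, 11), (10, 2, 4), (1, 8, 1), (12, 2, 1), (6, 4, 3), (17, 8, 13), (2, 6, 3), (14, 1, 5), (1, 7, 11), (5, 13, 1), (7, 7, 11)]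
  | 1, 8 => [(0, 3, 7), (11, 4, 11), (2, 2, 5), (5, 4, 15), (13, 4, 9), (10, 6, 7), (1, 4, 10), (12, 4, 5), (6, 7, 6), (17, 4, 11), (4, 5, 3), (7, 4, 9), (3, 3, 5)]
  | 2, 0 => [(5, 2, 3), (5, 2, 0), (2, 2, 0), (2, 2, 3), (13, 2, 3), (13, 2, 4), (7, 2, 3), (7, 2, 4)]
  | 2, 1 => [(0, 2, 3), (5, 4, 3), (2, 1, 3), (13, 5, 3), (13, 6, 4), (1, 2, 3), (3, 2, 0), (4, 2, 3), (10, 2, 0), (13, 7, 0), (8, 1, 2), (7, 5, 3), (17, 2, 3), (9, 2, 3), (0, 4, 5)]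
  | 2, 2 => [(0, 6, 2), (5, 5, 4), (13, 8, 5), (13, 9, 6), (3, 3, 2), (4, 4, 5), (4, 6, 2), (11, 2, 1), (10, 3, 2), (15, 2, 3), (7, 6, 5), (17, 4, 2), (5, 6, 7), (10, 3, 1), (17, 5, 1), (11, 3, 4), (6, 2, 1), (4, 7, 8), (1, 4, 1), (6, 3, 4), (7, 7, 8)]
  | 2, 3 => [(4, 5, 9), (9, 1, 4), (1, 5, 6), (3, 4, 5), (7, 9, 0), (1, 2, 0), (14, 1, 2), (9, 2, 5), (16, 1, 0), (12, 1, 0), (15, 3, 0), (11, 4, 0), (0, 1, 3), (6, 4, 5), (3, 1, 6), (7, 8, 10), (4, 8, 10)]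
  | 2, 4 => [(0, 4, 7), (5, 7, 8), (13, 1, 10), (13, 7, 11), (1, 5, 7), (3, 4, 7), (4, 1, 11), (7, 9, 11), (7, 1, 12), (5, 1, 9), (15, 1, 2)]
  | 2, 5 => [(0, 7, 6), (5, 8, 5), (13, 10, 8), (13, 11, 9), (3, 7, 3), (4, 11, 6), (7, 11, 13), (7, 12, 6), (17, 5, 4), (5, 9, 6), (11, 2, 5)]
  | 2, 6 => [(0, 0, 5), (1, 3, 6), (13, 12, 0), (9, 4, 3), (17, 0, 3), (8, 2, 3), (6, 0, 5), (14, 2, 3), (8, 0, 3), (9, 0, 5), (13, 0, 12)]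
  | 2, 7 => [(10, 3, 4), (11, 3, 5), (10, 4, 3), (6, 3, 2), (4, 7, 4), (1, 4, 7), (7, 7, 13)]
  | 2, 8 => [(4, 0, 10), (4, 3, 9), (14, 0, 3), (7, 4, 10), (3, 5, 6)]
  | 3, 0 => [(0, 2, 3), (0, 2, 4), (16, 2, 3), (16, 2, 4), (5, 2, 3), (5, 2, 4), (15, 2, 3), (15, 2, 4), (14, 2, 3), (14, 2, 4), (13, 2, 3), (13, 2, 4)]
  | 3, 1 => [(0, 5, 3), (13, 5, 6), (5, 5, 3), (5, 6, 4), (15, 5, 3), (17, 2, 3), (3, 0, 2), (11, 2, 3), (14, 5, 3), (11, 4, 5), (13, 7, 3)]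
  | 3, 2 => [(0, 1, 5), (13, 8, 5), (5, 7, 5), (5, 8, 6), (9, 2, 0), (15, 6, 5), (15, 7, 8), (17, 4, 2), (11, 1, 2), (14, 6, 5), (11, 6, 4), (17, 1, 5), (4, 2, 0), (13, 9, 7), (9, 3, 4), (2, 1, 0), (6, 1, 0), (3, 1, 3), (7, 1, 2), (0, 6, 0), (12, 2, 3), (16, 5, 6), (15, 9, 0), (14, 7, 8), (0, 7, 8), (13, 10, 11), (13, 12, 13), (16, 7, 8), (15, 10, 11)]
  | 3, 3 => [(7, 0, 3), (8, 2, 3), (3, 3, 2), (1, 2, 3), (8, 0, 3), (16, 6, 9), (1, 0, 4), (7, 2, 4), (12, 0, 4), (14, 8, 4), (17, 0, 6), (12, 3, 5), (0, 8, 9), (13, 13, 14), (13, 11, 15), (16, 8, 10), (15, 11, 12)]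
  | 3, 4 => [(5, 0, 9), (9, 4, 5), (15, 8, 13), (17, 5, 7), (1, 2, 5), (14, 0, 9), (11, 0, 7), (8, 2, 1), (13, 0, 16), (10, 0, 2), (16, 0, 11)]
  | 3, 5 => [(13, 17, 8), (5, 1, 7), (5, 9, 8), (6, 2, 1), (15, 13, 6), (17, 7, 4), (4, 2, 3), (14, 9, 6), (11, 7, 6), (6, 1, 2), (13, 16, 9), (9, 1, 3), (10, 2, 3), (10, 1, 3), (12, 1, 2), (1, 1, 5), (9, 2, 5)]
  | 3, 6 => [(1, 4, 3), (7, 3, 5), (11, 3, 5)]
  | 3, 7 => [(0, 7, 6), (13, 12, 1), (16, 5, 11), (16, 7, 1), (14, 10, 11), (14, 7, 1), (15, 10, 1), (14, 11, 10), (4, 3, 1), (15, 9, 7), (13, 10, 17)]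
  | 3, 8 => [(0, 4, 9), (7, 5, 4), (8, 4, 3), (13, 6, 14), (16, 3, 9), (16, 4, 10), (8, 3, 4), (12, 4, 5), (14, 12, 4), (15, 4, 12), (17, 3, 6), (14, 4, 12), (13, 4, 15)]
  | 4, 0 => [(0, 2, 3), (6, 2, 3), (0, 2, 4), (6, 2, 4), (11, 2, 3), (11, 2, 1)]
  | 4, 1 => [(6, 5, 3), (0, 5, 4), (12, 2, 3), (3, 2, 3), (14, 2, 3), (8, 0, 1), (16, 0, 2), (5, 2, 3), (1, 2, 3), (3, 4, 1), (4, 2, 3), (2, 2, 1), (9, 0, 1)]
  | 4, 2 => [(6, 6, 5), (0, 6, 5), (12, 4, 2), (14, 4, 2), (15, 2, 0), (11, 4, 0), (17, 2, 0), (5, 4, 0), (4, 4, 0), (5, 5, 2), (11, 5, 6), (1, 4, 2), (7, 2, 3), (3, 5, 4), (10, 2, 3), (7, 4, 5), (2, 3, 2), (13, 2, 3), (6, 7, 8), (17, 3, 4), (13, 4, 5)]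
  | 4, 3 => [(16, 3, 4), (14, 0, 5), (13, 0, 6), (1, 0, 5), (7, 0, 6), (3, 0, 6), (7, 3, 7), (15, 3, 4), (11, 6, 7), (6, 9, 1), (10, 3, 4), (16, 3, 5), (13, 3, 7), (6, 8, 10), (1, 6, 1), (7, 5, 1), (17, 4, 5), (14, 6, 1), (13, 5, 1)]
  | 4, 4 => [(6, 0, 11), (0, 0, 7), (12, 0, 5), (2, 0, 4), (10, 0, 5), (14, 6, 7), (4, 2, 5), (1, 6, 7), (3, 2, 7), (6, 9, 7), (15, 3, 5)]
  | 4, 5 => [(6, 11, 6), (0, 7, 6), (12, 5, 4), (2, 4, 5), (14, 7, 4), (4, 5, 4), (5, 4, 5), (1, 7, 4), (3, 7, 5), (2, 5, 3)]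
  | 4, 6 => [(16, 4, 2), (14, 3, 5), (1, 3, 5), (15, 4, 1), (4, 1, 3), (10, 4, 1), (12, 3, 1), (0, 3, 1)]
  | 4, 7 => [(15, 2, 5), (7, 2, 4), (11, 5, 4), (10, 2, 5), (13, 4, 2), (17, 3, 2)]
  | 4, 8 => [(6, 4, 10), (7, 6, 7), (3, 6, 3), (11, 3, 7), (13, 6, 7), (17, 1, 5), (16, 1, 5), (5, 1, 3)]
  | 5, 0 => [(0, 2, 3), (0, 2, 4), (11, 2, 3), (11, 2, 0), (5, 2, 3), (5, 2, 1), (2, 2, 1), (2, 2, 3), (13, 2, 3), (13, 2, 4), (12, 2, 3), (12, 2, 4)]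
  | 5, 1 => [(0, 5, 3), (3, 2, 3), (13, 5, 3), (12, 5, 3), (3, 4, 1), (3, 5, 0), (4, 2, 3), (10, 2, 1), (12, 6, 7), (13, 6, 1), (2, 4, 0), (17, 2, 3), (9, 2, 0), (0, 6, 7)]
  | 5, 2 => [(0, 8, 5), (13, 7, 5), (1, 2, 3), (12, 8, 5), (6, 2, 3), (3, 6, 4), (3, 7, 5), (4, 4, 2), (15, 2, 3), (7, 2, 3), (2, 5, 4), (17, 4, 2), (13, 8, 9), (2, 6, 7), (17, 5, 6), (13, 10, 11), (4, 5, 6), (12, 9, 10)]
  | 5, 3 => [(15, 4, 5), (12, 11, 1), (6, 4, 0), (14, 2, 3), (3, 8, 9), (7, 4, 1), (6, 3, 5), (10, 2, 3), (16, 2, 3), (13, 9, 12), (1, 3, 1), (1, 4, 0), (9, 2, 3), (16, 2, 1), (15, 3, 1), (7, 3, 0), (2, 7, 8), (17, 6, 7), (14, 2, 0), (13, 11, 0), (4, 6, 7), (12, 10, 12)]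
  | 5, 4 => [(0, 6, 9), (13, 6, 13), (1, 4, 5), (12, 6, 13), (3, 8, 10), (3, 2, 11), (12, 11, 14), (6, 4, 6), (15, 4, 2), (7, 4, 5)]
  | 5, 5 => [(0, 9, 8), (14, 4, 5), (13, 13, 7), (1, 5, 2), (12, 13, 8), (3, 10, 6), (3, 11, 7), (7, 5, 2), (2, 9, 5), (14, 5, 4)]
  | 5, 6 => [(0, 1, 7), (13, 14, 1), (15, 5, 0), (12, 1, 7), (3, 3, 9), (17, 1, 3), (4, 0, 3), (10, 3, 0), (6, 1, 7), (12, 1, 0), (8, 1, 0), (0, 4, 0), (9, 1, 3), (13, 1, 14)]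
  | 5, 7 => [(6, 6, 2), (2, 6, 9), (12, 9, 14), (4, 5, 4), (13, 10, 8), (17, 5, 4)]
  | 5, 8 => [(11, 3, 1), (2, 3, 8), (13, 4, 12), (12, 4, 12), (6, 7, 5), (4, 1, 7), (17, 0, 7), (14, 1, 3), (16, 0, 3), (5, 0, 3)]
  | 6, 0 => [(7, 2, 3), (7, 2, 4), (13, 2, 3), (13, 2, 4), (16, 2, 3), (16, 2, 4), (15, 2, 3), (15, 2, 4), (15, 5, 6), (15, 5, 7), (16, 5, 6), (16, 5, 7)]
  | 6, 1 => [(0, 2, 3), (16, 8, 3), (5, 2, 3), (3, 2, 3), (12, 2, 3), (15, 8, 3), (15, 9, 6), (11, 2, 3), (16, 9, 6), (17, 2, 3)]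
  | 6, 2 => [(0, 0, 2), (5, 4, 2), (3, 4, 2), (12, 1, 2), (15, 10, 8), (4, 2, 3), (11, 0, 2), (12, 4, 5), (8, 2, 3), (2, 2, 3), (16, 10, 9), (17, 0, 4), (17, 1, 2), (9, 2, 3), (2, 0, 3), (3, 0, 5), (11, 1, 4), (7, 0, 5), (1, 2, 3), (4, 1, 3), (5, 1, 5), (7, 6, 7), (13, 1, 5), (14, 2, 3), (0, 4, 5), (15, 11, 12), (16, 11, 12), (13, 6, 7), (16, 13, 14), (15, 13, 14)]
  | 6, 3 => [(17, 4, 5), (12, 5, 6), (14, 4, 5), (3, 5, 3), (11, 4, 5), (1, 4, 5), (1, 3, 6), (5, 5, 3), (7, 5, 8), (14, 3, 6), (7, 7, 9), (0, 5, 6), (13, 5, 8), (15, 12, 15), (16, 12, 15), (13, 7, 9), (16, 14, 16), (15, 14, 16)]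
  | 6, 4 => [(9, 3, 1), (15, 9, 17), (1, 4, 7), (14, 4, 7), (16, 8, 17), (8, 3, 0)]
  | 6, 5 => [(5, 0, 4), (15, 17, 10), (14, 7, 1), (16, 17, 10), (9, 0, 2), (0, 7, 1), (6, 0, 1), (10, 0, 1), (8, 2, 1), (12, 0, 7), (3, 4, 1), (1, 0, 7)]
  | 6, 6 => [(17, 5, 3), (11, 3, 5)]
  | 6, 7 => [(0, 4, 7), (7, 6, 1), (13, 6, 0), (16, 13, 0), (12, 7, 4), (14, 2, 0), (15, 13, 0), (15, 11, 1), (1, 2, 1), (4, 2, 0), (2, 1, 2), (16, 11, 1)]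
  | 6, 8 => [(0, 3, 6), (7, 3, 9), (7, 4, 8), (13, 3, 9), (13, 4, 8), (16, 4, 16), (12, 3, 6), (14, 5, 6), (15, 4, 16), (15, 7, 15), (1, 5, 6), (16, 7, 15)]
  | 7, 0 => [(0, 2, 1), (0, 2, 3), (1, 2, 0), (1, 2, 3)]
  | 7, 1 => [(0, 4, 3), (5, 2, 3), (17, 2, 1), (15, 2, 3), (1, 4, 3), (16, 2, 3), (10, 2, 1), (11, 2, 3), (2, 2, 1), (9, 2, 3), (12, 2, 0), (6, 2, 3), (13, 2, 0), (7, 2, 0)]
  | 7, 2 => [(0, 5, 4), (5, 4, 2), (13, 3, 4), (17, 3, 2), (15, 4, 2), (1, 5, 4), (7, 3, 4), (16, 4, 2), (10, 3, 2), (2, 3, 4), (11, 4, 2), (8, 2, 3), (10, 3, 4), (12, 3, 2), (13, 3, 2), (6, 4, 5), (9, 4, 5), (14, 2, 3)]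
  | 7, 3 => [(14, 4, 1), (5, 5, 6), (15, 5, 6), (1, 6, 1), (11, 5, 6), (12, 4, 1), (16, 5, 6), (7, 4, 1), (8, 3, 1), (8, 4, 0), (13, 4, 5), (10, 4, 5), (0, 6, 0), (6, 5, 6), (17, 4, 0), (9, 5, 6), (2, 4, 0), (14, 3, 0)]
  | 7, 4 => [(0, 6, 7), (5, 5, 7), (17, 4, 5), (9, 2, 7), (15, 5, 7), (1, 6, 7), (7, 2, 5), (16, 5, 7), (2, 2, 5), (11, 5, 7), (6, 2, 7), (14, 4, 5), (8, 4, 5), (12, 4, 5)]
  | 7, 5 => [(0, 7, 5), (5, 7, 4), (17, 5, 3), (15, 7, 4), (1, 7, 5), (7, 5, 3), (16, 7, 4), (2, 5, 3), (12, 5, 3), (11, 4, 7)]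
  | 7, 6 => [(7, 6, 7), (9, 1, 3), (2, 6, 1), (5, 1, 3), (7, 7, 6), (6, 0, 3), (11, 1, 6), (16, 6, 0), (16, 1, 3), (15, 1, 6), (2, 1, 6), (15, 3, 0), (5, 6, 0), (11, 3, 0)]
  | 7, 7 => [(8, 5, 2), (6, 4, 7), (10, 6, 3), (14, 2, 5), (9, 4, 7), (10, 3, 6)]
  | 7, 8 => [(6, 1, 6), (4, 0, 1), (13, 1, 5), (9, 0, 6), (10, 0, 5), (3, 0, 1)]
  | 8, 0 => [(0, 2, 3), (0, 2, 4), (7, 2, 3), (7, 2, 4), (1, 2, 3), (1, 2, 4), (10, 2, 3), (10, 2, 4), (16, 2, 3), (16, 2, 4), (17, 2, 3), (17, 2, 4), (12, 2, 3), (12, 2, 4), (5, 2, 3), (5, 2, 4)]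
  | 8, 1 => [(0, 5, 3), (7, 5, 3), (15, 2, 3), (1, 5, 3), (7, 6, 7), (10, 5, 3), (16, 5, 3), (11, 2, 3), (17, 5, 3), (3, 2, 3), (12, 5, 3), (6, 2, 3), (8, 2, 3), (2, 2, 3), (5, 5, 3), (9, 2, 3)]
  | 8, 2 => [(0, 6, 5), (7, 8, 5), (7, 9, 10), (1, 6, 5), (10, 6, 5), (16, 6, 5), (17, 6, 5), (3, 0, 2), (12, 6, 5), (12, 7, 8), (6, 4, 2), (1, 7, 8), (16, 0, 7), (2, 4, 2), (1, 9, 10), (5, 6, 5), (5, 0, 7), (9, 1, 2), (10, 0, 7), (9, 0, 4), (4, 2, 3), (7, 11, 12), (0, 1, 7), (12, 9, 10), (17, 1, 7), (10, 8, 9), (8, 4, 5), (15, 1, 4), (11, 4, 5), (3, 1, 4), (16, 8, 9), (0, 8, 9), (5, 8, 9), (17, 8, 9)]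
  | 8, 3 => [(7, 13, 14), (7, 10, 15), (2, 5, 6), (6, 5, 6), (4, 3, 4), (15, 4, 5), (7, 16, 7), (1, 8, 11), (7, 12, 7), (9, 4, 5), (4, 5, 4), (12, 10, 11), (8, 5, 6), (10, 9, 10), (11, 5, 6), (3, 4, 5), (16, 9, 10), (0, 9, 10), (5, 9, 10), (17, 9, 10)]
  | 8, 4 => [(0, 7, 11), (7, 6, 17), (7, 13, 18), (1, 10, 12), (16, 7, 11), (8, 2, 7), (17, 7, 11), (2, 5, 7), (12, 8, 12), (10, 7, 11), (15, 2, 0), (11, 2, 7), (4, 5, 1), (5, 7, 11), (7, 16, 0), (6, 5, 7)]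
  | 8, 5 => [(0, 11, 6), (7, 17, 8), (1, 12, 6), (10, 1, 6), (16, 11, 6), (17, 11, 6), (12, 12, 6), (11, 7, 1), (2, 0, 4), (5, 11, 6), (1, 0, 13), (6, 7, 1), (6, 0, 4), (12, 0, 13), (12, 7, 1), (8, 0, 7), (2, 7, 1), (1, 9, 1)]
  | 8, 6 => [(7, 14, 7), (1, 14, 15), (2, 6, 3), (6, 6, 3), (15, 5, 3), (1, 15, 14)]
  | 8, 7 => [(0, 8, 0), (7, 9, 18), (1, 7, 13), (10, 8, 11), (16, 8, 1), (11, 4, 0), (17, 8, 0), (12, 9, 13), (4, 2, 0), (13, 0, 1), (14, 1, 0), (8, 4, 1), (5, 8, 1), (7, 11, 1)]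
  | 8, 8 => [(0, 4, 10), (7, 4, 15), (1, 4, 11), (10, 4, 10), (16, 4, 10), (11, 3, 6), (17, 4, 10), (9, 5, 3), (12, 4, 11), (8, 3, 6), (5, 4, 10), (3, 5, 3)]

private def kk : Fin 9 → List (ℕ × ℕ × List (ℤ × ℤ))
  | 0 => [(0, 1, [(1, 0), (-17, 1), (-16, 1), (-83, 5), (-33, 2), (-82, 5)]),
    (0, 1, [(1, 0), (-25, 17), (-22, 15), (-19, 13), (-47, 32), (-1, 1), (-51, 35), (-16, 11), (-169, 115), (-72, 49), (-3, 2), (-7, 5), (-191, 130), (-29, 20)]),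
    (0, 1, [(1, 0), (-22, 17), (-1, 1), (-5, 4), (-6, 5), (-13, 10)]),
    (0, 1, [(1, 0), (-19, 17), (-1, 1), (-9, 8), (-11, 10), (-28, 25)]),
    (0, 1, [(1, 0), (-16, 17), (-1, 1), (-33, 35)]),
    (0, 1, [(1, 0), (-13, 17), (-1, 1), (-19, 25), (-3, 4), (-4, 5)]),
    (0, 1, [(1, 0), (-10, 17), (-1, 1), (-3, 5)]),
    (0, 1, [(1, 0), (-7, 17), (-1, 1), (-3, 5), (-1, 2), (-2, 5)]),
    (0, 1, [(1, 0), (-4, 17), (-1, 1), (-3, 5), (-1, 2), (-6, 25), (-1, 4), (0, 1), (-1, 5), (-2, 5)]),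
    (0, 1, [(1, 0), (-1, 17), (-1, 1), (-3, 5), (-1, 2), (0, 1), (-2, 35), (-2, 5)]),
    (0, 1, [(1, 0), (2, 17), (-1, 1), (-3, 5), (-1, 2), (3, 25), (1, 8), (0, 1), (1, 10), (-2, 5)]),
    (0, 1, [(1, 0), (5, 17), (-1, 1), (-3, 5), (1, 5), (0, 1), (-1, 2), (3, 10), (1, 4), (-2, 5)]),
    (0, 1, [(1, 0), (8, 17), (-1, 1), (-3, 5), (0, 1), (2, 5), (-1, 2), (26, 55), (9, 19), (19, 40), (-2, 5), (1, 2)]),
    (0, 1, [(1, 0), (11, 17), (2, 3), (7, 10), (23, 35), (2, 1), (3, 4), (4, 5), (17, 26), (36, 55), (7, 5), (3, 2), (19, 29), (8, 5), (1, 1), (13, 20)]),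
    (0, 1, [(1, 0), (14, 17), (2, 1), (7, 5), (3, 2), (8, 5), (1, 1), (4, 5)]),
    (0, 1, [(1, 0), (1, 1), (2, 1), (7, 5), (3, 2), (8, 5)]),
    (0, 1, [(1, 0), (20, 17), (2, 1), (1, 1), (6, 5), (7, 5), (3, 2), (8, 5)]),
    (0, 1, [(1, 0), (23, 17), (2, 1), (4, 3), (47, 35), (13, 10), (39, 29), (74, 55), (7, 5), (3, 2), (27, 20), (1, 1), (6, 5), (5, 4), (8, 5), (35, 26)])]
  | 1 => [(0, 1, [(-51, 5), (-17, 1), (1, 0), (-16, 1), (-10, 1), (-83, 5), (-33, 2), (-82, 5)]),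
    (0, 1, [(-123, 85), (-25, 17), (-22, 15), (-19, 13), (-47, 32), (-51, 35), (-16, 11), (-55, 38), (-169, 115), (-72, 49), (-191, 130), (-29, 20)]),
    (0, 1, [(-108, 85), (-22, 17), (-14, 11), (-13, 10), (-9, 7), (-32, 25), (-5, 4)]),
    (0, 1, [(-93, 85), (-19, 17), (-9, 8), (-11, 10), (-28, 25), (-35, 32)]),
    (0, 1, [(-78, 85), (-16, 17), (-33, 35), (-1, 1), (-45, 49), (-23, 25), (-101, 110), (-56, 61)]),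
    (0, 1, [(-63, 85), (-13, 17), (-2, 3), (-13, 20), (-17, 25), (-9, 14), (-3, 5), (-1, 1), (-16, 25), (-11, 16), (-24, 35), (-26, 35), (-3, 4), (-19, 25), (-4, 5), (-13, 19), (-7, 10), (-7, 11), (-23, 31)]),
    (0, 1, [(-48, 85), (-10, 17), (-3, 5), (-13, 23), (-31, 55), (-9, 16), (-4, 7), (-14, 25)]),
    (0, 1, [(-33, 85), (-7, 17), (-7, 18), (-68, 175), (-37, 95), (-54, 139), (-101, 260), (-16, 41), (-39, 100), (-23, 59), (-47, 121), (-2, 5)]),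
    (0, 1, [(-18, 85), (-4, 17), (-4, 19), (-6, 25), (-1, 4), (-1, 5)]),
    (0, 1, [(-3, 85), (-1, 17), (0, 1), (-2, 55), (-1, 28), (-2, 35)]),
    (0, 1, [(12, 85), (2, 17), (1, 5), (0, 1), (1, 7), (3, 25), (1, 8), (1, 10)]),
    (0, 1, [(27, 85), (5, 17), (1, 3), (2, 5), (13, 40), (0, 1), (1, 5), (7, 22), (3, 10), (10, 31), (21, 65), (11, 34), (1, 4), (8, 25)]),
    (0, 1, [(42, 85), (8, 17), (26, 55), (9, 19), (1, 2), (19, 40)]),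
    (0, 1, [(57, 85), (11, 17), (2, 3), (67, 100), (23, 35), (63, 94), (124, 185), (17, 26), (36, 55), (19, 29), (61, 91), (13, 20)]),
    (0, 1, [(72, 85), (14, 17), (6, 7), (17, 20), (11, 13), (4, 5)]),
    (0, 1, [(87, 85), (1, 1)]),
    (0, 1, [(6, 5), (20, 17)]),
    (0, 1, [(117, 85), (23, 17), (4, 3), (47, 35), (13, 10), (39, 29), (74, 55), (27, 20), (1, 1), (6, 5), (11, 8), (5, 4), (35, 26), (7, 5)])]
  | 2 => [(0, 1, [(-17, 2), (-51, 5), (-48, 5), (-10, 1), (-9, 1), (-43, 5), (-19, 2), (-47, 5)]),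
    (0, 1, [(-49, 34), (-123, 85), (-36, 25), (-10, 7), (-55, 38), (-3, 2), (-7, 5), (-29, 20)]),
    (0, 1, [(-43, 34), (-108, 85), (-19, 15), (-14, 11)]),
    (0, 1, [(-37, 34), (-93, 85), (-87, 80), (-25, 23), (-12, 11), (-11, 10), (-35, 32), (-38, 35)]),
    (0, 1, [(-31, 34), (-78, 85), (-45, 49), (-23, 25), (-10, 11), (-9, 10), (-101, 110), (-32, 35), (-21, 23), (-1, 1), (-73, 80), (-56, 61)]),
    (0, 1, [(-25, 34), (-63, 85), (-11, 15), (-8, 11), (-18, 25), (-5, 7), (-26, 35), (-3, 4), (-7, 10), (-23, 31)]),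
    (0, 1, [(-19, 34), (-48, 85), (-13, 23), (-31, 55), (-9, 16), (-14, 25)]),
    (0, 1, [(-13, 34), (-33, 85), (-7, 18), (-68, 175), (-37, 95), (-54, 139), (-101, 260), (-16, 41), (-39, 100), (-21, 55), (-23, 59), (-5, 13), (-47, 121), (-2, 5)]),
    (0, 1, [(-7, 34), (-18, 85), (-4, 19), (-1, 5)]),
    (0, 1, [(-1, 34), (-3, 85), (0, 1), (-2, 55), (-1, 28), (-1, 35)]),
    (0, 1, [(5, 34), (12, 85), (3, 20), (1, 7), (1, 5)]),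
    (0, 1, [(11, 34), (27, 85), (7, 22), (10, 31), (21, 65), (8, 25)]),
    (0, 1, [(1, 2), (42, 85)]),
    (0, 1, [(23, 34), (57, 85), (2, 3), (67, 100), (37, 55), (63, 94), (33, 49), (27, 40), (124, 185), (64, 95), (61, 91), (31, 46), (44, 65)]),
    (0, 1, [(29, 34), (72, 85), (11, 13), (17, 20)]),
    (0, 1, [(35, 34), (87, 85), (1, 1), (36, 35)]),
    (0, 1, [(41, 34), (6, 5)]),
    (0, 1, [(47, 34), (117, 85), (18, 13), (76, 55), (7, 5), (11, 8)])]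
  | 3 => [(0, 1, [(51, 5), (17, 2), (1, 0), (8, 1), (11, 1), (42, 5), (10, 1), (52, 5), (21, 2), (53, 5)]),
    (0, 1, [(-117, 85), (-47, 34), (-18, 13), (-7, 5), (-11, 8), (-76, 55)]),
    (0, 1, [(-6, 5), (-41, 34)]),
    (0, 1, [(-87, 85), (-35, 34), (-1, 1), (-36, 35)]),
    (0, 1, [(-72, 85), (-29, 34), (-11, 13), (-17, 20)]),
    (0, 1, [(-57, 85), (-23, 34), (-2, 3), (-17, 25), (-47, 70), (-21, 31), (-51, 76), (-44, 65), (-104, 155), (-53, 79)]),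
    (0, 1, [(-42, 85), (-1, 2), (-2, 5)]),
    (0, 1, [(-27, 85), (-11, 34), (-21, 65), (-7, 22), (-10, 31), (-8, 25)]),
    (0, 1, [(-12, 85), (-5, 34), (-3, 20), (-1, 7), (-1, 5)]),
    (0, 1, [(3, 85), (1, 34), (1, 28), (1, 35), (0, 1), (2, 55)]),
    (0, 1, [(18, 85), (7, 34), (4, 19), (1, 5)]),
    (0, 1, [(33, 85), (13, 34), (21, 55), (5, 13), (12, 31), (2, 5), (31, 80), (19, 49)]),
    (0, 1, [(48, 85), (19, 34), (14, 25), (9, 16), (13, 23), (31, 55)]),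
    (0, 1, [(63, 85), (25, 34), (20, 27), (163, 220), (137, 185), (48, 65), (14, 19), (123, 166), (17, 23), (226, 305), (77, 104), (174, 235), (103, 140), (39, 53), (92, 125), (97, 131), (103, 139), (37, 50)]),
    (0, 1, [(78, 85), (31, 34), (11, 12), (133, 145), (32, 35), (111, 121), (211, 230), (73, 80), (21, 23), (100, 109), (23, 25), (1, 1), (10, 11)]),
    (0, 1, [(93, 85), (37, 34), (49, 45), (61, 56), (86, 79), (207, 190), (73, 67), (11, 10), (12, 11), (35, 32), (283, 260), (123, 113), (332, 305), (158, 145)]),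
    (0, 1, [(108, 85), (43, 34), (19, 15), (5, 4), (62, 49), (32, 25), (9, 7), (253, 200), (105, 83), (13, 10), (272, 215), (14, 11)]),
    (0, 1, [(123, 85), (49, 34), (3, 2), (29, 20), (7, 5), (36, 25), (55, 38), (10, 7)])]
  | 4 => [(0, 1, [(0, 1), (-34, 5), (1, 0), (-7, 1), (-1, 1), (-3, 5), (-1, 2), (-2, 5)]),
    (0, 1, [(-24, 17), (-122, 85), (-36, 25), (-10, 7), (-23, 16), (-7, 5), (-33, 23), (-79, 55)]),
    (0, 1, [(-21, 17), (-107, 85), (-39, 31), (-44, 35), (-31, 25), (-5, 4)]),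
    (0, 1, [(-18, 17), (-92, 85), (-27, 25), (-1, 1), (-66, 61), (-119, 110), (-37, 35), (-53, 49)]),
    (0, 1, [(-15, 17), (-77, 85), (-9, 10), (-29, 32), (-22, 25), (-7, 8)]),
    (0, 1, [(-12, 17), (-62, 85), (-18, 25), (-8, 11), (-7, 10), (-5, 7)]),
    (0, 1, [(-9, 17), (-47, 85), (-8, 15), (-17, 32), (-7, 13), (-69, 130), (-26, 49), (-11, 20), (-6, 11), (-21, 38), (-19, 35), (-61, 115)]),
    (0, 1, [(-6, 17), (-32, 85), (-4, 11), (-9, 25), (-2, 5), (-3, 8), (-7, 20), (-5, 14)]),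
    (0, 1, [(-3, 17), (-1, 5)]),
    (0, 1, [(0, 1), (-2, 85)]),
    (0, 1, [(3, 17), (13, 85), (1, 7), (3, 20), (2, 13), (1, 5)]),
    (0, 1, [(6, 17), (28, 85), (1, 3), (2, 5), (7, 20), (5, 14), (9, 25), (4, 11)]),
    (0, 1, [(9, 17), (43, 85), (21, 40), (1, 2), (10, 19), (29, 55)]),
    (0, 1, [(12, 17), (58, 85), (13, 19), (24, 35), (17, 25), (15, 22), (7, 10), (11, 16)]),
    (0, 1, [(15, 17), (73, 85), (9, 10), (7, 8), (1, 1), (22, 25), (6, 7), (4, 5)]),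
    (0, 1, [(18, 17), (88, 85), (37, 35), (57, 55), (29, 28), (1, 1)]),
    (0, 1, [(21, 17), (103, 85), (31, 25), (6, 5), (5, 4), (23, 19)]),
    (0, 1, [(24, 17), (118, 85), (7, 5), (43, 31), (111, 80), (68, 49)])]
  | 5 => [(0, 1, [(-34, 5), (-17, 2), (1, 0), (-10, 1), (-7, 1), (-48, 5), (-9, 1), (-43, 5), (-19, 2), (-47, 5)]),
    (0, 1, [(-122, 85), (-49, 34), (-23, 16), (-36, 25), (-33, 23), (-79, 55)]),
    (0, 1, [(-107, 85), (-43, 34), (-19, 15), (-14, 11), (-39, 31), (-44, 35), (-13, 10), (-9, 7), (-32, 25), (-5, 4)]),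
    (0, 1, [(-92, 85), (-37, 34), (-27, 25), (-1, 1), (-87, 80), (-66, 61), (-25, 23), (-119, 110), (-12, 11), (-11, 10), (-38, 35), (-53, 49)]),
    (0, 1, [(-77, 85), (-31, 34), (-9, 10), (-29, 32), (-10, 11), (-32, 35), (-21, 23), (-73, 80)]),
    (0, 1, [(-62, 85), (-25, 34), (-11, 15), (-8, 11)]),
    (0, 1, [(-47, 85), (-19, 34), (-1, 2), (-3, 5), (-21, 38), (-4, 7), (-11, 20), (-14, 25)]),
    (0, 1, [(-32, 85), (-13, 34), (-2, 5), (-3, 8), (-21, 55), (-5, 13)]),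
    (0, 1, [(-1, 5), (-7, 34)]),
    (0, 1, [(-2, 85), (-1, 34), (0, 1), (-1, 35)]),
    (0, 1, [(13, 85), (5, 34), (3, 20), (2, 13)]),
    (0, 1, [(28, 85), (11, 34), (1, 3), (13, 40)]),
    (0, 1, [(43, 85), (1, 2), (1, 0), (-1, 1), (2, 1), (-3, 5), (0, 1), (2, 5), (-1, 2), (7, 5), (3, 2), (3, 5), (8, 5), (-2, 5), (1, 1)]),
    (0, 1, [(58, 85), (23, 34), (2, 3), (37, 55), (7, 10), (33, 49), (27, 40), (64, 95), (13, 19), (24, 35), (17, 25), (15, 22), (11, 16), (31, 46), (44, 65)]),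
    (0, 1, [(73, 85), (29, 34), (6, 7), (17, 20), (4, 5), (1, 1)]),
    (0, 1, [(88, 85), (35, 34), (1, 1), (36, 35), (57, 55), (29, 28)]),
    (0, 1, [(103, 85), (41, 34), (6, 5), (23, 19)]),
    (0, 1, [(118, 85), (47, 34), (18, 13), (76, 55), (7, 5), (43, 31), (111, 80), (68, 49)])]
  | 6 => [(0, 1, [(17, 2), (34, 5), (42, 5), (8, 1), (37, 5), (15, 2), (38, 5), (7, 1)]),
    (0, 1, [(-47, 34), (-118, 85), (-68, 49), (-111, 80), (-18, 13), (-7, 5), (-43, 31), (-76, 55)]),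
    (0, 1, [(-41, 34), (-103, 85), (-23, 19), (-6, 5)]),
    (0, 1, [(-35, 34), (-88, 85), (-57, 55), (-1, 1), (-29, 28), (-36, 35)]),
    (0, 1, [(-29, 34), (-73, 85), (-17, 20), (-6, 7)]),
    (0, 1, [(-23, 34), (-58, 85), (-21, 31), (-17, 25), (-44, 65), (-15, 22)]),
    (0, 1, [(-1, 2), (-43, 85)]),
    (0, 1, [(-11, 34), (-28, 85), (-1, 3), (-23, 70), (-8, 25), (-21, 65), (-26, 79), (-51, 155), (-10, 31), (-25, 76)]),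
    (0, 1, [(-5, 34), (-13, 85), (-2, 13), (-3, 20)]),
    (0, 1, [(1, 34), (2, 85), (1, 35), (0, 1)]),
    (0, 1, [(7, 34), (1, 5)]),
    (0, 1, [(13, 34), (32, 85), (21, 55), (5, 13), (3, 8), (2, 5)]),
    (0, 1, [(19, 34), (47, 85), (21, 38), (11, 20), (4, 7), (3, 5), (1, 2), (14, 25)]),
    (0, 1, [(25, 34), (62, 85), (11, 15), (14, 19), (19, 26), (27, 37), (103, 140), (39, 53), (73, 100), (92, 125)]),
    (0, 1, [(31, 34), (77, 85), (73, 80), (21, 23), (9, 10), (10, 11), (32, 35), (29, 32)]),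
    (0, 1, [(37, 34), (92, 85), (49, 45), (61, 56), (86, 79), (13, 12), (38, 35), (157, 145), (207, 190), (12, 11), (73, 67), (118, 109), (249, 230), (283, 260), (123, 113), (131, 121), (332, 305), (158, 145)]),
    (0, 1, [(43, 34), (107, 85), (19, 15), (5, 4), (62, 49), (34, 27), (233, 185), (277, 220), (63, 50), (165, 131), (296, 235), (175, 139), (384, 305), (253, 200), (105, 83), (209, 166), (272, 215), (131, 104)]),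
    (0, 1, [(49, 34), (122, 85), (33, 23), (79, 55), (36, 25), (23, 16)])]
  | 7 => [(0, 1, [(119, 5), (17, 1), (1, 0), (23, 1), (117, 5), (47, 2), (24, 1), (118, 5)]),
    (0, 1, [(-113, 85), (-23, 17), (-4, 3), (-7, 5), (-15, 11), (-34, 25), (-27, 20), (-19, 14)]),
    (0, 1, [(-98, 85), (-20, 17), (-6, 5), (-23, 20), (-15, 13), (-8, 7), (-47, 40)]),
    (0, 1, [(-83, 85), (-1, 1)]),
    (0, 1, [(-4, 5), (-14, 17)]),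
    (0, 1, [(-53, 85), (-11, 17), (-9, 14), (-13, 20), (-16, 25), (-3, 5), (-5, 8), (-7, 11)]),
    (0, 1, [(-38, 85), (-8, 17), (-9, 20), (-17, 38), (-19, 40), (-9, 19), (-26, 55), (-1, 2)]),
    (0, 1, [(-23, 85), (-5, 17), (-3, 11), (-2, 7), (-3, 10), (-7, 25), (-1, 5), (-1, 4)]),
    (0, 1, [(-8, 85), (-2, 17), (-1, 8), (-3, 25), (-3, 32), (-1, 10)]),
    (0, 1, [(7, 85), (1, 17), (0, 1), (2, 35), (4, 49), (9, 110), (5, 61), (2, 25)]),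
    (0, 1, [(22, 85), (4, 17), (6, 25), (1, 4), (9, 35), (8, 31), (13, 50)]),
    (0, 1, [(37, 85), (7, 17), (24, 55), (10, 23), (7, 16), (3, 7), (2, 5), (11, 25)]),
    (0, 1, [(52, 85), (10, 17), (30, 49), (49, 80), (3, 5), (19, 31)]),
    (0, 1, [(67, 85), (13, 17), (15, 19), (4, 5), (3, 4), (19, 25)]),
    (0, 1, [(82, 85), (16, 17), (53, 55), (27, 28), (33, 35), (1, 1)]),
    (0, 1, [(97, 85), (19, 17), (6, 5), (8, 7), (1, 1), (9, 8), (28, 25), (11, 10)]),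
    (0, 1, [(112, 85), (22, 17), (21, 16), (13, 10), (46, 35), (33, 25), (29, 22), (25, 19)]),
    (0, 1, [(127, 85), (25, 17), (81, 55), (28, 19), (3, 2), (59, 40)])]
  | 8 => [(0, 1, [(34, 1), (136, 5), (1, 0), (26, 1), (35, 1), (132, 5), (53, 2), (27, 1), (172, 5), (69, 2), (173, 5), (133, 5)]),
    (0, 1, [(-22, 17), (-112, 85), (-4, 3), (-53, 40), (-7, 5), (-45, 34), (-86, 65), (-5, 4), (-6, 5), (-29, 22), (-33, 25), (-1, 1), (-41, 31), (-13, 10), (-46, 35), (-25, 19)]),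
    (0, 1, [(-19, 17), (-97, 85), (-9, 8), (-11, 10), (-28, 25), (-6, 5), (-1, 1), (-8, 7)]),
    (0, 1, [(-16, 17), (-82, 85), (-33, 35), (-1, 1), (-27, 28), (-53, 55)]),
    (0, 1, [(-13, 17), (-67, 85), (-19, 25), (-3, 4), (-4, 5), (-15, 19)]),
    (0, 1, [(-10, 17), (-52, 85), (-11, 18), (-58, 95), (-107, 175), (-36, 59), (-61, 100), (-3, 5), (-74, 121), (-159, 260), (-85, 139), (-25, 41)]),
    (0, 1, [(-7, 17), (-37, 85), (-3, 7), (-11, 25), (-2, 5), (-24, 55), (-7, 16), (-10, 23)]),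
    (0, 1, [(-4, 17), (-22, 85), (-1, 3), (-8, 25), (-7, 20), (-6, 19), (-3, 10), (-1, 4), (-11, 35), (-4, 11), (-9, 25), (-8, 31), (-9, 35), (0, 1), (-1, 5), (-5, 14), (-6, 25), (-5, 16), (-2, 5)]),
    (0, 1, [(-1, 17), (-7, 85), (0, 1), (-2, 25), (-5, 61), (-9, 110), (-4, 49), (-2, 35)]),
    (0, 1, [(2, 17), (8, 85), (3, 32), (1, 10), (3, 25), (1, 8)]),
    (0, 1, [(5, 17), (23, 85), (4, 15), (7, 26), (5, 19), (27, 100), (10, 37), (3, 10), (13, 50), (6, 23), (17, 65), (1, 4)]),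
    (0, 1, [(8, 17), (38, 85), (9, 20), (1, 2), (26, 55), (9, 19), (19, 40), (17, 38)]),
    (0, 1, [(11, 17), (53, 85), (2, 3), (7, 10), (23, 35), (3, 4), (4, 5), (5, 8), (3, 5), (17, 26), (36, 55), (19, 29), (1, 1), (13, 20)]),
    (0, 1, [(14, 17), (4, 5)]),
    (0, 1, [(1, 1), (83, 85)]),
    (0, 1, [(20, 17), (98, 85), (6, 5), (8, 7), (15, 13), (23, 20)]),
    (0, 1, [(23, 17), (113, 85), (4, 3), (47, 35), (133, 100), (39, 29), (74, 55), (27, 20), (121, 91), (246, 185), (125, 94), (35, 26)]),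
    (0, 1, [(26, 17), (128, 85), (23, 15), (20, 13), (49, 32), (54, 35), (17, 11), (3, 2), (176, 115), (75, 49), (199, 130), (31, 20)])]

private theorem c0 : ChkW 3 3 17 8 1 0 (-1) 1 (kk 0) (tcT (T17T 0) (cc 0)) := by
  decide +kernel

private theorem c1 : ChkW 3 3 17 8 (-3) 5 (-1) 1 (kk 1) (tcT (T17T 1) (cc 1)) := by
  decide +kernel

private theorem c2 : ChkW 3 3 17 8 (-1) 2 (-3) 5 (kk 2) (tcT (T17T 2) (cc 2)) := by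
  decide +kernel

private theorem c3 : ChkW 3 3 17 8 3 5 1 2 (kk 3) (tcT (T17T 3) (cc 3)) := by
  decide +kernel

private theorem c4 : ChkW 3 3 17 8 0 1 (-2) 5 (kk 4) (tcT (T17T 4) (cc 4)) := by
  decide +kernel

private theorem c5 : ChkW 3 3 17 8 (-2) 5 (-1) 2 (kk 5) (tcT (T17T 5) (cc 5)) := by
  decide +kernel

private theorem c6 : ChkW 3 3 17 8 1 2 2 5 (kk 6) (tcT (T17T 6) (cc 6)) := by
  decide +kernel

private theorem c7 : ChkW 3 3 17 8 7 5 1 1 (kk 7) (tcT (T17T 7) (cc 7)) := by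
  decide +kernel

private theorem c8 : ChkW 3 3 17 8 2 1 8 5 (kk 8) (tcT (T17T 8) (cc 8)) := by
  decide +kernel

/-- HK17. -/
theorem hHk17 (hf : THkF) (ht : TTre) (hm : S3Trm) : THk 17 T17T := by
  intro r s G hG i
  have h0 : Nat.Prime 17 := by norm_num
  fin_cases i
  · exact row3 hf ht hm 17 h0 (by norm_num) (by norm_num) 8 (T17T 0) _ _ _ _ (by decide) (by decide) _ _
      c0 r s G hG
  · exact row3 hf ht hm 17 h0 (by norm_num) (by norm_num) 8 (T17T 1) _ _ _ _ (by decide) (by decide) _ _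
      c1 r s G hG
  · exact row3 hf ht hm 17 h0 (by norm_num) (by norm_num) 8 (T17T 2) _ _ _ _ (by decide) (by decide) _ _
      c2 r s G hG
  · exact row3 hf ht hm 17 h0 (by norm_num) (by norm_num) 8 (T17T 3) _ _ _ _ (by decide) (by decide) _ _
      c3 r s G hG
  · exact row3 hf ht hm 17 h0 (by norm_num) (by norm_num) 8 (T17T 4) _ _ _ _ (by decide) (by decide) _ _
      c4 r s G hG
  · exact row3 hf ht hm 17 h0 (by norm_num) (by norm_num) 8 (T17T 5) _ _ _ _ (by decide) (by decide) _ _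
      c5 r s G hG
  · exact row3 hf ht hm 17 h0 (by norm_num) (by norm_num) 8 (T17T 6) _ _ _ _ (by decide) (by decide) _ _
      c6 r s G hG
  · exact row3 hf ht hm 17 h0 (by norm_num) (by norm_num) 8 (T17T 7) _ _ _ _ (by decide) (by decide) _ _
      c7 r s G hG
  · exact row3 hf ht hm 17 h0 (by norm_num) (by norm_num) 8 (T17T 8) _ _ _ _ (by decide) (by decide) _ _
      c8 r s G hG

end Pool.Agent.Helper93.T53
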