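import Pool.Agent.Helper93.T53.HkG

/-!
# Levels `5·3^n`: the rows of the Hecke operator `T_19`
-/

set_option autoImplicit false
set_option maxRecDepth 100000

namespace Pool.Agent.Helper93.T53

open Pool.Agent.Helper78.W3 (S3Trm)

private def cc : Fin 9 → Fin 9 → List C3
  | 0, 0 => [(0, 0, 1), (6, 2, 3), (6, 2, 4), (13, 0, 2), (12, 0, 2), (11, 0, 2), (10, 0, 2), (9, 0, 2), (8, 0, 2), (7, 0, 2), (6, 0, 5), (5, 0, 2), (4, 0, 1), (3, 0, 2), (2, 0, 2), (1, 0, 2), (19, 0, 2), (18, 0, 2), (17, 0, 2), (16, 0, 2), (15, 0, 2), (14, 0, 2), (2, 3, 4), (2, 3, 5)]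
  | 0, 1 => [(6, 6, 3), (15, 3, 1), (13, 3, 2), (12, 3, 2), (11, 3, 2), (10, 3, 2), (9, 3, 2), (8, 3, 2), (7, 3, 2), (6, 7, 5), (2, 6, 4), (5, 3, 4), (19, 3, 1), (3, 3, 4), (13, 4, 5), (14, 3, 1), (2, 7, 1), (1, 3, 4)]
  | 0, 2 => [(12, 4, 5), (6, 8, 6), (15, 4, 3), (13, 6, 3), (12, 6, 3), (11, 4, 3), (10, 4, 3), (9, 4, 3), (8, 4, 3), (7, 4, 3), (2, 8, 6), (19, 4, 5), (16, 3, 4), (5, 5, 3), (19, 6, 3), (3, 5, 3), (15, 5, 6), (18, 3, 4), (17, 3, 4), (8, 5, 6), (18, 5, 6), (17, 5, 6), (16, 5, 6), (12, 7, 8), (15, 7, 8), (14, 4, 5)]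
  | 0, 3 => [(3, 6, 2), (7, 5, 1), (1, 3, 5), (5, 6, 1), (9, 5, 6), (16, 4, 1), (11, 5, 6), (10, 5, 6), (18, 4, 1), (19, 5, 7), (17, 4, 1), (18, 6, 7), (8, 6, 7), (17, 6, 7), (16, 6, 7), (12, 8, 9), (15, 8, 9), (14, 5, 6)]
  | 0, 4 => [(14, 3, 7), (6, 7, 9), (15, 6, 10), (13, 4, 7), (12, 5, 10), (11, 5, 7), (10, 5, 7), (9, 5, 7), (2, 7, 9), (5, 6, 7), (3, 6, 7), (7, 5, 4)]
  | 0, 5 => [(12, 11, 4), (6, 9, 8), (15, 10, 4), (13, 7, 6), (12, 10, 6), (11, 7, 4), (10, 7, 4), (9, 7, 4), (8, 5, 4), (2, 9, 8), (5, 7, 5), (3, 7, 5), (15, 11, 5), (19, 6, 4)]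
  | 0, 6 => [(1, 1, 4), (2, 10, 1), (5, 2, 4), (3, 1, 4), (11, 1, 6), (9, 1, 6), (10, 1, 6), (2, 1, 10)]
  | 0, 7 => [(12, 7, 11), (18, 5, 3), (17, 5, 3), (16, 5, 3), (15, 7, 11), (14, 4, 7)]
  | 0, 8 => [(6, 4, 1), (12, 1, 9), (19, 2, 7), (18, 2, 7), (17, 2, 7), (16, 2, 7), (15, 2, 9), (14, 2, 6), (2, 5, 2), (1, 5, 2), (8, 1, 7), (13, 1, 5)]
  | 1, 0 => [(0, 2, 1), (0, 2, 3), (6, 2, 3), (6, 2, 4), (2, 2, 3), (2, 2, 4), (19, 2, 3), (19, 2, 4)]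
  | 1, 1 => [(6, 5, 3), (15, 2, 1), (2, 5, 3), (5, 2, 3), (4, 0, 1), (19, 5, 1), (3, 2, 3), (16, 2, 3), (14, 0, 1), (19, 6, 3), (2, 6, 1), (15, 0, 3), (17, 2, 3), (1, 2, 3)]
  | 1, 2 => [(6, 6, 5), (15, 4, 2), (2, 7, 8), (10, 2, 0), (2, 9, 5), (5, 4, 2), (19, 7, 5), (3, 4, 2), (16, 4, 2), (17, 4, 5), (19, 8, 6), (2, 10, 0), (17, 6, 2), (8, 2, 3), (7, 2, 0), (8, 4, 5), (18, 2, 0), (5, 5, 0), (19, 9, 10), (5, 6, 7), (13, 2, 0), (3, 5, 6), (0, 4, 5), (12, 2, 3)]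
  | 1, 3 => [(17, 7, 8), (12, 4, 5), (7, 3, 1), (13, 3, 4), (2, 8, 11), (8, 0, 6), (5, 8, 1), (16, 5, 6), (5, 7, 3), (16, 5, 1), (11, 0, 2), (10, 3, 4), (8, 3, 7), (15, 5, 6), (18, 3, 1), (12, 0, 5), (17, 5, 1), (3, 0, 7), (9, 0, 2), (19, 10, 11), (8, 5, 8), (3, 6, 8), (0, 5, 6), (12, 3, 6)]
  | 1, 4 => [(12, 4, 7), (6, 0, 7), (1, 2, 4), (15, 5, 7), (10, 3, 5), (2, 6, 12), (13, 3, 5), (17, 7, 4), (5, 8, 9), (18, 3, 2), (16, 0, 7), (19, 0, 12), (17, 0, 9), (7, 3, 2), (1, 0, 5), (0, 0, 7)]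
  | 1, 5 => [(6, 7, 6), (15, 7, 4), (10, 5, 2), (2, 12, 9), (5, 9, 4), (3, 9, 4), (16, 7, 4), (19, 12, 8), (2, 10, 13), (19, 7, 13), (17, 9, 6), (1, 5, 4)]
  | 1, 6 => [(17, 8, 3), (1, 1, 3), (2, 14, 1), (3, 1, 3), (8, 6, 9), (11, 1, 3), (9, 1, 3), (15, 3, 6), (10, 1, 4), (2, 1, 14)]
  | 1, 7 => [(0, 4, 7), (8, 2, 4), (3, 5, 9), (12, 2, 7), (2, 7, 13), (13, 2, 5), (5, 6, 5), (19, 9, 13)]
  | 1, 8 => [(0, 3, 6), (8, 9, 7), (11, 2, 3), (3, 7, 8), (6, 4, 1), (12, 1, 6), (2, 4, 11), (8, 1, 8), (16, 3, 6), (13, 1, 4), (19, 4, 11), (9, 3, 2)]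
  | 2, 0 => [(11, 2, 3), (11, 2, 4), (3, 2, 3), (3, 2, 4), (6, 2, 3), (6, 2, 4), (2, 2, 3), (2, 2, 4), (19, 2, 3), (19, 2, 4)]
  | 2, 1 => [(0, 2, 3), (13, 2, 3), (8, 2, 3), (6, 5, 3), (2, 5, 3), (4, 1, 2), (9, 2, 3), (16, 2, 3), (18, 2, 3), (19, 5, 3), (15, 1, 2), (17, 2, 3)]
  | 2, 2 => [(0, 0, 2), (8, 4, 2), (6, 6, 5), (10, 2, 1), (2, 6, 5), (16, 4, 5), (9, 0, 2), (16, 6, 2), (18, 4, 2), (19, 6, 5), (8, 0, 5), (2, 7, 1), (2, 8, 9), (17, 4, 2), (14, 0, 1), (10, 3, 4), (7, 0, 1), (6, 7, 8), (17, 0, 5), (15, 0, 3), (18, 5, 1), (5, 2, 1), (19, 7, 8), (5, 3, 4), (13, 4, 1), (12, 2, 3), (0, 4, 5), (3, 5, 6), (11, 5, 6), (2, 10, 11)]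
  | 2, 3 => [(17, 5, 6), (18, 6, 7), (13, 5, 6), (4, 3, 2), (8, 1, 6), (16, 5, 7), (11, 1, 3), (15, 3, 4), (6, 8, 9), (12, 1, 4), (3, 1, 4), (9, 1, 4), (19, 8, 9), (12, 3, 5), (0, 5, 6), (3, 6, 7), (11, 6, 7), (2, 11, 12)]
  | 2, 4 => [(8, 5, 7), (6, 1, 10), (10, 4, 5), (2, 9, 13), (13, 5, 7), (13, 2, 0), (5, 4, 5), (18, 6, 5), (16, 1, 8), (19, 1, 10), (17, 1, 7), (4, 3, 0), (1, 1, 2), (0, 1, 7)]
  | 2, 5 => [(8, 7, 4), (6, 10, 6), (10, 5, 2), (2, 13, 6), (16, 8, 6), (18, 0, 4), (19, 10, 6), (2, 7, 8), (17, 7, 4), (1, 2, 3), (16, 0, 9), (19, 0, 11), (6, 0, 11), (5, 0, 5)]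
  | 2, 6 => [(17, 6, 3), (18, 7, 3), (9, 3, 5), (13, 3, 6), (8, 6, 3), (15, 2, 5)]
  | 2, 7 => [(0, 4, 7), (16, 9, 4), (11, 5, 0), (3, 5, 0), (6, 7, 11), (1, 0, 3), (2, 10, 0), (12, 2, 0), (13, 4, 7), (5, 3, 2), (10, 3, 0), (19, 7, 11)]
  | 2, 8 => [(0, 3, 6), (11, 4, 7), (3, 3, 7), (6, 4, 9), (15, 4, 5), (2, 4, 12), (12, 4, 5), (16, 3, 7), (19, 4, 9), (9, 5, 4)]
  | 3, 0 => [(0, 2, 3), (0, 2, 4), (12, 2, 3), (12, 2, 4), (9, 2, 1), (9, 2, 3), (17, 2, 3), (17, 2, 1), (14, 2, 3), (14, 2, 4), (13, 2, 3), (10, 2, 3), (13, 2, 4), (10, 2, 4), (4, 2, 3), (4, 2, 4), (3, 2, 3), (3, 2, 4)]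
  | 3, 1 => [(0, 5, 3), (0, 0, 4), (12, 5, 3), (14, 5, 4), (2, 2, 3), (13, 5, 3), (10, 5, 3), (18, 2, 1), (7, 2, 3), (4, 5, 3), (16, 2, 1), (13, 6, 7), (19, 0, 2), (7, 4, 1), (1, 2, 3), (15, 2, 3), (3, 5, 3), (0, 6, 7)]
  | 3, 2 => [(0, 8, 5), (12, 6, 5), (14, 6, 5), (3, 6, 7), (2, 4, 2), (13, 8, 5), (10, 6, 5), (18, 3, 2), (7, 5, 2), (4, 6, 5), (16, 3, 2), (12, 7, 0), (1, 4, 2), (3, 8, 5), (9, 4, 5), (9, 6, 0), (5, 2, 3), (12, 8, 9), (8, 2, 0), (17, 4, 0), (11, 2, 0), (8, 3, 4), (17, 5, 6), (3, 9, 10), (13, 9, 10), (10, 7, 8)]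
  | 3, 3 => [(13, 11, 1), (11, 3, 1), (2, 5, 6), (9, 5, 7), (12, 10, 1), (18, 0, 4), (18, 5, 6), (6, 0, 1), (12, 9, 11), (10, 9, 10), (13, 0, 1), (3, 7, 1), (5, 3, 1), (2, 0, 3), (15, 0, 4), (15, 2, 5), (7, 0, 6), (17, 6, 7), (8, 4, 5), (3, 10, 11), (13, 10, 12), (10, 8, 11)]
  | 3, 4 => [(0, 6, 9), (12, 10, 12), (14, 0, 7), (2, 5, 7), (13, 6, 13), (10, 9, 12), (18, 5, 7), (7, 4, 7), (4, 0, 7), (13, 11, 14), (1, 0, 5), (11, 3, 4), (3, 0, 12), (5, 0, 4), (16, 0, 3), (10, 0, 13)]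
  | 3, 5 => [(0, 9, 8), (12, 12, 6), (14, 7, 6), (3, 13, 6), (2, 7, 4), (13, 13, 8), (10, 12, 6), (18, 7, 3), (7, 7, 5), (4, 7, 6), (1, 5, 4), (11, 4, 5), (3, 12, 8), (5, 4, 5), (12, 7, 13)]
  | 3, 6 => [(0, 1, 7), (8, 6, 7), (19, 2, 3), (13, 1, 7), (7, 8, 1), (15, 1, 3), (8, 7, 6), (14, 1, 3), (18, 4, 6), (1, 1, 3), (4, 1, 4), (2, 1, 6), (7, 1, 8)]
  | 3, 7 => [(12, 8, 13), (9, 4, 6), (17, 5, 4), (5, 5, 2), (13, 9, 14), (10, 7, 13), (8, 3, 2), (4, 8, 9), (4, 9, 8), (11, 2, 5), (3, 9, 13)]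
  | 3, 8 => [(12, 4, 11), (9, 3, 7), (17, 3, 7), (13, 4, 12), (10, 4, 11), (19, 3, 1), (8, 1, 5), (7, 3, 6), (15, 4, 5), (10, 1, 10), (3, 4, 11)]
  | 4, 0 => [(0, 2, 3), (2, 2, 3), (0, 2, 4), (2, 2, 4), (12, 2, 3), (8, 2, 3), (12, 2, 4), (8, 2, 4), (11, 2, 3), (11, 2, 4), (3, 2, 3), (3, 2, 4), (14, 2, 3), (14, 2, 4)]
  | 4, 1 => [(2, 5, 3), (0, 5, 4), (18, 2, 3), (13, 2, 3), (12, 5, 3), (8, 0, 3), (1, 0, 2), (6, 0, 2), (11, 5, 3), (1, 3, 4), (3, 5, 3), (6, 3, 4), (4, 2, 3), (17, 2, 3), (14, 5, 3), (5, 2, 3)]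
  | 4, 2 => [(2, 6, 5), (0, 6, 5), (18, 4, 2), (14, 6, 7), (13, 4, 2), (12, 6, 5), (7, 2, 0), (9, 2, 0), (17, 4, 0), (15, 2, 0), (16, 2, 0), (11, 6, 5), (3, 6, 5), (6, 5, 3), (9, 3, 4), (4, 4, 2), (11, 7, 8), (17, 4, 2), (14, 8, 5), (12, 7, 8), (5, 1, 2), (12, 9, 10), (11, 9, 10), (11, 1, 11), (16, 3, 4), (16, 5, 6), (2, 1, 7), (3, 1, 7), (17, 5, 6), (6, 1, 6), (0, 1, 7), (8, 5, 6), (3, 8, 9), (14, 9, 10)]
  | 4, 3 => [(6, 7, 8), (4, 0, 5), (5, 0, 3), (3, 0, 10), (11, 0, 12), (13, 0, 5), (3, 11, 12), (11, 8, 13), (9, 4, 5), (9, 6, 7), (12, 8, 11), (18, 5, 6), (16, 4, 7), (2, 7, 8), (11, 10, 14), (6, 6, 4), (16, 6, 8), (17, 6, 7), (0, 7, 8), (8, 6, 7), (3, 9, 13), (14, 10, 11)]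
  | 4, 4 => [(2, 0, 9), (0, 0, 9), (18, 0, 7), (14, 0, 12), (19, 0, 1), (12, 0, 12), (12, 10, 13), (11, 11, 15), (3, 7, 14), (6, 7, 9), (10, 0, 1), (1, 3, 5), (14, 7, 13), (3, 11, 15), (18, 5, 1), (9, 6, 8)]
  | 4, 5 => [(2, 9, 6), (0, 9, 6), (18, 7, 4), (14, 12, 6), (19, 1, 2), (12, 13, 6), (16, 9, 2), (11, 15, 6), (3, 14, 6), (6, 9, 5), (4, 1, 4), (1, 5, 1), (19, 2, 1), (14, 13, 8), (9, 8, 1), (15, 3, 1), (7, 3, 1), (12, 9, 1)]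
  | 4, 6 => [(1, 4, 2), (6, 8, 2), (4, 3, 5), (3, 12, 10), (18, 3, 6), (9, 7, 9)]
  | 4, 7 => [(7, 2, 3), (16, 5, 9), (11, 7, 9), (9, 3, 2), (12, 7, 12), (8, 5, 1), (3, 8, 15), (15, 2, 3), (18, 8, 9), (18, 9, 8), (17, 5, 1), (13, 1, 4), (14, 9, 1), (16, 3, 1)]
  | 4, 8 => [(0, 3, 8), (2, 4, 8), (16, 7, 8), (11, 12, 13), (13, 5, 3), (9, 9, 5), (12, 4, 11), (8, 4, 7), (11, 4, 14), (3, 4, 13), (17, 3, 7), (14, 4, 11)]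
  | 5, 0 => [(0, 2, 3), (0, 2, 4), (8, 2, 3), (8, 2, 4), (11, 2, 3), (11, 2, 4), (2, 2, 3), (2, 2, 4), (14, 2, 3), (14, 2, 4)]
  | 5, 1 => [(0, 5, 3), (8, 5, 3), (11, 5, 3), (1, 2, 3), (3, 2, 3), (4, 2, 3), (2, 5, 3), (17, 2, 3), (9, 2, 3), (14, 5, 3), (5, 2, 3), (18, 2, 3)]
  | 5, 2 => [(0, 1, 5), (13, 2, 3), (8, 6, 5), (11, 6, 5), (3, 4, 2), (4, 4, 2), (2, 6, 5), (17, 4, 2), (9, 1, 2), (14, 6, 5), (15, 2, 3), (5, 0, 2), (12, 2, 3), (18, 4, 2), (8, 1, 7), (14, 1, 7), (10, 2, 3), (11, 0, 7), (6, 2, 3), (17, 1, 5), (16, 2, 3), (16, 4, 5), (15, 1, 4), (2, 0, 7), (3, 0, 5), (17, 6, 7), (6, 0, 4), (0, 0, 6), (8, 8, 9), (12, 4, 5), (14, 8, 9), (3, 6, 7), (11, 8, 9), (2, 8, 9)]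
  | 5, 3 => [(12, 3, 6), (9, 4, 3), (1, 4, 5), (4, 5, 3), (5, 4, 3), (18, 5, 3), (16, 3, 6), (15, 4, 5), (15, 3, 6), (6, 3, 5), (6, 4, 6), (16, 5, 7), (17, 7, 8), (12, 5, 7), (0, 6, 7), (8, 9, 10), (14, 9, 10), (3, 7, 8), (11, 9, 10), (2, 9, 10)]
  | 5, 4 => [(8, 7, 11), (11, 7, 11), (3, 5, 9), (1, 4, 6), (10, 3, 0), (1, 2, 7), (2, 7, 11), (13, 3, 1), (17, 5, 9), (5, 4, 5), (14, 7, 11), (18, 5, 0), (9, 4, 5), (4, 5, 1)]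
  | 5, 5 => [(8, 11, 6), (11, 11, 6), (3, 9, 4), (4, 0, 4), (7, 2, 1), (1, 7, 0), (2, 11, 6), (7, 1, 2), (17, 9, 4), (14, 11, 6), (18, 1, 4), (9, 5, 0), (16, 1, 4), (15, 7, 0), (7, 1, 0), (19, 1, 0), (12, 2, 0), (6, 1, 7), (5, 1, 5)]
  | 5, 6 => [(1, 3, 5)]
  | 5, 7 => [(2, 12, 13), (8, 8, 0), (11, 8, 1), (3, 6, 1), (6, 2, 7), (15, 2, 7), (2, 13, 12), (1, 1, 6), (2, 8, 1), (12, 4, 1), (17, 6, 0), (13, 0, 2), (14, 8, 0), (10, 2, 1), (16, 2, 0)]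
  | 5, 8 => [(0, 4, 7), (16, 6, 7), (8, 4, 10), (11, 4, 10), (3, 3, 8), (6, 6, 5), (15, 5, 6), (2, 4, 10), (12, 6, 7), (17, 3, 8), (14, 4, 10)]
  | 6, 0 => [(12, 2, 1), (12, 2, 3), (9, 2, 0), (9, 2, 3), (17, 2, 3), (17, 2, 0), (16, 2, 3), (16, 2, 4)]
  | 6, 1 => [(0, 2, 3), (12, 4, 3), (9, 4, 3), (17, 4, 3), (16, 5, 3), (3, 2, 3), (11, 2, 3), (19, 2, 3), (18, 2, 0), (6, 2, 1), (16, 6, 0), (19, 4, 5), (7, 2, 0), (2, 2, 1), (15, 2, 3), (10, 2, 1), (16, 7, 1), (0, 4, 5)]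
  | 6, 2 => [(0, 6, 2), (12, 5, 4), (9, 5, 4), (17, 5, 4), (16, 8, 5), (8, 2, 3), (11, 4, 2), (19, 6, 2), (18, 3, 2), (6, 3, 2), (16, 9, 6), (2, 3, 2), (15, 4, 2), (4, 2, 3), (5, 2, 3), (5, 4, 5), (14, 2, 3), (14, 4, 5), (4, 4, 5), (16, 10, 11), (3, 4, 5), (8, 4, 5)]
  | 6, 3 => [(7, 2, 3), (3, 6, 7), (11, 5, 0), (5, 5, 6), (15, 5, 1), (8, 3, 6), (2, 4, 5), (12, 6, 0), (6, 4, 0), (10, 2, 3), (9, 6, 1), (14, 3, 6), (3, 2, 0), (4, 3, 6), (4, 5, 7), (5, 3, 0), (18, 4, 1), (17, 6, 1), (16, 11, 12), (3, 5, 8), (14, 5, 1), (8, 5, 7)]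
  | 6, 4 => [(0, 4, 7), (12, 6, 7), (9, 6, 7), (17, 6, 7), (16, 7, 13), (3, 6, 9), (2, 4, 3), (19, 4, 7), (18, 4, 5), (6, 4, 5), (15, 5, 4), (11, 5, 4)]
  | 6, 5 => [(0, 7, 6), (12, 7, 5), (9, 7, 5), (17, 7, 5), (16, 13, 8), (2, 3, 6), (19, 7, 6), (18, 5, 3), (6, 5, 3), (2, 6, 3)]
  | 6, 6 => [(0, 0, 5), (3, 3, 7), (19, 1, 5), (7, 4, 0), (15, 0, 3), (8, 6, 1), (14, 0, 7), (13, 0, 1), (1, 0, 1), (5, 7, 1), (4, 0, 7), (11, 3, 1), (2, 0, 5), (7, 0, 4)]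
  | 6, 7 => [(14, 2, 4), (16, 10, 9), (5, 4, 2), (8, 4, 2), (3, 4, 9), (4, 2, 4)]
  | 6, 8 => [(14, 7, 6), (16, 4, 12), (5, 7, 6), (19, 3, 0), (8, 0, 7), (3, 1, 8), (10, 0, 3), (4, 1, 6), (7, 1, 3), (0, 1, 3)]
  | 7, 0 => [(0, 2, 3), (0, 2, 4), (8, 2, 3), (8, 2, 4), (5, 2, 3), (5, 2, 4), (18, 2, 3), (18, 2, 4), (15, 2, 3), (15, 2, 4), (4, 2, 3), (4, 2, 4), (15, 5, 6), (15, 5, 7), (17, 2, 3), (17, 2, 4), (9, 2, 3), (9, 2, 4), (10, 2, 3), (10, 2, 4)]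
  | 7, 1 => [(0, 5, 4), (8, 5, 3), (8, 6, 7), (5, 5, 3), (13, 2, 3), (18, 5, 4), (15, 8, 3), (4, 5, 3), (15, 9, 6), (1, 2, 3), (17, 5, 3), (4, 6, 7), (6, 2, 3), (9, 5, 3), (10, 5, 3), (17, 6, 7)]
  | 7, 2 => [(0, 6, 5), (8, 8, 5), (5, 6, 5), (13, 1, 2), (10, 6, 7), (18, 6, 5), (15, 10, 8), (4, 8, 5), (15, 11, 9), (1, 4, 2), (17, 8, 5), (15, 1, 12), (6, 0, 2), (4, 1, 9), (9, 6, 5), (8, 9, 10), (10, 8, 9), (1, 5, 6), (2, 1, 2), (15, 13, 14), (3, 1, 2), (14, 1, 2), (10, 10, 5), (12, 2, 3), (17, 0, 6), (8, 11, 12), (17, 9, 10), (11, 0, 2), (8, 13, 14), (19, 0, 2), (12, 4, 5), (0, 7, 8), (14, 0, 3), (4, 10, 11), (3, 0, 3), (18, 7, 8), (5, 7, 8), (9, 7, 8), (15, 15, 16), (10, 11, 12)]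
  | 7, 3 => [(8, 15, 16), (4, 9, 12), (1, 7, 8), (6, 4, 5), (8, 12, 7), (3, 2, 4), (17, 11, 12), (8, 10, 17), (12, 3, 6), (15, 14, 17), (14, 2, 4), (14, 3, 5), (13, 4, 5), (17, 10, 13), (8, 14, 18), (12, 5, 7), (0, 8, 9), (3, 3, 5), (4, 11, 13), (18, 8, 9), (5, 8, 9), (9, 8, 9), (15, 16, 18), (10, 12, 13)]
  | 7, 4 => [(8, 6, 19), (19, 2, 3), (10, 9, 14), (8, 15, 20), (4, 6, 14), (15, 12, 19), (1, 6, 9), (17, 11, 14), (11, 2, 3), (6, 4, 1), (13, 4, 0), (1, 7, 1), (2, 2, 3), (10, 7, 15)]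
  | 7, 5 => [(0, 0, 6), (8, 19, 8), (5, 10, 6), (18, 1, 6), (4, 14, 8), (15, 19, 11), (1, 9, 4), (17, 14, 8), (15, 10, 20), (11, 3, 4), (11, 4, 3), (10, 1, 8), (2, 3, 0), (11, 1, 3), (5, 6, 10), (10, 15, 10), (9, 1, 6), (17, 1, 15), (15, 21, 0), (10, 6, 14), (19, 1, 3), (5, 6, 0), (4, 15, 0), (1, 5, 0)]
  | 7, 6 => [(8, 16, 7), (4, 12, 7), (1, 8, 3), (17, 12, 7)]
  | 7, 7 => [(0, 7, 1), (8, 9, 20), (8, 13, 1), (5, 7, 1), (18, 7, 0), (15, 15, 21), (4, 10, 15), (15, 13, 20), (12, 2, 1), (17, 9, 15), (7, 0, 1), (16, 0, 1), (9, 7, 0), (12, 4, 0), (8, 0, 11), (10, 11, 0)]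
  | 7, 8 => [(0, 3, 9), (8, 4, 17), (14, 5, 4), (8, 7, 18), (5, 4, 9), (18, 3, 9), (15, 4, 18), (4, 4, 13), (15, 7, 17), (17, 4, 13), (3, 4, 5), (6, 3, 5), (13, 5, 3), (9, 4, 9), (12, 6, 7), (10, 4, 13)]
  | 8, 0 => [(0, 2, 3), (0, 2, 0), (18, 2, 3), (18, 2, 4), (1, 2, 3), (1, 2, 1)]
  | 8, 1 => [(0, 4, 3), (14, 2, 3), (18, 5, 3), (15, 2, 3), (4, 2, 3), (1, 4, 3), (14, 4, 0), (2, 2, 3), (18, 6, 0), (10, 2, 3), (8, 2, 3), (9, 2, 3), (13, 2, 0), (10, 4, 1), (1, 5, 0), (17, 2, 3), (19, 2, 3), (9, 4, 1), (6, 2, 1), (0, 5, 1)]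
  | 8, 2 => [(0, 6, 4), (18, 7, 5), (4, 4, 2), (1, 6, 4), (14, 5, 4), (18, 8, 9), (11, 2, 3), (2, 4, 2), (18, 10, 6), (4, 5, 6), (2, 5, 6), (16, 2, 3), (13, 3, 2), (10, 5, 4), (5, 2, 3), (7, 2, 3), (9, 5, 4), (5, 4, 5), (6, 3, 2), (7, 4, 5), (11, 4, 5), (16, 4, 5)]
  | 8, 3 => [(18, 9, 11), (9, 6, 7), (6, 4, 0), (13, 4, 1), (4, 7, 0), (18, 12, 13), (15, 2, 0), (9, 2, 8), (17, 2, 0), (16, 3, 0), (11, 3, 6), (2, 7, 1), (5, 5, 0), (7, 3, 6), (8, 2, 1), (7, 5, 7), (19, 2, 1), (5, 3, 1), (11, 5, 7), (16, 5, 1)]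
  | 8, 4 => [(0, 5, 7), (18, 12, 14), (4, 6, 8), (1, 5, 7), (14, 2, 6), (2, 6, 8), (4, 7, 9), (2, 7, 9), (10, 2, 6), (13, 4, 5), (9, 6, 9), (6, 4, 5)]
  | 8, 5 => [(0, 7, 6), (18, 14, 7), (4, 8, 4), (1, 7, 6), (14, 6, 5), (2, 8, 4), (4, 9, 5), (2, 9, 5), (10, 6, 5), (9, 9, 5), (18, 10, 15)]
  | 8, 6 => [(1, 8, 0), (9, 7, 3), (14, 7, 3), (19, 0, 3), (2, 0, 3), (18, 13, 1), (10, 3, 7), (10, 0, 7), (17, 1, 3), (8, 0, 3), (15, 3, 1), (9, 0, 8), (1, 0, 8), (14, 7, 1), (4, 3, 1)]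
  | 8, 7 => [(18, 8, 15), (6, 3, 5), (11, 4, 2), (5, 4, 2), (16, 4, 2), (13, 5, 3), (7, 4, 2)]
  | 8, 8 => [(18, 4, 11), (11, 0, 7), (16, 6, 1), (7, 0, 6), (12, 0, 1), (7, 1, 7), (11, 1, 6), (3, 1, 0), (16, 1, 6)]

private def kk : Fin 9 → List (ℕ × ℕ × List (ℤ × ℤ))
  | 0 => [(0, 1, [(1, 0), (-19, 1)]),
    (0, 1, [(1, 0), (-28, 19), (-1, 1), (-3, 2), (-59, 40), (-7, 5)]),
    (0, 1, [(1, 0), (-25, 19), (-1, 1), (-4, 3), (-53, 40), (-7, 5), (-45, 34), (-33, 25), (-86, 65), (-41, 31), (-46, 35)]),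
    (0, 1, [(1, 0), (-22, 19), (-1, 1), (-15, 13), (-29, 25), (-23, 20), (-6, 5), (-8, 7)]),
    (0, 1, [(1, 0), (-1, 1)]),
    (0, 1, [(1, 0), (-16, 19), (-1, 1), (-6, 7), (-4, 5), (-17, 20), (-21, 25), (-11, 13)]),
    (0, 1, [(1, 0), (-13, 19), (-2, 3), (-13, 20), (-17, 25), (-1, 1), (-9, 14), (-3, 5), (-16, 25), (-7, 11)]),
    (0, 1, [(1, 0), (-10, 19), (-1, 1), (-3, 5), (-1, 2), (-21, 40)]),
    (0, 1, [(1, 0), (-7, 19), (-1, 1), (-3, 5), (-1, 2), (-2, 5), (-3, 8), (-13, 35)]),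
    (0, 1, [(1, 0), (-4, 19), (-1, 1), (-3, 5), (-1, 2), (0, 1), (-1, 5), (-2, 5)]),
    (0, 1, [(1, 0), (-1, 19), (-1, 1), (-3, 5), (-1, 2), (0, 1), (-1, 20), (-2, 5)]),
    (0, 1, [(1, 0), (2, 19), (-1, 1), (-3, 5), (-1, 2), (0, 1), (1, 10), (-2, 5)]),
    (0, 1, [(1, 0), (5, 19), (-1, 1), (-3, 5), (1, 5), (0, 1), (-1, 2), (13, 50), (6, 23), (17, 65), (-2, 5), (1, 4)]),
    (0, 1, [(1, 0), (8, 19), (-1, 1), (-3, 5), (0, 1), (2, 5), (-1, 2), (-2, 5)]),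
    (0, 1, [(1, 0), (11, 19), (2, 1), (3, 5), (7, 5), (3, 2), (8, 5), (1, 1)]),
    (0, 1, [(1, 0), (14, 19), (2, 1), (48, 65), (17, 23), (4, 5), (3, 4), (7, 5), (3, 2), (8, 5), (37, 50), (1, 1)]),
    (0, 1, [(1, 0), (17, 19), (2, 1), (1, 1), (9, 10), (7, 5), (3, 2), (8, 5)]),
    (0, 1, [(1, 0), (20, 19), (2, 1), (1, 1), (21, 20), (7, 5), (3, 2), (8, 5)]),
    (0, 1, [(1, 0), (23, 19), (2, 1), (1, 1), (6, 5), (7, 5), (3, 2), (8, 5)]),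
    (0, 1, [(1, 0), (26, 19), (2, 1), (48, 35), (7, 5), (3, 2), (11, 8), (8, 5)])]
  | 1 => [(0, 1, [(-57, 5), (-19, 1), (1, 0), (-10, 1), (-53, 5), (-21, 2), (-52, 5), (-11, 1)]),
    (0, 1, [(-138, 95), (-28, 19), (-3, 2), (-59, 40), (-29, 20), (-16, 11)]),
    (0, 1, [(-123, 95), (-25, 19), (-4, 3), (-53, 40), (-7, 5), (-45, 34), (-33, 25), (-5, 4), (-6, 5), (-86, 65), (-22, 17), (-1, 1), (-41, 31), (-13, 10), (-46, 35)]),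
    (0, 1, [(-108, 95), (-22, 19), (-15, 13), (-29, 25), (-23, 20), (-74, 65), (-33, 29), (-25, 22), (-91, 80), (-8, 7)]),
    (0, 1, [(-93, 95), (-1, 1)]),
    (0, 1, [(-78, 95), (-16, 19), (-6, 7), (-4, 5), (-17, 20), (-23, 28), (-41, 50), (-9, 11), (-21, 25), (-11, 13)]),
    (0, 1, [(-63, 95), (-13, 19), (-2, 3), (-73, 110), (-17, 25), (-69, 104), (-136, 205), (-67, 101)]),
    (0, 1, [(-48, 95), (-10, 19), (-1, 2), (-21, 40)]),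
    (0, 1, [(-33, 95), (-7, 19), (-4, 11), (-9, 25), (-2, 5), (-3, 8), (-8, 23), (-5, 14), (-13, 35), (-7, 20)]),
    (0, 1, [(-18, 95), (-4, 19), (-7, 37), (-1, 5)]),
    (0, 1, [(-3, 95), (-1, 19), (-1, 32), (0, 1), (-1, 20), (-2, 65)]),
    (0, 1, [(12, 95), (2, 19), (1, 8), (1, 10)]),
    (0, 1, [(27, 95), (5, 19), (13, 50), (6, 23), (3, 10), (2, 7), (17, 65), (1, 4)]),
    (0, 1, [(42, 95), (8, 19), (19, 43), (3, 7), (2, 5), (11, 25)]),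
    (0, 1, [(3, 5), (11, 19)]),
    (0, 1, [(72, 95), (14, 19), (48, 65), (22, 29), (17, 23), (3, 4), (19, 25), (37, 50)]),
    (0, 1, [(87, 95), (17, 19), (54, 59), (32, 35), (119, 130), (9, 10), (10, 11), (65, 71)]),
    (0, 1, [(102, 95), (20, 19), (15, 14), (43, 40), (1, 1), (21, 20), (59, 55), (27, 25), (14, 13), (44, 41)]),
    (0, 1, [(117, 95), (23, 19), (16, 13), (6, 5)]),
    (0, 1, [(132, 95), (26, 19), (25, 18), (257, 185), (118, 85), (48, 35), (207, 149), (11, 8), (389, 280), (43, 31), (111, 80), (68, 49), (182, 131), (7, 5)])]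
  | 2 => [(0, 1, [(-19, 2), (-57, 5), (-48, 5), (-10, 1), (-53, 5), (-21, 2), (-52, 5), (-11, 1)]),
    (0, 1, [(-55, 38), (-138, 95), (-16, 11), (-29, 20)]),
    (0, 1, [(-49, 38), (-123, 95), (-58, 45), (-67, 52), (-107, 83), (-219, 170), (-76, 59), (-22, 17), (-13, 10), (-9, 7), (-361, 280), (-156, 121), (-419, 325), (-161, 125)]),
    (0, 1, [(-43, 38), (-108, 95), (-17, 15), (-26, 23), (-25, 22), (-181, 160), (-69, 61), (-164, 145)]),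
    (0, 1, [(-37, 38), (-93, 95), (-1, 1), (-39, 40)]),
    (0, 1, [(-31, 38), (-78, 95), (-23, 28), (-41, 50), (-9, 11), (-53, 65)]),
    (0, 1, [(-25, 38), (-63, 95), (-2, 3), (-73, 110), (-13, 20), (-69, 104), (-136, 205), (-19, 29), (-36, 55), (-17, 26), (-67, 101), (-23, 35)]),
    (0, 1, [(-1, 2), (-48, 95)]),
    (0, 1, [(-13, 38), (-33, 95), (-9, 26), (-7, 20), (-19, 55), (-12, 35), (-8, 23), (-10, 29)]),
    (0, 1, [(-7, 38), (-18, 95), (-12, 65), (-2, 11), (-7, 37), (-1, 5)]),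
    (0, 1, [(-1, 38), (-3, 95), (-1, 32), (-1, 40), (0, 1), (-2, 65)]),
    (0, 1, [(5, 38), (12, 95), (2, 15), (1, 8), (7, 53), (29, 220), (12, 91), (31, 235)]),
    (0, 1, [(11, 38), (27, 95), (29, 100), (9, 31), (2, 7), (16, 55)]),
    (0, 1, [(17, 38), (42, 95), (9, 20), (1, 2), (19, 43), (3, 7), (2, 5), (11, 25)]),
    (0, 1, [(23, 38), (3, 5)]),
    (0, 1, [(29, 38), (72, 95), (22, 29), (42, 55), (13, 17), (19, 25)]),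
    (0, 1, [(35, 38), (87, 95), (54, 59), (32, 35), (1, 1), (9, 10), (119, 130), (10, 11), (65, 71), (23, 25)]),
    (0, 1, [(41, 38), (102, 95), (15, 14), (43, 40), (59, 55), (27, 25), (14, 13), (44, 41)]),
    (0, 1, [(47, 38), (117, 95), (21, 17), (31, 25), (68, 55), (16, 13), (6, 5), (5, 4)]),
    (0, 1, [(53, 38), (132, 95), (25, 18), (257, 185), (118, 85), (207, 149), (389, 280), (43, 31), (111, 80), (68, 49), (182, 131), (7, 5)])]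
  | 3 => [(0, 1, [(57, 5), (19, 2), (1, 0), (8, 1), (11, 1), (42, 5), (9, 1), (47, 5), (17, 2), (43, 5)]),
    (0, 1, [(-132, 95), (-53, 38), (-57, 41), (-7, 5), (-139, 100), (-82, 59)]),
    (0, 1, [(-117, 95), (-47, 38), (-6, 5), (-16, 13), (-5, 4), (-21, 17), (-68, 55), (-31, 25)]),
    (0, 1, [(-102, 95), (-41, 38), (-29, 27), (-247, 230), (-188, 175), (-189, 176), (-14, 13), (-27, 25), (-349, 325), (-101, 94), (-231, 215), (-130, 121), (-160, 149), (-43, 40)]),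
    (0, 1, [(-87, 95), (-35, 38), (-11, 12), (-142, 155), (-23, 25), (-120, 131), (-229, 250), (-109, 119), (-32, 35), (-10, 11)]),
    (0, 1, [(-72, 95), (-29, 38), (-13, 17), (-42, 55), (-22, 29), (-19, 25)]),
    (0, 1, [(-3, 5), (-23, 38)]),
    (0, 1, [(-42, 95), (-17, 38), (-3, 7), (-11, 25), (-9, 20), (-2, 5), (-19, 43), (-1, 2), (-38, 85)]),
    (0, 1, [(-27, 95), (-11, 38), (-2, 7), (-16, 55), (-9, 31), (-29, 100), (-1, 5), (-1, 4)]),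
    (0, 1, [(-12, 95), (-5, 38), (-2, 15), (-1, 7), (-1, 10), (0, 1), (-1, 8), (-1, 5)]),
    (0, 1, [(3, 95), (1, 38), (1, 30), (1, 29), (2, 61), (3, 85), (1, 28), (7, 215), (3, 92), (0, 1), (1, 40), (8, 245), (2, 55), (1, 31)]),
    (0, 1, [(18, 95), (7, 38), (7, 37), (12, 65), (2, 11), (1, 5)]),
    (0, 1, [(33, 95), (13, 38), (1, 3), (17, 50), (2, 5), (15, 44), (29, 85), (8, 23), (5, 14), (9, 25), (12, 35), (4, 11), (14, 41), (7, 20)]),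
    (0, 1, [(48, 95), (1, 2), (1, 0), (-1, 1), (2, 1), (-3, 5), (0, 1), (2, 5), (-1, 2), (7, 5), (3, 2), (3, 5), (8, 5), (-2, 5), (1, 1)]),
    (0, 1, [(63, 95), (25, 38), (2, 3), (23, 35), (53, 80), (57, 86), (116, 175), (59, 89)]),
    (0, 1, [(78, 95), (31, 38), (9, 11), (53, 65), (23, 28), (41, 50)]),
    (0, 1, [(93, 95), (37, 38), (39, 40), (1, 1)]),
    (0, 1, [(108, 95), (43, 38), (17, 15), (8, 7), (25, 22), (91, 80), (33, 29), (74, 65)]),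
    (0, 1, [(123, 95), (49, 38), (129, 100), (40, 31), (22, 17), (9, 7), (13, 10), (71, 55)]),
    (0, 1, [(138, 95), (55, 38), (16, 11), (29, 20)])]
  | 4 => [(0, 1, [(0, 1), (-38, 5), (1, 0), (-7, 1), (-1, 1), (-3, 5), (-1, 2), (-15, 2), (-37, 5), (-2, 5)]),
    (0, 1, [(-27, 19), (-137, 95), (-7, 5), (-36, 25), (-10, 7), (-62, 43)]),
    (0, 1, [(-24, 19), (-122, 95), (-19, 15), (-43, 34), (-14, 11), (-177, 140), (-67, 53), (-9, 7), (-32, 25), (-158, 125)]),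
    (0, 1, [(-21, 19), (-107, 95), (-17, 15), (-26, 23), (-25, 22), (-96, 85), (-35, 31), (-9, 8), (-74, 65), (-33, 29), (-11, 10), (-6, 5), (-1, 1), (-91, 80), (-79, 70), (-8, 7)]),
    (0, 1, [(-18, 19), (-92, 95), (-63, 65), (-1, 1), (-31, 32), (-19, 20)]),
    (0, 1, [(-15, 19), (-77, 95), (-30, 37), (-4, 5)]),
    (0, 1, [(-12, 19), (-62, 95), (-22, 35), (-9, 14), (-13, 20), (-16, 25), (-15, 23), (-3, 5), (-5, 8), (-7, 11)]),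
    (0, 1, [(-9, 19), (-47, 95), (-19, 40), (-1, 2)]),
    (0, 1, [(-6, 19), (-32, 95), (-1, 3), (-8, 25), (-37, 110), (-34, 101), (-69, 205), (-35, 104)]),
    (0, 1, [(-3, 19), (-17, 95), (-4, 25), (-2, 13), (-3, 20), (-1, 7), (-9, 50), (-2, 11), (-5, 28), (-1, 5)]),
    (0, 1, [(0, 1), (-2, 95)]),
    (0, 1, [(3, 19), (13, 95), (2, 15), (5, 37), (1, 8), (21, 155), (8, 59), (1, 7), (3, 20), (1, 5), (0, 1), (3, 22), (4, 25), (2, 13), (1, 10), (19, 140)]),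
    (0, 1, [(6, 19), (28, 95), (1, 3), (2, 5), (13, 40), (0, 1), (1, 5), (10, 31), (21, 65), (5, 17), (3, 10), (11, 34), (8, 25), (1, 4)]),
    (0, 1, [(9, 19), (43, 95), (9, 20), (1, 2), (5, 11), (19, 40)]),
    (0, 1, [(12, 19), (58, 95), (11, 18), (52, 85), (113, 185), (30, 49), (5, 8), (3, 5), (49, 80), (80, 131), (171, 280), (91, 149), (22, 35), (19, 31)]),
    (0, 1, [(15, 19), (73, 95), (4, 5), (10, 13)]),
    (0, 1, [(18, 19), (88, 95), (19, 20), (38, 41), (51, 55), (23, 25), (12, 13), (13, 14), (37, 40), (1, 1)]),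
    (0, 1, [(21, 19), (103, 95), (12, 11), (38, 35), (11, 10), (77, 71), (141, 130), (64, 59)]),
    (0, 1, [(24, 19), (118, 95), (63, 50), (5, 4), (29, 23), (36, 29), (31, 25), (82, 65), (7, 5), (1, 1)]),
    (0, 1, [(27, 19), (7, 5), (10, 7)])]
  | 5 => [(0, 1, [(-38, 5), (-19, 2), (1, 0), (-10, 1), (-7, 1), (-48, 5), (-15, 2), (-37, 5)]),
    (0, 1, [(-137, 95), (-55, 38), (-36, 25), (-10, 7), (-3, 2), (-7, 5), (-29, 20), (-62, 43)]),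
    (0, 1, [(-122, 95), (-49, 38), (-58, 45), (-67, 52), (-107, 83), (-219, 170), (-76, 59), (-9, 7), (-361, 280), (-156, 121), (-419, 325), (-161, 125), (-13, 10), (-5, 4)]),
    (0, 1, [(-107, 95), (-43, 38), (-96, 85), (-26, 23), (-35, 31), (-9, 8), (-181, 160), (-69, 61), (-164, 145), (-79, 70)]),
    (0, 1, [(-92, 95), (-37, 38), (-63, 65), (-1, 1), (-31, 32), (-39, 40)]),
    (0, 1, [(-77, 95), (-31, 38), (-30, 37), (-4, 5), (-9, 11), (-53, 65)]),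
    (0, 1, [(-62, 95), (-25, 38), (-19, 29), (-36, 55), (-15, 23), (-17, 26), (-13, 20), (-23, 35)]),
    (0, 1, [(-47, 95), (-1, 2), (-2, 5)]),
    (0, 1, [(-32, 95), (-13, 38), (-1, 3), (-7, 20), (-37, 110), (-9, 26), (-19, 55), (-12, 35), (-34, 101), (-69, 205), (-35, 104), (-10, 29)]),
    (0, 1, [(-17, 95), (-7, 38), (-12, 65), (-2, 11), (-9, 50), (-5, 28)]),
    (0, 1, [(-2, 95), (-1, 38), (-1, 40), (0, 1)]),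
    (0, 1, [(13, 95), (5, 38), (2, 15), (5, 37), (7, 53), (21, 155), (8, 59), (3, 22), (29, 220), (12, 91), (31, 235), (19, 140)]),
    (0, 1, [(28, 95), (11, 38), (5, 17), (3, 10), (29, 100), (9, 31), (2, 7), (16, 55)]),
    (0, 1, [(43, 95), (17, 38), (5, 11), (9, 20)]),
    (0, 1, [(58, 95), (23, 38), (11, 18), (52, 85), (113, 185), (30, 49), (49, 80), (3, 5), (80, 131), (171, 280), (91, 149), (19, 31)]),
    (0, 1, [(73, 95), (29, 38), (4, 5), (3, 4), (42, 55), (13, 17), (19, 25), (10, 13)]),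
    (0, 1, [(88, 95), (35, 38), (38, 41), (51, 55), (23, 25), (12, 13), (13, 14), (37, 40)]),
    (0, 1, [(103, 95), (41, 38), (12, 11), (38, 35), (11, 10), (27, 25), (77, 71), (141, 130), (64, 59), (1, 1)]),
    (0, 1, [(118, 95), (47, 38), (21, 17), (31, 25), (68, 55), (36, 29)]),
    (0, 1, [(7, 5), (53, 38)])]
  | 6 => [(0, 1, [(19, 2), (38, 5), (42, 5), (8, 1), (9, 1), (47, 5), (17, 2), (43, 5)]),
    (0, 1, [(-53, 38), (-7, 5)]),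
    (0, 1, [(-47, 38), (-118, 95), (-36, 29), (-31, 25), (-21, 17), (-68, 55), (-5, 4)]),
    (0, 1, [(-41, 38), (-103, 95), (-27, 25), (-1, 1), (-64, 59), (-141, 130), (-12, 11), (-11, 10), (-77, 71), (-38, 35)]),
    (0, 1, [(-35, 38), (-88, 95), (-13, 14), (-51, 55), (-37, 40), (-12, 13), (-38, 41), (-23, 25)]),
    (0, 1, [(-29, 38), (-73, 95), (-13, 17), (-42, 55), (-19, 25), (-3, 4), (-4, 5), (-10, 13)]),
    (0, 1, [(-23, 38), (-58, 95), (-36, 59), (-61, 100), (-3, 5), (-25, 41)]),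
    (0, 1, [(-17, 38), (-43, 95), (-9, 20), (-5, 11), (-38, 85)]),
    (0, 1, [(-11, 38), (-28, 95), (-2, 7), (-3, 10), (-16, 55), (-9, 31), (-5, 17), (-29, 100)]),
    (0, 1, [(-5, 38), (-13, 95), (-2, 15), (-1, 7), (-9, 65), (-4, 29), (-3, 22), (-11, 80)]),
    (0, 1, [(1, 38), (2, 95), (0, 1), (1, 40)]),
    (0, 1, [(7, 38), (17, 95), (9, 50), (5, 28), (2, 11), (12, 65)]),
    (0, 1, [(13, 38), (32, 95), (1, 3), (17, 50), (15, 44), (29, 85), (12, 35), (14, 41)]),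
    (0, 1, [(1, 2), (47, 95)]),
    (0, 1, [(25, 38), (62, 95), (17, 26), (36, 55), (13, 20), (15, 23), (19, 29), (23, 35)]),
    (0, 1, [(31, 38), (77, 95), (9, 11), (53, 65), (4, 5), (30, 37)]),
    (0, 1, [(37, 38), (92, 95), (29, 30), (59, 61), (28, 29), (237, 245), (39, 40), (30, 31), (89, 92), (1, 1), (53, 55), (27, 28), (82, 85), (208, 215)]),
    (0, 1, [(43, 38), (107, 95), (17, 15), (8, 7), (6, 5), (1, 1), (9, 8), (11, 10)]),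
    (0, 1, [(49, 38), (122, 95), (129, 100), (40, 31), (9, 7), (71, 55)]),
    (0, 1, [(55, 38), (137, 95), (3, 2), (29, 20), (36, 25), (62, 43), (7, 5), (10, 7)])]
  | 7 => [(0, 1, [(133, 5), (19, 1), (1, 0), (20, 1), (26, 1), (132, 5), (53, 2), (97, 5), (39, 2), (98, 5)]),
    (0, 1, [(-128, 95), (-26, 19), (-15, 11), (-7, 5), (-34, 25), (-31, 23), (-27, 20), (-48, 35), (-11, 8), (-19, 14)]),
    (0, 1, [(-113, 95), (-23, 19), (-6, 5), (-44, 37)]),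
    (0, 1, [(-98, 95), (-20, 19), (-21, 20), (-33, 32), (-1, 1), (-67, 65)]),
    (0, 1, [(-83, 95), (-17, 19), (-13, 15), (-19, 22), (-20, 23), (-69, 80), (-6, 7), (-4, 5), (-25, 29), (-9, 10), (-61, 70), (-27, 31), (-1, 1), (-74, 85), (-56, 65), (-7, 8)]),
    (0, 1, [(-68, 95), (-14, 19), (-11, 15), (-8, 11), (-25, 34), (-18, 25), (-5, 7), (-92, 125), (-39, 53), (-103, 140), (-7, 10)]),
    (0, 1, [(-53, 95), (-11, 19), (-24, 43), (-14, 25), (-3, 5), (-4, 7)]),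
    (0, 1, [(-2, 5), (-8, 19)]),
    (0, 1, [(-23, 95), (-5, 19), (-1, 3), (-8, 25), (-7, 20), (-6, 19), (-3, 10), (-1, 4), (-11, 35), (-4, 11), (-9, 25), (-7, 29), (-6, 25), (-17, 65), (-6, 23), (0, 1), (-1, 5), (-5, 14), (-13, 50), (-5, 16), (-2, 5)]),
    (0, 1, [(-8, 95), (-2, 19), (-1, 12), (-2, 25), (-13, 155), (0, 1), (-1, 10), (-10, 119), (-21, 250), (-11, 131)]),
    (0, 1, [(7, 95), (1, 19), (2, 27), (13, 175), (17, 230), (9, 121), (1, 13), (3, 40), (1, 20), (0, 1), (16, 215), (11, 149), (24, 325), (13, 176), (2, 25), (7, 94)]),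
    (0, 1, [(22, 95), (4, 19), (3, 13), (1, 5), (1, 4)]),
    (0, 1, [(37, 95), (7, 19), (13, 35), (3, 8), (23, 59), (39, 100), (2, 5), (16, 41)]),
    (0, 1, [(52, 95), (10, 19), (21, 40), (1, 2), (6, 11), (11, 20)]),
    (0, 1, [(67, 95), (13, 19), (24, 35), (12, 17), (11, 16), (7, 10)]),
    (0, 1, [(82, 95), (16, 19), (13, 15), (7, 8), (32, 37), (5, 6), (46, 55), (29, 35), (9, 10), (36, 43), (1, 1), (67, 80), (21, 25), (14, 17), (33, 40), (121, 140), (51, 59), (19, 23), (134, 155), (31, 37), (4, 5), (19, 22)]),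
    (0, 1, [(97, 95), (1, 1)]),
    (0, 1, [(112, 95), (22, 19), (7, 6), (41, 35), (64, 55), (27, 23), (33, 28), (59, 50), (47, 40), (43, 37), (93, 80), (6, 5), (13, 11), (50, 43), (20, 17), (29, 25)]),
    (0, 1, [(127, 95), (25, 19), (4, 3), (107, 80), (13, 10), (21, 16), (46, 35), (119, 89), (234, 175), (115, 86)]),
    (0, 1, [(142, 95), (28, 19), (3, 2), (59, 40)])]
  | 8 => [(0, 1, [(38, 1), (152, 5), (1, 0), (29, 1), (147, 5), (30, 1), (59, 2), (148, 5)]),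
    (0, 1, [(-25, 19), (-127, 95), (-4, 3), (-53, 40), (-45, 34), (-33, 25), (-86, 65), (-41, 31), (-46, 35)]),
    (0, 1, [(-22, 19), (-112, 95), (-15, 13), (-29, 25), (-23, 20), (-13, 11), (-6, 5), (-33, 28), (-8, 7), (-59, 50)]),
    (0, 1, [(-1, 1), (-97, 95)]),
    (0, 1, [(-16, 19), (-82, 95), (-69, 80), (-19, 22), (-25, 29), (-17, 20), (-6, 7), (-21, 25), (-56, 65), (-11, 13)]),
    (0, 1, [(-13, 19), (-67, 95), (-7, 10), (-12, 17), (-11, 16), (-24, 35)]),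
    (0, 1, [(-10, 19), (-52, 95), (-6, 11), (-11, 20), (-21, 40), (-1, 2)]),
    (0, 1, [(-7, 19), (-37, 95), (-2, 5), (-3, 8), (-16, 41), (-39, 100), (-13, 35), (-23, 59)]),
    (0, 1, [(-4, 19), (-22, 95), (-3, 13), (-1, 5)]),
    (0, 1, [(-1, 19), (-7, 95), (0, 1), (-2, 25), (-3, 41), (-4, 55), (-3, 40), (-1, 13), (-1, 20), (-1, 14)]),
    (0, 1, [(2, 19), (8, 95), (3, 35), (1, 11), (6, 71), (11, 130), (5, 59), (1, 10)]),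
    (0, 1, [(5, 19), (23, 95), (1, 4), (6, 25), (13, 50), (6, 23), (7, 29), (17, 65)]),
    (0, 1, [(8, 19), (2, 5)]),
    (0, 1, [(11, 19), (53, 95), (3, 5), (4, 7), (24, 43), (14, 25)]),
    (0, 1, [(14, 19), (68, 95), (3, 4), (7, 10), (48, 65), (17, 23), (37, 50), (5, 7)]),
    (0, 1, [(17, 19), (83, 95), (9, 10), (7, 8)]),
    (0, 1, [(20, 19), (98, 95), (1, 1), (21, 20), (67, 65), (33, 32), (32, 31)]),
    (0, 1, [(23, 19), (113, 95), (6, 5), (44, 37)]),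
    (0, 1, [(26, 19), (128, 95), (4, 3), (47, 35), (13, 10), (39, 29), (48, 35), (74, 55), (1, 1), (6, 5), (11, 8), (5, 4), (27, 20), (31, 23), (35, 26), (7, 5)]),
    (0, 1, [(29, 19), (143, 95), (3, 2), (61, 40)])]

private theorem c0 : ChkW 3 3 19 9 1 0 (-1) 1 (kk 0) (tcT (T19T 0) (cc 0)) := by
  decide +kernel

private theorem c1 : ChkW 3 3 19 9 (-3) 5 (-1) 1 (kk 1) (tcT (T19T 1) (cc 1)) := by
  decide +kernel

private theorem c2 : ChkW 3 3 19 9 (-1) 2 (-3) 5 (kk 2) (tcT (T19T 2) (cc 2)) := by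
  decide +kernel

private theorem c3 : ChkW 3 3 19 9 3 5 1 2 (kk 3) (tcT (T19T 3) (cc 3)) := by
  decide +kernel

private theorem c4 : ChkW 3 3 19 9 0 1 (-2) 5 (kk 4) (tcT (T19T 4) (cc 4)) := by
  decide +kernel

private theorem c5 : ChkW 3 3 19 9 (-2) 5 (-1) 2 (kk 5) (tcT (T19T 5) (cc 5)) := by
  decide +kernel

private theorem c6 : ChkW 3 3 19 9 1 2 2 5 (kk 6) (tcT (T19T 6) (cc 6)) := by
  decide +kernel

private theorem c7 : ChkW 3 3 19 9 7 5 1 1 (kk 7) (tcT (T19T 7) (cc 7)) := by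
  decide +kernel

private theorem c8 : ChkW 3 3 19 9 2 1 8 5 (kk 8) (tcT (T19T 8) (cc 8)) := by
  decide +kernel

/-- HK19. -/
theorem hHk19 (hf : THkF) (ht : TTre) (hm : S3Trm) : THk 19 T19T := by
  intro r s G hG i
  have h0 : Nat.Prime 19 := by norm_num
  fin_cases i
  · exact row3 hf ht hm 19 h0 (by norm_num) (by norm_num) 9 (T19T 0) _ _ _ _ (by decide) (by decide) _ _
      c0 r s G hG
  · exact row3 hf ht hm 19 h0 (by norm_num) (by norm_num) 9 (T19T 1) _ _ _ _ (by decide) (by decide) _ _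
      c1 r s G hG
  · exact row3 hf ht hm 19 h0 (by norm_num) (by norm_num) 9 (T19T 2) _ _ _ _ (by decide) (by decide) _ _
      c2 r s G hG
  · exact row3 hf ht hm 19 h0 (by norm_num) (by norm_num) 9 (T19T 3) _ _ _ _ (by decide) (by decide) _ _
      c3 r s G hG
  · exact row3 hf ht hm 19 h0 (by norm_num) (by norm_num) 9 (T19T 4) _ _ _ _ (by decide) (by decide) _ _
      c4 r s G hG
  · exact row3 hf ht hm 19 h0 (by norm_num) (by norm_num) 9 (T19T 5) _ _ _ _ (by decide) (by decide) _ _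
      c5 r s G hG
  · exact row3 hf ht hm 19 h0 (by norm_num) (by norm_num) 9 (T19T 6) _ _ _ _ (by decide) (by decide) _ _
      c6 r s G hG
  · exact row3 hf ht hm 19 h0 (by norm_num) (by norm_num) 9 (T19T 7) _ _ _ _ (by decide) (by decide) _ _
      c7 r s G hG
  · exact row3 hf ht hm 19 h0 (by norm_num) (by norm_num) 9 (T19T 8) _ _ _ _ (by decide) (by decide) _ _
      c8 r s G hG

end Pool.Agent.Helper93.T53
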