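import Pool.Agent.Helper93.T53.HkG

/-!
# Levels `5·3^n`: the rows of the Hecke operator `T_2`
-/

set_option autoImplicit false
set_option maxRecDepth 100000

namespace Pool.Agent.Helper93.T53

open Pool.Agent.Helper78.W3 (S3Trm)

private def cc : Fin 9 → Fin 9 → List C3
  | 0, 0 => [(0, 0, 2), (1, 0, 2), (2, 0, 2)]
  | 0, 1 => [(1, 3, 2)]
  | 0, 2 => [(1, 1, 3), (2, 3, 4), (0, 3, 4)]
  | 0, 3 => [(2, 4, 5), (0, 4, 5)]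
  | 0, 4 => []
  | 0, 5 => []
  | 0, 6 => []
  | 0, 7 => [(0, 3, 1), (2, 3, 1)]
  | 0, 8 => [(0, 2, 5), (2, 2, 5)]
  | 1, 0 => [(1, 2, 3), (1, 2, 4)]
  | 1, 1 => [(1, 5, 3)]
  | 1, 2 => [(1, 6, 5), (2, 1, 0), (0, 2, 3), (1, 7, 8)]
  | 1, 3 => [(0, 0, 4), (0, 3, 5), (1, 8, 9)]
  | 1, 4 => [(1, 0, 10)]
  | 1, 5 => [(1, 11, 1), (1, 10, 6)]
  | 1, 6 => []
  | 1, 7 => [(0, 2, 1), (1, 7, 11)]
  | 1, 8 => [(0, 4, 5), (1, 4, 9)]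
  | 2, 0 => [(1, 2, 3), (1, 2, 4)]
  | 2, 1 => [(1, 5, 3)]
  | 2, 2 => [(1, 6, 5), (1, 7, 8)]
  | 2, 3 => [(1, 9, 10), (2, 1, 0), (0, 1, 0), (1, 8, 11)]
  | 2, 4 => [(1, 9, 12), (1, 1, 13)]
  | 2, 5 => [(1, 13, 6)]
  | 2, 6 => [(1, 0, 10)]
  | 2, 7 => [(1, 7, 12)]
  | 2, 8 => [(1, 4, 11)]
  | 3, 0 => []
  | 3, 1 => []
  | 3, 2 => [(2, 1, 0), (0, 1, 0)]
  | 3, 3 => []
  | 3, 4 => [(1, 0, 1)]
  | 3, 5 => []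
  | 3, 6 => []
  | 3, 7 => []
  | 3, 8 => []
  | 4, 0 => []
  | 4, 1 => [(0, 2, 3)]
  | 4, 2 => [(0, 4, 2), (2, 2, 0), (2, 3, 4)]
  | 4, 3 => [(1, 0, 1), (2, 4, 5)]
  | 4, 4 => [(0, 0, 5)]
  | 4, 5 => [(0, 5, 4)]
  | 4, 6 => [(0, 3, 1)]
  | 4, 7 => [(2, 3, 2)]
  | 4, 8 => [(2, 1, 5)]
  | 5, 0 => []
  | 5, 1 => []
  | 5, 2 => []
  | 5, 3 => []
  | 5, 4 => []
  | 5, 5 => []
  | 5, 6 => [(0, 1, 0), (1, 1, 0)]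
  | 5, 7 => [(2, 2, 3), (2, 3, 2)]
  | 5, 8 => [(2, 0, 1)]
  | 6, 0 => []
  | 6, 1 => []
  | 6, 2 => []
  | 6, 3 => []
  | 6, 4 => []
  | 6, 5 => [(0, 0, 1), (1, 0, 1)]
  | 6, 6 => []
  | 6, 7 => [(2, 0, 1)]
  | 6, 8 => []
  | 7, 0 => [(1, 2, 3), (1, 2, 4)]
  | 7, 1 => [(0, 2, 1), (1, 5, 3), (1, 6, 7), (1, 8, 0)]
  | 7, 2 => [(0, 3, 2), (1, 9, 5), (1, 10, 8), (1, 11, 12)]
  | 7, 3 => [(0, 4, 0), (1, 12, 13)]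
  | 7, 4 => [(0, 4, 5), (1, 6, 14)]
  | 7, 5 => [(0, 5, 3), (1, 14, 9), (1, 15, 10)]
  | 7, 6 => [(1, 1, 7), (2, 1, 0)]
  | 7, 7 => [(1, 11, 15)]
  | 7, 8 => [(1, 4, 13)]
  | 8, 0 => [(0, 2, 3), (0, 2, 4), (2, 2, 3), (2, 2, 4)]
  | 8, 1 => [(0, 5, 3), (2, 5, 3)]
  | 8, 2 => [(0, 6, 5), (2, 0, 6), (2, 7, 5), (0, 1, 7), (0, 8, 9), (2, 8, 9)]
  | 8, 3 => [(0, 9, 10), (2, 9, 10)]
  | 8, 4 => [(0, 7, 11), (2, 6, 11)]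
  | 8, 5 => [(0, 11, 6), (1, 0, 1), (2, 11, 7)]
  | 8, 6 => []
  | 8, 7 => [(0, 8, 0), (2, 8, 1)]
  | 8, 8 => [(0, 4, 10), (2, 4, 10)]

private def kk : Fin 9 → List (ℕ × ℕ × List (ℤ × ℤ))
  | 0 => [(0, 1, [(1, 0), (-2, 1), (-1, 1), (-8, 5), (-3, 2), (-7, 5)]),
    (0, 1, [(1, 0), (-1, 2), (-1, 1), (-3, 5)]),
    (0, 1, [(1, 0), (1, 1), (2, 1), (7, 5), (3, 2), (8, 5)])]
  | 1 => [(0, 1, [(-6, 5), (-2, 1), (-8, 5), (-3, 2), (-1, 1), (-7, 5)]),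
    (0, 1, [(-3, 10), (-1, 2), (-1, 3), (-8, 25), (-7, 20), (-6, 19), (-11, 35), (-4, 11), (-9, 25), (-5, 14), (-5, 16), (-2, 5)]),
    (0, 1, [(6, 5), (1, 1)])]
  | 2 => [(0, 1, [(-1, 1), (-6, 5)]),
    (0, 1, [(-1, 4), (-3, 10), (-1, 3), (-8, 25), (-7, 20), (-6, 19), (-11, 35), (-4, 11), (-9, 25), (0, 1), (-1, 5), (-5, 14), (-2, 5), (-5, 16)]),
    (0, 1, [(5, 4), (6, 5)])]
  | 3 => [(0, 1, [(6, 5), (1, 1)]),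
    (0, 1, [(3, 10), (1, 4)]),
    (0, 1, [(9, 5), (7, 4)])]
  | 4 => [(0, 1, [(0, 1), (-4, 5), (-3, 5), (-1, 1), (-1, 2), (-2, 5)]),
    (0, 1, [(0, 1), (-1, 5)]),
    (0, 1, [(3, 2), (13, 10), (7, 5), (1, 1), (6, 5), (5, 4)])]
  | 5 => [(0, 1, [(-4, 5), (-1, 1)]),
    (0, 1, [(-1, 5), (-1, 4)]),
    (0, 1, [(13, 10), (5, 4), (7, 5), (1, 1)])]
  | 6 => [(0, 1, [(1, 1), (4, 5)]),
    (0, 1, [(1, 4), (1, 5)]),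
    (0, 1, [(7, 4), (17, 10)])]
  | 7 => [(0, 1, [(14, 5), (2, 1), (12, 5), (5, 2), (3, 1), (13, 5)]),
    (0, 1, [(7, 10), (1, 2), (1, 0), (-1, 1), (2, 1), (-3, 5), (0, 1), (2, 5), (3, 4), (-1, 2), (4, 5), (7, 5), (3, 2), (8, 5), (-2, 5), (1, 1)]),
    (0, 1, [(11, 5), (2, 1)])]
  | 8 => [(0, 1, [(4, 1), (16, 5), (1, 0), (2, 1), (5, 1), (12, 5), (5, 2), (3, 1), (22, 5), (9, 2), (23, 5), (13, 5)]),
    (0, 1, [(1, 1), (4, 5)]),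
    (0, 1, [(5, 2), (23, 10), (7, 3), (47, 20), (58, 25), (33, 14), (12, 5), (59, 25), (37, 16), (81, 35), (44, 19), (26, 11)])]

private theorem c0 : ChkW 3 3 2 0 1 0 (-1) 1 (kk 0) (tcT (T2T 0) (cc 0)) := by
  decide +kernel

private theorem c1 : ChkW 3 3 2 0 (-3) 5 (-1) 1 (kk 1) (tcT (T2T 1) (cc 1)) := by
  decide +kernel

private theorem c2 : ChkW 3 3 2 0 (-1) 2 (-3) 5 (kk 2) (tcT (T2T 2) (cc 2)) := by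
  decide +kernel

private theorem c3 : ChkW 3 3 2 0 3 5 1 2 (kk 3) (tcT (T2T 3) (cc 3)) := by
  decide +kernel

private theorem c4 : ChkW 3 3 2 0 0 1 (-2) 5 (kk 4) (tcT (T2T 4) (cc 4)) := by
  decide +kernel

private theorem c5 : ChkW 3 3 2 0 (-2) 5 (-1) 2 (kk 5) (tcT (T2T 5) (cc 5)) := by
  decide +kernel

private theorem c6 : ChkW 3 3 2 0 1 2 2 5 (kk 6) (tcT (T2T 6) (cc 6)) := by
  decide +kernel

private theorem c7 : ChkW 3 3 2 0 7 5 1 1 (kk 7) (tcT (T2T 7) (cc 7)) := by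
  decide +kernel

private theorem c8 : ChkW 3 3 2 0 2 1 8 5 (kk 8) (tcT (T2T 8) (cc 8)) := by
  decide +kernel

/-- HK2. -/
theorem hHk2 (hf : THkF) (ht : TTre) (hm : S3Trm) : THk 2 T2T := by
  intro r s G hG i
  have h0 : Nat.Prime 2 := by norm_num
  fin_cases i
  · exact row3 hf ht hm 2 h0 (by norm_num) (by norm_num) 0 (T2T 0) _ _ _ _ (by decide) (by decide) _ _
      c0 r s G hG
  · exact row3 hf ht hm 2 h0 (by norm_num) (by norm_num) 0 (T2T 1) _ _ _ _ (by decide) (by decide) _ _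
      c1 r s G hG
  · exact row3 hf ht hm 2 h0 (by norm_num) (by norm_num) 0 (T2T 2) _ _ _ _ (by decide) (by decide) _ _
      c2 r s G hG
  · exact row3 hf ht hm 2 h0 (by norm_num) (by norm_num) 0 (T2T 3) _ _ _ _ (by decide) (by decide) _ _
      c3 r s G hG
  · exact row3 hf ht hm 2 h0 (by norm_num) (by norm_num) 0 (T2T 4) _ _ _ _ (by decide) (by decide) _ _
      c4 r s G hG
  · exact row3 hf ht hm 2 h0 (by norm_num) (by norm_num) 0 (T2T 5) _ _ _ _ (by decide) (by decide) _ _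
      c5 r s G hG
  · exact row3 hf ht hm 2 h0 (by norm_num) (by norm_num) 0 (T2T 6) _ _ _ _ (by decide) (by decide) _ _
      c6 r s G hG
  · exact row3 hf ht hm 2 h0 (by norm_num) (by norm_num) 0 (T2T 7) _ _ _ _ (by decide) (by decide) _ _
      c7 r s G hG
  · exact row3 hf ht hm 2 h0 (by norm_num) (by norm_num) 0 (T2T 8) _ _ _ _ (by decide) (by decide) _ _
      c8 r s G hG

end Pool.Agent.Helper93.T53
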