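import Pool.Agent.Helper93.T53.HkG

/-!
# Levels `5·3^n`: the rows of the Hecke operator `T_23`
-/

set_option autoImplicit false
set_option maxRecDepth 100000

namespace Pool.Agent.Helper93.T53

open Pool.Agent.Helper78.W3 (S3Trm)

private def cc : Fin 9 → Fin 9 → List C3
  | 0, 0 => [(0, 0, 2), (7, 2, 3), (7, 2, 4), (21, 2, 3), (21, 2, 4), (16, 0, 2), (15, 0, 2), (14, 0, 2), (13, 0, 2), (12, 0, 2), (11, 0, 2), (10, 0, 2), (9, 0, 2), (8, 0, 2), (7, 0, 5), (6, 0, 2), (5, 0, 2), (4, 0, 2), (3, 0, 2), (2, 0, 2), (1, 0, 2), (23, 0, 2), (22, 0, 2), (21, 0, 5), (20, 0, 2), (19, 0, 2), (18, 0, 2), (17, 0, 2), (10, 3, 4), (10, 3, 5), (9, 3, 4), (9, 3, 5)]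
  | 0, 1 => [(7, 6, 3), (2, 3, 4), (22, 3, 4), (21, 6, 3), (19, 3, 4), (15, 3, 4), (16, 3, 2), (15, 5, 2), (14, 3, 2), (13, 3, 2), (12, 3, 2), (11, 3, 2), (10, 6, 2), (9, 6, 2), (8, 3, 2), (7, 7, 5), (10, 7, 4), (11, 4, 5), (9, 7, 4), (13, 4, 5), (16, 4, 5)]
  | 0, 2 => [(7, 8, 6), (23, 3, 4), (2, 5, 3), (22, 1, 3), (21, 7, 6), (19, 5, 3), (16, 6, 3), (15, 6, 5), (14, 4, 3), (13, 6, 3), (12, 4, 3), (11, 6, 3), (10, 8, 6), (9, 8, 6), (10, 9, 7), (14, 5, 6), (11, 7, 4), (9, 9, 7), (18, 3, 4), (13, 1, 4), (9, 10, 11), (22, 5, 6), (2, 1, 6), (15, 7, 8), (1, 3, 4), (17, 1, 3), (12, 5, 6), (7, 9, 10), (10, 1, 10), (22, 7, 8), (16, 1, 7), (6, 1, 3), (10, 11, 12), (21, 8, 9), (20, 3, 4), (8, 4, 5), (19, 6, 7), (18, 5, 6), (19, 8, 9), (17, 4, 5), (0, 3, 4), (21, 10, 11), (9, 12, 13)]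
  | 0, 3 => [(1, 4, 5), (3, 3, 2), (5, 3, 2), (22, 6, 4), (16, 7, 8), (4, 3, 4), (8, 3, 6), (13, 7, 8), (11, 8, 5), (15, 8, 9), (7, 10, 11), (23, 4, 5), (6, 3, 4), (22, 8, 9), (8, 5, 7), (10, 12, 13), (21, 9, 12), (20, 4, 5), (19, 9, 10), (19, 7, 11), (18, 6, 7), (17, 5, 6), (0, 4, 5), (21, 11, 13), (9, 13, 14)]
  | 0, 4 => [(17, 3, 7), (7, 7, 12), (2, 6, 7), (18, 4, 8), (16, 4, 9), (15, 3, 10), (14, 6, 7), (13, 7, 9), (12, 6, 7), (11, 8, 9), (10, 10, 14), (9, 11, 15), (4, 3, 5), (3, 3, 1), (5, 3, 1)]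
  | 0, 5 => [(7, 12, 8), (2, 7, 5), (16, 9, 6), (15, 10, 6), (14, 7, 4), (13, 9, 6), (12, 7, 4), (11, 9, 6), (10, 15, 8), (9, 10, 8), (10, 14, 9), (11, 1, 7), (9, 15, 9), (18, 9, 3), (1, 1, 3), (7, 1, 13), (23, 1, 3), (15, 1, 11), (4, 1, 5), (18, 1, 8)]
  | 0, 6 => [(16, 8, 5), (6, 2, 5), (4, 2, 4), (13, 5, 8)]
  | 0, 7 => [(0, 3, 1), (7, 9, 13), (22, 5, 7), (21, 10, 1), (19, 8, 1), (15, 7, 11), (21, 8, 7), (20, 3, 1), (19, 6, 5), (18, 5, 9), (17, 4, 7), (10, 11, 15), (9, 12, 1), (8, 4, 1), (14, 1, 5), (12, 5, 1)]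
  | 0, 8 => [(0, 2, 5), (7, 4, 11), (2, 4, 2), (21, 4, 13), (19, 4, 10), (15, 4, 9), (23, 2, 5), (22, 2, 9), (21, 5, 12), (20, 2, 5), (19, 2, 11), (18, 2, 7), (17, 2, 6), (10, 5, 13), (9, 5, 14), (8, 6, 7), (6, 5, 4), (1, 5, 2)]
  | 1, 0 => [(0, 2, 3), (0, 2, 4), (4, 2, 3), (4, 2, 4), (2, 2, 3), (2, 2, 4), (21, 2, 3), (21, 2, 4), (19, 2, 3), (19, 2, 4), (9, 2, 3), (9, 2, 4), (22, 2, 3), (22, 2, 4), (5, 2, 3), (5, 2, 4)]
  | 1, 1 => [(5, 5, 6), (2, 5, 3), (2, 6, 4), (1, 2, 3), (22, 5, 6), (19, 5, 6), (15, 0, 2), (14, 2, 3), (19, 7, 3), (11, 2, 3), (9, 5, 3), (9, 6, 7), (13, 2, 3), (22, 7, 3), (13, 0, 4), (21, 5, 6), (5, 7, 3)]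
  | 1, 2 => [(10, 2, 3), (5, 8, 5), (2, 7, 5), (2, 8, 6), (1, 4, 2), (17, 2, 3), (22, 1, 5), (14, 4, 2), (8, 2, 3), (19, 8, 7), (11, 4, 2), (18, 2, 0), (9, 8, 5), (9, 9, 6), (13, 1, 2), (11, 5, 6), (22, 8, 7), (9, 10, 11), (23, 2, 0), (2, 1, 9), (21, 7, 5), (15, 3, 4), (22, 9, 10), (5, 9, 7), (22, 11, 12), (1, 5, 6), (17, 1, 3), (12, 2, 3), (12, 4, 3), (10, 2, 0), (7, 2, 3), (9, 12, 13), (10, 1, 3), (17, 2, 0), (16, 1, 2), (6, 1, 2), (11, 7, 8), (0, 5, 0), (12, 5, 0), (8, 4, 5), (0, 6, 7), (5, 10, 11), (19, 9, 10), (4, 5, 6), (0, 8, 9), (21, 8, 9), (9, 14, 15)]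
  | 1, 3 => [(11, 6, 9), (22, 12, 13), (5, 12, 6), (16, 2, 3), (7, 0, 4), (4, 7, 8), (8, 3, 6), (15, 4, 2), (1, 0, 3), (7, 3, 5), (16, 0, 3), (22, 10, 14), (6, 2, 3), (9, 13, 16), (14, 0, 3), (11, 0, 10), (8, 5, 7), (6, 0, 4), (19, 0, 11), (11, 8, 11), (0, 7, 10), (19, 10, 12), (5, 11, 13), (4, 6, 9), (0, 9, 11), (21, 9, 10), (9, 15, 17)]
  | 1, 4 => [(2, 0, 10), (2, 9, 11), (1, 6, 7), (18, 3, 4), (19, 5, 13), (18, 3, 5), (9, 11, 18), (9, 0, 19), (4, 7, 10), (3, 0, 1), (22, 0, 15), (21, 0, 11), (5, 0, 14), (5, 12, 1), (8, 0, 8), (20, 0, 1), (4, 0, 11)]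
  | 1, 5 => [(5, 15, 8), (2, 10, 7), (2, 11, 8), (19, 13, 8), (14, 4, 5), (11, 1, 4), (9, 18, 8), (9, 19, 9), (22, 15, 8), (21, 11, 7), (1, 4, 7), (5, 14, 9), (1, 1, 5), (23, 2, 3), (8, 8, 9), (7, 1, 6), (23, 1, 3), (15, 1, 5), (4, 1, 10), (18, 2, 5), (18, 1, 4)]
  | 1, 6 => [(21, 6, 3), (4, 3, 8), (13, 4, 5), (7, 4, 7), (13, 3, 5)]
  | 1, 7 => [(0, 8, 1), (0, 6, 5), (8, 9, 2), (7, 2, 6), (4, 5, 11), (21, 8, 1), (19, 9, 1), (15, 3, 5), (11, 7, 5), (9, 14, 1), (8, 4, 1), (9, 12, 10), (14, 1, 5), (12, 2, 5), (12, 4, 1), (22, 9, 11), (5, 10, 15)]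
  | 1, 8 => [(0, 3, 11), (0, 4, 10), (7, 7, 5), (4, 4, 9), (22, 13, 6), (21, 4, 10), (19, 6, 12), (15, 2, 6), (15, 6, 2), (11, 3, 9), (19, 4, 11), (11, 10, 11), (9, 4, 17), (8, 6, 7), (6, 5, 3), (9, 7, 16), (22, 4, 14), (6, 5, 4), (5, 4, 13)]
  | 2, 0 => [(5, 2, 3), (5, 2, 0), (4, 2, 0), (4, 2, 3), (2, 2, 3), (2, 2, 4), (19, 2, 3), (19, 2, 4), (22, 2, 3), (22, 2, 4), (5, 4, 5), (5, 4, 6)]
  | 2, 1 => [(0, 2, 3), (7, 2, 3), (5, 7, 3), (2, 5, 3), (1, 2, 3), (15, 1, 2), (14, 2, 3), (13, 2, 3), (12, 2, 0), (9, 2, 3), (9, 4, 0), (11, 2, 0), (22, 5, 3), (13, 1, 4), (7, 4, 0), (21, 2, 3), (5, 8, 5), (22, 6, 7), (0, 4, 5)]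
  | 2, 2 => [(0, 6, 2), (7, 5, 2), (5, 9, 7), (2, 6, 5), (13, 5, 2), (12, 3, 2), (18, 2, 1), (9, 5, 2), (9, 6, 4), (11, 3, 2), (22, 8, 5), (23, 2, 1), (21, 4, 2), (22, 9, 10), (5, 10, 8), (22, 11, 6), (23, 3, 4), (15, 3, 4), (12, 4, 5), (15, 5, 6), (10, 2, 1), (8, 2, 3), (9, 7, 8), (17, 2, 1), (11, 4, 5), (0, 7, 1), (12, 6, 1), (20, 2, 3), (0, 8, 9), (5, 11, 12), (4, 4, 5)]
  | 2, 3 => [(15, 4, 7), (10, 3, 0), (7, 1, 6), (13, 6, 0), (17, 3, 4), (14, 2, 0), (18, 3, 4), (1, 1, 3), (3, 1, 0), (16, 1, 0), (8, 3, 4), (22, 10, 12), (1, 2, 0), (9, 8, 9), (15, 6, 0), (14, 1, 3), (11, 1, 6), (6, 1, 2), (23, 4, 5), (19, 1, 5), (11, 5, 7), (20, 3, 4), (0, 9, 10), (5, 12, 13), (4, 5, 6)]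
  | 2, 4 => [(0, 4, 11), (7, 4, 7), (2, 1, 7), (17, 3, 5), (13, 6, 7), (12, 5, 7), (18, 3, 5), (9, 1, 10), (22, 1, 13), (21, 1, 5), (10, 3, 2), (5, 1, 14), (8, 1, 5), (20, 1, 5), (4, 1, 7)]
  | 2, 5 => [(0, 11, 6), (7, 7, 5), (5, 15, 9), (2, 7, 6), (17, 5, 2), (13, 7, 5), (12, 7, 3), (9, 10, 5), (22, 13, 8), (21, 5, 4), (9, 6, 11), (5, 14, 10), (23, 2, 3), (8, 5, 2), (18, 2, 5)]
  | 2, 6 => [(0, 0, 5), (7, 8, 0), (10, 4, 5), (10, 5, 4), (22, 0, 7), (13, 4, 3), (7, 6, 3), (19, 0, 3), (18, 0, 4), (6, 0, 3), (8, 0, 4), (17, 0, 4), (7, 0, 8)]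
  | 2, 7 => [(0, 8, 7), (4, 4, 7), (15, 3, 5), (20, 2, 5), (11, 4, 3), (9, 7, 11), (12, 4, 6), (22, 9, 11), (5, 11, 15)]
  | 2, 8 => [(0, 3, 10), (4, 3, 6), (2, 4, 0), (15, 2, 7), (20, 0, 4), (19, 4, 5), (11, 6, 7), (9, 3, 9), (23, 0, 5), (21, 0, 3), (22, 4, 12), (6, 3, 2), (5, 6, 13)]
  | 3, 0 => [(0, 2, 3), (0, 2, 4), (17, 2, 3), (17, 2, 4), (20, 2, 3), (20, 2, 4), (22, 2, 3), (22, 2, 4), (10, 2, 3), (10, 2, 4), (11, 2, 3), (11, 2, 4), (12, 2, 3), (12, 2, 4), (5, 2, 3), (5, 2, 4), (15, 2, 3), (15, 2, 4), (3, 2, 3), (3, 2, 4)]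
  | 3, 1 => [(0, 5, 3), (17, 5, 3), (19, 2, 3), (20, 0, 3), (22, 5, 4), (10, 5, 3), (11, 5, 3), (12, 5, 3), (14, 2, 3), (15, 5, 3), (4, 0, 2), (10, 6, 7), (2, 2, 3), (7, 2, 3), (3, 5, 3), (16, 0, 2), (6, 2, 3)]
  | 3, 2 => [(0, 1, 5), (17, 6, 5), (19, 4, 2), (22, 6, 5), (11, 6, 7), (10, 8, 5), (11, 8, 5), (12, 6, 5), (9, 2, 3), (14, 1, 2), (15, 6, 5), (17, 7, 0), (2, 4, 2), (11, 1, 9), (7, 4, 2), (3, 6, 5), (10, 1, 9), (6, 4, 2), (23, 2, 0), (19, 5, 6), (21, 1, 0), (17, 8, 9), (8, 1, 0), (16, 3, 4), (23, 1, 3), (9, 1, 4), (10, 10, 0), (22, 1, 7), (13, 2, 0), (18, 2, 0), (1, 2, 3), (13, 3, 4), (5, 5, 6), (3, 7, 8), (4, 3, 4), (10, 11, 12), (19, 7, 8), (20, 5, 6), (12, 7, 8)]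
  | 3, 3 => [(10, 9, 13), (6, 0, 5), (11, 7, 10), (15, 7, 8), (13, 5, 6), (1, 0, 4), (2, 5, 3), (9, 3, 5), (1, 3, 5), (12, 9, 10), (9, 4, 6), (14, 0, 3), (17, 9, 10), (16, 4, 5), (7, 0, 5), (13, 4, 7), (0, 0, 4), (22, 7, 8), (12, 0, 11), (5, 0, 7), (5, 6, 8), (4, 4, 5), (3, 8, 9), (19, 8, 9), (10, 12, 14), (20, 6, 7), (12, 8, 12)]
  | 3, 4 => [(19, 6, 10), (22, 0, 9), (10, 6, 15), (11, 9, 11), (12, 9, 13), (2, 5, 6), (15, 0, 9), (2, 0, 7), (23, 3, 2), (3, 0, 10), (13, 5, 1), (19, 0, 11), (11, 0, 12), (15, 7, 1), (9, 0, 7)]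
  | 3, 5 => [(17, 1, 6), (19, 10, 4), (22, 9, 6), (10, 15, 8), (11, 11, 8), (12, 13, 6), (8, 2, 1), (15, 9, 6), (2, 7, 4), (7, 1, 4), (3, 10, 6), (8, 1, 2), (19, 11, 5), (11, 12, 13), (16, 1, 3), (18, 1, 3), (17, 7, 11), (6, 1, 4), (5, 1, 9), (2, 1, 6)]
  | 3, 6 => [(7, 5, 3), (10, 13, 7), (6, 5, 3), (15, 8, 4), (1, 4, 5), (16, 2, 5)]
  | 3, 7 => [(17, 8, 11), (19, 7, 1), (20, 5, 1), (9, 2, 7), (10, 11, 10), (11, 6, 13), (4, 3, 1), (12, 7, 1), (5, 5, 9), (13, 3, 2), (1, 2, 1), (3, 11, 1), (18, 2, 3), (3, 7, 11)]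
  | 3, 8 => [(17, 4, 10), (19, 3, 9), (20, 4, 7), (22, 3, 8), (9, 6, 5), (10, 4, 14), (11, 4, 10), (4, 2, 5), (12, 4, 12), (5, 3, 7), (13, 7, 6), (5, 4, 8), (12, 11, 10), (3, 4, 9)]
  | 4, 0 => [(0, 2, 3), (23, 2, 3), (11, 2, 3), (0, 2, 4), (23, 2, 4), (11, 2, 4), (17, 2, 3), (3, 2, 3), (21, 2, 3), (7, 2, 3), (17, 2, 4), (3, 2, 4), (21, 2, 4), (7, 2, 1), (5, 2, 3), (5, 2, 4), (2, 2, 3), (2, 2, 4), (23, 5, 1), (23, 5, 6)]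
  | 4, 1 => [(0, 5, 3), (23, 7, 3), (11, 5, 3), (0, 6, 4), (13, 2, 3), (1, 2, 3), (10, 2, 3), (17, 5, 3), (3, 5, 3), (21, 0, 3), (6, 0, 1), (4, 0, 2), (5, 5, 3), (2, 5, 3), (17, 6, 7), (21, 5, 6), (3, 6, 7), (11, 6, 1), (1, 4, 1), (12, 0, 1), (5, 6, 1)]
  | 4, 2 => [(0, 7, 5), (23, 8, 7), (11, 7, 5), (0, 8, 6), (13, 4, 2), (1, 5, 2), (10, 4, 2), (17, 8, 5), (3, 8, 5), (14, 2, 0), (5, 7, 0), (17, 9, 0), (9, 2, 0), (2, 6, 0), (8, 2, 0), (5, 8, 5), (2, 7, 5), (5, 9, 10), (17, 10, 11), (21, 7, 5), (13, 5, 6), (3, 9, 10), (18, 2, 3), (2, 8, 9), (11, 8, 6), (23, 9, 10), (1, 6, 4), (9, 2, 3), (4, 3, 4), (21, 8, 9), (8, 3, 4), (23, 11, 12), (4, 5, 6), (10, 5, 6), (14, 3, 4)]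
  | 4, 3 => [(16, 0, 2), (22, 0, 2), (15, 0, 2), (7, 0, 3), (19, 0, 2), (10, 0, 7), (1, 7, 8), (19, 3, 4), (5, 10, 4), (17, 11, 12), (13, 6, 3), (13, 7, 1), (15, 3, 2), (11, 9, 4), (19, 3, 5), (22, 3, 2), (2, 10, 11), (3, 10, 11), (2, 9, 12), (23, 10, 13), (20, 2, 1), (18, 3, 4), (21, 9, 10), (4, 6, 7), (0, 9, 1), (8, 4, 5), (4, 4, 8), (23, 12, 14), (15, 3, 1), (22, 3, 1), (10, 6, 8), (9, 3, 1), (14, 4, 1)]
  | 4, 4 => [(0, 9, 10), (23, 0, 15), (11, 0, 10), (0, 0, 11), (13, 0, 8), (1, 0, 9), (20, 0, 3), (18, 0, 2), (3, 0, 12), (17, 6, 13), (3, 6, 13), (5, 6, 11), (2, 10, 13), (1, 7, 6), (20, 2, 4), (11, 9, 11), (13, 7, 9)]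
  | 4, 5 => [(0, 10, 7), (23, 15, 8), (11, 10, 7), (0, 11, 8), (13, 8, 4), (1, 9, 5), (20, 3, 5), (17, 13, 8), (3, 13, 8), (8, 6, 2), (5, 11, 8), (2, 13, 7), (23, 16, 17), (20, 4, 5), (11, 11, 8), (10, 4, 9), (21, 7, 11)]
  | 4, 6 => [(4, 9, 2), (16, 3, 2), (1, 3, 8), (2, 11, 1), (3, 1, 7), (8, 7, 1), (16, 3, 1), (18, 5, 1), (21, 6, 1)]
  | 4, 7 => [(23, 9, 16), (14, 2, 5), (5, 7, 9), (8, 3, 6), (17, 10, 9), (3, 9, 12), (21, 8, 11), (2, 8, 6), (14, 3, 5), (13, 5, 9), (23, 11, 17), (10, 5, 9), (4, 3, 5)]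
  | 4, 8 => [(23, 4, 13), (11, 4, 12), (8, 7, 5), (19, 2, 4), (10, 7, 3), (17, 4, 12), (3, 4, 11), (21, 4, 10), (4, 9, 7), (2, 4, 12), (18, 5, 4), (11, 12, 4), (23, 6, 14), (10, 1, 8), (4, 1, 8), (19, 1, 5), (17, 1, 7)]
  | 5, 0 => [(0, 2, 3), (0, 2, 4), (21, 2, 3), (21, 2, 4), (7, 2, 3), (7, 2, 0), (5, 2, 3), (5, 2, 1), (4, 2, 1), (4, 2, 3), (16, 2, 3), (16, 2, 4), (23, 2, 0), (23, 2, 3)]
  | 5, 1 => [(0, 5, 3), (0, 6, 4), (21, 5, 3), (7, 4, 3), (5, 4, 3), (2, 2, 3), (17, 2, 3), (21, 6, 7), (21, 8, 9), (13, 2, 3), (16, 5, 3), (12, 2, 1), (19, 2, 3), (9, 2, 1), (3, 2, 3), (11, 2, 1), (11, 3, 0), (16, 6, 7), (7, 5, 1), (1, 2, 0), (22, 2, 3), (12, 3, 0), (5, 5, 0), (0, 7, 8)]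
  | 5, 2 => [(0, 9, 5), (0, 10, 6), (21, 10, 5), (7, 6, 4), (5, 6, 4), (2, 4, 2), (1, 3, 4), (17, 4, 2), (21, 11, 8), (14, 2, 3), (13, 4, 2), (16, 8, 5), (12, 4, 2), (19, 4, 2), (13, 5, 6), (9, 3, 2), (11, 4, 3), (1, 5, 2), (9, 4, 5), (4, 4, 5), (21, 12, 13), (23, 4, 5), (15, 2, 3), (15, 4, 5), (23, 6, 7), (4, 6, 7), (10, 2, 3), (14, 4, 5), (20, 2, 3), (16, 9, 10)]
  | 5, 3 => [(13, 6, 7), (13, 8, 0), (16, 11, 1), (10, 4, 1), (19, 5, 6), (2, 5, 6), (13, 9, 1), (17, 5, 6), (20, 4, 0), (14, 3, 1), (21, 13, 14), (4, 7, 8), (3, 2, 1), (0, 11, 0), (1, 4, 1), (4, 5, 9), (23, 7, 8), (15, 5, 1), (15, 3, 0), (22, 2, 0), (10, 3, 5), (23, 5, 9), (9, 5, 0), (14, 5, 0), (20, 3, 5), (16, 10, 12)]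
  | 5, 4 => [(0, 7, 12), (0, 11, 13), (21, 6, 15), (7, 5, 7), (5, 5, 7), (2, 5, 7), (17, 5, 7), (13, 9, 10), (16, 6, 13), (12, 3, 5), (19, 5, 7), (20, 4, 6), (16, 11, 14), (11, 2, 5), (13, 8, 11), (10, 4, 6)]
  | 5, 5 => [(0, 12, 9), (0, 13, 10), (21, 15, 10), (7, 7, 6), (5, 7, 6), (2, 7, 4), (17, 7, 4), (13, 10, 4), (16, 13, 8), (12, 5, 4), (19, 7, 4), (20, 6, 7), (11, 5, 4), (1, 3, 5), (9, 3, 4), (10, 6, 7), (21, 11, 16)]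
  | 5, 6 => [(0, 1, 8), (21, 17, 7), (7, 8, 1), (16, 1, 7), (22, 1, 3), (2, 6, 0), (3, 0, 3), (19, 1, 3), (8, 2, 0), (18, 1, 2), (16, 1, 0), (6, 1, 0), (18, 3, 0), (8, 1, 3), (21, 9, 0), (17, 1, 6), (7, 1, 8)]
  | 5, 7 => [(21, 12, 16), (15, 2, 4), (14, 4, 2), (13, 5, 11), (20, 2, 7), (16, 9, 14), (23, 6, 4), (10, 2, 7), (4, 4, 6)]
  | 5, 8 => [(13, 7, 3), (8, 2, 3), (21, 4, 14), (4, 3, 8), (2, 3, 1), (18, 3, 2), (20, 1, 5), (16, 4, 12), (23, 3, 8), (10, 0, 5), (23, 1, 9), (21, 1, 17), (4, 0, 9), (19, 0, 6), (17, 0, 3)]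
  | 6, 0 => [(0, 2, 3), (0, 2, 4), (17, 2, 3), (17, 2, 4), (19, 2, 3), (19, 2, 4), (20, 2, 3), (20, 2, 4), (22, 2, 3), (22, 2, 4), (11, 2, 3), (11, 2, 4), (12, 2, 3), (12, 2, 4), (5, 2, 3), (1, 2, 3), (5, 2, 4), (1, 2, 4), (13, 2, 3), (13, 2, 4)]
  | 6, 1 => [(0, 5, 3), (0, 6, 4), (17, 5, 4), (3, 2, 3), (19, 5, 4), (22, 5, 3), (11, 5, 3), (11, 6, 4), (12, 5, 3), (5, 5, 3), (14, 2, 3), (13, 5, 3), (7, 2, 3), (4, 2, 3)]
  | 6, 2 => [(0, 7, 5), (0, 0, 6), (17, 6, 5), (3, 4, 2), (19, 6, 5), (22, 6, 5), (11, 7, 5), (11, 1, 6), (12, 6, 5), (5, 6, 5), (14, 0, 2), (5, 7, 8), (22, 7, 8), (13, 6, 5), (11, 0, 8), (7, 4, 2), (4, 1, 2), (10, 0, 2), (21, 0, 2), (0, 1, 8), (23, 0, 2), (20, 5, 6), (9, 0, 2), (9, 1, 3), (22, 0, 9), (2, 1, 2), (14, 4, 5), (1, 5, 6), (15, 1, 2), (5, 9, 10), (10, 1, 3), (17, 7, 8), (1, 7, 8), (4, 4, 5), (13, 7, 8), (19, 7, 8),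 (20, 7, 8), (12, 7, 8)]
  | 6, 3 => [(23, 2, 3), (7, 5, 6), (10, 2, 4), (3, 5, 6), (15, 3, 4), (15, 2, 5), (23, 4, 5), (20, 6, 3), (9, 3, 4), (1, 6, 3), (9, 2, 5), (22, 9, 10), (14, 5, 6), (10, 3, 5), (5, 10, 11), (17, 8, 9), (4, 5, 6), (1, 8, 9), (13, 8, 9), (19, 8, 9), (20, 8, 9), (12, 8, 9)]
  | 6, 4 => [(0, 8, 9), (7, 5, 7), (22, 8, 11), (11, 8, 9), (12, 10, 11), (12, 10, 1), (5, 8, 12), (2, 2, 3), (21, 2, 3), (23, 4, 1), (13, 10, 11), (13, 10, 0), (3, 5, 7), (15, 3, 0)]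
  | 6, 5 => [(0, 9, 7), (17, 0, 6), (19, 1, 6), (22, 11, 6), (11, 9, 7), (12, 11, 6), (5, 12, 6), (21, 3, 1), (13, 11, 6), (7, 0, 4), (3, 7, 1), (16, 0, 2), (6, 2, 1), (8, 0, 1), (18, 0, 1), (16, 3, 1), (6, 0, 3), (22, 7, 1), (5, 0, 13), (2, 0, 3)]
  | 6, 6 => [(14, 3, 7), (23, 3, 5), (7, 6, 3), (3, 6, 3), (4, 7, 3), (15, 4, 5)]
  | 6, 7 => [(16, 2, 3), (17, 7, 1), (19, 7, 0), (20, 7, 0), (2, 4, 5), (6, 3, 2), (2, 5, 4), (7, 1, 7), (4, 4, 0), (12, 7, 0), (5, 9, 13), (1, 7, 1), (14, 4, 1), (1, 5, 0), (5, 1, 7), (3, 4, 0), (13, 7, 1), (20, 5, 1)]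
  | 6, 8 => [(17, 3, 9), (19, 3, 9), (20, 4, 9), (22, 4, 10), (9, 5, 4), (4, 7, 6), (12, 4, 9), (5, 4, 11), (1, 4, 9), (14, 7, 6), (13, 4, 9), (10, 5, 4)]
  | 7, 0 => [(0, 2, 1), (0, 2, 3), (22, 2, 3), (22, 2, 4), (3, 2, 1), (3, 2, 3), (5, 2, 3), (5, 2, 1), (9, 2, 0), (9, 2, 3), (11, 2, 3), (11, 2, 4), (12, 2, 3), (12, 2, 4), (13, 2, 3), (14, 2, 3), (13, 2, 4), (14, 2, 4), (18, 2, 3), (18, 2, 4), (21, 2, 3), (21, 2, 4), (16, 2, 3), (16, 2, 0)]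
  | 7, 1 => [(22, 5, 3), (5, 4, 3), (11, 5, 3), (12, 5, 3), (13, 5, 3), (14, 5, 3), (15, 2, 3), (15, 4, 1), (18, 5, 3), (21, 5, 3), (19, 2, 1), (20, 2, 3), (21, 6, 1), (3, 4, 5), (13, 6, 1), (16, 4, 3), (19, 3, 4), (6, 2, 0), (6, 3, 4), (8, 2, 3), (3, 6, 7), (12, 6, 0), (20, 4, 0), (22, 6, 0)]
  | 7, 2 => [(22, 7, 5), (5, 5, 4), (6, 5, 6), (11, 6, 5), (12, 7, 5), (13, 7, 5), (14, 6, 5), (13, 8, 9), (15, 5, 4), (18, 6, 5), (21, 7, 5), (19, 5, 2), (8, 4, 5), (20, 5, 2), (5, 6, 7), (16, 5, 6), (22, 8, 9), (18, 7, 8), (11, 7, 8), (3, 8, 4), (16, 7, 4), (19, 5, 3), (6, 7, 2), (12, 8, 6), (16, 8, 9), (20, 5, 4), (14, 7, 8), (5, 8, 9), (3, 9, 10), (14, 9, 10), (12, 9, 10), (21, 8, 9)]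
  | 7, 3 => [(2, 2, 1), (3, 11, 12), (8, 6, 7), (11, 9, 1), (22, 9, 10), (13, 9, 10), (15, 6, 7), (2, 3, 4), (22, 11, 1), (23, 2, 3), (7, 2, 1), (12, 11, 12), (14, 11, 1), (13, 11, 0), (8, 5, 1), (7, 2, 3), (15, 2, 8), (18, 9, 0), (16, 9, 10), (14, 8, 12), (21, 10, 0), (3, 10, 13), (5, 9, 10), (23, 2, 0), (8, 2, 0), (14, 10, 0), (12, 10, 13), (21, 9, 11)]
  | 7, 4 => [(3, 11, 14), (22, 11, 12), (5, 7, 11), (6, 3, 8), (11, 8, 10), (12, 11, 14), (13, 6, 12), (14, 11, 13), (15, 6, 9), (18, 8, 10), (21, 10, 12), (22, 6, 13), (21, 6, 13), (18, 9, 11), (11, 9, 11), (3, 6, 15), (8, 6, 4), (16, 6, 11), (6, 6, 9), (2, 2, 5), (13, 11, 13), (2, 3, 5)]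
  | 7, 5 => [(22, 12, 7), (5, 11, 5), (11, 10, 6), (12, 14, 7), (13, 12, 7), (14, 13, 6), (15, 9, 5), (18, 10, 6), (21, 12, 7), (22, 13, 14), (18, 11, 7), (11, 11, 7), (3, 15, 8), (16, 11, 7), (6, 9, 7), (22, 14, 13), (6, 5, 8), (12, 15, 8)]
  | 7, 6 => [(3, 12, 5), (6, 1, 4), (8, 7, 3), (15, 3, 7), (13, 14, 1), (17, 2, 3), (18, 12, 13), (1, 2, 3), (20, 1, 3), (21, 14, 1), (2, 4, 0), (3, 0, 7), (9, 1, 3), (1, 1, 3), (17, 1, 3), (18, 13, 12), (7, 3, 0), (23, 1, 3), (13, 1, 14), (21, 1, 14), (17, 2, 0), (1, 2, 0), (0, 3, 0), (19, 4, 0)]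
  | 7, 7 => [(22, 8, 13), (3, 9, 14), (12, 9, 15), (13, 8, 13), (14, 7, 9), (16, 8, 5), (21, 8, 13), (5, 8, 6)]
  | 7, 8 => [(22, 4, 10), (3, 3, 13), (12, 4, 13), (13, 4, 10), (14, 4, 12), (16, 1, 10), (18, 4, 1), (10, 0, 1), (21, 4, 11), (12, 1, 12), (5, 0, 10), (15, 0, 8), (4, 0, 1), (11, 0, 4)]
  | 8, 0 => [(0, 2, 3), (0, 2, 4), (14, 2, 3), (14, 2, 4), (20, 2, 3), (20, 2, 4), (8, 2, 3), (8, 2, 4), (20, 5, 6), (20, 5, 7), (17, 2, 3), (17, 2, 4), (11, 2, 3), (11, 2, 4)]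
  | 8, 1 => [(17, 5, 6), (9, 2, 3), (12, 2, 3), (15, 2, 3), (18, 2, 3), (20, 8, 3), (21, 2, 3), (5, 2, 3), (8, 5, 3), (10, 2, 3), (20, 9, 6), (21, 4, 3), (12, 4, 5), (7, 2, 3), (17, 7, 3), (10, 4, 3), (11, 5, 3), (5, 4, 5)]
  | 8, 2 => [(9, 4, 2), (11, 6, 7), (12, 6, 2), (15, 4, 2), (18, 4, 2), (20, 10, 8), (21, 0, 2), (1, 2, 3), (2, 2, 3), (5, 6, 2), (8, 6, 5), (10, 5, 2), (20, 1, 9), (21, 5, 4), (8, 7, 8), (12, 0, 4), (7, 4, 2), (17, 8, 7), (1, 0, 4), (10, 1, 4), (16, 2, 3), (16, 0, 3), (23, 2, 3), (11, 8, 5), (14, 5, 6), (9, 0, 5), (11, 9, 10), (8, 9, 10), (15, 0, 5), (5, 0, 7), (20, 11, 12), (5, 1, 4), (2, 1, 4), (18, 5, 6), (7, 5, 6), (23, 1, 3), (15, 1, 6), (7, 7, 8), (9, 1, 6), (18, 7, 8), (12, 1, 7), (0, 5, 6), (14, 7, 8), (0, 7, 8), (17, 9, 10), (20, 13, 14), (11, 11, 12), (8, 11, 12)]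
  | 8, 3 => [(17, 11, 12), (18, 9, 10), (5, 8, 9), (7, 9, 10), (4, 2, 3), (12, 8, 9), (4, 4, 3), (3, 2, 3), (15, 5, 3), (14, 6, 9), (5, 7, 10), (3, 4, 3), (20, 12, 15), (18, 6, 11), (7, 6, 11), (9, 6, 3), (7, 8, 12), (18, 8, 12), (12, 7, 10), (0, 6, 9), (14, 8, 10), (0, 8, 10), (17, 10, 13), (20, 14, 16), (11, 12, 13), (8, 12, 13)]
  | 8, 4 => [(9, 5, 7), (11, 10, 14), (12, 8, 11), (15, 6, 7), (17, 5, 14), (18, 9, 13), (1, 4, 5), (1, 3, 1), (2, 4, 5), (5, 8, 11), (8, 8, 14), (8, 10, 15), (2, 3, 0), (3, 2, 5), (7, 9, 13), (17, 11, 15), (3, 4, 1), (4, 2, 0), (11, 7, 15), (4, 4, 5)]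
  | 8, 5 => [(9, 7, 4), (11, 14, 6), (12, 11, 6), (15, 7, 4), (20, 17, 10), (1, 5, 2), (18, 4, 13), (2, 5, 2), (5, 11, 6), (8, 14, 6), (10, 0, 5), (8, 15, 7), (7, 13, 4), (17, 15, 8), (22, 2, 3), (6, 2, 3), (23, 0, 2), (11, 15, 8), (4, 5, 1), (6, 0, 3), (22, 0, 3), (0, 11, 1), (14, 0, 11), (22, 2, 1), (3, 0, 5), (17, 0, 14), (6, 2, 1), (16, 2, 1), (21, 5, 1)]
  | 8, 6 => [(17, 12, 6), (5, 9, 5), (12, 5, 9)]
  | 8, 7 => [(0, 5, 11), (0, 7, 0), (21, 6, 7), (14, 5, 11), (14, 7, 1), (18, 7, 0), (20, 13, 0), (21, 7, 6), (7, 5, 0), (8, 11, 0), (20, 11, 17), (11, 9, 0), (7, 7, 1), (13, 0, 1), (19, 1, 0), (17, 9, 1), (18, 5, 1), (8, 1, 9), (11, 11, 1)]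
  | 8, 8 => [(0, 3, 9), (0, 4, 10), (12, 3, 10), (14, 3, 9), (14, 4, 10), (18, 3, 12), (20, 4, 16), (5, 3, 10), (7, 10, 11), (8, 4, 13), (20, 7, 15), (7, 3, 12), (17, 4, 13), (18, 10, 11), (11, 4, 13)]

private def kk : Fin 9 → List (ℕ × ℕ × List (ℤ × ℤ))
  | 0 => [(0, 1, [(1, 0), (-23, 1), (-22, 1), (-113, 5), (-45, 2), (-112, 5)]),
    (0, 1, [(1, 0), (-34, 23), (-1, 1), (-37, 25), (-3, 2), (-7, 5)]),
    (0, 1, [(1, 0), (-31, 23), (-1, 1), (-15, 11), (-7, 5), (-34, 25), (-27, 20), (-19, 14)]),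
    (0, 1, [(1, 0), (-28, 23), (-1, 1), (-6, 5)]),
    (0, 1, [(1, 0), (-25, 23), (-1, 1), (-12, 11), (-11, 10), (-38, 35)]),
    (0, 1, [(1, 0), (-22, 23), (-1, 1), (-24, 25)]),
    (0, 1, [(1, 0), (-19, 23), (-1, 1), (-33, 40), (-14, 17), (-4, 5)]),
    (0, 1, [(1, 0), (-16, 23), (-2, 3), (-13, 20), (-17, 25), (-1, 1), (-9, 14), (-3, 5), (-16, 25), (-11, 16), (-24, 35), (-13, 19), (-7, 11), (-7, 10)]),
    (0, 1, [(1, 0), (-13, 23), (-1, 1), (-3, 5), (-31, 55), (-9, 16), (-4, 7), (-14, 25)]),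
    (0, 1, [(1, 0), (-10, 23), (-1, 1), (-13, 30), (-16, 37), (-23, 53), (-3, 5), (-54, 125), (-1, 2), (-19, 44), (-2, 5), (-3, 7), (-76, 175), (-33, 76), (-89, 205), (-41, 95)]),
    (0, 1, [(1, 0), (-7, 23), (-1, 1), (-1, 3), (-8, 25), (-7, 20), (-3, 5), (-6, 19), (-1, 2), (-11, 35), (-3, 10), (-4, 11), (-9, 25), (-5, 14), (-5, 16), (-2, 5)]),
    (0, 1, [(1, 0), (-4, 23), (-1, 1), (-3, 5), (-3, 17), (-1, 5), (-1, 2), (-7, 40), (0, 1), (-2, 5)]),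
    (0, 1, [(1, 0), (-1, 23), (-1, 1), (-3, 5), (-1, 2), (-1, 25), (0, 1), (-2, 5)]),
    (0, 1, [(1, 0), (2, 23), (-1, 1), (-3, 5), (3, 35), (1, 11), (-1, 2), (0, 1), (1, 10), (-2, 5)]),
    (0, 1, [(1, 0), (5, 23), (-1, 1), (-3, 5), (-1, 2), (1, 5), (0, 1), (-2, 5)]),
    (0, 1, [(1, 0), (8, 23), (-1, 1), (0, 1), (2, 5), (-3, 5), (-1, 2), (5, 14), (9, 25), (4, 11), (-2, 5), (7, 20)]),
    (0, 1, [(1, 0), (11, 23), (-1, 1), (-3, 5), (0, 1), (2, 5), (-1, 2), (12, 25), (1, 2), (-2, 5)]),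
    (0, 1, [(1, 0), (14, 23), (2, 1), (3, 5), (7, 5), (3, 2), (8, 5), (1, 1)]),
    (0, 1, [(1, 0), (17, 23), (2, 1), (4, 5), (3, 4), (7, 5), (3, 2), (8, 5), (37, 50), (1, 1)]),
    (0, 1, [(1, 0), (20, 23), (2, 1), (9, 10), (7, 8), (1, 1), (7, 5), (3, 2), (74, 85), (27, 31), (61, 70), (8, 5)]),
    (0, 1, [(1, 0), (1, 1), (2, 1), (7, 5), (3, 2), (8, 5)]),
    (0, 1, [(1, 0), (26, 23), (17, 15), (8, 7), (43, 38), (2, 1), (6, 5), (1, 1), (7, 5), (3, 2), (164, 145), (69, 61), (8, 5), (181, 160)]),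
    (0, 1, [(1, 0), (29, 23), (2, 1), (63, 50), (5, 4), (1, 1), (6, 5), (7, 5), (3, 2), (8, 5)]),
    (0, 1, [(1, 0), (32, 23), (2, 1), (7, 5), (3, 2), (8, 5)])]
  | 1 => [(0, 1, [(-69, 5), (-23, 1), (1, 0), (-22, 1), (-13, 1), (-14, 1), (-68, 5), (-27, 2), (-113, 5), (-45, 2), (-67, 5), (-112, 5)]),
    (0, 1, [(-168, 115), (-34, 23), (-51, 35), (-19, 13), (-16, 11), (-37, 25), (-3, 2), (-29, 20)]),
    (0, 1, [(-153, 115), (-31, 23), (-4, 3), (-173, 130), (-7, 5), (-165, 124), (-15, 11), (-326, 245), (-34, 25), (-27, 20), (-161, 121), (-19, 14)]),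
    (0, 1, [(-6, 5), (-28, 23)]),
    (0, 1, [(-123, 115), (-25, 23), (-16, 15), (-1, 1), (-47, 44), (-187, 175), (-78, 73), (-12, 11), (-11, 10), (-203, 190), (-38, 35), (-31, 29)]),
    (0, 1, [(-108, 115), (-22, 23), (-31, 33), (-263, 280), (-202, 215), (-33, 35), (-1, 1), (-201, 214), (-16, 17), (-371, 395), (-109, 116), (-249, 265), (-24, 25), (-140, 149), (-170, 181), (-47, 50)]),
    (0, 1, [(-93, 115), (-19, 23), (-33, 40), (-14, 17), (-38, 47), (-4, 5)]),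
    (0, 1, [(-78, 115), (-16, 23), (-11, 16), (-24, 35), (-19, 28), (-13, 19), (-7, 10), (-17, 25)]),
    (0, 1, [(-63, 115), (-13, 23), (-1, 2), (-3, 5), (-31, 55), (-9, 16), (-4, 7), (-14, 25), (-17, 31), (-11, 20)]),
    (0, 1, [(-48, 115), (-10, 23), (-13, 30), (-16, 37), (-23, 53), (-54, 125), (-33, 79), (-23, 55), (-19, 44), (-71, 170), (-2, 5), (-3, 7), (-8, 19), (-21, 50), (-76, 175), (-33, 76), (-13, 31), (-89, 205), (-41, 95), (-38, 91)]),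
    (0, 1, [(-33, 115), (-7, 23), (-2, 7), (-3, 10)]),
    (0, 1, [(-18, 115), (-4, 23), (-3, 17), (-1, 5), (-7, 40), (-2, 13), (-3, 20), (-4, 25), (-3, 19), (-1, 7), (-5, 32), (-11, 70)]),
    (0, 1, [(-3, 115), (-1, 23), (-1, 40), (0, 1), (-1, 25), (-1, 38)]),
    (0, 1, [(12, 115), (2, 23), (3, 35), (1, 11), (2, 19), (1, 10)]),
    (0, 1, [(27, 115), (5, 23), (6, 25), (4, 17), (1, 4), (1, 5)]),
    (0, 1, [(42, 115), (8, 23), (4, 11), (5, 14), (9, 25), (7, 20), (2, 5)]),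
    (0, 1, [(57, 115), (11, 23), (12, 25), (1, 2)]),
    (0, 1, [(72, 115), (14, 23), (5, 8), (3, 5)]),
    (0, 1, [(87, 115), (17, 23), (28, 37), (3, 4), (37, 50), (53, 70)]),
    (0, 1, [(102, 115), (20, 23), (8, 9), (49, 55), (71, 80), (9, 10), (7, 8), (33, 37), (58, 65), (74, 85), (27, 31), (55, 62), (61, 70), (25, 28)]),
    (0, 1, [(117, 115), (1, 1)]),
    (0, 1, [(132, 115), (26, 23), (17, 15), (8, 7), (43, 38), (39, 34), (23, 20), (109, 95), (164, 145), (69, 61), (181, 160), (70, 61)]),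
    (0, 1, [(147, 115), (29, 23), (23, 18), (262, 205), (83, 65), (63, 50), (5, 4), (216, 169), (409, 320), (14, 11), (51, 40), (32, 25), (9, 7), (13, 10), (37, 29), (193, 151)]),
    (0, 1, [(162, 115), (32, 23), (31, 22), (7, 5)])]
  | 2 => [(0, 1, [(-23, 2), (-69, 5), (-63, 5), (-13, 1), (-12, 1), (-58, 5), (-25, 2), (-14, 1), (-68, 5), (-27, 2), (-67, 5), (-62, 5)]),
    (0, 1, [(-67, 46), (-168, 115), (-51, 35), (-19, 13)]),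
    (0, 1, [(-61, 46), (-153, 115), (-4, 3), (-173, 130), (-53, 40), (-165, 124), (-326, 245), (-161, 121)]),
    (0, 1, [(-55, 46), (-6, 5)]),
    (0, 1, [(-49, 46), (-123, 115), (-16, 15), (-47, 44), (-187, 175), (-78, 73), (-203, 190), (-31, 29)]),
    (0, 1, [(-43, 46), (-108, 115), (-14, 15), (-1, 1), (-31, 33), (-263, 280), (-202, 215), (-33, 35), (-201, 214), (-16, 17), (-371, 395), (-109, 116), (-249, 265), (-140, 149), (-170, 181), (-47, 50)]),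
    (0, 1, [(-37, 46), (-93, 115), (-38, 47), (-4, 5)]),
    (0, 1, [(-31, 46), (-78, 115), (-21, 31), (-17, 25), (-27, 40), (-44, 65), (-19, 28), (-23, 34), (-64, 95)]),
    (0, 1, [(-25, 46), (-63, 115), (-11, 20), (-6, 11), (-19, 35), (-17, 31)]),
    (0, 1, [(-19, 46), (-48, 115), (-33, 79), (-23, 55), (-33, 80), (-71, 170), (-7, 17), (-8, 19), (-21, 50), (-13, 31), (-38, 91), (-2, 5)]),
    (0, 1, [(-13, 46), (-33, 115), (-2, 7), (-24, 85), (-1, 4), (-1, 5)]),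
    (0, 1, [(-7, 46), (-18, 115), (-3, 20), (-2, 13), (-4, 25), (-3, 19), (-5, 32), (-11, 70)]),
    (0, 1, [(-1, 46), (-3, 115), (-3, 140), (-1, 47), (-1, 40), (0, 1), (-1, 38), (-2, 95)]),
    (0, 1, [(5, 46), (12, 115), (3, 28), (1, 10), (2, 19), (7, 65), (6, 55), (4, 37)]),
    (0, 1, [(11, 46), (27, 115), (6, 25), (4, 17)]),
    (0, 1, [(17, 46), (42, 115), (4, 11), (13, 35), (3, 8), (7, 19), (24, 65), (2, 5)]),
    (0, 1, [(1, 2), (57, 115)]),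
    (0, 1, [(29, 46), (72, 115), (5, 8), (12, 19), (41, 65), (22, 35)]),
    (0, 1, [(35, 46), (87, 115), (28, 37), (3, 4), (19, 25), (53, 70)]),
    (0, 1, [(41, 46), (102, 115), (8, 9), (49, 55), (71, 80), (55, 62)]),
    (0, 1, [(47, 46), (117, 115), (97, 95), (48, 47), (143, 140), (1, 1)]),
    (0, 1, [(53, 46), (132, 115), (39, 34), (23, 20), (109, 95), (70, 61)]),
    (0, 1, [(59, 46), (147, 115), (23, 18), (262, 205), (83, 65), (216, 169), (9, 7), (109, 85), (409, 320), (14, 11), (51, 40), (32, 25), (37, 29), (193, 151)]),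
    (0, 1, [(65, 46), (162, 115), (31, 22), (7, 5), (24, 17), (113, 80)])]
  | 3 => [(0, 1, [(69, 5), (23, 2), (1, 0), (11, 1), (14, 1), (57, 5)]),
    (0, 1, [(-162, 115), (-65, 46), (-113, 80), (-24, 17), (-31, 22), (-7, 5)]),
    (0, 1, [(-147, 115), (-59, 46), (-78, 61), (-32, 25), (-179, 140), (-9, 7), (-109, 85), (-101, 79)]),
    (0, 1, [(-132, 115), (-53, 46), (-31, 27), (-287, 250), (-178, 155), (-225, 196), (-419, 365), (-85, 74), (-201, 175), (-116, 101), (-194, 169), (-23, 20)]),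
    (0, 1, [(-117, 115), (-47, 46), (-1, 1), (-143, 140), (-48, 47), (-97, 95)]),
    (0, 1, [(-102, 115), (-41, 46), (-8, 9), (-31, 35), (-89, 100), (-65, 73), (-138, 155), (-47, 53), (-73, 82), (-49, 55)]),
    (0, 1, [(-87, 115), (-35, 46), (-3, 4), (-53, 70), (-19, 25), (-28, 37)]),
    (0, 1, [(-72, 115), (-29, 46), (-12, 19), (-22, 35), (-41, 65), (-5, 8)]),
    (0, 1, [(-57, 115), (-1, 2), (-2, 5)]),
    (0, 1, [(-42, 115), (-17, 46), (-2, 5), (-3, 8), (-24, 65), (-13, 35), (-7, 19), (-4, 11)]),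
    (0, 1, [(-27, 115), (-11, 46), (-7, 30), (-10, 43), (-11, 47), (-36, 155), (-3, 13), (-1, 5), (-13, 56), (-6, 25), (-4, 17), (-34, 145), (-15, 64), (-1, 4), (-41, 175), (-29, 125)]),
    (0, 1, [(-12, 115), (-5, 46), (-1, 9), (-11, 100), (-4, 35), (-9, 82), (-1, 8), (-3, 25), (-17, 155), (-6, 55), (-2, 17), (-8, 73), (-2, 19), (-1, 10)]),
    (0, 1, [(3, 115), (1, 46), (1, 45), (1, 44), (2, 91), (3, 130), (1, 43), (7, 320), (3, 137), (0, 1), (1, 40), (1, 38), (8, 365), (2, 85)]),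
    (0, 1, [(18, 115), (7, 46), (5, 32), (11, 70), (3, 19), (3, 20), (2, 13), (4, 25)]),
    (0, 1, [(33, 115), (13, 46), (24, 85), (2, 7)]),
    (0, 1, [(48, 115), (19, 46), (5, 12), (73, 175), (2, 5), (63, 151), (121, 290), (33, 80), (7, 17), (58, 139)]),
    (0, 1, [(63, 115), (25, 46), (17, 31), (19, 35), (6, 11), (11, 20)]),
    (0, 1, [(78, 115), (31, 46), (2, 3), (37, 55), (7, 10), (33, 49), (64, 95), (19, 28), (13, 19), (24, 35), (11, 16), (17, 25)]),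
    (0, 1, [(93, 115), (37, 46), (38, 47), (4, 5)]),
    (0, 1, [(108, 115), (43, 46), (117, 125), (29, 31), (44, 47), (61, 65), (15, 16), (187, 200), (72, 77), (173, 185), (103, 110), (46, 49)]),
    (0, 1, [(123, 115), (49, 46), (16, 15), (31, 29), (65, 61), (277, 260), (114, 107), (293, 275)]),
    (0, 1, [(6, 5), (55, 46)]),
    (0, 1, [(153, 115), (61, 46), (4, 3), (73, 55), (133, 100), (141, 106), (286, 215), (126, 95), (65, 49), (145, 109)]),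
    (0, 1, [(168, 115), (67, 46), (19, 13), (51, 35)])]
  | 4 => [(0, 1, [(0, 1), (-46, 5), (1, 0), (-10, 1), (-1, 1), (-48, 5), (-3, 5), (-19, 2), (-1, 2), (-9, 1), (-47, 5), (-2, 5)]),
    (0, 1, [(-33, 23), (-167, 115), (-36, 25), (-10, 7), (-45, 31), (-23, 16), (-29, 20), (-3, 2), (-7, 5), (-79, 55)]),
    (0, 1, [(-30, 23), (-152, 115), (-4, 3), (-53, 40), (-7, 5), (-45, 34), (-13, 10), (-86, 65), (-5, 4), (-6, 5), (-33, 25), (-37, 28), (-1, 1), (-41, 31)]),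
    (0, 1, [(-27, 23), (-137, 115), (-7, 6), (-29, 25), (-76, 65), (-15, 13), (-6, 5), (-56, 47), (-23, 20), (-55, 47), (-117, 100), (-62, 53), (-41, 35), (-8, 7)]),
    (0, 1, [(-24, 23), (-122, 115), (-26, 25), (-17, 16), (-69, 65), (-53, 50), (-18, 17), (-37, 35), (-52, 49), (-1, 1)]),
    (0, 1, [(-21, 23), (-107, 115), (-14, 15), (-41, 44), (-1, 1), (-177, 190), (-27, 29), (-32, 35), (-68, 73), (-10, 11), (-9, 10), (-163, 175)]),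
    (0, 1, [(-18, 23), (-4, 5)]),
    (0, 1, [(-15, 23), (-77, 115), (-2, 3), (-13, 20)]),
    (0, 1, [(-12, 23), (-62, 115), (-13, 25), (-11, 20), (-6, 11), (-19, 35), (-1, 2), (-7, 13)]),
    (0, 1, [(-9, 23), (-47, 115), (-2, 5), (-9, 22)]),
    (0, 1, [(-6, 23), (-32, 115), (-3, 10), (-1, 4), (-2, 7), (-17, 61), (-39, 140), (-13, 50), (-22, 79), (-7, 25)]),
    (0, 1, [(-3, 23), (-17, 115), (-2, 15), (-5, 38), (-1, 7), (-21, 160), (-9, 61), (-8, 61), (-14, 95), (-3, 20), (-19, 145), (-5, 34), (-1, 5)]),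
    (0, 1, [(0, 1), (-2, 115)]),
    (0, 1, [(3, 23), (13, 115), (9, 70), (1, 8), (4, 31), (2, 17), (3, 25), (6, 53), (11, 85), (4, 35)]),
    (0, 1, [(6, 23), (28, 115), (13, 50), (17, 70), (9, 37), (1, 4)]),
    (0, 1, [(9, 23), (43, 115), (2, 5), (3, 8)]),
    (0, 1, [(12, 23), (58, 115), (13, 25), (1, 2)]),
    (0, 1, [(15, 23), (73, 115), (2, 3), (7, 10), (23, 35), (3, 4), (3, 5), (7, 11), (4, 5), (13, 20), (17, 26), (36, 55), (19, 29), (1, 1)]),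
    (0, 1, [(18, 23), (88, 115), (4, 5), (3, 4), (19, 25), (13, 17)]),
    (0, 1, [(21, 23), (103, 115), (32, 35), (9, 10), (10, 11), (17, 19)]),
    (0, 1, [(24, 23), (118, 115), (39, 38), (26, 25), (41, 40), (1, 1)]),
    (0, 1, [(27, 23), (133, 115), (7, 6), (41, 35), (64, 55), (81, 70), (37, 32), (22, 19), (43, 37), (93, 80), (50, 43), (29, 25)]),
    (0, 1, [(30, 23), (148, 115), (13, 10), (9, 7)]),
    (0, 1, [(33, 23), (163, 115), (43, 30), (76, 53), (53, 37), (17, 12), (92, 65), (294, 205), (109, 76), (136, 95), (63, 44), (41, 29), (99, 70), (179, 125), (58, 41), (251, 175), (10, 7), (7, 5)])]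
  | 5 => [(0, 1, [(-46, 5), (-23, 2), (1, 0), (-13, 1), (-10, 1), (-63, 5), (-48, 5), (-12, 1), (-58, 5), (-25, 2), (-19, 2), (-9, 1), (-62, 5), (-47, 5)]),
    (0, 1, [(-167, 115), (-67, 46), (-45, 31), (-16, 11), (-51, 35), (-29, 20)]),
    (0, 1, [(-152, 115), (-61, 46), (-45, 34), (-53, 40), (-86, 65), (-33, 25), (-37, 28), (-41, 31)]),
    (0, 1, [(-137, 115), (-55, 46), (-6, 5), (-56, 47)]),
    (0, 1, [(-122, 115), (-49, 46), (-16, 15), (-1, 1), (-17, 16), (-69, 65), (-53, 50), (-18, 17), (-37, 35), (-52, 49)]),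
    (0, 1, [(-107, 115), (-43, 46), (-14, 15), (-41, 44), (-177, 190), (-27, 29), (-68, 73), (-163, 175)]),
    (0, 1, [(-4, 5), (-37, 46)]),
    (0, 1, [(-77, 115), (-31, 46), (-2, 3), (-17, 25), (-21, 31), (-27, 40), (-44, 65), (-23, 34), (-64, 95)]),
    (0, 1, [(-62, 115), (-25, 46), (-7, 13), (-19, 35)]),
    (0, 1, [(-47, 115), (-19, 46), (-33, 80), (-7, 17), (-2, 5), (-9, 22)]),
    (0, 1, [(-32, 115), (-13, 46), (-17, 61), (-39, 140), (-24, 85), (-22, 79), (-2, 7), (-7, 25)]),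
    (0, 1, [(-17, 115), (-7, 46), (-3, 20), (-9, 61), (-14, 95), (-5, 34)]),
    (0, 1, [(-2, 115), (-1, 46), (-3, 140), (0, 1), (-1, 47), (-2, 95)]),
    (0, 1, [(13, 115), (5, 46), (3, 28), (1, 10), (7, 65), (2, 17), (3, 25), (1, 8), (6, 53), (6, 55), (4, 37), (4, 35)]),
    (0, 1, [(28, 115), (11, 46), (1, 4), (6, 25), (17, 70), (9, 37)]),
    (0, 1, [(43, 115), (17, 46), (13, 35), (3, 8), (7, 19), (24, 65)]),
    (0, 1, [(58, 115), (1, 2), (1, 0), (-1, 1), (2, 1), (-3, 5), (0, 1), (2, 5), (-1, 2), (7, 5), (3, 2), (3, 5), (8, 5), (-2, 5), (1, 1)]),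
    (0, 1, [(73, 115), (29, 46), (3, 5), (7, 11), (5, 8), (12, 19), (41, 65), (22, 35)]),
    (0, 1, [(88, 115), (35, 46), (19, 25), (13, 17)]),
    (0, 1, [(103, 115), (41, 46), (33, 37), (49, 55), (58, 65), (9, 10), (17, 19), (25, 28)]),
    (0, 1, [(118, 115), (47, 46), (97, 95), (48, 47), (39, 38), (143, 140), (41, 40), (1, 1)]),
    (0, 1, [(133, 115), (53, 46), (7, 6), (41, 35), (64, 55), (27, 23), (6, 5), (8, 7), (81, 70), (37, 32), (47, 40), (22, 19), (43, 37), (93, 80), (50, 43), (20, 17), (29, 25), (23, 20)]),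
    (0, 1, [(148, 115), (59, 46), (9, 7), (109, 85)]),
    (0, 1, [(163, 115), (65, 46), (17, 12), (92, 65), (7, 5), (24, 17), (41, 29), (99, 70), (58, 41), (113, 80)])]
  | 6 => [(0, 1, [(23, 2), (46, 5), (1, 0), (8, 1), (11, 1), (42, 5), (57, 5), (17, 2), (9, 1), (43, 5)]),
    (0, 1, [(-65, 46), (-163, 115), (-17, 12), (-7, 5), (-248, 175), (-113, 80), (-24, 17), (-197, 139), (-411, 290), (-214, 151)]),
    (0, 1, [(-59, 46), (-148, 115), (-9, 7), (-109, 85), (-5, 4), (-13, 10)]),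
    (0, 1, [(-53, 46), (-133, 115), (-15, 13), (-29, 25), (-23, 20), (-81, 70), (-22, 19), (-37, 32)]),
    (0, 1, [(-47, 46), (-118, 115), (-39, 38), (-41, 40), (-143, 140), (-48, 47), (-97, 95), (-1, 1)]),
    (0, 1, [(-41, 46), (-103, 115), (-8, 9), (-31, 35), (-89, 100), (-15, 17), (-22, 25), (-17, 19), (-9, 10), (-65, 73), (-138, 155), (-73, 82), (-7, 8), (-49, 55)]),
    (0, 1, [(-35, 46), (-88, 115), (-13, 17), (-19, 25)]),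
    (0, 1, [(-29, 46), (-73, 115), (-12, 19), (-22, 35), (-41, 65), (-3, 5), (-5, 8), (-7, 11)]),
    (0, 1, [(-1, 2), (-58, 115)]),
    (0, 1, [(-17, 46), (-43, 115), (-24, 65), (-3, 8), (-13, 35), (-7, 19)]),
    (0, 1, [(-11, 46), (-28, 115), (-6, 25), (-9, 37), (-1, 4), (-17, 70)]),
    (0, 1, [(-5, 46), (-13, 115), (-1, 9), (-11, 100), (-4, 35), (-9, 82), (-6, 53), (-17, 155), (-6, 55), (-8, 73)]),
    (0, 1, [(1, 46), (2, 115), (1, 45), (1, 44), (2, 91), (3, 130), (1, 43), (7, 320), (3, 137), (8, 365), (0, 1), (2, 85)]),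
    (0, 1, [(7, 46), (17, 115), (4, 27), (23, 155), (37, 250), (15, 101), (26, 175), (25, 169), (54, 365), (29, 196), (3, 20), (11, 74)]),
    (0, 1, [(13, 46), (32, 115), (24, 85), (2, 7), (22, 79), (39, 140), (17, 61), (7, 25)]),
    (0, 1, [(19, 46), (47, 115), (9, 22), (33, 80), (7, 17), (2, 5)]),
    (0, 1, [(25, 46), (62, 115), (19, 35), (7, 13)]),
    (0, 1, [(31, 46), (77, 115), (2, 3), (67, 100), (37, 55), (33, 49), (64, 95), (73, 109), (144, 215), (71, 106)]),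
    (0, 1, [(37, 46), (4, 5)]),
    (0, 1, [(43, 46), (107, 115), (14, 15), (29, 31), (13, 14), (93, 100), (40, 43), (187, 200), (72, 77), (173, 185)]),
    (0, 1, [(49, 46), (122, 115), (16, 15), (17, 16), (65, 61), (52, 49), (69, 65), (277, 260), (114, 107), (293, 275)]),
    (0, 1, [(55, 46), (137, 115), (6, 5), (56, 47)]),
    (0, 1, [(61, 46), (152, 115), (4, 3), (13, 10), (73, 55), (21, 16), (46, 35), (37, 28), (33, 25), (126, 95), (65, 49), (25, 19)]),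
    (0, 1, [(67, 46), (167, 115), (51, 35), (16, 11), (45, 31), (29, 20)])]
  | 7 => [(0, 1, [(161, 5), (23, 1), (1, 0), (32, 1)]),
    (0, 1, [(-158, 115), (-32, 23), (-11, 8), (-7, 5)]),
    (0, 1, [(-143, 115), (-29, 23), (-63, 50), (-87, 70), (-46, 37), (-5, 4)]),
    (0, 1, [(-128, 115), (-26, 23), (-17, 15), (-25, 22), (-9, 8), (-11, 10), (-39, 35), (-59, 53), (-28, 25), (-74, 65), (-33, 29), (-6, 5), (-1, 1), (-91, 80), (-8, 7), (-19, 17)]),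
    (0, 1, [(-113, 115), (-1, 1)]),
    (0, 1, [(-98, 115), (-20, 23), (-13, 15), (-19, 22), (-69, 80), (-25, 29), (-17, 20), (-6, 7), (-29, 34), (-81, 95), (-52, 61), (-56, 65)]),
    (0, 1, [(-83, 115), (-17, 23), (-57, 79), (-3, 4), (-37, 50), (-5, 7), (-18, 25), (-101, 140), (-7, 10), (-44, 61)]),
    (0, 1, [(-68, 115), (-14, 23), (-3, 5), (-13, 22)]),
    (0, 1, [(-53, 115), (-11, 23), (-6, 13), (-16, 35), (-1, 2), (-12, 25), (-9, 20), (-5, 11)]),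
    (0, 1, [(-38, 115), (-8, 23), (-1, 3), (-7, 20)]),
    (0, 1, [(-1, 5), (-5, 23)]),
    (0, 1, [(-8, 115), (-2, 23), (-1, 15), (-1, 16), (-2, 29), (-3, 50), (-1, 17), (-1, 10), (0, 1), (-3, 35), (-2, 35), (-1, 11)]),
    (0, 1, [(7, 115), (1, 23), (1, 15), (1, 14), (2, 31), (3, 40), (3, 49), (1, 13), (4, 65), (7, 110), (3, 47), (0, 1), (1, 25), (8, 125), (2, 25), (1, 16)]),
    (0, 1, [(22, 115), (4, 23), (1, 6), (11, 65), (4, 25), (9, 53), (6, 35), (17, 100), (1, 7), (3, 20), (2, 13), (9, 47), (8, 47), (1, 5), (7, 40)]),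
    (0, 1, [(37, 115), (7, 23), (1, 3), (2, 5), (13, 40), (0, 1), (1, 5), (10, 31), (21, 65), (8, 25), (9, 28), (3, 10), (11, 34), (1, 4)]),
    (0, 1, [(52, 115), (10, 23), (9, 20), (1, 2), (24, 55), (7, 16), (3, 7), (2, 5), (14, 31), (11, 25)]),
    (0, 1, [(67, 115), (13, 23), (7, 12), (38, 65), (24, 41), (4, 7), (3, 5), (41, 70), (14, 25), (9, 16), (31, 55), (17, 29)]),
    (0, 1, [(82, 115), (16, 23), (5, 7), (7, 10)]),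
    (0, 1, [(97, 115), (19, 23), (5, 6), (46, 55), (29, 35), (36, 43), (67, 80), (16, 19), (21, 25), (27, 32), (31, 37), (59, 70), (17, 20), (11, 13)]),
    (0, 1, [(112, 115), (22, 23), (24, 25), (39, 40), (37, 38), (1, 1)]),
    (0, 1, [(127, 115), (25, 23), (12, 11), (38, 35), (21, 19), (11, 10)]),
    (0, 1, [(142, 115), (28, 23), (37, 30), (58, 47), (53, 43), (216, 175), (6, 5), (79, 64), (154, 125), (69, 56), (21, 17), (191, 155), (179, 145), (16, 13), (67, 55)]),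
    (0, 1, [(157, 115), (31, 23), (4, 3), (47, 35), (13, 10), (39, 29), (15, 11), (74, 55), (1, 1), (6, 5), (5, 4), (27, 20), (35, 26), (7, 5), (11, 8)]),
    (0, 1, [(172, 115), (34, 23), (3, 2), (37, 25)])]
  | 8 => [(0, 1, [(46, 1), (184, 5), (1, 0), (38, 1), (47, 1), (187, 5), (75, 2), (232, 5), (93, 2), (188, 5), (233, 5), (37, 1)]),
    (0, 1, [(-31, 23), (-157, 115), (-34, 25), (-15, 11), (-27, 20), (-19, 14)]),
    (0, 1, [(-28, 23), (-142, 115), (-5, 4), (-6, 5), (-21, 17), (-31, 25)]),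
    (0, 1, [(-25, 23), (-127, 115), (-12, 11), (-11, 10), (-21, 19), (-38, 35)]),
    (0, 1, [(-22, 23), (-112, 115), (-24, 25), (-1, 1), (-39, 40), (-37, 38)]),
    (0, 1, [(-19, 23), (-97, 115), (-6, 7), (-4, 5), (-27, 32), (-59, 70), (-17, 20), (-33, 40), (-21, 25), (-16, 19), (-14, 17), (-11, 13)]),
    (0, 1, [(-16, 23), (-82, 115), (-5, 7), (-7, 10)]),
    (0, 1, [(-13, 23), (-67, 115), (-18, 31), (-32, 55), (-29, 50), (-31, 55), (-9, 16), (-53, 91), (-99, 170), (-3, 5), (-4, 7), (-14, 25), (-46, 79), (-11, 19)]),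
    (0, 1, [(-10, 23), (-52, 115), (-13, 30), (-16, 37), (-23, 53), (-54, 125), (-19, 44), (-2, 5), (-3, 7), (-14, 31), (-9, 20), (-76, 175), (-33, 76), (-89, 205), (-41, 95), (-1, 2)]),
    (0, 1, [(-7, 23), (-37, 115), (-6, 19), (-8, 25), (-11, 35), (-3, 10), (-9, 28), (-5, 16)]),
    (0, 1, [(-4, 23), (-22, 115), (-3, 17), (-1, 5), (-9, 47), (-7, 40)]),
    (0, 1, [(-1, 23), (-7, 115), (-2, 33), (-13, 215), (-17, 280), (-9, 149), (-1, 17), (-3, 50), (-16, 265), (-1, 25), (0, 1), (-11, 181), (-24, 395), (-13, 214), (-2, 35), (-7, 116)]),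
    (0, 1, [(2, 23), (8, 115), (3, 40), (1, 14), (3, 35), (1, 11), (1, 13), (3, 43), (0, 1), (1, 10), (7, 100), (2, 25)]),
    (0, 1, [(5, 23), (1, 5)]),
    (0, 1, [(8, 23), (38, 115), (1, 3), (2, 5), (43, 130), (5, 14), (9, 25), (40, 121), (81, 245), (4, 11), (41, 124), (7, 20)]),
    (0, 1, [(11, 23), (53, 115), (9, 20), (1, 2), (5, 11), (12, 25), (6, 13), (16, 35)]),
    (0, 1, [(14, 23), (68, 115), (13, 22), (3, 5)]),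
    (0, 1, [(17, 23), (83, 115), (13, 18), (47, 65), (148, 205), (3, 4), (7, 10), (21, 29), (29, 40), (109, 151), (231, 320), (18, 25), (5, 7), (122, 169), (37, 50), (8, 11)]),
    (0, 1, [(20, 23), (98, 115), (9, 10), (7, 8), (1, 1), (52, 61), (81, 95), (74, 85), (27, 31), (6, 7), (17, 20), (29, 34), (61, 70), (4, 5)]),
    (0, 1, [(1, 1), (113, 115)]),
    (0, 1, [(26, 23), (128, 115), (17, 15), (8, 7), (43, 38), (10, 9), (89, 80), (61, 55), (6, 5), (69, 62), (1, 1), (31, 28), (72, 65), (164, 145), (69, 61), (41, 37), (181, 160), (11, 10)]),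
    (0, 1, [(29, 23), (143, 115), (63, 50), (5, 4), (87, 70), (46, 37), (7, 5), (1, 1)]),
    (0, 1, [(32, 23), (158, 115), (11, 8), (7, 5)]),
    (0, 1, [(35, 23), (173, 115), (38, 25), (3, 2)])]

private theorem c0 : ChkW 3 3 23 11 1 0 (-1) 1 (kk 0) (tcT (T23T 0) (cc 0)) := by
  decide +kernel

private theorem c1 : ChkW 3 3 23 11 (-3) 5 (-1) 1 (kk 1) (tcT (T23T 1) (cc 1)) := by
  decide +kernel

private theorem c2 : ChkW 3 3 23 11 (-1) 2 (-3) 5 (kk 2) (tcT (T23T 2) (cc 2)) := by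
  decide +kernel

private theorem c3 : ChkW 3 3 23 11 3 5 1 2 (kk 3) (tcT (T23T 3) (cc 3)) := by
  decide +kernel

private theorem c4 : ChkW 3 3 23 11 0 1 (-2) 5 (kk 4) (tcT (T23T 4) (cc 4)) := by
  decide +kernel

private theorem c5 : ChkW 3 3 23 11 (-2) 5 (-1) 2 (kk 5) (tcT (T23T 5) (cc 5)) := by
  decide +kernel

private theorem c6 : ChkW 3 3 23 11 1 2 2 5 (kk 6) (tcT (T23T 6) (cc 6)) := by
  decide +kernel

private theorem c7 : ChkW 3 3 23 11 7 5 1 1 (kk 7) (tcT (T23T 7) (cc 7)) := by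
  decide +kernel

private theorem c8 : ChkW 3 3 23 11 2 1 8 5 (kk 8) (tcT (T23T 8) (cc 8)) := by
  decide +kernel

/-- HK23. -/
theorem hHk23 (hf : THkF) (ht : TTre) (hm : S3Trm) : THk 23 T23T := by
  intro r s G hG i
  have h0 : Nat.Prime 23 := by norm_num
  fin_cases i
  · exact row3 hf ht hm 23 h0 (by norm_num) (by norm_num) 11 (T23T 0) _ _ _ _ (by decide) (by decide) _ _
      c0 r s G hG
  · exact row3 hf ht hm 23 h0 (by norm_num) (by norm_num) 11 (T23T 1) _ _ _ _ (by decide) (by decide) _ _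
      c1 r s G hG
  · exact row3 hf ht hm 23 h0 (by norm_num) (by norm_num) 11 (T23T 2) _ _ _ _ (by decide) (by decide) _ _
      c2 r s G hG
  · exact row3 hf ht hm 23 h0 (by norm_num) (by norm_num) 11 (T23T 3) _ _ _ _ (by decide) (by decide) _ _
      c3 r s G hG
  · exact row3 hf ht hm 23 h0 (by norm_num) (by norm_num) 11 (T23T 4) _ _ _ _ (by decide) (by decide) _ _
      c4 r s G hG
  · exact row3 hf ht hm 23 h0 (by norm_num) (by norm_num) 11 (T23T 5) _ _ _ _ (by decide) (by decide) _ _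
      c5 r s G hG
  · exact row3 hf ht hm 23 h0 (by norm_num) (by norm_num) 11 (T23T 6) _ _ _ _ (by decide) (by decide) _ _
      c6 r s G hG
  · exact row3 hf ht hm 23 h0 (by norm_num) (by norm_num) 11 (T23T 7) _ _ _ _ (by decide) (by decide) _ _
      c7 r s G hG
  · exact row3 hf ht hm 23 h0 (by norm_num) (by norm_num) 11 (T23T 8) _ _ _ _ (by decide) (by decide) _ _
      c8 r s G hG

end Pool.Agent.Helper93.T53
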