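import Pool.Agent.Helper93.T53.M_Edg
import Pool.Agent.Helper93.T53.M_CertA
import Pool.Agent.Helper93.T53.M_CertV0
import Pool.Agent.Helper93.T53.M_CertV1
import Pool.Agent.Helper93.T53.M_CertV2
import Pool.Agent.Helper93.T53.M_CertV3
import Pool.Agent.Helper93.T53.M_CertV4
import Pool.Agent.Helper93.T53.M_CertV5
import Pool.Agent.Helper93.T53.M_CertV6
import Pool.Agent.Helper93.T53.M_CertV7
import Pool.Agent.Helper93.T53.M_CertV8
import Pool.Agent.Helper93.T53.M_Hk2
import Pool.Agent.Helper93.T53.M_Hk7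
import Pool.Agent.Helper93.T53.M_Hk11
import Pool.Agent.Helper93.T53.M_Hk13
import Pool.Agent.Helper93.T53.M_Hk17
import Pool.Agent.Helper93.T53.M_Hk19
import Pool.Agent.Helper93.T53.M_Hk23
import Pool.Agent.Helper94.T53.M_Tre
import Pool.Agent.Helper7.T53.M_Rel
import Pool.Agent.Helper31.T53.M_ExA
import Pool.Agent.Helper10.T53.M_ExB
import Pool.Agent.Helper85.T53.M_Uni
import Pool.Agent.Helper9.T53.M_HkB
import Pool.Agent.Helper66.T53.M_HkF
import Pool.Agent.Helper26.T53.M_Rll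
import Pool.Agent.Helper72.T53.M_Spl
import Pool.Agent.Helper44.T53.M_LdU
import Pool.Agent.Helper42.T53.M_LdV
import Pool.Agent.Helper45.T53.M_LdP
import Pool.Agent.Helper36.T53.M_Lwt
import Pool.Agent.Helper25.T53.M_Sur
import Pool.Agent.Helper60.T53.M_Led
import Pool.Agent.Helper41.T53.M_Leo
import Pool.Agent.Helper73.T53.M_Itr
import Pool.Agent.Helper22.T53.M_Tri
import Pool.Agent.Helper40.T53.M_Lifp
import Pool.Agent.Helper89.T53.M_Lif
import Pool.Agent.Helper56.T53.M_Unb
import Pool.Agent.Helper86.T53.M_Cnt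
import Pool.Agent.Helper2.T53.M_LBof
import Pool.Agent.Helper83.T5C.Asm
import Pool.Agent.Helper38.CV.M_Far
import Pool.Agent.Helper55.CV.M_Fex
import Pool.Agent.Helper98.W3.M_PlA
import Pool.Agent.Helper78.W3.M_Trm
import Pool.Agent.Helper29.W3.M_Low0
import Pool.Agent.Helper86.W3.M_Prd
import Pool.Agent.Helper16.W3.M_SubA
import Pool.Agent.Helper25.W3.M_SubB
import Pool.Agent.Helper6.W3.M_Nf
import Pool.Agent.Helper24.W3.M_Exp
import Pool.Agent.Helper37.W3.M_Lw1
import Pool.Agent.Helper99.W3.M_Bb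

/-!
# The lower bound for levels `5·3^n`, `W_5 = +1`
-/

set_option autoImplicit false

namespace Pool.Agent.Helper93.T53

open Pool.Agent.Helper78.W3 (S3PlA S3Trm S3Low0 S3Nf S3Exp S3Lw1 S3Bb)
open Pool.Agent.Helper83.T5C (LBH)

theorem plT : TPlT := hPlT Pool.Agent.Helper98.W3.hPlA

theorem trm : S3Trm := Pool.Agent.Helper78.W3.hTrm

theorem edgT : TEdg := hEdg0 plT

theorem treT : TTre := Pool.Agent.Helper94.T53.hTre edgT plT

theorem relT' : TRel := Pool.Agent.Helper7.T53.hRel treT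

theorem exT : TEx := hEx (Pool.Agent.Helper31.T53.hExA trm)
  (Pool.Agent.Helper10.T53.hExB plT Pool.Agent.Helper55.CV.hFex Pool.Agent.Helper38.CV.hFar)

theorem uniT : TUni := Pool.Agent.Helper85.T53.hUni edgT plT Pool.Agent.Helper38.CV.hFar

theorem solT' : TSol := Pool.Agent.Helper26.T53.hSol trm

theorem lifpT : TLifp := Pool.Agent.Helper40.T53.hLifp trm solT'

theorem lifT : TLif := Pool.Agent.Helper89.T53.hLif relT' lifpT exT uniT

theorem hkBT : THkB :=
  Pool.Agent.Helper9.T53.hHkB Pool.Agent.Helper83.T5C.hkQ Pool.Agent.Helper83.T5C.hksQ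

theorem hkFT : THkF := Pool.Agent.Helper66.T53.hHkF hkBT plT

theorem ceV : ∀ i : Fin 9, TCeV i := by
  intro i
  fin_cases i
  · exact hCeV0
  · exact hCeV1
  · exact hCeV2
  · exact hCeV3
  · exact hCeV4
  · exact hCeV5
  · exact hCeV6
  · exact hCeV7
  · exact hCeV8

theorem triT : TTri := by
  have low0 := Pool.Agent.Helper29.W3.hLow0
  have prd := Pool.Agent.Helper86.W3.hPrd low0
  have subA := Pool.Agent.Helper16.W3.hSubA low0 prd
  have subB := Pool.Agent.Helper25.W3.hSubB low0 prd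
  have nf := Pool.Agent.Helper6.W3.hNf low0 subA subB
  have exp := Pool.Agent.Helper24.W3.hExp low0 nf
  have lw1 := Pool.Agent.Helper37.W3.hLw1 low0 nf exp
  have bb := Pool.Agent.Helper99.W3.hBb low0
  have lwt := Pool.Agent.Helper36.T53.hLwt trm low0 nf lw1 bb
  have rll := Pool.Agent.Helper26.T53.hRll trm
  have spl := Pool.Agent.Helper72.T53.hSpl trm
  have hk2 := hHk2 hkFT treT trm
  have hk7 := hHk7 hkFT treT trm
  have hk11 := hHk11 hkFT treT trm
  have hk13 := hHk13 hkFT treT trm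
  have hk17 := hHk17 hkFT treT trm
  have hk19 := hHk19 hkFT treT trm
  have hk23 := hHk23 hkFT treT trm
  have ldU := Pool.Agent.Helper44.T53.hLdU trm low0 exp lw1 spl rll hCeG hCeU
  have ldV := Pool.Agent.Helper42.T53.hLdV trm low0 exp lw1 spl rll hCeG ceV
  have ldP := Pool.Agent.Helper45.T53.hLdP trm low0 exp lw1 spl rll hCeG hCeP
  have sur := Pool.Agent.Helper25.T53.hSur trm low0 lw1 lwt bb
  have led := Pool.Agent.Helper60.T53.hLed trm low0 lw1 lwt bb solT' sur
  have leo := Pool.Agent.Helper41.T53.hLeo trm low0 lw1 lwt bb solT' sur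
  have itr := Pool.Agent.Helper73.T53.hItr relT' hkBT hk2 hk7 hk11 hk13 hk17 hk19 hk23 trm low0
    hCeG ldU ldV ldP
  exact Pool.Agent.Helper22.T53.hTri low0 bb led leo exT itr

theorem cntT : TCnt := Pool.Agent.Helper86.T53.hCnt

/-- The lower bound for levels `5·3^n`. -/
theorem lb53 : LBH 3 2 dd5 :=
  Pool.Agent.Helper2.T53.hLBof triT lifT Pool.Agent.Helper56.T53.hUnb cntT

end Pool.Agent.Helper93.T53
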