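import Pool.Agent.Helper28.T5.Defs
import Pool.Agent.Helper78.W3.StC

/-!
# Levels `5·3^n`, `W_5 = +1`: values of symbols on paths

As `Helper93/TH3/Edge.lean` (levels `2·3^n`) with the type `HTy` of `Helper28/T5/Defs.lean` (determinant one with `5 ∣ c`, or determinant five with `5 ∣ a, c, d`). The plane is the balanced one of project W3 (`μ = 1`); the standard matrix of `(x, y)` is `(1, 3X; 3Y, 1 + 9XY)` with
`X = x.val` and `Y = yT x y` divisible by `5`, so that it has type `HTy`.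
-/

set_option autoImplicit false

namespace Pool.Agent.Helper93.T53

open Pool.Agent.Helper78.W3 (rY3 Pl3 S3PlA)
open Pool.Agent.Helper28.T5 (HTy SymH)

/-- The dimension of the new symbols of level `5·3^n` (`W = -1`, `* = +1`), `n ≥ 3`: `3, 7, 21, 57, ...`. -/
def dd5 (n : ℕ) : ℕ :=
  if n % 2 = 1 then 2 * 9 ^ (n / 2 - 1) + 3 ^ (n / 2 - 1) else 6 * 9 ^ (n / 2 - 2) + 3 ^ (n / 2 - 2)

/-- The matrix `(a, 3b; 3c, d)` has type `HTy` (determinant one with `5 ∣ c`, or determinant five with `5 ∣ a, c, d`) and plane coordinates `(x, y)`, that is `b = x a` modulo `q` and `c = y d` modulo `q'`. -/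
def PlT {q q' : ℕ} (a b c d : ℤ) (x : ZMod q) (y : ZMod q') : Prop :=
  HTy a (3 * b) (3 * c) d ∧ (b : ZMod q) = x * a ∧ (c : ZMod q') = y * d

/-- The entry `Y` of the standard matrix `(1, 3X; 3Y, 1 + 9XY)`, `X = x.val`, with coordinates `(x, y)`, divisible by `5` (`q'` prime to `5`). -/
noncomputable def yT {q q' : ℕ} (x : ZMod q) (y : ZMod q') : ℤ :=
  rY3 1 x y * (1 - (q' : ℤ) ^ 4)

/-- The value of the symbol of `G` on the path from `g v` to `g u` (`u = (u1,u2)`, `v = (v1,v2)`),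
where `g` is the standard matrix with plane coordinates `(x, y)`. -/
noncomputable def edgeT {R : Type} [AddCommGroup R] {q q' : ℕ} (u1 u2 v1 v2 : ℤ)
    (G : ℤ → ℤ → R) (x : ZMod q) (y : ZMod q') : R :=
  G (u1 + 3 * (x.val : ℤ) * u2) (3 * yT x y * u1 + (1 + 9 * (x.val : ℤ) * yT x y) * u2)
  - G (v1 + 3 * (x.val : ℤ) * v2) (3 * yT x y * v1 + (1 + 9 * (x.val : ℤ) * yT x y) * v2)

/-- PLT. The standard matrix has type one of `HTy` and the right coordinates. -/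
def TPlT : Prop := ∀ (r s : ℕ) (x : ZMod (3 ^ r)) (y : ZMod (3 ^ s)),
  PlT 1 (x.val : ℤ) (yT x y) (1 + 9 * (x.val : ℤ) * yT x y) x y ∧ (5 : ℤ) ∣ yT x y

theorem hPlT (hA : S3PlA) : TPlT := by
  intro r s x y
  obtain ⟨h1, h2, h3⟩ := hA 1 r s x y
  have ev : (5 : ℤ) ∣ yT x y := by
    unfold yT
    have h : (5 : ℤ) ∣ 1 - ((3 ^ s : ℕ) : ℤ) ^ 4 := by
      have h81 : (((3 ^ s : ℕ) : ℤ)) ^ 4 = 81 ^ s := by
        push_cast
        rw [← pow_mul, mul_comm s 4, pow_mul]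
        norm_num
      rw [h81]
      have h' : (81 : ℤ) - 1 ∣ 81 ^ s - 1 ^ s := sub_dvd_pow_sub_pow _ _ _
      rw [one_pow] at h'
      have h'' : (5 : ℤ) ∣ 81 ^ s - 1 := Dvd.dvd.trans (by norm_num) h'
      have := dvd_neg.2 h''
      rwa [neg_sub] at this
    exact Dvd.dvd.mul_left h _
  have cs : ((yT x y : ℤ) : ZMod (3 ^ s)) = ((rY3 1 x y : ℤ) : ZMod (3 ^ s)) := by
    unfold yT
    push_cast
    have : ((3 : ZMod (3 ^ s)) ^ s) = 0 := by
      have h5 := ZMod.natCast_self (3 ^ s)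
      push_cast at h5
      exact h5
    rw [this]
    ring
  refine ⟨⟨Or.inl ⟨by ring, Dvd.dvd.mul_left ev _⟩, h2, ?_⟩, ev⟩
  push_cast
  rw [cs]
  push_cast at h3
  linear_combination h3

/-- EDG (from PLT). For a symbol `G` and every matrix `g = (a, 3b; 3c, d)` of type `HTy` with plane coordinates `(x, y)` the value of `G` on the path from `g v` to `g u` is `edgeT`. -/
def TEdg : Prop := ∀ (R : Type) (_ : AddCommGroup R) (r s : ℕ) (G : ℤ → ℤ → R),
  SymH 3 (r + 1) (s + 1) G → ∀ (u1 u2 v1 v2 : ℤ), (u1 ≠ 0 ∨ u2 ≠ 0) → (v1 ≠ 0 ∨ v2 ≠ 0) →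
  ∀ (x : ZMod (3 ^ r)) (y : ZMod (3 ^ s)) (a b c d : ℤ), PlT a b c d x y →
  edgeT u1 u2 v1 v2 G x y = G (a * u1 + 3 * b * u2) (3 * c * u1 + d * u2) -
    G (a * v1 + 3 * b * v2) (3 * c * v1 + d * v2)

end Pool.Agent.Helper93.T53
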