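import Pool.Agent.Helper93.T53.GenN

/-!
# Rows of Hecke operators from lists with certificates

Every term carries the number of its coset matrix and the numbers of the cusps of the two ends of its path; the check is linear in the number of terms.
-/

set_option autoImplicit false

namespace Pool.Agent.Helper93.T53

open Pool.Agent.Helper14.CV (Homog EqC act Tl)
open Pool.Agent.Helper93.TLE (T5)
open Pool.Agent.Helper28.T5 (HTy)

/-- Number of the coset, number of the cusp of the end `w`, number of the cusp of the end `z`. -/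
abbrev C3 := ℕ × ℕ × ℕ

/-- The coset matrices `(l 0; 0 1)`, `(1 j; 0 l)`, `j = n - 1 - h`. -/
def dl (l h : ℤ) : ℕ → ℤ × ℤ × ℤ
  | 0 => (l, 0, 1)
  | n + 1 => (1, (n : ℤ) - h, l)

/-- The terms of one basic path with their certificates. -/
def zf (b : B4) : List T5 → List C3 → List ((B4 × T5) × C3)
  | [], _ => []
  | t :: L, [] => ((b, t), (0, 0, 0)) :: zf b L []
  | t :: L, c :: C => ((b, t), c) :: zf b L C

theorem zf_map (b : B4) (L : List T5) (C : List C3) :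
    (zf b L C).map (fun e => e.1) = L.map fun t => (b, t) := by
  induction L generalizing C with
  | nil => simp [zf]
  | cons t L ih =>
    cases C with
    | nil => simp [zf, ih]
    | cons c C => simp [zf, ih]

/-- The vector `(x, y)` is nonzero and proportional to the nonzero vector `κ`. -/
def Prp (x y : ℤ) (κ : ℤ × ℤ) : Prop :=
  (x ≠ 0 ∨ y ≠ 0) ∧ (κ.1 ≠ 0 ∨ κ.2 ≠ 0) ∧ x * κ.2 = y * κ.1

instance (x y : ℤ) (κ : ℤ × ℤ) : Decidable (Prp x y κ) := by unfold Prp; infer_instance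

theorem Prp.eq {R : Type} {G : ℤ → ℤ → R} (hG : Homog G) {x y : ℤ} {κ : ℤ × ℤ}
    (h : Prp x y κ) : G x y = G κ.1 κ.2 := by
  obtain ⟨h1, h2, h3⟩ := h
  by_cases hx : x = 0
  · have hy : y ≠ 0 := by
      rcases h1 with h1 | h1
      · exact absurd hx h1
      · exact h1
    have hk : κ.1 = 0 := by
      rw [hx, zero_mul] at h3
      rcases mul_eq_zero.1 h3.symm with h | h
      · exact absurd h hy
      · exact h
    have hk2 : κ.2 ≠ 0 := by
      rcases h2 with h2 | h2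
      · exact absurd hk h2
      · exact h2
    have e1 : G (κ.2 * x) (κ.2 * y) = G x y := hG κ.2 x y hk2 h1
    have e2 : G (y * κ.1) (y * κ.2) = G κ.1 κ.2 := hG y κ.1 κ.2 hy h2
    rw [← e1, ← e2, hx, hk, mul_zero, mul_zero, mul_comm]
  · have hk : κ.1 ≠ 0 := by
      intro hk
      rw [hk, mul_zero] at h3
      rcases mul_eq_zero.1 h3 with h | h
      · exact hx h
      · rcases h2 with h2 | h2
        · exact h2 hk
        · exact h2 h
    have e1 : G (κ.1 * x) (κ.1 * y) = G x y := hG κ.1 x y hk h1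
    have e2 : G (x * κ.1) (x * κ.2) = G κ.1 κ.2 := hG x κ.1 κ.2 hx h2
    rw [← e1, ← e2, h3, mul_comm κ.1 x, mul_comm κ.1 y]

/-- The sum of the coefficients with index `j`. -/
def cfj (j : ℕ) : List (ℕ × ℤ × ℤ × ℤ) → ℤ
  | [] => 0
  | t :: D => if t.1 = j then t.2.1 + cfj j D else cfj j D

theorem idx_aux {R : Type} [AddCommGroup R] (g : ℕ → R) (m : ℕ) (D : List (ℕ × ℤ × ℤ × ℤ))
    (h : ∀ t ∈ D, t.1 < m) :
    (D.map fun t => t.2.1 • g t.1).sum = ∑ j ∈ Finset.range m, cfj j D • g j := by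
  induction D with
  | nil => simp [cfj]
  | cons t D ih =>
    have ih' := ih fun u hu => h u (List.mem_cons_of_mem _ hu)
    have h1 : t.1 < m := h t List.mem_cons_self
    rw [List.map_cons, List.sum_cons, ih']
    have e : ∀ j, cfj j (t :: D) • g j = (if t.1 = j then t.2.1 • g j else 0) + cfj j D • g j := by
      intro j
      show (if t.1 = j then t.2.1 + cfj j D else cfj j D) • g j = _
      by_cases hj : t.1 = j
      · rw [if_pos hj, if_pos hj, add_smul]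
      · rw [if_neg hj, if_neg hj, zero_add]
    rw [Finset.sum_congr rfl fun j _ => e j, Finset.sum_add_distrib, Finset.sum_ite_eq,
      if_pos (Finset.mem_range.2 h1)]

/-- The signed sum vanishes. -/
theorem idx_sum {R : Type} [AddCommGroup R] {G : ℤ → ℤ → R} (hG : Homog G) (κ : List (ℤ × ℤ))
    (D : List (ℕ × ℤ × ℤ × ℤ))
    (h1 : ∀ t ∈ D, t.1 < κ.length ∧ Prp t.2.2.1 t.2.2.2 (κ.getD t.1 (0, 0)))
    (h2 : ∀ j < κ.length, cfj j D = 0) :
    (D.map fun t => t.2.1 • G t.2.2.1 t.2.2.2).sum = 0 := by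
  have e : (D.map fun t => t.2.1 • G t.2.2.1 t.2.2.2) =
      D.map fun t => t.2.1 • (fun j => G (κ.getD j (0, 0)).1 (κ.getD j (0, 0)).2) t.1 := by
    refine List.map_congr_left fun t ht => ?_
    rw [(h1 t ht).2.eq hG]
  have key := idx_aux (fun j => G (κ.getD j (0, 0)).1 (κ.getD j (0, 0)).2) κ.length D
    fun t ht => (h1 t ht).1
  rw [e]
  refine key.trans ?_
  exact Finset.sum_eq_zero fun j hj => by rw [h2 j (Finset.mem_range.1 hj), zero_smul]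

/-- The cusps of a group of terms for the coset `δ`. -/
def cuspW (pb pc l : ℤ) (δ : ℤ × ℤ × ℤ) (L : List ((B4 × T5) × C3)) : List (ℕ × ℤ × ℤ × ℤ) :=
  L.flatMap fun e =>
    [(e.2.2.1, -e.1.2.1, na pb pc l δ e.1.2 * e.1.1.1 + pb * nb l δ e.1.2 * e.1.1.2.1,
        pc * nc l δ e.1.2 * e.1.1.1 + nd l δ e.1.2 * e.1.1.2.1),
      (e.2.2.2, e.1.2.1, na pb pc l δ e.1.2 * e.1.1.2.2.1 + pb * nb l δ e.1.2 * e.1.1.2.2.2,
        pc * nc l δ e.1.2 * e.1.1.2.2.1 + nd l δ e.1.2 * e.1.1.2.2.2)]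

/-- The check for one coset: `K = (index of u, index of v, cusps)`. -/
def ChkD (pb pc l : ℤ) (δ : ℤ × ℤ × ℤ) (u1 u2 v1 v2 : ℤ) (K : ℕ × ℕ × List (ℤ × ℤ))
    (L : List ((B4 × T5) × C3)) : Prop :=
  (∀ e ∈ L, mcls pb pc l δ e.1.2 ∧
    HTy (na pb pc l δ e.1.2) (pb * nb l δ e.1.2) (pc * nc l δ e.1.2) (nd l δ e.1.2)) ∧
  (∀ t ∈ (K.1, (1 : ℤ), δ.1 * u1 + pb * δ.2.1 * u2, δ.2.2 * u2) ::
      (K.2.1, -1, δ.1 * v1 + pb * δ.2.1 * v2, δ.2.2 * v2) :: cuspW pb pc l δ L,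
    t.1 < K.2.2.length ∧ Prp t.2.2.1 t.2.2.2 (K.2.2.getD t.1 (0, 0))) ∧
  ∀ j < K.2.2.length, cfj j ((K.1, (1 : ℤ), δ.1 * u1 + pb * δ.2.1 * u2, δ.2.2 * u2) ::
      (K.2.1, -1, δ.1 * v1 + pb * δ.2.1 * v2, δ.2.2 * v2) :: cuspW pb pc l δ L) = 0

instance (pb pc l : ℤ) (δ : ℤ × ℤ × ℤ) (u1 u2 v1 v2 : ℤ) (K : ℕ × ℕ × List (ℤ × ℤ))
    (L : List ((B4 × T5) × C3)) : Decidable (ChkD pb pc l δ u1 u2 v1 v2 K L) := by
  unfold ChkD; infer_instance

/-- The check. -/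
def ChkW (pb pc : ℤ) (l : ℕ) (h : ℤ) (u1 u2 v1 v2 : ℤ) (K : List (ℕ × ℕ × List (ℤ × ℤ)))
    (TC : List ((B4 × T5) × C3)) : Prop :=
  (∀ e ∈ TC, e.2.1 < l + 1) ∧
  ∀ n < l + 1, ChkD pb pc l (dl l h n) u1 u2 v1 v2 (K.getD n (0, 0, []))
    (TC.filter fun e => e.2.1 = n)

instance (pb pc : ℤ) (l : ℕ) (h : ℤ) (u1 u2 v1 v2 : ℤ) (K : List (ℕ × ℕ × List (ℤ × ℤ)))
    (TC : List ((B4 × T5) × C3)) : Decidable (ChkW pb pc l h u1 u2 v1 v2 K TC) := by
  unfold ChkW; infer_instance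

theorem lsum {R : Type} [AddCommGroup R] (f : ℕ → R) (l : ℕ) :
    ((List.range l).map f).sum = ∑ n ∈ Finset.range l, f n := by
  induction l with
  | zero => simp
  | succ l ih =>
    rw [List.range_succ, List.map_append, List.sum_append, ih, Finset.sum_range_succ]
    simp

/-- The sum over the groups. -/
theorem sum_groups {R : Type} [AddCommGroup R] (m : ℕ) (TC : List ((B4 × T5) × C3))
    (h : ∀ e ∈ TC, e.2.1 < m) (H : (B4 × T5) × C3 → R) :
    ∑ n ∈ Finset.range m, ((TC.filter fun e => e.2.1 = n).map H).sum = (TC.map H).sum := by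
  induction TC with
  | nil => simp
  | cons t L ih =>
    have ih' := ih fun u hu => h u (List.mem_cons_of_mem _ hu)
    have h1 : t.2.1 < m := h t List.mem_cons_self
    have e : ∀ n : ℕ, (((t :: L).filter fun e => e.2.1 = n).map H).sum =
        (if t.2.1 = n then H t else 0) + ((L.filter fun e => e.2.1 = n).map H).sum := by
      intro n
      by_cases hp : t.2.1 = n
      · rw [List.filter_cons_of_pos (by simpa using hp), if_pos hp, List.map_cons, List.sum_cons]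
      · rw [List.filter_cons_of_neg (by simpa using hp), if_neg hp, zero_add]
    rw [Finset.sum_congr rfl fun n _ => e n, Finset.sum_add_distrib, Finset.sum_ite_eq,
      if_pos (Finset.mem_range.2 h1), ih', List.map_cons, List.sum_cons]

section

variable {R X : Type} [AddCommGroup R]

/-- The value of the cusps of a list. -/
theorem cuspW_sum (pb pc l : ℤ) (δ : ℤ × ℤ × ℤ) (L : List ((B4 × T5) × C3)) (G : ℤ → ℤ → R) :
    ((cuspW pb pc l δ L).map fun t => t.2.1 • G t.2.2.1 t.2.2.2).sum =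
      -((L.map fun e => e.1.2.1 •
        (G (na pb pc l δ e.1.2 * e.1.1.1 + pb * nb l δ e.1.2 * e.1.1.2.1)
            (pc * nc l δ e.1.2 * e.1.1.1 + nd l δ e.1.2 * e.1.1.2.1) -
          G (na pb pc l δ e.1.2 * e.1.1.2.2.1 + pb * nb l δ e.1.2 * e.1.1.2.2.2)
            (pc * nc l δ e.1.2 * e.1.1.2.2.1 + nd l δ e.1.2 * e.1.1.2.2.2))).sum) := by
  unfold cuspW
  induction L with
  | nil => simp
  | cons t L ih =>
    simp only [List.flatMap_cons, List.map_append, List.sum_append, List.map_cons, List.map_nil,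
      List.sum_cons, List.sum_nil, ih, smul_sub, neg_smul, neg_add_rev, neg_sub]
    abel

/-- One path. -/
theorem path_rowW (pb pc l : ℤ) (tr : ℤ → ℤ → ℤ → ℤ → (X → R) → X → R)
    (E : ℤ → ℤ → ℤ → ℤ → X → R) (G : ℤ → ℤ → R) (hG : Homog G)
    (hE : ∀ x : X, ∃ s a b c d : ℤ, a * d - b * c ≠ 0 ∧ ∀ u1 u2 v1 v2 : ℤ,
      E u1 u2 v1 v2 x = s • (G (a * u1 + b * u2) (c * u1 + d * u2) -
        G (a * v1 + b * v2) (c * v1 + d * v2)))
    (hT : ∀ a b c d u1 u2 v1 v2 : ℤ, HTy a (pb * b) (pc * c) d → (u1 ≠ 0 ∨ u2 ≠ 0) →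
      (v1 ≠ 0 ∨ v2 ≠ 0) → ∀ x : X,
      E (a * u1 + pb * b * u2) (pc * c * u1 + d * u2) (a * v1 + pb * b * v2)
        (pc * c * v1 + d * v2) x = tr a b c d (E u1 u2 v1 v2) x)
    (δ : ℤ × ℤ × ℤ) (L : List ((B4 × T5) × C3)) (u1 u2 v1 v2 : ℤ)
    (K : ℕ × ℕ × List (ℤ × ℤ))
    (hn : ∀ e ∈ L, (e.1.1.1 ≠ 0 ∨ e.1.1.2.1 ≠ 0) ∧ (e.1.1.2.2.1 ≠ 0 ∨ e.1.1.2.2.2 ≠ 0))
    (hc : ChkD pb pc l δ u1 u2 v1 v2 K L) (x : X) :
    E (δ.1 * u1 + pb * δ.2.1 * u2) (δ.2.2 * u2) (δ.1 * v1 + pb * δ.2.1 * v2) (δ.2.2 * v2) x =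
      (L.map fun e =>
        e.1.2.1 • tr (na pb pc l δ e.1.2) (nb l δ e.1.2) (nc l δ e.1.2) (nd l δ e.1.2)
          (E e.1.1.1 e.1.1.2.1 e.1.1.2.2.1 e.1.1.2.2.2) x).sum := by
  obtain ⟨h0, h1, h2⟩ := hc
  obtain ⟨s, a, b, c, d, hdet, hs⟩ := hE x
  have hact : Homog (act a b c d G) := hG.act hdet
  have hz' := idx_sum hact K.2.2 _ h1 h2
  simp only [List.map_cons, List.sum_cons, one_smul, neg_one_smul] at hz'
  rw [cuspW_sum] at hz'
  have main : act a b c d G (δ.1 * u1 + pb * δ.2.1 * u2) (δ.2.2 * u2) -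
      act a b c d G (δ.1 * v1 + pb * δ.2.1 * v2) (δ.2.2 * v2) =
      (L.map fun e => e.1.2.1 •
        (act a b c d G (na pb pc l δ e.1.2 * e.1.1.1 + pb * nb l δ e.1.2 * e.1.1.2.1)
            (pc * nc l δ e.1.2 * e.1.1.1 + nd l δ e.1.2 * e.1.1.2.1) -
          act a b c d G (na pb pc l δ e.1.2 * e.1.1.2.2.1 + pb * nb l δ e.1.2 * e.1.1.2.2.2)
            (pc * nc l δ e.1.2 * e.1.1.2.2.1 + nd l δ e.1.2 * e.1.1.2.2.2))).sum := by
    rw [← sub_eq_zero, ← hz']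
    abel
  rw [hs]
  show s • (act a b c d G (δ.1 * u1 + pb * δ.2.1 * u2) (δ.2.2 * u2) -
      act a b c d G (δ.1 * v1 + pb * δ.2.1 * v2) (δ.2.2 * v2)) = _
  rw [main, List.smul_sum, List.map_map]
  congr 1
  refine List.map_congr_left fun e he => ?_
  have e1 := hT _ _ _ _ e.1.1.1 e.1.1.2.1 e.1.1.2.2.1 e.1.1.2.2.2 (h0 e he).2 (hn e he).1
    (hn e he).2 x
  rw [hs] at e1
  show s • (e.1.2.1 • _) = _
  rw [smul_comm, ← e1]
  rfl

/-- The row of `T_l` from a checked list. -/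
theorem row_of_chkW (p pb pc : ℤ) (l : ℕ) (h : ℤ) (hl : (l : ℤ) ≠ 0) (hbc : p ∣ pb * pc)
    (hpl : ¬ p ∣ (l : ℤ)) (hp1 : ¬ p ∣ 1) (hp2 : ¬ p ∣ 5)
    (tr : ℤ → ℤ → ℤ → ℤ → (X → R) → X → R)
    (htr : ∀ a b c d : ℤ, ∃ φ : X → X, ∀ (F : X → R) (x : X), tr a b c d F x = F (φ x))
    (hM : ∀ (F : X → R) (a b c d a' b' c' d' : ℤ), ¬ p ∣ a → ¬ p ∣ d → ¬ p ∣ a' → ¬ p ∣ d' →
      tr a b c d (tr a' b' c' d' F) =
        tr (a * a' + pb * pc * b * c') (a * b' + b * d') (c * a' + d * c')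
          (pb * pc * c * b' + d * d') F)
    (E : ℤ → ℤ → ℤ → ℤ → X → R) (G : ℤ → ℤ → R) (hG : Homog G)
    (hE : ∀ x : X, ∃ s a b c d : ℤ, a * d - b * c ≠ 0 ∧ ∀ u1 u2 v1 v2 : ℤ,
      E u1 u2 v1 v2 x = s • (G (a * u1 + b * u2) (c * u1 + d * u2) -
        G (a * v1 + b * v2) (c * v1 + d * v2)))
    (hT : ∀ a b c d u1 u2 v1 v2 : ℤ, HTy a (pb * b) (pc * c) d → (u1 ≠ 0 ∨ u2 ≠ 0) →
      (v1 ≠ 0 ∨ v2 ≠ 0) → ∀ x : X,
      E (a * u1 + pb * b * u2) (pc * c * u1 + d * u2) (a * v1 + pb * b * v2)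
        (pc * c * v1 + d * v2) x = tr a b c d (E u1 u2 v1 v2) x)
    (u1 u2 v1 v2 : ℤ) (K : List (ℕ × ℕ × List (ℤ × ℤ))) (TC : List ((B4 × T5) × C3))
    (hcn : ∀ e ∈ TC, (e.1.1.1 ≠ 0 ∨ e.1.1.2.1 ≠ 0) ∧ (e.1.1.2.2.1 ≠ 0 ∨ e.1.1.2.2.2 ≠ 0))
    (hc : ChkW pb pc l h u1 u2 v1 v2 K TC) (V : R) (x : X)
    (hV : V = tr 1 0 0 l (E (l * u1) u2 (l * v1) v2) x +
      (((List.range l).map fun k : ℕ => (k : ℤ) - h).map fun j => tr l (-j) 0 1
        (E (u1 + pb * j * u2) (l * u2) (v1 + pb * j * v2) (l * v2)) x).sum) :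
    V = (TC.map fun e => e.1.2.1 • tr e.1.2.2.1 e.1.2.2.2.1 e.1.2.2.2.2.1 e.1.2.2.2.2.2
      (E e.1.1.1 e.1.1.2.1 e.1.1.2.2.1 e.1.1.2.2.2) x).sum := by
  obtain ⟨hc0, hc2⟩ := hc
  have e1' : V = ∑ n ∈ Finset.range (l + 1), tr (dl l h n).2.2 (-(dl l h n).2.1) 0 (dl l h n).1
      (E ((dl l h n).1 * u1 + pb * (dl l h n).2.1 * u2) ((dl l h n).2.2 * u2)
        ((dl l h n).1 * v1 + pb * (dl l h n).2.1 * v2) ((dl l h n).2.2 * v2)) x := by
    rw [hV, Finset.sum_range_succ', add_comm, List.map_map, lsum]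
    congr 1
    · refine Finset.sum_congr rfl fun n _ => ?_
      simp only [dl, Function.comp_apply, one_mul, mul_one]
    · simp only [dl, neg_zero, zero_mul, mul_zero, add_zero, one_mul]
  have step : ∀ n ∈ Finset.range (l + 1), tr (dl l h n).2.2 (-(dl l h n).2.1) 0 (dl l h n).1
      (E ((dl l h n).1 * u1 + pb * (dl l h n).2.1 * u2) ((dl l h n).2.2 * u2)
        ((dl l h n).1 * v1 + pb * (dl l h n).2.1 * v2) ((dl l h n).2.2 * v2)) x =
      ((TC.filter fun e => e.2.1 = n).map fun e =>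
        e.1.2.1 • tr e.1.2.2.1 e.1.2.2.2.1 e.1.2.2.2.2.1 e.1.2.2.2.2.2
          (E e.1.1.1 e.1.1.2.1 e.1.1.2.2.1 e.1.1.2.2.2) x).sum := by
    intro n hn
    have hD := hc2 n (Finset.mem_range.1 hn)
    have hδ' : (¬ p ∣ (dl l h n).1 ∧ ¬ p ∣ (dl l h n).2.2) ∧ (dl l h n).1 * (dl l h n).2.2 = l := by
      cases n with
      | zero => exact ⟨⟨hpl, hp1⟩, mul_one _⟩
      | succ n => exact ⟨⟨hp1, hpl⟩, one_mul _⟩
    generalize dl l h n = δ at hD hδ' ⊢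
    obtain ⟨φ, hφ⟩ := htr δ.2.2 (-δ.2.1) 0 δ.1
    rw [hφ, path_rowW pb pc l tr E G hG hE hT δ _ _ _ _ _ _
      (fun e he => hcn e (List.mem_filter.1 he).1) hD (φ x)]
    congr 1
    refine List.map_congr_left fun e he => ?_
    obtain ⟨hcl, hdet⟩ := hD.1 e he
    obtain ⟨d1, d2, d3, d4⟩ := hcl
    obtain ⟨⟨ww, kk, ta, tb, tc, td⟩, cc⟩ := e
    simp only at d1 d2 d3 d4 hdet
    have ea : l * na pb pc l δ (kk, ta, tb, tc, td) = δ.1 * ta + pb * pc * δ.2.1 * tc :=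
      Int.mul_ediv_cancel' d1
    have eb : l * nb l δ (kk, ta, tb, tc, td) = δ.1 * tb + δ.2.1 * td := Int.mul_ediv_cancel' d2
    have ec : l * nc l δ (kk, ta, tb, tc, td) = δ.2.2 * tc := Int.mul_ediv_cancel' d3
    have ed : l * nd l δ (kk, ta, tb, tc, td) = δ.2.2 * td := Int.mul_ediv_cancel' d4
    obtain ⟨k1, hk1⟩ := hbc
    have hX : ∀ A B C D : ℤ, HTy A (pb * B) (pc * C) D → ¬ p ∣ A ∧ ¬ p ∣ D := by
      intro A B C D h
      have h3 : ∀ e : ℤ, A * D - pb * B * (pc * C) = e → ¬ p ∣ e → ¬ p ∣ A ∧ ¬ p ∣ D := by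
        intro e he hne
        have hb : pb * B * (pc * C) = p * (k1 * B * C) := by
          linear_combination B * C * hk1
        constructor
        · intro hA
          exact hne (by rw [← he, hb]; exact dvd_sub (Dvd.dvd.mul_right hA _) (Dvd.intro _ rfl))
        · intro hD
          exact hne (by rw [← he, hb]; exact dvd_sub (Dvd.dvd.mul_left hD _) (Dvd.intro _ rfl))
      rcases h with h | h
      · exact h3 1 h.1 hp1
      · exact h3 5 h.1 hp2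
    obtain ⟨ha, hd⟩ := hX _ _ _ _ hdet
    congr 1
    rw [← hφ (tr _ _ _ _ _) x, hM _ _ _ _ _ _ _ _ _ hδ'.1.2 hδ'.1.1 ha hd]
    have f1 : δ.2.2 * na pb pc l δ (kk, ta, tb, tc, td) +
        pb * pc * -δ.2.1 * nc l δ (kk, ta, tb, tc, td) = ta := by
      apply mul_left_cancel₀ hl
      linear_combination δ.2.2 * ea - pb * pc * δ.2.1 * ec + ta * hδ'.2
    have f2 : δ.2.2 * nb l δ (kk, ta, tb, tc, td) + -δ.2.1 * nd l δ (kk, ta, tb, tc, td) = tb := by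
      apply mul_left_cancel₀ hl
      linear_combination δ.2.2 * eb - δ.2.1 * ed + tb * hδ'.2
    have f3 : 0 * na pb pc l δ (kk, ta, tb, tc, td) + δ.1 * nc l δ (kk, ta, tb, tc, td) = tc := by
      apply mul_left_cancel₀ hl
      linear_combination δ.1 * ec + tc * hδ'.2
    have f4 : pb * pc * 0 * nb l δ (kk, ta, tb, tc, td) +
        δ.1 * nd l δ (kk, ta, tb, tc, td) = td := by
      apply mul_left_cancel₀ hl
      linear_combination δ.1 * ed + td * hδ'.2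
    rw [f1, f2, f3, f4]
  rw [e1', Finset.sum_congr rfl step, sum_groups _ _ hc0]

end

end Pool.Agent.Helper93.T53
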