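import Pool.Agent.Helper93.T53.StD
import Pool.Agent.Helper93.T53.GenW

/-!
# Levels `5·3^n`: the rows of the Hecke operators, general part
-/

set_option autoImplicit false
set_option maxRecDepth 100000

namespace Pool.Agent.Helper93.T53

open Pool.Agent.Helper14.CV (Homog EqC act Tl)
open Pool.Agent.Helper78.W3 (tr Fn3 Tm opL op3 S3Trm)
open Pool.Agent.Helper28.T5 (HTy SymH)

private theorem opL_apply3 (L : List Tm) {q q' : ℕ} (F : Fn3 q q') (x : ZMod q) (y : ZMod q') :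
    opL L F x y = (L.map fun t => t.1 • tr t.2.1 t.2.2.1 t.2.2.2.1 t.2.2.2.2 F x y).sum := by
  induction L with
  | nil => simp [opL]
  | cons t L ih =>
    have e : opL (t :: L) F x y = (((t.1 : ℤ) : ZMod 3) • op3 t.2.1 t.2.2.1 t.2.2.2.1 t.2.2.2.2) F x y +
        opL L F x y := by
      simp [opL]
    rw [e, ih, List.map_cons, List.sum_cons, zsmul_eq_mul]
    rfl

/-- The nine lists of a row with their basic paths and certificates. -/
def tcT (T : Fin 9 → List Tm) (C : Fin 9 → List C3) : List ((B4 × Tm) × C3) :=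
  zf (1, 0, -1, 1) (T 0) (C 0) ++ zf (-3, 5, -1, 1) (T 1) (C 1) ++
    zf (-1, 2, -3, 5) (T 2) (C 2) ++ zf (3, 5, 1, 2) (T 3) (C 3) ++
    zf (0, 1, -2, 5) (T 4) (C 4) ++ zf (-2, 5, -1, 2) (T 5) (C 5) ++
    zf (1, 2, 2, 5) (T 6) (C 6) ++ zf (7, 5, 1, 1) (T 7) (C 7) ++
    zf (2, 1, 8, 5) (T 8) (C 8)

private theorem zf_mem (b : B4) (L : List Tm) (C : List C3) :
    ∀ e ∈ zf b L C, e.1.1 = b := by
  intro e he
  have h : e.1 ∈ (zf b L C).map fun e => e.1 := List.mem_map_of_mem he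
  rw [zf_map] at h
  obtain ⟨t, _, ht⟩ := List.mem_map.1 h
  rw [← ht]

private theorem zf_sum {R : Type} [AddCommGroup R] (b : B4) (L : List Tm) (C : List C3)
    (H : B4 × Tm → R) :
    ((zf b L C).map fun e => H e.1).sum = (L.map fun t => H (b, t)).sum := by
  have h : ((zf b L C).map fun e => H e.1) = ((zf b L C).map fun e => e.1).map H := by
    rw [List.map_map]; rfl
  rw [h, zf_map, List.map_map]
  rfl

private theorem tcT_sum {R : Type} [AddCommGroup R] (T : Fin 9 → List Tm) (C : Fin 9 → List C3)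
    (H : B4 × Tm → R) :
    ((tcT T C).map fun e => H e.1).sum = ∑ f : Fin 9, ((T f).map fun t => H (bsT f, t)).sum := by
  rw [Fin.sum_univ_castSucc, Fin.sum_univ_eight]
  unfold tcT
  simp only [List.map_append, List.sum_append, zf_sum]
  rfl

private theorem tcT_ne (T : Fin 9 → List Tm) (C : Fin 9 → List C3) :
    ∀ e ∈ tcT T C, (e.1.1.1 ≠ 0 ∨ e.1.1.2.1 ≠ 0) ∧ (e.1.1.2.2.1 ≠ 0 ∨ e.1.1.2.2.2 ≠ 0) := by
  intro e he
  unfold tcT at he
  simp only [List.mem_append] at he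
  rcases he with (((((((he | he) | he) | he) | he) | he) | he) | he) | he <;>
    (rw [zf_mem _ _ _ e he]; decide)

/-- A row of `T_l` from the check. -/
theorem row3 (hf : THkF) (ht : TTre) (hm : S3Trm) (l : ℕ) (hl : l.Prime) (hl3 : l ≠ 3) (hl2 : l ≠ 5)
    (h : ℤ) (T : Fin 9 → List Tm)
    (u1 u2 v1 v2 : ℤ) (hu : u1 ≠ 0 ∨ u2 ≠ 0) (hv : v1 ≠ 0 ∨ v2 ≠ 0)
    (K : List (ℕ × ℕ × List (ℤ × ℤ))) (C : Fin 9 → List C3)
    (hc : ChkW 3 3 l h u1 u2 v1 v2 K (tcT T C))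
    (r s : ℕ) (G : ℤ → ℤ → ZMod 3) (hG : SymH 3 (r + 1) (s + 1) G) :
    (edgeT u1 u2 v1 v2 (Tl l (3 ^ (r + 1)) G) : Fn3 (3 ^ r) (3 ^ s)) =
      ∑ f : Fin 9, opL (T f) (pfT G f) := by
  funext x y
  have hl0 : (l : ℤ) ≠ 0 := by exact_mod_cast hl.ne_zero
  have hpl : ¬ (3 : ℤ) ∣ (l : ℤ) := by
    intro h
    have h' : (3 : ℕ) ∣ l := by exact_mod_cast h
    exact hl3 (((Nat.prime_dvd_prime_iff_eq Nat.prime_three hl).1 h').symm)
  have hJn : ((List.range l).map fun k : ℕ => (k : ℤ) - h).Nodup := by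
    refine List.Nodup.map ?_ List.nodup_range
    intro a b hab
    have : (a : ℤ) - h = b - h := hab
    omega
  have hF := hf (ZMod 3) inferInstance r s l G ((List.range l).map fun k : ℕ => (k : ℤ) - h).toFinset
    hl hl3 hl2 hG
    (by rw [List.toFinset_card_of_nodup hJn, List.length_map, List.length_range])
    (fun j hj j' hj' hd => by
      obtain ⟨k, hk, rfl⟩ := List.mem_map.1 (List.mem_toFinset.1 hj)
      obtain ⟨k', hk', rfl⟩ := List.mem_map.1 (List.mem_toFinset.1 hj')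
      have h1 : k < l := List.mem_range.1 hk
      have h2 : k' < l := List.mem_range.1 hk'
      have h3 : ((k : ℤ) - h) - ((k' : ℤ) - h) = 0 := by
        refine Int.eq_zero_of_abs_lt_dvd hd ?_
        rw [abs_lt]
        constructor <;> omega
      omega)
    u1 u2 v1 v2 hu hv x y
  rw [List.sum_toFinset _ hJn] at hF
  have key := row_of_chkW (R := ZMod 3) (X := ZMod (3 ^ r) × ZMod (3 ^ s)) 3 3 3 l h hl0
    (by norm_num) hpl (by norm_num) (by norm_num)
    (fun a b c d F z => tr a b c d (fun x y => F (x, y)) z.1 z.2)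
    (fun a b c d => ⟨fun z => (((b : ZMod (3 ^ r)) + d * z.1) * ((a : ZMod (3 ^ r)) + 9 * c * z.1)⁻¹,
      ((c : ZMod (3 ^ s)) + a * z.2) * ((d : ZMod (3 ^ s)) + 9 * b * z.2)⁻¹), fun F z => rfl⟩)
    (fun F a b c d a' b' c' d' ha hd ha' hd' => by
      funext z
      have h := (hm (ZMod 3) r s (fun x y => F (x, y))).1 a b c d a' b' c' d' ha hd ha' hd'
      have h9 : (3 : ℤ) * 3 = 9 := by norm_num
      rw [h9]
      exact congrFun (congrFun h z.1) z.2)
    (fun u1 u2 v1 v2 z => edgeT u1 u2 v1 v2 G z.1 z.2) G hG.1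
    (fun z => ⟨1, 1, 3 * (z.1.val : ℤ), 3 * yT z.1 z.2,
      1 + 9 * (z.1.val : ℤ) * yT z.1 z.2, by
        have : (1 : ℤ) * (1 + 9 * (z.1.val : ℤ) * yT z.1 z.2) -
          3 * (z.1.val : ℤ) * (3 * yT z.1 z.2) = 1 := by ring
        rw [this]; exact one_ne_zero,
      fun u1 u2 v1 v2 => by
        unfold edgeT
        simp only [one_mul, one_smul]⟩)
    (fun a b c d u1 u2 v1 v2 hd hu hv z =>
      ht (ZMod 3) inferInstance r s G hG a b c d u1 u2 v1 v2 hd hu hv z.1 z.2)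
    u1 u2 v1 v2 K (tcT T C) (tcT_ne T C) hc (edgeT u1 u2 v1 v2 (Tl l (3 ^ (r + 1)) G) x y) (x, y)
    (by rw [hF])
  rw [key]
  have e : (∑ f : Fin 9, opL (T f) (pfT G f)) x y = ∑ f : Fin 9, opL (T f) (pfT G f) x y := by
    rw [Finset.sum_apply, Finset.sum_apply]
  rw [e]
  refine (tcT_sum T C (fun e => e.2.1 • tr e.2.2.1 e.2.2.2.1 e.2.2.2.2.1 e.2.2.2.2.2
    (fun x y => edgeT e.1.1 e.1.2.1 e.1.2.2.1 e.1.2.2.2 G x y) x y)).trans ?_
  refine Finset.sum_congr rfl fun f _ => ?_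
  rw [opL_apply3]
  rfl

end Pool.Agent.Helper93.T53
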