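import Pool.Agent.Helper93.T53.Edge

/-!
# Project TH, levels `5·3^n`: values of symbols on paths
-/

set_option autoImplicit false

namespace Pool.Agent.Helper93.T53

open Pool.Agent.Helper14.CV (Homog EqC act Tl)
open Pool.Agent.Helper28.T5

private lemma vec_ne {X Y u1 u2 : ℤ} (hu : u1 ≠ 0 ∨ u2 ≠ 0) :
    u1 + 3 * X * u2 ≠ 0 ∨ 3 * Y * u1 + (1 + 9 * X * Y) * u2 ≠ 0 := by
  by_contra h
  push Not at h
  obtain ⟨h1, h2⟩ := h
  have e2 : u2 = 0 := by linear_combination h2 - 3 * Y * h1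
  have e1 : u1 = 0 := by rw [e2] at h1; linear_combination h1
  rcases hu with hu | hu
  · exact hu e1
  · exact hu e2

theorem hEdg0 (hp : TPlT) : TEdg := by
  intro R _ r s G hG u1 u2 v1 v2 hu0 hv0 x y a b c d hP
  obtain ⟨hT, hb, hc⟩ := hP
  obtain ⟨⟨_, _, hY⟩, hev⟩ := hp r s x y
  have hX : (((x.val : ℕ) : ℤ) : ZMod (3 ^ r)) = x := by
    rw [Int.cast_natCast, ZMod.natCast_zmod_val]
  generalize hXd : ((x.val : ℕ) : ℤ) = X at hX hY
  generalize hYd : yT x y = Y at hY hev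
  obtain ⟨y2, hy2⟩ := hev
  have hty : HTy (a * (1 + 9 * X * Y) - 9 * b * Y) (3 * (b - a * X))
      (3 * (c * (1 + 9 * X * Y) - d * Y)) (d - 9 * c * X) := by
    have hdet : (a * (1 + 9 * X * Y) - 9 * b * Y) * (d - 9 * c * X) -
        (3 * (b - a * X)) * (3 * (c * (1 + 9 * X * Y) - d * Y)) = a * d - 3 * b * (3 * c) := by ring
    rcases hT with ⟨h1, h2⟩ | ⟨h1, h2, h3, h4⟩
    · refine Or.inl ⟨by rw [hdet, h1], ?_⟩
      obtain ⟨z, hz⟩ := h2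
      exact ⟨z * (1 + 9 * X * Y) - 3 * d * y2, by rw [hy2]; linear_combination (1 + 9 * X * (5 * y2)) * hz⟩
    · refine Or.inr ⟨by rw [hdet, h1], ?_, ?_, ?_⟩
      · rw [hy2]
        exact dvd_sub (h2.mul_right _) ⟨9 * b * y2, by ring⟩
      · obtain ⟨z, hz⟩ := h3
        exact ⟨z * (1 + 9 * X * Y) - 3 * d * y2, by rw [hy2]; linear_combination (1 + 9 * X * (5 * y2)) * hz⟩
      · obtain ⟨z, hz⟩ := h3
        obtain ⟨w, hw⟩ := h4
        exact ⟨w - 3 * X * z, by linear_combination hw - 3 * X * hz⟩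
  have hβ : ((3 : ℕ) : ℤ) ^ (r + 1) ∣ 3 * (b - a * X) := by
    have h : ((b - a * X : ℤ) : ZMod (3 ^ r)) = 0 := by
      push_cast
      rw [hb, hX]
      ring
    have h' := (ZMod.intCast_zmod_eq_zero_iff_dvd (b - a * X) (3 ^ r)).1 h
    obtain ⟨z, hz⟩ := h'
    refine ⟨z, ?_⟩
    push_cast at hz ⊢
    linear_combination 3 * hz
  have hγ : ((3 : ℕ) : ℤ) ^ (s + 1) ∣ 3 * (c * (1 + 9 * X * Y) - d * Y) := by
    have h : ((c * (1 + 9 * X * Y) - d * Y : ℤ) : ZMod (3 ^ s)) = 0 := by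
      have e : ((c * (1 + 9 * X * Y) - d * Y : ℤ) : ZMod (3 ^ s)) =
          (c : ZMod (3 ^ s)) * ((1 + 9 * X * Y : ℤ) : ZMod (3 ^ s)) -
            (d : ZMod (3 ^ s)) * (Y : ZMod (3 ^ s)) := by
        push_cast
        ring
      rw [e, hY, hc]
      ring
    have h' := (ZMod.intCast_zmod_eq_zero_iff_dvd (c * (1 + 9 * X * Y) - d * Y) (3 ^ s)).1 h
    obtain ⟨z, hz⟩ := h'
    refine ⟨z, ?_⟩
    push_cast at hz ⊢
    linear_combination 3 * hz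
  obtain ⟨k, hk⟩ := hG.2 _ _ _ _ hty hβ hγ
  have key : ∀ w1 w2 : ℤ, (w1 ≠ 0 ∨ w2 ≠ 0) → G (a * w1 + 3 * b * w2) (3 * c * w1 + d * w2)
      = G (w1 + 3 * X * w2) (3 * Y * w1 + (1 + 9 * X * Y) * w2) + k := by
    intro w1 w2 hw
    have := hk _ _ (vec_ne (X := X) (Y := Y) hw)
    rw [act] at this
    rw [← this]
    congr 1 <;> ring
  rw [key u1 u2 hu0, key v1 v2 hv0, add_sub_add_right_eq_sub, edgeT, hXd, hYd]

end Pool.Agent.Helper93.T53
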