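import Pool.Agent.Helper93.T53.HkG

/-!
# Levels `5·3^n`: the rows of the Hecke operator `T_7`
-/

set_option autoImplicit false
set_option maxRecDepth 100000

namespace Pool.Agent.Helper93.T53

open Pool.Agent.Helper78.W3 (S3Trm)

private def cc : Fin 9 → Fin 9 → List C3
  | 0, 0 => [(0, 0, 1), (5, 0, 2), (4, 0, 2), (3, 0, 2), (2, 0, 1), (1, 0, 2), (7, 0, 2), (6, 0, 2)]
  | 0, 1 => [(5, 3, 2), (4, 3, 2), (3, 3, 2), (7, 3, 1), (6, 3, 4)]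
  | 0, 2 => [(5, 4, 3), (4, 4, 3), (5, 5, 6), (7, 4, 3), (6, 5, 3), (7, 5, 6), (6, 6, 7)]
  | 0, 3 => [(5, 7, 1), (4, 5, 6), (3, 3, 1), (7, 6, 7), (6, 7, 8)]
  | 0, 4 => [(5, 6, 8), (4, 5, 7), (5, 7, 9)]
  | 0, 5 => [(5, 8, 4), (4, 7, 4), (5, 9, 5), (6, 9, 5)]
  | 0, 6 => [(6, 1, 4), (1, 1, 3)]
  | 0, 7 => [(7, 5, 4), (6, 6, 9)]
  | 0, 8 => [(1, 3, 2), (7, 2, 7), (6, 2, 8), (4, 1, 6)]
  | 1, 0 => [(0, 2, 1), (0, 2, 3), (5, 2, 3), (5, 2, 4)]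
  | 1, 1 => [(2, 0, 1), (5, 5, 3), (5, 6, 4), (7, 0, 1), (6, 2, 3)]
  | 1, 2 => [(3, 2, 3), (5, 7, 5), (5, 8, 6), (6, 4, 2), (4, 2, 3), (3, 2, 0), (6, 5, 0)]
  | 1, 3 => [(5, 9, 1), (1, 0, 2), (4, 3, 4), (3, 3, 1), (0, 0, 3)]
  | 1, 4 => [(5, 0, 10), (5, 9, 11), (4, 0, 5)]
  | 1, 5 => [(5, 10, 7), (5, 11, 8), (4, 5, 2)]
  | 1, 6 => [(6, 1, 3), (1, 2, 3), (1, 1, 3)]
  | 1, 7 => [(6, 5, 4)]
  | 1, 8 => [(4, 1, 4)]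
  | 2, 0 => [(4, 2, 3), (4, 2, 4), (5, 2, 3), (5, 2, 4)]
  | 2, 1 => [(0, 2, 3), (1, 2, 3), (4, 5, 3), (2, 1, 2), (5, 5, 3)]
  | 2, 2 => [(0, 0, 2), (1, 4, 2), (4, 6, 5), (5, 6, 5), (7, 0, 1), (4, 7, 8), (3, 0, 1), (5, 0, 7), (6, 2, 1), (2, 3, 4), (4, 9, 10)]
  | 2, 3 => [(1, 1, 5), (5, 7, 8), (0, 1, 3), (2, 4, 5), (4, 10, 11)]
  | 2, 4 => [(4, 8, 12), (5, 1, 9), (4, 1, 13)]
  | 2, 5 => [(1, 0, 4), (4, 12, 6), (5, 9, 6), (4, 13, 7), (6, 0, 3)]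
  | 2, 6 => [(1, 5, 3)]
  | 2, 7 => [(4, 9, 0), (2, 3, 0), (6, 2, 3)]
  | 2, 8 => [(4, 4, 11), (2, 2, 5), (5, 4, 8)]
  | 3, 0 => [(0, 2, 3), (0, 2, 4), (7, 2, 3), (7, 2, 4), (5, 2, 3), (5, 2, 4)]
  | 3, 1 => [(0, 5, 3), (7, 5, 3), (5, 5, 3), (4, 2, 1), (5, 6, 7), (3, 2, 3), (7, 6, 1), (4, 0, 3), (0, 6, 7)]
  | 3, 2 => [(0, 8, 5), (7, 7, 5), (5, 8, 5), (4, 4, 2), (3, 4, 2), (7, 8, 9), (7, 10, 0), (0, 9, 0), (6, 2, 3), (0, 10, 11), (5, 9, 10)]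
  | 3, 3 => [(5, 11, 1), (7, 9, 11), (1, 0, 1), (4, 5, 6), (5, 0, 1), (2, 0, 2), (6, 3, 4), (0, 11, 12), (5, 10, 12)]
  | 3, 4 => [(0, 6, 13), (7, 6, 12), (5, 6, 13), (4, 5, 7), (3, 0, 5), (5, 11, 14), (6, 0, 5)]
  | 3, 5 => [(0, 13, 8), (7, 12, 7), (5, 13, 8), (4, 7, 4), (3, 5, 4), (7, 10, 13)]
  | 3, 6 => [(0, 1, 7), (7, 14, 1), (5, 1, 7), (2, 1, 3), (4, 3, 6), (7, 1, 14)]
  | 3, 7 => [(0, 10, 9), (7, 8, 13), (5, 9, 14), (6, 2, 5)]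
  | 3, 8 => [(0, 4, 12), (7, 4, 11), (5, 4, 12), (6, 1, 4), (3, 3, 1), (2, 3, 2)]
  | 4, 0 => [(0, 2, 3), (0, 2, 4), (1, 2, 3), (1, 2, 4)]
  | 4, 1 => [(0, 5, 3), (0, 6, 4), (2, 0, 2)]
  | 4, 2 => [(0, 7, 5), (0, 8, 6), (1, 5, 0), (3, 2, 0), (1, 6, 7), (2, 3, 4), (0, 1, 9), (5, 1, 2), (1, 8, 9)]
  | 4, 3 => [(2, 4, 5), (5, 0, 3), (7, 0, 2), (7, 3, 4), (1, 7, 10), (5, 2, 3), (1, 9, 11)]
  | 4, 4 => [(0, 9, 10), (0, 0, 11), (6, 0, 1), (4, 0, 1), (7, 3, 5)]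
  | 4, 5 => [(0, 10, 7), (0, 11, 8), (6, 1, 2), (3, 3, 2), (7, 5, 1), (6, 2, 1), (3, 3, 1)]
  | 4, 6 => [(2, 5, 2)]
  | 4, 7 => [(7, 6, 7), (1, 6, 5), (1, 8, 1), (7, 7, 6), (2, 1, 3)]
  | 4, 8 => [(7, 2, 4), (1, 3, 10), (1, 4, 11)]
  | 5, 0 => [(1, 2, 3), (1, 2, 4), (4, 2, 3), (4, 2, 4)]
  | 5, 1 => [(1, 5, 3), (4, 5, 3)]
  | 5, 2 => [(1, 6, 5), (4, 6, 5), (2, 2, 3), (7, 1, 2), (0, 0, 2), (5, 1, 2), (5, 0, 3), (1, 7, 8), (2, 4, 5), (4, 7, 8)]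
  | 5, 3 => [(2, 3, 6), (5, 3, 4), (5, 2, 5), (2, 5, 7), (1, 8, 9), (4, 8, 9)]
  | 5, 4 => [(0, 2, 3), (7, 2, 3)]
  | 5, 5 => [(0, 3, 1), (3, 1, 2), (1, 1, 6), (4, 0, 6), (3, 2, 1), (7, 3, 0), (3, 1, 0), (6, 1, 0)]
  | 5, 6 => []
  | 5, 7 => [(1, 7, 0), (4, 7, 1), (2, 4, 1), (2, 0, 2)]
  | 5, 8 => [(1, 4, 9), (4, 4, 9), (2, 6, 7), (5, 4, 5)]
  | 6, 0 => []
  | 6, 1 => [(7, 2, 1), (4, 2, 0), (1, 2, 3), (7, 3, 0), (4, 3, 1), (0, 2, 3)]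
  | 6, 2 => [(6, 2, 3), (7, 4, 2), (4, 4, 2), (3, 2, 3), (3, 4, 5), (6, 4, 5)]
  | 6, 3 => [(6, 3, 6), (1, 2, 0), (0, 2, 1), (3, 5, 0), (3, 3, 1), (6, 5, 7)]
  | 6, 4 => [(7, 3, 5), (4, 3, 5)]
  | 6, 5 => [(7, 5, 4), (4, 5, 4)]
  | 6, 6 => [(0, 0, 3), (7, 6, 0), (1, 1, 3), (5, 0, 1), (2, 0, 1), (7, 0, 6)]
  | 6, 7 => [(6, 4, 2), (3, 4, 2)]
  | 6, 8 => [(6, 0, 7), (6, 1, 6)]
  | 7, 0 => [(0, 2, 3), (0, 2, 4), (3, 2, 3), (3, 2, 4), (2, 2, 3), (2, 2, 4)]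
  | 7, 1 => [(3, 5, 3), (3, 6, 7)]
  | 7, 2 => [(3, 8, 5), (3, 1, 9), (5, 2, 3), (5, 1, 3), (3, 10, 11), (7, 2, 3), (3, 0, 6), (2, 5, 6), (7, 0, 3), (0, 5, 6), (2, 7, 8), (0, 7, 8)]
  | 7, 3 => [(3, 12, 7), (1, 2, 3), (3, 11, 13), (1, 4, 5), (2, 6, 9), (0, 6, 9), (2, 8, 10), (0, 8, 10)]
  | 7, 4 => [(3, 12, 14), (3, 9, 15), (1, 2, 1), (1, 4, 0)]
  | 7, 5 => [(3, 15, 8), (7, 1, 2), (2, 1, 11), (0, 11, 0), (5, 2, 0)]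
  | 7, 6 => [(1, 3, 5)]
  | 7, 7 => [(0, 5, 1), (0, 7, 11), (3, 10, 14), (4, 0, 1), (2, 7, 0), (2, 5, 11), (6, 0, 1)]
  | 7, 8 => [(0, 3, 9), (0, 4, 10), (3, 4, 13), (2, 3, 10), (2, 4, 9)]
  | 8, 0 => [(0, 2, 3), (0, 2, 0), (5, 2, 3), (5, 2, 1)]
  | 8, 1 => [(6, 2, 0), (6, 3, 1)]
  | 8, 2 => [(6, 4, 2), (6, 5, 3)]
  | 8, 3 => [(4, 2, 0), (2, 2, 3), (4, 3, 1), (7, 2, 3), (2, 2, 0), (7, 2, 1)]
  | 8, 4 => [(4, 2, 4), (4, 3, 5)]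
  | 8, 5 => [(4, 4, 5), (6, 4, 5)]
  | 8, 6 => [(5, 0, 3), (2, 3, 1), (7, 0, 3), (0, 3, 1)]
  | 8, 7 => []
  | 8, 8 => [(3, 0, 1), (1, 1, 0)]

private def kk : Fin 9 → List (ℕ × ℕ × List (ℤ × ℤ))
  | 0 => [(0, 1, [(1, 0), (-7, 1)]),
    (0, 1, [(1, 0), (-10, 7), (-1, 1), (-7, 5)]),
    (0, 1, [(1, 0), (-1, 1)]),
    (0, 1, [(1, 0), (-4, 7), (-1, 1), (-3, 5)]),
    (0, 1, [(1, 0), (-1, 7), (-1, 1), (-3, 5), (-1, 2), (0, 1), (-1, 5), (-2, 5)]),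
    (0, 1, [(1, 0), (2, 7), (-1, 1), (-3, 5), (-1, 2), (1, 5), (0, 1), (3, 10), (-2, 5), (1, 4)]),
    (0, 1, [(1, 0), (5, 7), (2, 1), (3, 4), (7, 10), (4, 5), (7, 5), (3, 2), (8, 5), (1, 1)]),
    (0, 1, [(1, 0), (8, 7), (2, 1), (6, 5), (1, 1), (7, 5), (3, 2), (8, 5)])]
  | 1 => [(0, 1, [(-21, 5), (-7, 1), (1, 0), (-4, 1)]),
    (0, 1, [(-48, 35), (-10, 7), (-11, 8), (-7, 5)]),
    (0, 1, [(-33, 35), (-1, 1)]),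
    (0, 1, [(-18, 35), (-4, 7), (-1, 2), (-3, 5)]),
    (0, 1, [(-3, 35), (-1, 7), (-1, 10), (0, 1), (-1, 5), (-1, 11)]),
    (0, 1, [(12, 35), (2, 7), (1, 3), (17, 50), (2, 5), (15, 44), (0, 1), (29, 85), (1, 5), (3, 10), (14, 41), (1, 4)]),
    (0, 1, [(27, 35), (5, 7), (3, 4), (7, 10), (4, 5), (10, 13)]),
    (0, 1, [(6, 5), (8, 7)])]
  | 2 => [(0, 1, [(-7, 2), (-21, 5), (-18, 5), (-4, 1)]),
    (0, 1, [(-19, 14), (-48, 35), (-15, 11), (-7, 5), (-34, 25), (-11, 8)]),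
    (0, 1, [(-13, 14), (-33, 35), (-1, 1), (-37, 40), (-12, 13), (-23, 25)]),
    (0, 1, [(-1, 2), (-18, 35)]),
    (0, 1, [(-1, 14), (-3, 35), (-1, 15), (-1, 16), (-2, 29), (-3, 50), (-1, 17), (-1, 10), (0, 1), (-7, 100), (-3, 43), (-8, 115), (-2, 35), (-1, 11)]),
    (0, 1, [(5, 14), (12, 35), (1, 3), (17, 50), (2, 5), (15, 44), (29, 85), (9, 25), (4, 11), (14, 41)]),
    (0, 1, [(11, 14), (27, 35), (10, 13), (4, 5)]),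
    (0, 1, [(17, 14), (6, 5)])]
  | 3 => [(0, 1, [(21, 5), (7, 2), (1, 0), (2, 1), (5, 1), (12, 5), (3, 1), (17, 5), (5, 2), (4, 1), (22, 5), (9, 2), (23, 5), (13, 5)]),
    (0, 1, [(-6, 5), (-17, 14)]),
    (0, 1, [(-27, 35), (-11, 14), (-10, 13), (-4, 5)]),
    (0, 1, [(-12, 35), (-5, 14), (-9, 26), (-7, 20), (-19, 55), (-10, 29)]),
    (0, 1, [(3, 35), (1, 14), (3, 40), (1, 11), (1, 13), (0, 1), (1, 10), (2, 25)]),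
    (0, 1, [(18, 35), (1, 2), (1, 0), (-1, 1), (2, 1), (-3, 5), (0, 1), (2, 5), (-1, 2), (7, 5), (3, 2), (3, 5), (8, 5), (-2, 5), (1, 1)]),
    (0, 1, [(33, 35), (13, 14), (23, 25), (12, 13), (37, 40), (1, 1)]),
    (0, 1, [(48, 35), (19, 14), (4, 3), (47, 35), (13, 10), (39, 29), (27, 20), (74, 55), (1, 1), (6, 5), (11, 8), (5, 4), (35, 26), (7, 5), (34, 25)])]
  | 4 => [(0, 1, [(0, 1), (-14, 5), (1, 0), (-4, 1), (-1, 1), (-18, 5), (-3, 5), (-7, 2), (-1, 2), (-3, 1), (-17, 5), (-2, 5)]),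
    (0, 1, [(-9, 7), (-47, 35), (-4, 3), (-7, 5), (-67, 50), (-13, 10), (-5, 4), (-6, 5), (-55, 41), (-114, 85), (-1, 1), (-59, 44)]),
    (0, 1, [(-6, 7), (-32, 35), (-4, 5), (-10, 11), (-9, 10), (-1, 1)]),
    (0, 1, [(-3, 7), (-17, 35), (-2, 5), (-1, 2)]),
    (0, 1, [(0, 1), (-2, 35)]),
    (0, 1, [(3, 7), (13, 35), (3, 8), (2, 5)]),
    (0, 1, [(6, 7), (4, 5), (1, 1)]),
    (0, 1, [(9, 7), (43, 35), (13, 10), (6, 5), (5, 4), (16, 13), (1, 1), (7, 5)])]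
  | 5 => [(0, 1, [(-14, 5), (-7, 2), (-3, 1), (-17, 5)]),
    (0, 1, [(-47, 35), (-19, 14), (-4, 3), (-7, 5), (-67, 50), (-15, 11), (-34, 25), (-55, 41), (-114, 85), (-59, 44)]),
    (0, 1, [(-32, 35), (-13, 14), (-10, 11), (-9, 10), (-37, 40), (-12, 13), (-1, 1), (-23, 25)]),
    (0, 1, [(-17, 35), (-1, 2), (-2, 5)]),
    (0, 1, [(-2, 35), (-1, 14), (-1, 15), (-1, 16), (-2, 29), (-3, 50), (-1, 17), (-7, 100), (-3, 43), (-8, 115)]),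
    (0, 1, [(13, 35), (5, 14), (9, 25), (3, 8), (2, 5), (4, 11)]),
    (0, 1, [(4, 5), (11, 14)]),
    (0, 1, [(43, 35), (17, 14), (6, 5), (16, 13)])]
  | 6 => [(0, 1, [(7, 2), (14, 5), (3, 1), (17, 5)]),
    (0, 1, [(-17, 14), (-43, 35), (-6, 5), (-16, 13)]),
    (0, 1, [(-11, 14), (-4, 5)]),
    (0, 1, [(-5, 14), (-13, 35), (-2, 5), (-3, 8), (-4, 11), (-9, 25)]),
    (0, 1, [(1, 14), (2, 35), (3, 40), (0, 1), (1, 13), (2, 25)]),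
    (0, 1, [(1, 2), (17, 35)]),
    (0, 1, [(13, 14), (32, 35), (1, 1), (9, 10), (23, 25), (12, 13), (10, 11), (37, 40)]),
    (0, 1, [(19, 14), (47, 35), (39, 29), (27, 20), (74, 55), (35, 26), (34, 25)])]
  | 7 => [(0, 1, [(49, 5), (7, 1), (1, 0), (8, 1), (11, 1), (37, 5), (15, 2), (52, 5), (21, 2), (38, 5), (53, 5), (10, 1)]),
    (0, 1, [(-38, 35), (-8, 7), (-6, 5), (-1, 1), (-12, 11), (-11, 10)]),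
    (0, 1, [(-23, 35), (-5, 7), (-2, 3), (-13, 20), (-17, 25), (-11, 16), (-24, 35), (-19, 29), (-36, 55), (-13, 19), (-17, 26), (-7, 10)]),
    (0, 1, [(-8, 35), (-2, 7), (-1, 3), (-8, 25), (-7, 20), (-6, 19), (-3, 13), (-1, 5), (-11, 35), (-3, 10), (-4, 11), (-9, 25), (0, 1), (-5, 14), (-2, 5), (-5, 16)]),
    (0, 1, [(1, 5), (1, 7)]),
    (0, 1, [(22, 35), (4, 7), (5, 8), (3, 5)]),
    (0, 1, [(37, 35), (1, 1)]),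
    (0, 1, [(52, 35), (10, 7), (7, 5), (3, 2)])]
  | 8 => [(0, 1, [(14, 1), (56, 5), (1, 0), (11, 1)]),
    (0, 1, [(-1, 1), (-37, 35)]),
    (0, 1, [(-4, 7), (-22, 35), (-3, 5), (-5, 8)]),
    (0, 1, [(-1, 7), (-1, 5)]),
    (0, 1, [(2, 7), (8, 35), (3, 10), (3, 13), (1, 4), (1, 5)]),
    (0, 1, [(5, 7), (23, 35), (2, 3), (7, 10)]),
    (0, 1, [(8, 7), (38, 35), (6, 5), (12, 11), (1, 1), (11, 10)]),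
    (0, 1, [(11, 7), (53, 35), (3, 2), (8, 5)])]

private theorem c0 : ChkW 3 3 7 3 1 0 (-1) 1 (kk 0) (tcT (T7T 0) (cc 0)) := by
  decide +kernel

private theorem c1 : ChkW 3 3 7 3 (-3) 5 (-1) 1 (kk 1) (tcT (T7T 1) (cc 1)) := by
  decide +kernel

private theorem c2 : ChkW 3 3 7 3 (-1) 2 (-3) 5 (kk 2) (tcT (T7T 2) (cc 2)) := by
  decide +kernel

private theorem c3 : ChkW 3 3 7 3 3 5 1 2 (kk 3) (tcT (T7T 3) (cc 3)) := by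
  decide +kernel

private theorem c4 : ChkW 3 3 7 3 0 1 (-2) 5 (kk 4) (tcT (T7T 4) (cc 4)) := by
  decide +kernel

private theorem c5 : ChkW 3 3 7 3 (-2) 5 (-1) 2 (kk 5) (tcT (T7T 5) (cc 5)) := by
  decide +kernel

private theorem c6 : ChkW 3 3 7 3 1 2 2 5 (kk 6) (tcT (T7T 6) (cc 6)) := by
  decide +kernel

private theorem c7 : ChkW 3 3 7 3 7 5 1 1 (kk 7) (tcT (T7T 7) (cc 7)) := by
  decide +kernel

private theorem c8 : ChkW 3 3 7 3 2 1 8 5 (kk 8) (tcT (T7T 8) (cc 8)) := by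
  decide +kernel

/-- HK7. -/
theorem hHk7 (hf : THkF) (ht : TTre) (hm : S3Trm) : THk 7 T7T := by
  intro r s G hG i
  have h0 : Nat.Prime 7 := by norm_num
  fin_cases i
  · exact row3 hf ht hm 7 h0 (by norm_num) (by norm_num) 3 (T7T 0) _ _ _ _ (by decide) (by decide) _ _
      c0 r s G hG
  · exact row3 hf ht hm 7 h0 (by norm_num) (by norm_num) 3 (T7T 1) _ _ _ _ (by decide) (by decide) _ _
      c1 r s G hG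
  · exact row3 hf ht hm 7 h0 (by norm_num) (by norm_num) 3 (T7T 2) _ _ _ _ (by decide) (by decide) _ _
      c2 r s G hG
  · exact row3 hf ht hm 7 h0 (by norm_num) (by norm_num) 3 (T7T 3) _ _ _ _ (by decide) (by decide) _ _
      c3 r s G hG
  · exact row3 hf ht hm 7 h0 (by norm_num) (by norm_num) 3 (T7T 4) _ _ _ _ (by decide) (by decide) _ _
      c4 r s G hG
  · exact row3 hf ht hm 7 h0 (by norm_num) (by norm_num) 3 (T7T 5) _ _ _ _ (by decide) (by decide) _ _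
      c5 r s G hG
  · exact row3 hf ht hm 7 h0 (by norm_num) (by norm_num) 3 (T7T 6) _ _ _ _ (by decide) (by decide) _ _
      c6 r s G hG
  · exact row3 hf ht hm 7 h0 (by norm_num) (by norm_num) 3 (T7T 7) _ _ _ _ (by decide) (by decide) _ _
      c7 r s G hG
  · exact row3 hf ht hm 7 h0 (by norm_num) (by norm_num) 3 (T7T 8) _ _ _ _ (by decide) (by decide) _ _
      c8 r s G hG

end Pool.Agent.Helper93.T53
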